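import Pool.Agent.Compl.Defs

/-! # Tensor products of matrices: operator norm, unit ball, forms -/

set_option autoImplicit false

namespace Pool.Agent.Helper91.KCA

open Pool.Agent.Compl
open scoped ComplexConjugate BigOperators

theorem sum_cons {X M : Type*} [Fintype X] [AddCommMonoid M] {m : ℕ}
    (F : (Fin (m + 1) → X) → M) :
    ∑ i, F i = ∑ x : X, ∑ i : Fin m → X, F (Fin.cons x i) := by
  rw [← Fintype.sum_prod_type']
  exact (Fintype.sum_equiv (Fin.consEquiv (fun _ => X)) _ _ (fun _ => rfl)).symm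

theorem tens_cons {X : Type*} {m : ℕ} (a : Fin (m + 1) → Matrix X X ℂ) (x y : X)
    (i j : Fin m → X) :
    tens a (Fin.cons x i) (Fin.cons y j) = a 0 x y * tens (fun l => a l.succ) i j := by
  simp [tens, Fin.prod_univ_succ]

theorem tens_opBd {X : Type*} [Fintype X] {m : ℕ} (a : Fin m → Matrix X X ℂ) (C : Fin m → ℝ)
    (h : ∀ l, OpBd (a l) (C l)) : OpBd (tens a) (∏ l, C l) := by
  induction m with
  | zero =>
    refine ⟨by simp, fun ξ => ?_⟩
    simp [tens]
  | succ m ih =>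
    have h0 := h 0
    have hN := ih (fun l => a l.succ) (fun l => C l.succ) (fun l => h l.succ)
    rw [Fin.prod_univ_succ]
    refine ⟨mul_nonneg h0.1 hN.1, fun ξ => ?_⟩
    rw [sum_cons, sum_cons (fun j => ‖ξ j‖ ^ 2)]
    set N : Matrix (Fin m → X) (Fin m → X) ℂ := tens (fun l => a l.succ) with hNdef
    set C' : ℝ := ∏ l : Fin m, C l.succ with hC'
    have e1 : ∀ (x : X) (i : Fin m → X),
        (∑ j, tens a (Fin.cons x i) j * ξ j) =
          ∑ y, a 0 x y * (∑ j, N i j * ξ (Fin.cons y j)) := by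
      intro x i
      rw [sum_cons]
      refine Finset.sum_congr rfl fun y _ => ?_
      rw [Finset.mul_sum]
      refine Finset.sum_congr rfl fun j _ => ?_
      rw [tens_cons, mul_assoc]
    simp only [e1]
    rw [Finset.sum_comm]
    calc ∑ i : Fin m → X, ∑ x : X, ‖∑ y, a 0 x y * (∑ j, N i j * ξ (Fin.cons y j))‖ ^ 2
        ≤ ∑ i : Fin m → X, C 0 ^ 2 * ∑ y : X, ‖∑ j, N i j * ξ (Fin.cons y j)‖ ^ 2 :=
          Finset.sum_le_sum fun i _ => h0.2 (fun y => ∑ j, N i j * ξ (Fin.cons y j))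
      _ = C 0 ^ 2 * ∑ y : X, ∑ i : Fin m → X, ‖∑ j, N i j * ξ (Fin.cons y j)‖ ^ 2 := by
          rw [← Finset.mul_sum, Finset.sum_comm]
      _ ≤ C 0 ^ 2 * ∑ y : X, C' ^ 2 * ∑ j : Fin m → X, ‖ξ (Fin.cons y j)‖ ^ 2 := by
          refine mul_le_mul_of_nonneg_left ?_ (sq_nonneg _)
          exact Finset.sum_le_sum fun y _ => hN.2 (fun j => ξ (Fin.cons y j))
      _ = (C 0 * C') ^ 2 * ∑ x : X, ∑ i : Fin m → X, ‖ξ (Fin.cons x i)‖ ^ 2 := by
          rw [← Finset.mul_sum]; ring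

theorem UB_tens {X : Type*} [Fintype X] {m : ℕ} (ξ : Fin m → X → ℂ) (h : ∀ l, UB (ξ l)) :
    UB (fun i : Fin m → X => ∏ l, ξ l (i l)) := by
  unfold UB at *
  have e : ∑ i : Fin m → X, ‖∏ l, ξ l (i l)‖ ^ 2 = ∏ l, ∑ x, ‖ξ l x‖ ^ 2 := by
    rw [Finset.prod_univ_sum]
    simp only [Fintype.piFinset_univ, norm_prod, Finset.prod_pow]
  rw [e]
  exact Finset.prod_le_one (fun l _ => Finset.sum_nonneg fun x _ => sq_nonneg _) (fun l _ => h l)

theorem frm_tens {X : Type*} [Fintype X] {m : ℕ} (a : Fin m → Matrix X X ℂ)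
    (ξ η : Fin m → X → ℂ) :
    frm (tens a) (fun i => ∏ l, ξ l (i l)) (fun i => ∏ l, η l (i l)) =
      ∏ l, frm (a l) (ξ l) (η l) := by
  induction m with
  | zero => simp [frm, tens]
  | succ m ih =>
    rw [Fin.prod_univ_succ, ← ih (fun l => a l.succ) (fun l => ξ l.succ) (fun l => η l.succ)]
    unfold frm
    rw [sum_cons]
    simp only [sum_cons (fun j => _ * _ * ∏ l, ξ l (j l))]
    simp only [tens_cons, Fin.prod_univ_succ, Fin.cons_zero, Fin.cons_succ, map_mul]
    rw [Finset.sum_mul]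
    refine Finset.sum_congr rfl fun x _ => ?_
    rw [Finset.sum_mul, Finset.sum_comm]
    refine Finset.sum_congr rfl fun y _ => ?_
    rw [Finset.mul_sum]
    refine Finset.sum_congr rfl fun i _ => ?_
    rw [Finset.mul_sum]
    refine Finset.sum_congr rfl fun j _ => ?_
    ring

end Pool.Agent.Helper91.KCA
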