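import Mathlib

set_option autoImplicit false
set_option linter.unusedVariables false
set_option linter.unusedSectionVars false
set_option linter.overlappingInstances false
set_option linter.style.haveILetI false

/-!
# Characters of compact abelian groups separate points (Peter-Weyl, abelian case)
-/

open MeasureTheory Topology
open scoped ENNReal InnerProductSpace

universe u

namespace Pool.Agent.Helper91.PW

/-- characters separate points of a commutative unital C*-algebra -/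
theorem exists_character {B : Type*} [CommCStarAlgebra B] {x : B} (hx : x ≠ 0) :
    ∃ φ : WeakDual.characterSpace ℂ B, φ x ≠ 0 := by
  by_contra hcon
  push Not at hcon
  apply hx
  apply (gelfandTransform_isometry B).injective
  rw [map_zero]
  ext φ
  exact hcon φ

theorem exists_character' {B : Type*} [CommCStarAlgebra B] {x y : B} (hx : x * y ≠ x) :
    ∃ φ : WeakDual.characterSpace ℂ B, φ x ≠ 0 ∧ φ y ≠ 1 := by
  obtain ⟨φ, hφ⟩ := exists_character (sub_ne_zero.2 hx)
  have h31 : φ (x * y - x) = φ (x * y) - φ x := map_sub φ _ _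
  have h32 : φ (x * y) = φ x * φ y := map_mul φ _ _
  rw [h31, h32] at hφ
  refine ⟨φ, fun h => hφ ?_, fun h => hφ ?_⟩
  · rw [h, zero_mul, sub_zero]
  · rw [h, mul_one, sub_self]

section A

variable {A : Type u} [CommGroup A] [TopologicalSpace A] [IsTopologicalGroup A] [CompactSpace A]
  [T2Space A] [MeasurableSpace A] [BorelSpace A]
  (μ : Measure A) [μ.IsHaarMeasure] [μ.Regular]

/-- translation as an isometry of `L²`. -/
noncomputable def U (b : A) : Lp ℂ 2 μ →ₗᵢ[ℂ] Lp ℂ 2 μ where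
  toLinearMap := DistribSMul.toLinearMap ℂ (Lp ℂ 2 μ) (DomMulAct.mk b)
  norm_map' := fun v => DomMulAct.norm_smul_Lp _ _

theorem U_apply (b : A) (v : Lp ℂ 2 μ) : U μ b v = (DomMulAct.mk b) • v := rfl

theorem U_mul (a b : A) (v : Lp ℂ 2 μ) : U μ a (U μ b v) = U μ (a * b) v := by
  rw [U_apply, U_apply, U_apply, smul_smul, mul_comm a b]
  rfl

theorem U_one (v : Lp ℂ 2 μ) : U μ 1 v = v := by
  rw [U_apply]
  exact one_smul _ v

theorem U_cont (v : Lp ℂ 2 μ) : Continuous fun b : A => U μ b v := by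
  have h1 : Continuous fun b : A => (DomMulAct.mk b : Aᵈᵐᵃ) := DomMulAct.continuous_mk
  haveI : Fact ((2 : ℝ≥0∞) ≠ ∞) := ⟨by norm_num⟩
  exact h1.smul continuous_const

theorem integrable_of_cont {E : Type*} [NormedAddCommGroup E] [NormedSpace ℂ E]
    {f : A → E} (hf : Continuous f) : Integrable f μ := by
  exact hf.integrable_of_hasCompactSupport (HasCompactSupport.of_compactSpace f)

theorem integrable_smulU (k : C(A, ℂ)) (v : Lp ℂ 2 μ) : Integrable (fun b => k b • U μ b v) μ :=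
  integrable_of_cont μ (k.continuous.smul (U_cont μ v))

/-- the operator `v ↦ ∫ k(b) • U_b v`. -/
noncomputable def conv : C(A, ℂ) →ₗ[ℂ] (Lp ℂ 2 μ →ₗ[ℂ] Lp ℂ 2 μ) :=
  LinearMap.mk₂ ℂ (fun k v => ∫ b, k b • U μ b v ∂μ)
    (by
      intro k k' v
      rw [← integral_add (integrable_smulU μ k v) (integrable_smulU μ k' v)]
      simp only [ContinuousMap.add_apply, add_smul])
    (by
      intro c k v
      rw [← integral_smul]
      simp only [ContinuousMap.smul_apply, smul_assoc])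
    (by
      intro k v w
      rw [← integral_add (integrable_smulU μ k v) (integrable_smulU μ k w)]
      simp only [map_add, smul_add])
    (by
      intro c k v
      rw [← integral_smul]
      simp only [map_smul, smul_comm c])

theorem conv_apply (k : C(A, ℂ)) (v : Lp ℂ 2 μ) : conv μ k v = ∫ b, k b • U μ b v ∂μ := rfl

theorem conv_bound (k : C(A, ℂ)) (v : Lp ℂ 2 μ) : ‖conv μ k v‖ ≤ μ.real Set.univ * ‖k‖ * ‖v‖ := by
  rw [conv_apply]
  have := norm_integral_le_of_norm_le_const (μ := μ) (f := fun b => k b • U μ b v)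
    (C := ‖k‖ * ‖v‖) (Filter.Eventually.of_forall fun b => by
      rw [norm_smul, LinearIsometry.norm_map]
      exact mul_le_mul_of_nonneg_right (k.norm_coe_le_norm b) (norm_nonneg _))
  calc _ ≤ ‖k‖ * ‖v‖ * μ.real Set.univ := this
    _ = _ := by ring

/-- `conv` as a bounded bilinear map. -/
noncomputable def Conv : C(A, ℂ) →L[ℂ] (Lp ℂ 2 μ →L[ℂ] Lp ℂ 2 μ) :=
  LinearMap.mkContinuous₂ (conv μ) (μ.real Set.univ) (conv_bound μ)

theorem Conv_apply (k : C(A, ℂ)) (v : Lp ℂ 2 μ) : Conv μ k v = ∫ b, k b • U μ b v ∂μ := rfl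

/-- translations as bounded operators -/
noncomputable def UL (b : A) : Lp ℂ 2 μ →L[ℂ] Lp ℂ 2 μ := (U μ b).toContinuousLinearMap

theorem UL_apply (b : A) (v : Lp ℂ 2 μ) : UL μ b v = U μ b v := rfl

theorem UL_mul (a b : A) : UL μ a * UL μ b = UL μ (a * b) := by
  ext1 v
  exact U_mul μ a b v

theorem UL_one : UL μ (1 : A) = 1 := by
  ext1 v
  exact U_one μ v

theorem star_UL (b : A) : star (UL μ b) = UL μ b⁻¹ := by
  rw [ContinuousLinearMap.star_eq_adjoint]
  symm
  rw [ContinuousLinearMap.eq_adjoint_iff]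
  intro v w
  rw [UL_apply, UL_apply]
  have h1 : v = U μ b (U μ b⁻¹ v) := by rw [U_mul, mul_inv_cancel, U_one]
  conv_rhs => rw [h1]
  rw [LinearIsometry.inner_map_map]

/-- any operator commuting with the translations commutes with `Conv k` -/
theorem comm_Conv (X : Lp ℂ 2 μ →L[ℂ] Lp ℂ 2 μ) (hX : ∀ b, X * UL μ b = UL μ b * X) (k : C(A, ℂ)) :
    X * Conv μ k = Conv μ k * X := by
  ext1 v
  change X (Conv μ k v) = Conv μ k (X v)
  rw [Conv_apply, Conv_apply, ← ContinuousLinearMap.integral_comp_comm X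
    (integrable_smulU μ k v)]
  congr 1
  funext b
  rw [map_smul]
  congr 1
  have := congrArg (fun T => T v) (hX b)
  exact this

/-- the function `(b, c) ↦ k (c b⁻¹)` as a continuous map into `C(A, ℂ)` -/
noncomputable def shift (k : C(A, ℂ)) : C(A, C(A, ℂ)) :=
  ContinuousMap.curry ⟨fun p : A × A => k (p.2 * p.1⁻¹), by fun_prop⟩

theorem shift_apply (k : C(A, ℂ)) (b c : A) : shift k b c = k (c * b⁻¹) := rfl

theorem Conv_mul_UL (k : C(A, ℂ)) (b : A) : Conv μ k * UL μ b = Conv μ (shift k b) := by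
  ext1 v
  change Conv μ k (UL μ b v) = _
  rw [Conv_apply, Conv_apply, UL_apply]
  have h1 : ∀ c, k c • U μ c (U μ b v) = shift k b (c * b) • U μ (c * b) v := by
    intro c
    rw [U_mul, shift_apply, mul_inv_cancel_right]
  simp_rw [h1]
  exact integral_mul_right_eq_self (fun c => shift k b c • U μ c v) b

theorem cont_Conv_UL (k : C(A, ℂ)) : Continuous fun b => Conv μ k * UL μ b := by
  simp_rw [Conv_mul_UL]
  exact (Conv μ).continuous.comp (shift k).continuous

/-- the commutative C*-algebra generated by the translations (double commutant) -/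
noncomputable def Alg : StarSubalgebra ℂ (Lp ℂ 2 μ →L[ℂ] Lp ℂ 2 μ) :=
  StarSubalgebra.centralizer ℂ (StarSubalgebra.centralizer ℂ (Set.range (UL μ)) :
    Set (Lp ℂ 2 μ →L[ℂ] Lp ℂ 2 μ))

theorem mem_cent {X : Lp ℂ 2 μ →L[ℂ] Lp ℂ 2 μ} :
    X ∈ StarSubalgebra.centralizer ℂ (Set.range (UL μ)) ↔ ∀ b, X * UL μ b = UL μ b * X := by
  rw [StarSubalgebra.mem_centralizer_iff]
  constructor
  · intro h b
    exact (h _ ⟨b, rfl⟩).1.symm
  · rintro h _ ⟨b, rfl⟩
    refine ⟨(h b).symm, ?_⟩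
    rw [star_UL]
    exact (h b⁻¹).symm

theorem mem_Alg {X : Lp ℂ 2 μ →L[ℂ] Lp ℂ 2 μ} :
    X ∈ Alg μ ↔ ∀ Y : Lp ℂ 2 μ →L[ℂ] Lp ℂ 2 μ, (∀ b, Y * UL μ b = UL μ b * Y) → Y * X = X * Y := by
  rw [Alg, StarSubalgebra.mem_centralizer_iff]
  constructor
  · intro h Y hY
    exact (h Y ((mem_cent μ).2 hY)).1
  · intro h Y hY
    have hY' : Y ∈ StarSubalgebra.centralizer ℂ (Set.range (UL μ)) := hY
    exact ⟨h Y ((mem_cent μ).1 hY'), h (star Y) ((mem_cent μ).1 (star_mem hY'))⟩

theorem UL_mem (b : A) : UL μ b ∈ Alg μ := by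
  rw [mem_Alg]
  intro Y hY
  exact hY b

theorem Conv_mem (k : C(A, ℂ)) : Conv μ k ∈ Alg μ := by
  rw [mem_Alg]
  intro Y hY
  exact comm_Conv μ Y hY k

theorem Alg_comm {X Y : Lp ℂ 2 μ →L[ℂ] Lp ℂ 2 μ} (hX : X ∈ Alg μ) (hY : Y ∈ Alg μ) :
    X * Y = Y * X := by
  have h1 : ∀ b, X * UL μ b = UL μ b * X := by
    intro b
    refine ((mem_Alg μ).1 hX (UL μ b) ?_).symm
    intro c
    rw [UL_mul, UL_mul, mul_comm]
  exact (mem_Alg μ).1 hY X h1

theorem Alg_closed : IsClosed (Alg μ : Set (Lp ℂ 2 μ →L[ℂ] Lp ℂ 2 μ)) := by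
  rw [Alg, StarSubalgebra.coe_centralizer]
  exact Set.isClosed_centralizer _

noncomputable instance : CommCStarAlgebra (Alg μ) :=
  haveI : IsClosed (Alg μ : Set (Lp ℂ 2 μ →L[ℂ] Lp ℂ 2 μ)) := Alg_closed μ
  { (inferInstance : CStarAlgebra (Alg μ)) with
    mul_comm := fun X Y => Subtype.ext (Alg_comm μ X.2 Y.2) }

/-- the element `U_b` of the algebra -/
noncomputable def uA (b : A) : Alg μ := ⟨UL μ b, UL_mem μ b⟩

/-- the element `Conv k` of the algebra -/
noncomputable def cA (k : C(A, ℂ)) : Alg μ := ⟨Conv μ k, Conv_mem μ k⟩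

theorem uA_one : uA μ (1 : A) = 1 := Subtype.ext (UL_one μ)

theorem uA_mul (a b : A) : uA μ (a * b) = uA μ a * uA μ b := Subtype.ext (UL_mul μ a b).symm

theorem star_uA_mul (b : A) : star (uA μ b) * uA μ b = 1 := by
  apply Subtype.ext
  change star (UL μ b) * UL μ b = 1
  rw [star_UL, UL_mul, inv_mul_cancel, UL_one]

theorem continuous_cA_uA (k : C(A, ℂ)) : Continuous fun b => cA μ k * uA μ b :=
  Continuous.subtype_mk (cont_Conv_UL μ k) _

theorem norm_char (φ : WeakDual.characterSpace ℂ (Alg μ)) (b : A) : ‖φ (uA μ b)‖ = 1 := by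
  have h2 := congrArg φ (star_uA_mul μ b)
  have h21 : φ (star (uA μ b) * uA μ b) = φ (star (uA μ b)) * φ (uA μ b) := map_mul φ _ _
  have h22 : φ (star (uA μ b)) = star (φ (uA μ b)) := map_star φ _
  have h23 : φ (1 : Alg μ) = 1 := map_one φ
  have key : ∀ z : ℂ, star z * z = 1 → ‖z‖ = 1 := by
    intro z hz
    have := congrArg norm hz
    rw [norm_mul, norm_star, norm_one] at this
    nlinarith [norm_nonneg z]
  apply key
  rw [← h22, ← h21, h2, h23]

theorem continuous_char (φ : WeakDual.characterSpace ℂ (Alg μ)) (k : C(A, ℂ))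
    (hk : φ (cA μ k) ≠ 0) : Continuous fun b => φ (uA μ b) := by
  have h1 : ∀ b : A, φ (uA μ b) = (φ (cA μ k))⁻¹ * φ (cA μ k * uA μ b) := by
    intro b
    have hm : φ (cA μ k * uA μ b) = φ (cA μ k) * φ (uA μ b) := map_mul φ _ _
    have hm2 : ∀ z w : ℂ, z ≠ 0 → w = z⁻¹ * (z * w) := fun z w hz => by
      rw [← mul_assoc, inv_mul_cancel₀ hz, one_mul]
    rw [hm]
    exact hm2 _ _ hk
  have hφ : Continuous fun x : Alg μ => φ x := (WeakDual.CharacterSpace.toCLM φ).continuous
  have h2 : (fun b => φ (uA μ b)) = fun b => (φ (cA μ k))⁻¹ * φ (cA μ k * uA μ b) := funext h1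
  rw [h2]
  exact continuous_const.mul (hφ.comp (continuous_cA_uA μ k))

/-- A character of the algebra not killing some `Conv k` gives a continuous character. -/
noncomputable def charOf (φ : WeakDual.characterSpace ℂ (Alg μ)) (k : C(A, ℂ))
    (hk : φ (cA μ k) ≠ 0) : A →ₜ* Circle where
  toFun b := ⟨φ (uA μ b), mem_sphere_zero_iff_norm.2 (norm_char μ φ b)⟩
  map_one' := by
    apply Subtype.ext
    change φ (uA μ 1) = 1
    rw [uA_one, map_one]
  map_mul' a b := by
    apply Subtype.ext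
    change φ (uA μ (a * b)) = φ (uA μ a) * φ (uA μ b)
    rw [uA_mul, map_mul]
  continuous_toFun := Continuous.subtype_mk (continuous_char μ φ k hk) _

theorem charOf_apply (φ : WeakDual.characterSpace ℂ (Alg μ)) (k : C(A, ℂ))
    (hk : φ (cA μ k) ≠ 0) (b : A) :
    ((charOf μ φ k hk b : Circle) : ℂ) = φ (uA μ b) := rfl

theorem U_toLp (g : C(A, ℂ)) (b : A) :
    U μ b (ContinuousMap.toLp 2 μ ℂ g) =
      ContinuousMap.toLp 2 μ ℂ (⟨fun x => g (b * x), by fun_prop⟩ : C(A, ℂ)) := rfl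

theorem inner_Conv (k : C(A, ℂ)) (v w : Lp ℂ 2 μ) :
    ⟪w, Conv μ k v⟫_ℂ = ∫ b, k b * ⟪w, U μ b v⟫_ℂ ∂μ := by
  rw [Conv_apply]
  have := (innerSL ℂ w).integral_comp_comm (integrable_smulU μ k v)
  rw [innerSL_apply_apply] at this
  rw [← this]
  congr 1
  funext b
  rw [innerSL_apply_apply, inner_smul_right]

theorem exists_Conv_ne {a : A} (ha : a ≠ 1) : ∃ k : C(A, ℂ), Conv μ k * UL μ a ≠ Conv μ k := by
  classical
  -- a small neighbourhood
  obtain ⟨W, hWo, hW1, hW⟩ : ∃ W : Set A, IsOpen W ∧ (1 : A) ∈ W ∧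
      ∀ x ∈ W, ∀ y ∈ W, ∀ z ∈ W, a * x * y ≠ z := by
    have h1 : IsOpen {p : A × A × A | a * p.1 * p.2.1 ≠ p.2.2} :=
      isOpen_ne_fun (by fun_prop) (by fun_prop)
    have h2 : {p : A × A × A | a * p.1 * p.2.1 ≠ p.2.2} ∈ 𝓝 ((1 : A), (1 : A), (1 : A)) :=
      h1.mem_nhds (by simpa using ha)
    rw [nhds_prod_eq, nhds_prod_eq, Filter.mem_prod_iff] at h2
    obtain ⟨s, hs, t, ht, hst⟩ := h2
    rw [Filter.mem_prod_iff] at ht
    obtain ⟨t1, ht1, t2, ht2, ht12⟩ := ht
    have h3 : s ∩ (t1 ∩ t2) ∈ 𝓝 (1 : A) := Filter.inter_mem hs (Filter.inter_mem ht1 ht2)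
    obtain ⟨W, hWs, hWo, hW1⟩ := mem_nhds_iff.1 h3
    refine ⟨W, hWo, hW1, ?_⟩
    intro x hx y hy z hz
    exact @hst (x, y, z) ⟨(hWs hx).1, ht12 ⟨(hWs hy).2.1, (hWs hz).2.2⟩⟩
  obtain ⟨g0, hg0, hg1, hg⟩ := exists_continuous_zero_one_of_isClosed (X := A)
    (s := Wᶜ) (t := {1}) hWo.isClosed_compl isClosed_singleton
    (by rw [Set.disjoint_singleton_right]; simpa using hW1)
  have hgW : ∀ x, g0 x ≠ 0 → x ∈ W := by
    intro x hx
    by_contra hxW
    exact hx (hg0 hxW)
  have hgn : ∀ x, 0 ≤ g0 x := fun x => (hg x).1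
  have hg11 : g0 1 = 1 := hg1 rfl
  let g : C(A, ℂ) := ⟨fun x => (g0 x : ℂ), by fun_prop⟩
  have hgdef : ∀ x, g x = (g0 x : ℂ) := fun x => rfl
  let v : Lp ℂ 2 μ := ContinuousMap.toLp 2 μ ℂ g
  let r : A → ℝ := fun b => ∫ x, g0 (b * x) * g0 x ∂μ
  have hr : ∀ b, ⟪v, U μ b v⟫_ℂ = (r b : ℂ) := by
    intro b
    rw [show U μ b v = ContinuousMap.toLp 2 μ ℂ (⟨fun x => g (b * x), by fun_prop⟩ : C(A, ℂ)) from
      U_toLp μ g b, ContinuousMap.inner_toLp, ← integral_complex_ofReal]
    congr 1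
    funext x
    change g (b * x) * (starRingEnd ℂ) (g x) = _
    rw [hgdef, hgdef, Complex.conj_ofReal, Complex.ofReal_mul]
  have hrc : Continuous r := by
    have h1 : Continuous fun b => ⟪v, U μ b v⟫_ℂ := continuous_const.inner (U_cont μ v)
    have h2 : r = fun b => (⟪v, U μ b v⟫_ℂ).re := by
      funext b
      rw [hr, Complex.ofReal_re]
    rw [h2]
    exact Complex.continuous_re.comp h1
  have hrn : ∀ b, 0 ≤ r b := fun b => integral_nonneg fun x => mul_nonneg (hgn _) (hgn _)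
  have hr1 : 0 < r 1 := by
    have h1 : Continuous fun x => g0 (1 * x) * g0 x := by fun_prop
    apply h1.integral_pos_of_hasCompactSupport_nonneg_nonzero (HasCompactSupport.of_compactSpace _)
      (fun x => mul_nonneg (hgn _) (hgn _)) (x := 1)
    rw [mul_one, hg11]
    norm_num
  refine ⟨g, fun heq => ?_⟩
  have h1 : ⟪v, Conv μ g v⟫_ℂ = ((∫ b, g0 b * r b ∂μ : ℝ) : ℂ) := by
    rw [inner_Conv, ← integral_complex_ofReal]
    congr 1
    funext b
    rw [hr, hgdef, Complex.ofReal_mul]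
  have h2 : 0 < ∫ b, g0 b * r b ∂μ := by
    have h1 : Continuous fun x => g0 x * r x := g0.continuous.mul hrc
    apply h1.integral_pos_of_hasCompactSupport_nonneg_nonzero (HasCompactSupport.of_compactSpace _)
      (fun x => mul_nonneg (hgn _) (hrn _)) (x := 1)
    rw [hg11, one_mul]
    exact hr1.ne'
  have h3 : ⟪v, (Conv μ g * UL μ a) v⟫_ℂ = 0 := by
    rw [Conv_mul_UL, inner_Conv]
    rw [show (fun b => (shift g a) b * ⟪v, U μ b v⟫_ℂ) = fun _ => (0 : ℂ) from ?_, integral_zero]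
    funext b
    rw [hr, shift_apply, hgdef]
    by_cases hb : g0 (b * a⁻¹) = 0
    · rw [hb]; simp
    · have hb1 := hgW _ hb
      have : r b = 0 := by
        change ∫ x, g0 (b * x) * g0 x ∂μ = 0
        rw [show (fun x => g0 (b * x) * g0 x) = fun _ => (0 : ℝ) from ?_, integral_zero]
        funext x
        by_contra hx
        have hx1 := hgW _ (left_ne_zero_of_mul hx)
        have hx2 := hgW _ (right_ne_zero_of_mul hx)
        refine hW _ hb1 _ hx2 _ hx1 ?_
        rw [mul_comm a, inv_mul_cancel_right]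
      rw [this]; simp
  rw [heq, h1] at h3
  exact h2.ne' (by exact_mod_cast h3)

include μ in
theorem exists_char_aux {a : A} (ha : a ≠ 1) : ∃ χ : A →ₜ* Circle, χ a ≠ 1 := by
  obtain ⟨k, hk⟩ := exists_Conv_ne μ ha
  have h1 : cA μ k * uA μ a ≠ cA μ k := fun h => hk (congrArg Subtype.val h)
  obtain ⟨φ, hφ, hφ2⟩ := exists_character' h1
  refine ⟨charOf μ φ k hφ, fun h => hφ2 ?_⟩
  rw [← charOf_apply μ φ k hφ a, h]
  rfl

end A

section main

variable {A : Type u} [CommGroup A] [TopologicalSpace A] [IsTopologicalGroup A] [CompactSpace A]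
  [T2Space A]

/-- (PW1) continuous characters of a compact Hausdorff abelian group separate points. -/
theorem exists_char {a : A} (ha : a ≠ 1) : ∃ χ : A →ₜ* Circle, χ a ≠ 1 := by
  letI : MeasurableSpace A := borel A
  haveI : BorelSpace A := ⟨rfl⟩
  exact exists_char_aux (Measure.haar : Measure A) ha

/-- (PW2) continuous characters separate points from closed subgroups. -/
theorem exists_char_of_notMem (B : Subgroup A) (hB : IsClosed (B : Set A)) {a : A} (ha : a ∉ B) :
    ∃ χ : A →ₜ* Circle, (∀ b ∈ B, χ b = 1) ∧ χ a ≠ 1 := by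
  haveI : IsClosed (B : Set A) := hB
  haveI : T2Space (A ⧸ B) := inferInstance
  have h1 : (QuotientGroup.mk a : A ⧸ B) ≠ 1 := by
    rwa [Ne, QuotientGroup.eq_one_iff]
  obtain ⟨χ, hχ⟩ := exists_char h1
  refine ⟨χ.comp ⟨QuotientGroup.mk' B, continuous_quotient_mk'⟩, ?_, hχ⟩
  intro b hb
  change χ (QuotientGroup.mk b) = 1
  rw [(QuotientGroup.eq_one_iff b).2 hb, map_one]

/-- the integral of a nontrivial character vanishes -/
theorem integral_char [MeasurableSpace A] [BorelSpace A] (μ : Measure A) [μ.IsHaarMeasure]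
    (χ : A →ₜ* Circle) (hχ : χ ≠ 1) : ∫ x, ((χ x : Circle) : ℂ) ∂μ = 0 := by
  obtain ⟨a, ha⟩ : ∃ a, χ a ≠ 1 := by
    by_contra hcon
    push Not at hcon
    exact hχ (ContinuousMonoidHom.ext hcon)
  have h1 : ∫ x, ((χ (a * x) : Circle) : ℂ) ∂μ = ∫ x, ((χ x : Circle) : ℂ) ∂μ :=
    integral_mul_left_eq_self (fun x => ((χ x : Circle) : ℂ)) a
  have h2 : ∫ x, ((χ (a * x) : Circle) : ℂ) ∂μ = ((χ a : Circle) : ℂ) * ∫ x, ((χ x : Circle) : ℂ) ∂μ := by
    rw [← integral_const_mul]
    congr 1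
    funext x
    rw [map_mul, Circle.coe_mul]
  rw [h2] at h1
  have h3 : (((χ a : Circle) : ℂ) - 1) * ∫ x, ((χ x : Circle) : ℂ) ∂μ = 0 := by
    rw [sub_mul, one_mul, h1, sub_self]
  rcases mul_eq_zero.1 h3 with h | h
  · exfalso
    apply ha
    apply Subtype.ext
    exact sub_eq_zero.1 h
  · exact h

/-- a character as a complex continuous function -/
noncomputable def toC (χ : A →ₜ* Circle) : C(A, ℂ) := ⟨fun x => ((χ x : Circle) : ℂ), by fun_prop⟩

theorem toC_apply (χ : A →ₜ* Circle) (x : A) : toC χ x = ((χ x : Circle) : ℂ) := rfl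

/-- (PW3) a proper subgroup of the dual does not separate points. -/
theorem exists_ann (S : Subgroup (A →ₜ* Circle)) (hS : S ≠ ⊤) :
    ∃ a : A, a ≠ 1 ∧ ∀ χ ∈ S, χ a = 1 := by
  by_contra hcon
  push Not at hcon
  letI : MeasurableSpace A := borel A
  haveI : BorelSpace A := ⟨rfl⟩
  let μ : Measure A := Measure.haar
  obtain ⟨ψ, hψ⟩ : ∃ ψ, ψ ∉ S := by
    by_contra h
    push Not at h
    exact hS ((Subgroup.eq_top_iff' S).2 h)
  -- the star subalgebra spanned by `S`
  let M : Submonoid C(A, ℂ) :=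
    { carrier := {f | ∃ χ ∈ S, f = toC χ}
      one_mem' := ⟨1, S.one_mem, by ext x; simp [toC_apply]⟩
      mul_mem' := by
        rintro _ _ ⟨χ, hχ, rfl⟩ ⟨χ', hχ', rfl⟩
        refine ⟨χ * χ', S.mul_mem hχ hχ', ?_⟩
        ext x
        simp [toC_apply] }
  have hstar : ∀ f ∈ M, star f ∈ M := by
    rintro _ ⟨χ, hχ, rfl⟩
    refine ⟨χ⁻¹, S.inv_mem hχ, ?_⟩
    ext x
    have h : (χ⁻¹) x = (χ x)⁻¹ := rfl
    rw [ContinuousMap.star_apply, toC_apply, toC_apply, h, Circle.coe_inv_eq_conj, Complex.star_def]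
  let B : StarSubalgebra ℂ C(A, ℂ) := StarAlgebra.adjoin ℂ (M : Set C(A, ℂ))
  have hBspan : ∀ f ∈ B, f ∈ Submodule.span ℂ (M : Set C(A, ℂ)) := by
    intro f hf
    have h1 : f ∈ (StarAlgebra.adjoin ℂ (M : Set C(A, ℂ))).toSubalgebra := hf
    rw [StarAlgebra.adjoin_toSubalgebra] at h1
    have h2 : (M : Set C(A, ℂ)) ∪ star (M : Set C(A, ℂ)) = M := by
      apply Set.union_eq_left.2
      intro g hg
      have := hstar _ (Set.mem_star.1 hg)
      rwa [star_star] at this
    rw [h2] at h1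
    have h3 : f ∈ Subalgebra.toSubmodule (Algebra.adjoin ℂ (M : Set C(A, ℂ))) := h1
    rwa [Algebra.adjoin_eq_span, Submonoid.closure_eq] at h3
  have hdense : B.topologicalClosure = ⊤ := by
    apply ContinuousMap.starSubalgebra_topologicalClosure_eq_top_of_separatesPoints
    intro x y hxy
    obtain ⟨χ, hχS, hχ⟩ := hcon (x * y⁻¹) (by
      intro h
      exact hxy (mul_inv_eq_one.1 h))
    refine ⟨toC χ, ⟨toC χ, StarAlgebra.subset_adjoin ℂ _ ⟨χ, hχS, rfl⟩, rfl⟩, ?_⟩
    intro h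
    apply hχ
    have h2 : χ x = χ y := Subtype.ext h
    rw [map_mul, map_inv, h2, mul_inv_cancel]
  -- the functional `f ↦ ∫ conj ψ f` vanishes on `B`
  let L : C(A, ℂ) →L[ℂ] ℂ := LinearMap.mkContinuous
    { toFun := fun f => ∫ x, star (toC ψ x) * f x ∂μ
      map_add' := by
        intro f g
        rw [← integral_add]
        · congr 1
          funext x
          rw [ContinuousMap.add_apply, mul_add]
        · exact (Continuous.integrable_of_hasCompactSupport (by fun_prop)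
            (HasCompactSupport.of_compactSpace _))
        · exact (Continuous.integrable_of_hasCompactSupport (by fun_prop)
            (HasCompactSupport.of_compactSpace _))
      map_smul' := by
        intro c f
        rw [RingHom.id_apply, smul_eq_mul, ← integral_const_mul]
        congr 1
        funext x
        rw [ContinuousMap.smul_apply, smul_eq_mul]
        ring } (μ.real Set.univ) (by
      intro f
      have := norm_integral_le_of_norm_le_const (μ := μ) (f := fun x => star (toC ψ x) * f x)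
        (C := ‖f‖) (Filter.Eventually.of_forall fun b => by
          rw [norm_mul, norm_star, toC_apply, Circle.norm_coe, one_mul]
          exact f.norm_coe_le_norm b)
      exact this.trans (le_of_eq (mul_comm _ _)))
  have hL : ∀ f, L f = ∫ x, star (toC ψ x) * f x ∂μ := fun f => rfl
  have hLM : ∀ f ∈ M, L f = 0 := by
    rintro _ ⟨χ, hχ, rfl⟩
    rw [hL]
    have h1 : (fun x => star (toC ψ x) * toC χ x) = fun x => (((ψ⁻¹ * χ) x : Circle) : ℂ) := by
      funext x
      have h : (ψ⁻¹ * χ) x = (ψ x)⁻¹ * χ x := rfl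
      rw [h, toC_apply, toC_apply, Circle.coe_mul, Circle.coe_inv_eq_conj, Complex.star_def]
    rw [h1]
    apply integral_char
    intro h
    apply hψ
    have : ψ = χ := inv_mul_eq_one.1 h
    rwa [this]
  have hLB : ∀ f ∈ B, L f = 0 := by
    intro f hf
    have h1 : Submodule.span ℂ (M : Set C(A, ℂ)) ≤ LinearMap.ker (L : C(A, ℂ) →ₗ[ℂ] ℂ) := by
      rw [Submodule.span_le]
      intro g hg
      exact hLM g hg
    exact h1 (hBspan f hf)
  have hLall : L (toC ψ) = 0 := by
    have h1 : toC ψ ∈ B.topologicalClosure := by rw [hdense]; trivial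
    have h2 : IsClosed {f : C(A, ℂ) | L f = 0} := isClosed_eq L.continuous continuous_const
    have h3 : closure (B : Set C(A, ℂ)) ⊆ {f : C(A, ℂ) | L f = 0} :=
      closure_minimal (fun f hf => hLB f hf) h2
    exact h3 h1
  rw [hL] at hLall
  have h1 : (fun x => star (toC ψ x) * toC ψ x) = fun _ => (1 : ℂ) := by
    funext x
    rw [toC_apply, Complex.star_def, ← Circle.coe_inv_eq_conj, ← Circle.coe_mul,
      inv_mul_cancel, Circle.coe_one]
  rw [h1, integral_const, Complex.real_smul, mul_one] at hLall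
  have h2 : μ.real Set.univ ≠ 0 := by
    rw [Measure.real, ENNReal.toReal_ne_zero]
    exact ⟨isOpen_univ.measure_ne_zero μ Set.univ_nonempty, measure_ne_top μ _⟩
  exact h2 (by exact_mod_cast hLall)

end main

end Pool.Agent.Helper91.PW
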