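import Pool.Agent.Helper91.SCPerm

set_option autoImplicit false

namespace Pool.Agent.Helper91.SC

open Finset

section
variable {p : ℕ} [hp : Fact p.Prime] {n : ℕ}

lemma bern'_mem (i : ℕ) (hi : i + 1 < p) : bernoulli' i ∈ OO p := by
  induction i using Nat.strong_induction_on with
  | _ i ih =>
    rw [bernoulli'_def]
    apply sub_mem (OO p).one_mem
    apply OO_sum
    intro k hk
    simp only [mem_range] at hk
    have h1 := ih k hk (by omega)
    have h2 : ((i : ℚ) - k + 1)⁻¹ ∈ OO p := by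
      have := OO_inv_nat_lt (p := p) (i - k + 1) (by omega) (by omega)
      rwa [Nat.cast_add, Nat.cast_sub hk.le, Nat.cast_one] at this
    rw [div_eq_mul_inv]
    exact mul_mem (mul_mem (OO_nat _) h2) h1

lemma bern_mem (i : ℕ) (hi : i + 1 < p) : bernoulli i ∈ OO p := by
  unfold bernoulli
  exact mul_mem (pow_mem (neg_mem (OO p).one_mem) _) (bern'_mem i hi)

lemma PM_bern (hpn : p = 2 * n + 1) (M : ℕ) (hM : 0 < M) (hM' : M + 1 < p) :
    DD' p 2 (PM n M - p * bernoulli M) := by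
  have h := sum_range_pow p M
  have e1 : ∑ k ∈ range p, (k : ℚ) ^ M = PM n M := by
    have : range p = range (2 * n + 1) := by rw [hpn]
    rw [this, sum_range_succ']
    unfold PM
    simp [hM.ne']
  rw [e1, sum_range_succ] at h
  rw [h]
  have e2 : bernoulli M * ((M + 1).choose M : ℕ) * (p : ℚ) ^ (M + 1 - M) / ((M : ℚ) + 1) = p * bernoulli M := by
    have : M + 1 - M = 1 := by omega
    have h0 : ((M : ℚ) + 1) ≠ 0 := by positivity
    rw [this, Nat.choose_succ_self_right]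
    push_cast
    field_simp
  rw [e2, add_sub_cancel_right]
  apply D_sum
  intro i hi
  simp only [mem_range] at hi
  have e3 : (p : ℚ) ^ (M + 1 - i) = p ^ 2 * p ^ (M - 1 - i) := by
    rw [← pow_add]; congr 1; omega
  have e4 : bernoulli i * ((M + 1).choose i : ℕ) * (p : ℚ) ^ (M + 1 - i) / ((M : ℚ) + 1)
      = p ^ 2 * (bernoulli i * ((M + 1).choose i : ℕ) * p ^ (M - 1 - i) * ((M : ℚ) + 1)⁻¹) := by
    rw [e3]; ring
  rw [e4]
  apply D_pmul
  have h5 : ((M : ℚ) + 1)⁻¹ ∈ OO p := by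
    have := OO_inv_nat_lt (p := p) (M + 1) (by omega) hM'
    exact_mod_cast this
  exact mul_mem (mul_mem (mul_mem (bern_mem i (by omega)) (OO_nat _)) (pow_mem OO_p _)) h5

/-- Fermat: `t^(M') = t^{-(s+1)}` when `M' + s + 2 = p` -/
lemma fermat_D (t M s : ℕ) (ht : ¬ p ∣ t) (hM : M + s = p - 1) :
    DD' p 1 ((t : ℚ) ^ M - ((t : ℚ)⁻¹) ^ s) := by
  have ht0 : (t : ZMod p) ≠ 0 := by
    intro h
    exact ht ((ZMod.natCast_eq_zero_iff _ _).mp h)
  have h1 : RR p ((t : ℚ) ^ M) ((t : ZMod p) ^ M) := RR_pow (RR_nat t) M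
  have h2 : RR p (((t : ℚ)⁻¹) ^ s) (((t : ZMod p)⁻¹) ^ s) := RR_pow (RR_inv (RR_nat t) ht0) s
  have h3 : ((t : ZMod p)) ^ M = ((t : ZMod p)⁻¹) ^ s := by
    have := ZMod.pow_card_sub_one_eq_one ht0
    rw [← hM, pow_add] at this
    rw [inv_pow]
    exact eq_inv_of_mul_eq_one_left this
  rw [h3] at h1
  exact D_of_RR h1 h2

/-- `s PM = (s+1) h_s` up to a unit, modulo `p^2`. -/
lemma hs_PM (hpn : p = 2 * n + 1) (d : ℕ) (hd : ¬ p ∣ d) (M s : ℕ) (hM : M + (s + 1) = p - 1)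
    (hM0 : M + 2 < p) :
    DD' p 2 ((1 - ((d : ℚ)⁻¹) ^ s) * (s * PM n (M + 1) - (s + 1) * hs n s)) := by
  have hdi : ((d : ℚ)⁻¹) ∈ OO p := OO_inv_nat d hd
  have hP := OO_p (p := p)
  have hs' : (s : ℚ) ∈ OO p := OO_nat s
  have hMm : (M : ℚ) ∈ OO p := OO_nat M
  have hD : (d : ℚ) ∈ OO p := OO_nat d
  have h1 := dist_P hpn d hd M
  have h2 := dist_h hpn d hd s
  have hB := PM_bern hpn (M + 1) (by omega) (by omega)
  have hB1 : DD' p 1 (PM n (M + 1)) := by
    have e : PM n (M + 1) = (PM n (M + 1) - p * bernoulli (M + 1)) + p ^ 1 * bernoulli (M + 1) := by ring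
    rw [e]
    exact D_add (D_mono (by omega) hB) (D_pmul (bern_mem _ (by omega)))
  have hF : DD' p 1 ((d : ℚ) ^ (M + 1) - ((d : ℚ)⁻¹) ^ s) := fermat_D d (M + 1) s hd (by omega)
  have hF' : DD' p 1 ((d : ℚ) ^ M - ((d : ℚ)⁻¹) ^ (s + 1)) := fermat_D d M (s + 1) hd (by omega)
  set S := ∑ k ∈ range (2 * n), ((d * (k + 1) / p : ℕ) : ℚ) * ((k : ℚ) + 1) ^ M with hS
  have hSm : S ∈ OO p := OO_sum _ _ (fun k _ => mul_mem (OO_nat _) (pow_mem (by exact_mod_cast OO_nat (k + 1)) _))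
  have hQ : Qd p n d (s + 1) ∈ OO p := Qd_mem hpn d (s + 1)
  have hSQ : DD' p 1 (S - Qd p n d (s + 1)) := by
    unfold Qd
    rw [hS, ← sum_sub_distrib]
    apply D_sum
    intro k hk
    simp only [mem_range] at hk
    rw [← mul_sub]
    apply D_smul (OO_nat _)
    have hk1 : ¬ p ∣ (k + 1) := fun h => absurd (Nat.le_of_dvd (by omega) h) (by omega)
    have := fermat_D (k + 1) M (s + 1) hk1 (by omega)
    unfold yy
    exact_mod_cast this
  set Q := Qd p n d (s + 1) with hQdef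
  set e := (d : ℚ)⁻¹ with he
  -- assemble
  have g1 : DD' p 2 (((d : ℚ) ^ (M + 1) - e ^ s) * PM n (M + 1)) := D_mul hF hB1
  have g2 : DD' p 2 (((M : ℚ) + 1) * (p * (((d : ℚ) ^ M - e ^ (s + 1)) * S))) := by
    apply D_smul (by exact_mod_cast OO_nat (M + 1))
    have : DD' p 1 (((d : ℚ) ^ M - e ^ (s + 1)) * S) := by
      rw [mul_comm]; exact D_smul hSm hF'
    have h' := (D_shift (p := p) (k := 1) (m := 1)).mpr this
    simpa using h'
  have g3 : DD' p 2 (((M : ℚ) + 1) * (p * (e ^ (s + 1) * (S - Q)))) := by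
    apply D_smul (by exact_mod_cast OO_nat (M + 1))
    have : DD' p 1 (e ^ (s + 1) * (S - Q)) := D_smul (pow_mem hdi _) hSQ
    have h' := (D_shift (p := p) (k := 1) (m := 1)).mpr this
    simpa using h'
  have g4 : DD' p 2 (p ^ 2 * (e ^ (s + 1) * Q)) := D_pmul (mul_mem (pow_mem hdi _) hQ)
  have hpM : (p : ℚ) = M + s + 2 := by
    have : p = M + s + 2 := by omega
    exact_mod_cast this
  have key : (1 - e ^ s) * (s * PM n (M + 1) - (s + 1) * hs n s)
      = s * ((PM n (M + 1) - (d : ℚ) ^ (M + 1) * PM n (M + 1) + ((M : ℚ) + 1) * p * (d : ℚ) ^ M * S)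
          + ((d : ℚ) ^ (M + 1) - e ^ s) * PM n (M + 1)
          - ((M : ℚ) + 1) * (p * (((d : ℚ) ^ M - e ^ (s + 1)) * S))
          - ((M : ℚ) + 1) * (p * (e ^ (s + 1) * (S - Q)))
          - (p ^ 2 * (e ^ (s + 1) * Q)))
        - (s + 1) * (hs n s - e ^ s * hs n s - s * p * e ^ (s + 1) * Q) := by
    linear_combination (s * p * e ^ (s + 1) * Q) * hpM
  rw [key]
  apply D_sub
  · apply D_smul hs'
    exact D_sub (D_sub (D_sub (D_add h1 g1) g2) g3) g4
  · exact D_smul (by exact_mod_cast OO_nat (s + 1)) h2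

end

end Pool.Agent.Helper91.SC
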