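import Pool.Agent.Helper91.SCField

set_option autoImplicit false

namespace Pool.Agent.Helper91.SC

open Finset

section
variable {K : Type*} [Field K]

lemma natsub_ne (N j : ℕ) (hj : j < N) (hK : ∀ k : ℕ, 0 < k → k ≤ 2 * N → (k : K) ≠ 0) :
    ((N : K) - j) ≠ 0 := by
  have h := hK (N - j) (by omega) (by omega)
  rwa [Nat.cast_sub (by omega)] at h

lemma natadd_ne (N j : ℕ) (hj : j < N) (hK : ∀ k : ℕ, 0 < k → k ≤ 2 * N → (k : K) ≠ 0) :
    ((N : K) + j + 1) ≠ 0 := by
  have h := hK (N + j + 1) (by omega) (by omega)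
  exact_mod_cast h

lemma cc_ne (j : ℕ) (h : ((2 * j + 1 : ℕ) : K) ≠ 0) : cc K j ≠ 0 := by
  intro h0
  have := cc_mul j h
  rw [h0, zero_mul] at this
  exact zero_ne_one this

lemma PP_ne (N j : ℕ) (hj : j ≤ N) (hK : ∀ k : ℕ, 0 < k → k ≤ 2 * N → (k : K) ≠ 0) :
    PP (cc K) (XN K N) j ≠ 0 := by
  induction j with
  | zero => simp [PP_zero]
  | succ j ih =>
    rw [PP_succ, factor_eq j N (hK _ (by omega) (by omega))]
    have h2 : (2 : K) ≠ 0 := by exact_mod_cast hK 2 (by omega) (by omega)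
    have h4 : (-4 : K) ≠ 0 := by
      have : (-4 : K) = -(2 ^ 2) := by norm_num
      rw [this]; exact neg_ne_zero.mpr (pow_ne_zero _ h2)
    exact mul_ne_zero (ih (by omega)) (mul_ne_zero (mul_ne_zero h4 (cc_ne j (hK _ (by omega) (by omega))))
      (mul_ne_zero (natsub_ne N j (by omega) hK) (natadd_ne N j (by omega) hK)))

/-- `D(N,j) = - x_j^2 / P_{j+1}(X_N)` -/
def DD (K : Type*) [Field K] (N j : ℕ) : K := -(cc K j * (PP (cc K) (XN K N) (j + 1))⁻¹)

/-- `b(N,j) = 1/(4 (N-j) P_j(X_N))` -/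
def bb (K : Type*) [Field K] (N j : ℕ) : K := (4 * ((N : K) - j) * PP (cc K) (XN K N) j)⁻¹

lemma DD_eq (N j : ℕ) (hj : j < N) (hK : ∀ k : ℕ, 0 < k → k ≤ 2 * N → (k : K) ≠ 0) :
    DD K N j = (4 * ((N : K) - j) * ((N : K) + j + 1) * PP (cc K) (XN K N) j)⁻¹ := by
  have h1 := natsub_ne N j hj hK
  have h2 := natadd_ne N j hj hK
  have h3 := cc_ne (K := K) j (hK _ (by omega) (by omega))
  have h4 := PP_ne N j (by omega) hK
  have h20 : (2 : K) ≠ 0 := by exact_mod_cast hK 2 (by omega) (by omega)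
  have h40 : (4 : K) ≠ 0 := by
    have : (4 : K) = (2 ^ 2) := by norm_num
    rw [this]; exact (pow_ne_zero _ h20)
  unfold DD
  rw [PP_succ, factor_eq j N (hK _ (by omega) (by omega))]
  field_simp

lemma bb_succ (N j : ℕ) (hj : j < N) (hK : ∀ k : ℕ, 0 < k → k ≤ 2 * (N + 1) → (k : K) ≠ 0) :
    bb K (N + 1) j = (4 * ((N : K) + j + 1) * PP (cc K) (XN K N) j)⁻¹ := by
  unfold bb
  congr 1
  have h := L1 (K := K) N j (fun i hi => hK _ (by omega) (by omega))
  push_cast
  linear_combination 4 * h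

lemma bb_add (N j : ℕ) (hj : j < N) (hK : ∀ k : ℕ, 0 < k → k ≤ 2 * (N + 1) → (k : K) ≠ 0) :
    bb K (N + 1) j + bb K N j = (2 * (N : K) + 1) * DD K N j := by
  have hK' : ∀ k : ℕ, 0 < k → k ≤ 2 * N → (k : K) ≠ 0 := fun k h h' => hK k h (by omega)
  have h1 := natsub_ne N j hj hK'
  have h2 := natadd_ne N j hj hK'
  have h4 := PP_ne N j (by omega) hK'
  have h20 : (2 : K) ≠ 0 := by exact_mod_cast hK 2 (by omega) (by omega)
  have h40 : (4 : K) ≠ 0 := by
    have : (4 : K) = (2 ^ 2) := by norm_num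
    rw [this]; exact (pow_ne_zero _ h20)
  rw [bb_succ N j hj hK, DD_eq N j hj hK']
  unfold bb
  field_simp
  ring

lemma bb_sub (N j : ℕ) (hj : j < N) (hK : ∀ k : ℕ, 0 < k → k ≤ 2 * (N + 1) → (k : K) ≠ 0) :
    bb K (N + 1) j - bb K N j = -((2 * (j : K) + 1) * DD K N j) := by
  have hK' : ∀ k : ℕ, 0 < k → k ≤ 2 * N → (k : K) ≠ 0 := fun k h h' => hK k h (by omega)
  have h1 := natsub_ne N j hj hK'
  have h2 := natadd_ne N j hj hK'
  have h4 := PP_ne N j (by omega) hK'
  have h20 : (2 : K) ≠ 0 := by exact_mod_cast hK 2 (by omega) (by omega)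
  have h40 : (4 : K) ≠ 0 := by
    have : (4 : K) = (2 ^ 2) := by norm_num
    rw [this]; exact (pow_ne_zero _ h20)
  rw [bb_succ N j hj hK, DD_eq N j hj hK']
  unfold bb
  field_simp
  ring

lemma PP_NN_inv (N : ℕ) (hK : ∀ k : ℕ, 0 < k → k ≤ 2 * N → (k : K) ≠ 0) :
    (PP (cc K) (XN K N) N)⁻¹ = (-1) ^ N * uu K N := by
  rcases Nat.eq_zero_or_pos N with rfl | hN
  · simp [PP_zero, uu]
  have h2 : (2 : K) ≠ 0 := by exact_mod_cast hK 2 (by omega) (by omega)
  have h := L2 (K := K) N N le_rfl h2 (fun i hi => hK _ (by omega) (by omega))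
    (fun i hi => hK _ (by omega) (by omega))
  have hn := PP_ne N N le_rfl hK
  have e : N + N = 2 * N := by ring
  rw [e, Nat.choose_self] at h
  have hs : ((-1 : K) ^ N) * (-1) ^ N = 1 := by rw [← mul_pow]; simp
  symm
  apply eq_inv_of_mul_eq_one_left
  push_cast at h
  linear_combination ((-1) ^ N) * h + hs

lemma bb_diag (N : ℕ) (hK : ∀ k : ℕ, 0 < k → k ≤ 2 * (N + 1) → (k : K) ≠ 0) :
    bb K (N + 1) N = 4⁻¹ * ((-1) ^ N * uu K N * xx K N) := by
  have hK' : ∀ k : ℕ, 0 < k → k ≤ 2 * N → (k : K) ≠ 0 := fun k h h' => hK k h (by omega)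
  have hP := PP_NN_inv N hK'
  rw [← hP]
  unfold bb xx
  rw [← mul_inv, ← mul_inv]
  congr 1
  have h := L1 (K := K) N N (fun i hi => hK _ (by omega) (by omega))
  push_cast
  linear_combination 4 * h

end

section AP
variable {K : Type*} [Field K] {R : Type*} [CommRing R] [Algebra K R]

/-- Apery's telescoping expansion -/
lemma AP (N J : ℕ) (hJ : J ≤ N) (hK : ∀ k : ℕ, 0 < k → k ≤ 2 * N → (k : K) ≠ 0)
    (hN1 : ((2 * N + 1 : ℕ) : K) ≠ 0) (X I : R)
    (hI : (1 - algebraMap K R (cc K N) * X) * I = 1) :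
    ∑ j ∈ range J, PP (fun i => algebraMap K R (cc K i)) X j * algebraMap K R (DD K N j)
      = algebraMap K R (cc K N) * I *
        (1 - PP (fun i => algebraMap K R (cc K i)) X J * algebraMap K R (PP (cc K) (XN K N) J)⁻¹) := by
  induction J with
  | zero => simp [PP_zero]
  | succ J ih =>
    rw [sum_range_succ, ih (by omega)]
    set φ := algebraMap K R with hφ
    set P := PP (fun i => φ (cc K i)) X J with hP
    have hPs : PP (fun i => φ (cc K i)) X (J + 1) = P * (1 - φ (cc K J) * X) := by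
      rw [PP_succ]
    rw [hPs]
    have hne := PP_ne N (J + 1) hJ hK
    have e1 : (PP (cc K) (XN K N) J)⁻¹ = (1 - cc K J * XN K N) * (PP (cc K) (XN K N) (J + 1))⁻¹ := by
      have hs : PP (cc K) (XN K N) (J + 1) = PP (cc K) (XN K N) J * (1 - cc K J * XN K N) := PP_succ _ _ _
      rw [hs] at hne ⊢
      have hn1 := left_ne_zero_of_mul hne
      have hn2 := right_ne_zero_of_mul hne
      field_simp
    have e2 : cc K N * XN K N = 1 := cc_mul N hN1
    have e2' : φ (cc K N) * φ (XN K N) = 1 := by rw [← map_mul, e2, map_one]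
    rw [e1]
    unfold DD
    simp only [map_mul, map_neg, map_sub, map_one]
    set Q := φ (PP (cc K) (XN K N) (J + 1))⁻¹
    linear_combination (P * Q * φ (cc K J)) * hI + (P * Q * φ (cc K J) * I) * e2'

end AP

section MainI
variable {K : Type*} [Field K] {R : Type*} [CommRing R] [Algebra K R]

/-- The finite Leshchiner identity. -/
lemma mainI (N : ℕ) (hK : ∀ k : ℕ, 0 < k → k ≤ 2 * N → (k : K) ≠ 0) (X : R) (I : ℕ → R)
    (hI : ∀ j < N, (1 - algebraMap K R (cc K j) * X) * I j = 1) :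
    ∑ j ∈ range N, algebraMap K R (uu K j * xx K j) * PP (fun i => algebraMap K R (cc K i)) X j * I j
      - algebraMap K R 4⁻¹ *
        ∑ j ∈ range N, algebraMap K R (uu K j * xx K j) * PP (fun i => algebraMap K R (cc K i)) X j
      = ∑ j ∈ range N, algebraMap K R ((-1) ^ j * xx K j) * I j
        + algebraMap K R ((-1) ^ N) *
          ∑ j ∈ range N, PP (fun i => algebraMap K R (cc K i)) X j * algebraMap K R (bb K N j) := by
  induction N with
  | zero => simp
  | succ N ih =>
    have hK' : ∀ k : ℕ, 0 < k → k ≤ 2 * N → (k : K) ≠ 0 := fun k h h' => hK k h (by omega)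
    have ih' := ih hK' (fun j hj => hI j (by omega))
    have hAP := AP (K := K) (R := R) N N le_rfl hK' (hK _ (by omega) (by omega)) X (I N) (hI N (by omega))
    rw [PP_NN_inv N hK'] at hAP
    rw [sum_range_succ, sum_range_succ, sum_range_succ, sum_range_succ]
    set φ := algebraMap K R with hφ
    set c : ℕ → R := fun i => φ (cc K i) with hc
    have hsum : ∑ j ∈ range N, PP c X j * φ (bb K (N + 1) j)
        = φ (2 * (N : K) + 1) * ∑ j ∈ range N, PP c X j * φ (DD K N j)
          - ∑ j ∈ range N, PP c X j * φ (bb K N j) := by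
      rw [mul_sum, ← sum_sub_distrib]
      apply sum_congr rfl
      intro j hj
      have := bb_add N j (by simpa using hj) hK
      have h' : bb K (N + 1) j = (2 * (N : K) + 1) * DD K N j - bb K N j := by
        linear_combination this
      rw [h', map_sub, map_mul]; ring
    rw [hsum, hAP, bb_diag N hK]
    have e3 : (2 * (N : K) + 1) * cc K N = xx K N := by
      have := xx_mul (K := K) N (hK _ (by omega) (by omega))
      unfold cc
      linear_combination xx K N * this
    have e3' : φ (2 * (N : K) + 1) * φ (cc K N) = φ (xx K N) := by rw [← map_mul, e3]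
    have hs : (φ ((-1) ^ N)) * φ ((-1) ^ N) = 1 := by
      rw [← map_mul, ← mul_pow]; simp
    have hs' : φ ((-1) ^ (N + 1)) = - φ ((-1) ^ N) := by
      rw [pow_succ]; simp
    rw [hs']
    simp only [map_mul] at ih' e3' ⊢
    set s := φ ((-1) ^ N)
    linear_combination ih' + ((I N) * s * (1 - PP c X N * (s * φ (uu K N)))) * e3'
      - (φ (uu K N) * φ (xx K N) * PP c X N * (I N - φ 4⁻¹)) * hs

/-- The finite Leshchiner identity for even index, at `X = 0`. -/
lemma mainII (N : ℕ) (hK : ∀ k : ℕ, 0 < k → k ≤ 2 * N → (k : K) ≠ 0) :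
    ∑ j ∈ range N, cc K j
      = 5 * 4⁻¹ * ∑ j ∈ range N, (-1) ^ j * uu K j * cc K j
        - ∑ j ∈ range N, xx K j * bb K N j := by
  induction N with
  | zero => simp
  | succ N ih =>
    have hK' : ∀ k : ℕ, 0 < k → k ≤ 2 * N → (k : K) ≠ 0 := fun k h h' => hK k h (by omega)
    have ih' := ih hK'
    have hAP := AP (K := K) (R := K) N N le_rfl hK' (hK _ (by omega) (by omega)) 0 1 (by simp)
    rw [PP_NN_inv N hK'] at hAP
    have h20 : (2 : K) ≠ 0 := by exact_mod_cast hK 2 (by omega) (by omega)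
    have h40 : (4 : K) ≠ 0 := by
      have : (4 : K) = (2 ^ 2) := by norm_num
      rw [this]; exact (pow_ne_zero _ h20)
    have hP0 : ∀ j, PP (fun i => algebraMap K K (cc K i)) 0 j = 1 := by
      intro j; simp [PP]
    simp only [hP0] at hAP
    simp only [Algebra.algebraMap_self, RingHom.id_apply, one_mul, mul_one] at hAP
    rw [sum_range_succ, sum_range_succ, sum_range_succ]
    have hsum : ∑ j ∈ range N, xx K j * bb K (N + 1) j
        = ∑ j ∈ range N, xx K j * bb K N j - ∑ j ∈ range N, DD K N j := by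
      rw [← sum_sub_distrib]
      apply sum_congr rfl
      intro j hj
      have hj' : j < N := by simpa using hj
      have h1 := bb_sub N j hj' hK
      have h2 := xx_mul (K := K) j (hK _ (by omega) (by omega))
      linear_combination xx K j * h1 - DD K N j * h2
    rw [hsum, hAP, bb_diag N hK, ih']
    have hs : ((-1 : K) ^ N) * (-1) ^ N = 1 := by rw [← mul_pow]; simp
    unfold cc
    field_simp
    ring

end MainI

end Pool.Agent.Helper91.SC
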