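import Pool.Agent.Helper91.SCRel
import Pool.Agent.Helper91.SCTele

set_option autoImplicit false

namespace Pool.Agent.Helper91.SC

open Finset

/-- `O_j = sum_{i<j} x_i^2` -/
def OJ (K : Type*) [Field K] (j : ℕ) : K := ∑ i ∈ range j, cc K i

/-- `e_2(x_0^2, ..., x_{j-1}^2)` -/
def ee (K : Type*) [Field K] (j : ℕ) : K := ∑ i ∈ range j, cc K i * OJ K i

/-- `tau_j = sum_{i<j} c_i/(1 - c_i p^2)` -/
def tau (X : ℚ) (j : ℕ) : ℚ := ∑ i ∈ range j, cc ℚ i * (1 - cc ℚ i * X)⁻¹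

lemma OJ_succ (K : Type*) [Field K] (j : ℕ) : OJ K (j + 1) = OJ K j + cc K j := by
  unfold OJ; rw [sum_range_succ]

lemma ee_succ (K : Type*) [Field K] (j : ℕ) : ee K (j + 1) = ee K j + cc K j * OJ K j := by
  unfold ee; rw [sum_range_succ]

lemma tau_succ (X : ℚ) (j : ℕ) : tau X (j + 1) = tau X j + cc ℚ j * (1 - cc ℚ j * X)⁻¹ := by
  unfold tau; rw [sum_range_succ]

section
variable {p : ℕ} [hp : Fact p.Prime] {n : ℕ}

lemma cc_mem (hpn : p = 2 * n + 1) (j : ℕ) (hj : j < n) : cc ℚ j ∈ OO p := pow_mem (xx_mem hpn j hj) 2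

lemma OJ_mem (hpn : p = 2 * n + 1) (j : ℕ) (hj : j ≤ n) : OJ ℚ j ∈ OO p :=
  OO_sum _ _ (fun i hi => cc_mem hpn i (by simp only [mem_range] at hi; omega))

lemma ee_mem (hpn : p = 2 * n + 1) (j : ℕ) (hj : j ≤ n) : ee ℚ j ∈ OO p :=
  OO_sum _ _ (fun i hi => by
    simp only [mem_range] at hi
    exact mul_mem (cc_mem hpn i (by omega)) (OJ_mem hpn i (by omega)))

lemma P_mem (hpn : p = 2 * n + 1) (j : ℕ) (hj : j ≤ n) : PP (cc ℚ) ((p : ℚ) ^ 2) j ∈ OO p := by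
  unfold PP
  apply prod_mem
  intro i hi
  simp only [mem_range] at hi
  exact sub_mem (OO p).one_mem (mul_mem (cc_mem hpn i (by omega)) (pow_mem OO_p _))

lemma P_D2 (hpn : p = 2 * n + 1) (j : ℕ) (hj : j ≤ n) : DD' p 2 (PP (cc ℚ) ((p : ℚ) ^ 2) j - 1) := by
  induction j with
  | zero => rw [PP_zero, sub_self]; exact D_zero 2
  | succ j ih =>
    have e : PP (cc ℚ) ((p : ℚ) ^ 2) (j + 1) - 1
        = (PP (cc ℚ) ((p : ℚ) ^ 2) j - 1) - p ^ 2 * (PP (cc ℚ) ((p : ℚ) ^ 2) j * cc ℚ j) := by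
      rw [PP_succ]; ring
    rw [e]
    exact D_sub (ih (by omega)) (D_pmul (mul_mem (P_mem hpn j (by omega)) (cc_mem hpn j (by omega))))

lemma P_D4 (hpn : p = 2 * n + 1) (j : ℕ) (hj : j ≤ n) :
    DD' p 4 (PP (cc ℚ) ((p : ℚ) ^ 2) j - 1 + p ^ 2 * OJ ℚ j) := by
  induction j with
  | zero => rw [PP_zero]; unfold OJ; simpa using D_zero 4
  | succ j ih =>
    have e : PP (cc ℚ) ((p : ℚ) ^ 2) (j + 1) - 1 + p ^ 2 * OJ ℚ (j + 1)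
        = (PP (cc ℚ) ((p : ℚ) ^ 2) j - 1 + p ^ 2 * OJ ℚ j)
          - cc ℚ j * (p ^ 2 * (PP (cc ℚ) ((p : ℚ) ^ 2) j - 1)) := by
      rw [PP_succ, OJ_succ]; ring
    rw [e]
    exact D_sub (ih (by omega)) (D_smul (cc_mem hpn j (by omega))
      ((D_shift (p := p) (k := 2) (m := 2)).mpr (P_D2 hpn j (by omega))))

lemma one_sub_ne (hpn : p = 2 * n + 1) (j : ℕ) (hj : j < n) : 1 - cc ℚ j * (p : ℚ) ^ 2 ≠ 0 := by
  have h := cc_mul (K := ℚ) j (by positivity)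
  intro h0
  have h1 : ((2 * (j : ℚ) + 1)) ^ 2 = (p : ℚ) ^ 2 := by
    linear_combination (2 * (j : ℚ) + 1) ^ 2 * h0 + p ^ 2 * h
  have h2 : (2 * (j : ℚ) + 1) = (p : ℚ) := by
    have ha : (0 : ℚ) ≤ 2 * (j : ℚ) + 1 := by positivity
    have hb : (0 : ℚ) ≤ (p : ℚ) := by positivity
    nlinarith [sq_nonneg ((2 * (j : ℚ) + 1) - (p : ℚ)), sq_nonneg ((2 * (j : ℚ) + 1) + (p : ℚ)),
      (pow_left_inj₀ ha hb (by norm_num : (2 : ℕ) ≠ 0)).mp h1]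
  have h3 : 2 * j + 1 = p := by exact_mod_cast h2
  omega

lemma RR_one_sub (hpn : p = 2 * n + 1) (j : ℕ) (hj : j < n) : RR p (1 - cc ℚ j * (p : ℚ) ^ 2) 1 := by
  apply RR_of_D (RR_one)
  have : (1 - cc ℚ j * (p : ℚ) ^ 2) - 1 = p ^ 1 * (-(cc ℚ j * p)) := by ring
  rw [this]
  exact D_pmul (neg_mem (mul_mem (cc_mem hpn j hj) OO_p))

lemma inv_mem (hpn : p = 2 * n + 1) (j : ℕ) (hj : j < n) : (1 - cc ℚ j * (p : ℚ) ^ 2)⁻¹ ∈ OO p :=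
  (RR_inv (RR_one_sub hpn j hj) one_ne_zero).1

lemma RR_P (hpn : p = 2 * n + 1) (j : ℕ) (hj : j ≤ n) : RR p (PP (cc ℚ) ((p : ℚ) ^ 2) j) 1 :=
  RR_of_D (RR_one) (D_mono (by omega) (P_D2 hpn j hj))

lemma Pinv_mem (hpn : p = 2 * n + 1) (j : ℕ) (hj : j ≤ n) : (PP (cc ℚ) ((p : ℚ) ^ 2) j)⁻¹ ∈ OO p :=
  (RR_inv (RR_P hpn j hj) one_ne_zero).1

lemma P_ne (hpn : p = 2 * n + 1) (j : ℕ) (hj : j ≤ n) : PP (cc ℚ) ((p : ℚ) ^ 2) j ≠ 0 := by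
  unfold PP
  apply prod_ne_zero_iff.mpr
  intro i hi
  simp only [mem_range] at hi
  exact one_sub_ne hpn i (by omega)

lemma Pinv_D4 (hpn : p = 2 * n + 1) (j : ℕ) (hj : j ≤ n) :
    DD' p 4 ((PP (cc ℚ) ((p : ℚ) ^ 2) j)⁻¹ - 1 - p ^ 2 * OJ ℚ j) := by
  have h1 := P_D4 hpn j hj
  have h2 := P_ne hpn j hj
  have h3 := Pinv_mem hpn j hj
  have h4 := OJ_mem hpn j hj
  have h5 : (PP (cc ℚ) ((p : ℚ) ^ 2) j)⁻¹ * PP (cc ℚ) ((p : ℚ) ^ 2) j = 1 := inv_mul_cancel₀ h2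
  set P := PP (cc ℚ) ((p : ℚ) ^ 2) j
  set O := OJ ℚ j
  have e : P⁻¹ - 1 - p ^ 2 * O = -((P⁻¹ * (1 + p ^ 2 * O)) * (P - 1 + p ^ 2 * O)) + p ^ 4 * (P⁻¹ * O ^ 2) := by
    linear_combination (1 + p ^ 2 * O) * h5
  rw [e]
  apply D_add (D_neg (D_smul _ h1)) (D_pmul (mul_mem h3 (pow_mem h4 2)))
  exact mul_mem h3 (add_mem (OO p).one_mem (mul_mem (pow_mem OO_p _) h4))

lemma tau_mem (hpn : p = 2 * n + 1) (j : ℕ) (hj : j ≤ n) : tau ((p : ℚ) ^ 2) j ∈ OO p :=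
  OO_sum _ _ (fun i hi => by
    simp only [mem_range] at hi
    exact mul_mem (cc_mem hpn i (by omega)) (inv_mem hpn i (by omega)))

/-- `P_j tau_j = O_j` mod `p^2` -/
lemma Ptau_D2 (hpn : p = 2 * n + 1) (j : ℕ) (hj : j ≤ n) :
    DD' p 2 (PP (cc ℚ) ((p : ℚ) ^ 2) j * tau ((p : ℚ) ^ 2) j - OJ ℚ j) := by
  induction j with
  | zero => rw [PP_zero]; unfold OJ tau; simpa using D_zero 2
  | succ j ih =>
    have h0 := one_sub_ne hpn j (by omega)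
    have h5 : (1 - cc ℚ j * (p : ℚ) ^ 2) * (1 - cc ℚ j * (p : ℚ) ^ 2)⁻¹ = 1 := mul_inv_cancel₀ h0
    rw [PP_succ, tau_succ, OJ_succ]
    set P := PP (cc ℚ) ((p : ℚ) ^ 2) j with hP
    set T := tau ((p : ℚ) ^ 2) j with hT
    have e : P * (1 - cc ℚ j * (p : ℚ) ^ 2) * (T + cc ℚ j * (1 - cc ℚ j * (p : ℚ) ^ 2)⁻¹) - (OJ ℚ j + cc ℚ j)
        = (P * T - OJ ℚ j) - p ^ 2 * (cc ℚ j * (P * T)) + cc ℚ j * (P - 1) := by
      linear_combination (P * cc ℚ j) * h5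
    rw [e]
    have hPm : P ∈ OO p := P_mem hpn j (by omega)
    have hTm : T ∈ OO p := tau_mem hpn j (by omega)
    have hc := cc_mem hpn j (show j < n by omega)
    exact D_add (D_sub (ih (by omega)) (D_pmul (mul_mem hc (mul_mem hPm hTm)))) (D_smul hc (P_D2 hpn j (by omega)))

/-- `1 - P_j = p^2 P_j tau_j + p^4 e_2` mod `p^6` -/
lemma bracket (hpn : p = 2 * n + 1) (j : ℕ) (hj : j ≤ n) :
    DD' p 6 (1 - PP (cc ℚ) ((p : ℚ) ^ 2) j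
      - p ^ 2 * (PP (cc ℚ) ((p : ℚ) ^ 2) j * tau ((p : ℚ) ^ 2) j) - p ^ 4 * ee ℚ j) := by
  induction j with
  | zero => rw [PP_zero]; unfold ee tau; simpa using D_zero 6
  | succ j ih =>
    have h0 := one_sub_ne hpn j (by omega)
    have h5 : (1 - cc ℚ j * (p : ℚ) ^ 2) * (1 - cc ℚ j * (p : ℚ) ^ 2)⁻¹ = 1 := mul_inv_cancel₀ h0
    rw [PP_succ, tau_succ, ee_succ]
    set P := PP (cc ℚ) ((p : ℚ) ^ 2) j with hP
    set T := tau ((p : ℚ) ^ 2) j with hT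
    have e : 1 - P * (1 - cc ℚ j * (p : ℚ) ^ 2)
          - p ^ 2 * (P * (1 - cc ℚ j * (p : ℚ) ^ 2) * (T + cc ℚ j * (1 - cc ℚ j * (p : ℚ) ^ 2)⁻¹))
          - p ^ 4 * (ee ℚ j + cc ℚ j * OJ ℚ j)
        = (1 - P - p ^ 2 * (P * T) - p ^ 4 * ee ℚ j) + cc ℚ j * (p ^ 4 * (P * T - OJ ℚ j)) := by
      linear_combination (-(p ^ 2 * P * cc ℚ j)) * h5
    rw [e]
    have hc := cc_mem hpn j (show j < n by omega)
    exact D_add (ih (by omega)) (D_smul hc ((D_shift (p := p) (k := 4) (m := 2)).mpr (Ptau_D2 hpn j (by omega))))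

lemma uu_mem (hpn : p = 2 * n + 1) (hn : 0 < n) (j : ℕ) : uu ℚ j ∈ OO p := by
  unfold uu
  rw [div_eq_mul_inv, ← inv_pow]
  have h16 : ((16 : ℚ))⁻¹ ∈ OO p := by
    have e : ((16 : ℚ))⁻¹ = ((2 : ℚ)⁻¹) ^ 4 := by norm_num
    rw [e]; exact pow_mem (half_mem hpn hn) 4
  exact mul_mem (OO_nat _) (pow_mem h16 _)

end

/-- elementary symmetric identity -/
lemma e2_id (c : ℕ → ℚ) (m : ℕ) :
    2 * ∑ j ∈ range m, c j * ∑ i ∈ range j, c i = (∑ j ∈ range m, c j) ^ 2 - ∑ j ∈ range m, c j ^ 2 := by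
  induction m with
  | zero => simp
  | succ m ih => rw [sum_range_succ, sum_range_succ (fun j => c j), sum_range_succ (fun j => c j ^ 2), mul_add, ih]; ring

end Pool.Agent.Helper91.SC
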