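import Mathlib

set_option autoImplicit false

namespace Pool.Agent.Helper91.SC

open Finset

/-- `x_j = 1/(2j+1)` -/
def xx (K : Type*) [Field K] (j : ℕ) : K := (2 * (j : K) + 1)⁻¹

/-- `u_j = binom(2j,j)/16^j` -/
def uu (K : Type*) [Field K] (j : ℕ) : K := (Nat.centralBinom j : K) / 16 ^ j

/-- `P_j(X) = prod_{i<j} (1 - c_i X)` -/
def PP {R : Type*} [CommRing R] (c : ℕ → R) (X : R) (j : ℕ) : R :=
  ∏ i ∈ range j, (1 - c i * X)

lemma PP_zero {R : Type*} [CommRing R] (c : ℕ → R) (X : R) : PP c X 0 = 1 := by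
  simp [PP]

lemma PP_succ {R : Type*} [CommRing R] (c : ℕ → R) (X : R) (j : ℕ) :
    PP c X (j + 1) = PP c X j * (1 - c j * X) := by
  simp [PP, prod_range_succ]

/-- `X_N = (2N+1)^2` -/
def XN (K : Type*) [Field K] (N : ℕ) : K := (2 * (N : K) + 1) ^ 2

section
variable {K : Type*} [Field K]

lemma xx_mul (j : ℕ) (h : ((2 * j + 1 : ℕ) : K) ≠ 0) : xx K j * (2 * (j : K) + 1) = 1 := by
  unfold xx
  have : (2 * (j : K) + 1) ≠ 0 := by exact_mod_cast h
  field_simp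

/-- the `K`-level coefficient sequence `c_i = x_i^2` -/
def cc (K : Type*) [Field K] (i : ℕ) : K := xx K i ^ 2

lemma factor_eq (j N : ℕ) (h : ((2 * j + 1 : ℕ) : K) ≠ 0) :
    1 - cc K j * XN K N = -4 * cc K j * (((N : K) - j) * ((N : K) + j + 1)) := by
  have h1 := xx_mul j h
  unfold cc XN
  linear_combination (-1 - xx K j * (2 * (j : K) + 1)) * h1

lemma L1 (N j : ℕ) (h : ∀ i < j, ((2 * i + 1 : ℕ) : K) ≠ 0) :
    PP (cc K) (XN K (N + 1)) j * ((N : K) + 1 - j) = PP (cc K) (XN K N) j * ((N : K) + 1 + j) := by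
  induction j with
  | zero => simp [PP_zero]
  | succ j ih =>
    have ih' := ih (fun i hi => h i (Nat.lt_succ_of_lt hi))
    have hj := h j (Nat.lt_succ_self j)
    rw [PP_succ, PP_succ, factor_eq j N hj, factor_eq j (N + 1) hj]
    push_cast
    linear_combination (-4 * cc K j * ((N : K) + j + 2) * ((N : K) - j)) * ih'

lemma choose_step (N j : ℕ) (hj : j ≤ N) :
    ((Nat.choose (N + (j + 1)) (2 * (j + 1)) : ℕ) : ℤ) * ((2 * j + 2) * (2 * j + 1))
      = (Nat.choose (N + j) (2 * j) : ℕ) * ((N + j + 1) * ((N : ℤ) - j)) := by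
  have e1 : Nat.choose (N + j + 1) (2 * j + 1 + 1) * (2 * j + 1 + 1)
      = Nat.choose (N + j + 1) (2 * j + 1) * ((N + j + 1) - (2 * j + 1)) :=
    Nat.choose_succ_right_eq (N + j + 1) (2 * j + 1)
  have e2 : (N + j + 1) * Nat.choose (N + j) (2 * j) = Nat.choose (N + j + 1) (2 * j + 1) * (2 * j + 1) :=
    Nat.add_one_mul_choose_eq (N + j) (2 * j)
  have e3 : ((N + j + 1) - (2 * j + 1) : ℕ) = N - j := by omega
  rw [e3] at e1
  have e4 : ((N - j : ℕ) : ℤ) = (N : ℤ) - j := by push_cast [Nat.cast_sub hj]; ring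
  have e1' : ((Nat.choose (N + j + 1) (2 * j + 1 + 1) : ℕ) : ℤ) * (2 * j + 1 + 1)
      = (Nat.choose (N + j + 1) (2 * j + 1) : ℕ) * ((N : ℤ) - j) := by
    rw [← e4]; exact_mod_cast e1
  have e2' : ((N : ℤ) + j + 1) * (Nat.choose (N + j) (2 * j) : ℕ)
      = (Nat.choose (N + j + 1) (2 * j + 1) : ℕ) * (2 * j + 1) := by exact_mod_cast e2
  have e5 : N + (j + 1) = N + j + 1 := by ring
  have e6 : 2 * (j + 1) = 2 * j + 1 + 1 := by ring
  rw [e5, e6]
  linear_combination (2 * (j : ℤ) + 1) * e1' - ((N : ℤ) - j) * e2'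

lemma uu_step (j : ℕ) (h2 : (2 : K) ≠ 0) (hj : ((j + 1 : ℕ) : K) ≠ 0) :
    uu K (j + 1) * (8 * ((j : K) + 1)) = uu K j * (2 * (j : K) + 1) := by
  have e := Nat.succ_mul_centralBinom_succ j
  have e' : ((j : K) + 1) * (Nat.centralBinom (j + 1) : K) = 2 * (2 * (j : K) + 1) * (Nat.centralBinom j : K) := by
    exact_mod_cast congrArg (fun n : ℕ => (n : K)) e
  have h16 : (16 : K) ≠ 0 := by
    have : (16 : K) = 2 ^ 4 := by norm_num
    rw [this]; exact pow_ne_zero _ h2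
  unfold uu
  have hp : (16 : K) ^ j ≠ 0 := pow_ne_zero _ h16
  rw [pow_succ]
  field_simp
  linear_combination 8 * e'

lemma cc_mul (j : ℕ) (h : ((2 * j + 1 : ℕ) : K) ≠ 0) : cc K j * (2 * (j : K) + 1) ^ 2 = 1 := by
  have hx := xx_mul j h
  unfold cc
  linear_combination (1 + xx K j * (2 * (j : K) + 1)) * hx

lemma L2 (N j : ℕ) (hj : j ≤ N) (h2 : (2 : K) ≠ 0)
    (h : ∀ i < j, ((2 * i + 1 : ℕ) : K) ≠ 0) (h' : ∀ i < j, ((i + 1 : ℕ) : K) ≠ 0) :
    uu K j * PP (cc K) (XN K N) j = (-1) ^ j * (Nat.choose (N + j) (2 * j) : ℕ) := by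
  induction j with
  | zero => simp [PP_zero, uu]
  | succ j ih =>
    have ih' := ih (by omega) (fun i hi => h i (Nat.lt_succ_of_lt hi))
      (fun i hi => h' i (Nat.lt_succ_of_lt hi))
    have hj1 := h j (Nat.lt_succ_self j)
    have hj2 := h' j (Nat.lt_succ_self j)
    have hu := uu_step (K := K) j h2 hj2
    have hc := choose_step N j
    have hc' : ((Nat.choose (N + (j + 1)) (2 * (j + 1)) : ℕ) : K) * ((2 * j + 2) * (2 * j + 1))
      = (Nat.choose (N + j) (2 * j) : ℕ) * ((N + j + 1) * ((N : K) - j)) := by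
      exact_mod_cast congrArg (fun z : ℤ => (z : K)) (hc (by omega))
    rw [PP_succ, factor_eq j N hj1]
    have hne : (8 * ((j : K) + 1)) * (2 * (j : K) + 1) ≠ 0 := by
      apply mul_ne_zero
      · apply mul_ne_zero
        · have : (8 : K) = 2 ^ 3 := by norm_num
          rw [this]; exact pow_ne_zero _ h2
        · exact_mod_cast hj2
      · exact_mod_cast hj1
    apply mul_left_cancel₀ hne
    have hx2 := cc_mul j hj1
    rw [pow_succ]
    linear_combination ((2 * (j : K) + 1) * PP (cc K) (XN K N) j * (-4 * cc K j * (((N : K) - j) * ((N : K) + j + 1)))) * hu +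
        (-4 * (uu K j * PP (cc K) (XN K N) j) * (((N : K) - j) * ((N : K) + j + 1))) * hx2
        + (-4 * (((N : K) - j) * ((N : K) + j + 1))) * ih' + (4 * (-1) ^ j) * hc'

/-- `C(m) = 2 cos(m pi/3)`, the period 6 sequence `2,1,-1,-2,-1,1`. -/
def c6 (m : ℤ) : ℤ :=
  if m % 6 = 0 then 2 else if m % 6 = 1 then 1 else if m % 6 = 2 then -1
  else if m % 6 = 3 then -2 else if m % 6 = 4 then -1 else 1

lemma c6_congr {a b : ℤ} (h : a % 6 = b % 6) : c6 a = c6 b := by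
  unfold c6; rw [h]

lemma c6_rec (m : ℤ) : c6 (m + 1) = c6 m - c6 (m - 1) := by
  have h : m % 6 = 0 ∨ m % 6 = 1 ∨ m % 6 = 2 ∨ m % 6 = 3 ∨ m % 6 = 4 ∨ m % 6 = 5 := by omega
  rcases h with h | h | h | h | h | h
  · rw [c6_congr (show (m + 1) % 6 = (1:ℤ) % 6 by omega), c6_congr (show (m) % 6 = (0:ℤ) % 6 by omega), c6_congr (show (m - 1) % 6 = (5:ℤ) % 6 by omega)] <;> rfl
  · rw [c6_congr (show (m + 1) % 6 = (2:ℤ) % 6 by omega), c6_congr (show (m) % 6 = (1:ℤ) % 6 by omega), c6_congr (show (m - 1) % 6 = (0:ℤ) % 6 by omega)] <;> rfl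
  · rw [c6_congr (show (m + 1) % 6 = (3:ℤ) % 6 by omega), c6_congr (show (m) % 6 = (2:ℤ) % 6 by omega), c6_congr (show (m - 1) % 6 = (1:ℤ) % 6 by omega)] <;> rfl
  · rw [c6_congr (show (m + 1) % 6 = (4:ℤ) % 6 by omega), c6_congr (show (m) % 6 = (3:ℤ) % 6 by omega), c6_congr (show (m - 1) % 6 = (2:ℤ) % 6 by omega)] <;> rfl
  · rw [c6_congr (show (m + 1) % 6 = (5:ℤ) % 6 by omega), c6_congr (show (m) % 6 = (4:ℤ) % 6 by omega), c6_congr (show (m - 1) % 6 = (3:ℤ) % 6 by omega)] <;> rfl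
  · rw [c6_congr (show (m + 1) % 6 = (0:ℤ) % 6 by omega), c6_congr (show (m) % 6 = (5:ℤ) % 6 by omega), c6_congr (show (m - 1) % 6 = (4:ℤ) % 6 by omega)] <;> rfl

lemma c6_neg (m : ℤ) : c6 (-m) = c6 m := by
  have h : m % 6 = 0 ∨ m % 6 = 1 ∨ m % 6 = 2 ∨ m % 6 = 3 ∨ m % 6 = 4 ∨ m % 6 = 5 := by omega
  rcases h with h | h | h | h | h | h
  · rw [c6_congr (show (-m) % 6 = (0:ℤ) % 6 by omega), c6_congr (show (m) % 6 = (0:ℤ) % 6 by omega)] <;> rfl
  · rw [c6_congr (show (-m) % 6 = (5:ℤ) % 6 by omega), c6_congr (show (m) % 6 = (1:ℤ) % 6 by omega)] <;> rfl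
  · rw [c6_congr (show (-m) % 6 = (4:ℤ) % 6 by omega), c6_congr (show (m) % 6 = (2:ℤ) % 6 by omega)] <;> rfl
  · rw [c6_congr (show (-m) % 6 = (3:ℤ) % 6 by omega), c6_congr (show (m) % 6 = (3:ℤ) % 6 by omega)] <;> rfl
  · rw [c6_congr (show (-m) % 6 = (2:ℤ) % 6 by omega), c6_congr (show (m) % 6 = (4:ℤ) % 6 by omega)] <;> rfl
  · rw [c6_congr (show (-m) % 6 = (1:ℤ) % 6 by omega), c6_congr (show (m) % 6 = (5:ℤ) % 6 by omega)] <;> rfl

lemma c6_three (m : ℤ) : c6 (2 * m + 5) + c6 (2 * m + 3) + c6 (2 * m + 1) = 0 := by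
  have h : m % 6 = 0 ∨ m % 6 = 1 ∨ m % 6 = 2 ∨ m % 6 = 3 ∨ m % 6 = 4 ∨ m % 6 = 5 := by omega
  rcases h with h | h | h | h | h | h
  · rw [c6_congr (show (2 * m + 5) % 6 = (5:ℤ) % 6 by omega), c6_congr (show (2 * m + 3) % 6 = (3:ℤ) % 6 by omega), c6_congr (show (2 * m + 1) % 6 = (1:ℤ) % 6 by omega)] <;> rfl
  · rw [c6_congr (show (2 * m + 5) % 6 = (1:ℤ) % 6 by omega), c6_congr (show (2 * m + 3) % 6 = (5:ℤ) % 6 by omega), c6_congr (show (2 * m + 1) % 6 = (3:ℤ) % 6 by omega)] <;> rfl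
  · rw [c6_congr (show (2 * m + 5) % 6 = (3:ℤ) % 6 by omega), c6_congr (show (2 * m + 3) % 6 = (1:ℤ) % 6 by omega), c6_congr (show (2 * m + 1) % 6 = (5:ℤ) % 6 by omega)] <;> rfl
  · rw [c6_congr (show (2 * m + 5) % 6 = (5:ℤ) % 6 by omega), c6_congr (show (2 * m + 3) % 6 = (3:ℤ) % 6 by omega), c6_congr (show (2 * m + 1) % 6 = (1:ℤ) % 6 by omega)] <;> rfl
  · rw [c6_congr (show (2 * m + 5) % 6 = (1:ℤ) % 6 by omega), c6_congr (show (2 * m + 3) % 6 = (5:ℤ) % 6 by omega), c6_congr (show (2 * m + 1) % 6 = (3:ℤ) % 6 by omega)] <;> rfl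
  · rw [c6_congr (show (2 * m + 5) % 6 = (3:ℤ) % 6 by omega), c6_congr (show (2 * m + 3) % 6 = (1:ℤ) % 6 by omega), c6_congr (show (2 * m + 1) % 6 = (5:ℤ) % 6 by omega)] <;> rfl

/-- `t(N,j) = binom(N+j+1,2j+1) + binom(N+j,2j+1)` -/
def tt (N j : ℕ) : ℤ := (Nat.choose (N + j + 1) (2 * j + 1) : ℤ) + Nat.choose (N + j) (2 * j + 1)

lemma tt_zero_of_lt (N j : ℕ) (h : N < j) : tt N j = 0 := by
  unfold tt
  rw [Nat.choose_eq_zero_of_lt (by omega), Nat.choose_eq_zero_of_lt (by omega)]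
  simp

lemma choose_second (M r : ℕ) :
    (Nat.choose (M + 2) (r + 2) : ℤ) - 2 * Nat.choose (M + 1) (r + 2) + Nat.choose M (r + 2)
      = Nat.choose M r := by
  have h1 : Nat.choose (M + 2) (r + 2) = Nat.choose (M + 1) (r + 1) + Nat.choose (M + 1) (r + 2) :=
    Nat.choose_succ_succ (M + 1) (r + 1)
  have h2 : Nat.choose (M + 1) (r + 1) = Nat.choose M r + Nat.choose M (r + 1) :=
    Nat.choose_succ_succ M r
  have h3 : Nat.choose (M + 1) (r + 2) = Nat.choose M (r + 1) + Nat.choose M (r + 2) :=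
    Nat.choose_succ_succ M (r + 1)
  rw [h1, h2, h3]; push_cast; ring

lemma tt_rec (N j : ℕ) : tt (N + 2) (j + 1) - 2 * tt (N + 1) (j + 1) + tt N (j + 1) = tt (N + 1) j := by
  unfold tt
  have h1 := choose_second (N + j + 2) (2 * j + 1)
  have h2 := choose_second (N + j + 1) (2 * j + 1)
  have e1 : N + 2 + (j + 1) + 1 = N + j + 2 + 2 := by ring
  have e2 : N + 1 + (j + 1) + 1 = N + j + 2 + 1 := by ring
  have e3 : N + (j + 1) + 1 = N + j + 2 := by ring
  have e4 : N + 2 + (j + 1) = N + j + 1 + 2 := by ring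
  have e5 : N + 1 + (j + 1) = N + j + 1 + 1 := by ring
  have e6 : N + (j + 1) = N + j + 1 := by ring
  have e7 : N + 1 + j + 1 = N + j + 2 := by ring
  have e8 : N + 1 + j = N + j + 1 := by ring
  have e9 : 2 * (j + 1) + 1 = 2 * j + 1 + 2 := by ring
  rw [e1, e2, e3, e4, e5, e6, e7, e8, e9]
  linear_combination h1 + h2

lemma tt_sum_ext (N M : ℕ) (h : N + 1 ≤ M) :
    ∑ j ∈ range M, (-1 : ℤ) ^ j * tt N j = ∑ j ∈ range (N + 1), (-1 : ℤ) ^ j * tt N j := by
  symm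
  apply sum_subset
  · intro x hx; simp only [mem_range] at *; omega
  · intro x _ hx
    simp only [mem_range, not_lt] at hx
    rw [tt_zero_of_lt N x (by omega)]; simp

lemma tt_sum (N : ℕ) :
    ∑ j ∈ range (N + 1), (-1 : ℤ) ^ j * tt N j = (-1) ^ N * c6 (2 * N + 1) := by
  induction N using Nat.twoStepInduction with
  | zero => simp [tt, c6]
  | one => simp [tt, c6, sum_range_succ]
  | more N ih0 ih1 =>
    have key : ∑ j ∈ range (N + 3), (-1 : ℤ) ^ j * tt (N + 2) j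
        - 2 * ∑ j ∈ range (N + 3), (-1 : ℤ) ^ j * tt (N + 1) j
        + ∑ j ∈ range (N + 3), (-1 : ℤ) ^ j * tt N j
        = - ∑ j ∈ range (N + 2), (-1 : ℤ) ^ j * tt (N + 1) j := by
      have e : ∑ j ∈ range (N + 3), (-1 : ℤ) ^ j * tt (N + 2) j
        - 2 * ∑ j ∈ range (N + 3), (-1 : ℤ) ^ j * tt (N + 1) j
        + ∑ j ∈ range (N + 3), (-1 : ℤ) ^ j * tt N j
        = ∑ j ∈ range (N + 3), (-1 : ℤ) ^ j * (tt (N + 2) j - 2 * tt (N + 1) j + tt N j) := by
        rw [mul_sum, ← sum_sub_distrib, ← sum_add_distrib]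
        apply sum_congr rfl; intros; ring
      rw [e, sum_range_succ' _ (N + 2)]
      have e0 : tt (N + 2) 0 - 2 * tt (N + 1) 0 + tt N 0 = 0 := by
        simp [tt]; ring
      rw [e0, mul_zero, add_zero, ← sum_neg_distrib]
      apply sum_congr rfl
      intro j _
      rw [tt_rec, pow_succ]; ring
    rw [tt_sum_ext (N + 1) (N + 3) (by omega), tt_sum_ext N (N + 3) (by omega), ih0, ih1] at key
    have h3 := c6_three N
    have e1 : (2 * ((N + 1 : ℕ) : ℤ) + 1) = 2 * N + 3 := by push_cast; ring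
    have e2 : (2 * ((N + 2 : ℕ) : ℤ) + 1) = 2 * N + 5 := by push_cast; ring
    rw [e1] at key
    rw [e2]
    have e3 : (N + 2 + 1) = N + 3 := by ring
    rw [e3]
    simp only [pow_succ] at key ⊢
    linear_combination key - (-1) ^ N * h3

lemma tt_rel (N j : ℕ) : (2 * (j : ℤ) + 1) * tt N j = (2 * N + 1) * Nat.choose (N + j) (2 * j) := by
  unfold tt
  have h1 : Nat.choose (N + j + 1) (2 * j + 1) = Nat.choose (N + j) (2 * j) + Nat.choose (N + j) (2 * j + 1) :=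
    Nat.choose_succ_succ (N + j) (2 * j)
  have h2 : (Nat.choose (N + j) (2 * j + 1) : ℤ) * (2 * j + 1)
      = Nat.choose (N + j) (2 * j) * ((N : ℤ) - j) := by
    rcases Nat.lt_or_ge N j with h | h
    · rw [Nat.choose_eq_zero_of_lt (show N + j < 2 * j + 1 by omega),
        Nat.choose_eq_zero_of_lt (show N + j < 2 * j by omega)]; simp
    · have := Nat.choose_succ_right_eq (N + j) (2 * j)
      have e : N + j - 2 * j = N - j := by omega
      rw [e] at this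
      have e4 : ((N - j : ℕ) : ℤ) = (N : ℤ) - j := by push_cast [Nat.cast_sub h]; ring
      rw [← e4]
      exact_mod_cast this
  rw [h1]; push_cast
  linear_combination 2 * h2

/-- evaluation of the truncated sum at the nodes -/
lemma S_lemma (N : ℕ) (h2 : (2 : K) ≠ 0) (hK : ∀ k : ℕ, 0 < k → k ≤ 2 * N + 1 → (k : K) ≠ 0) :
    ∑ j ∈ range (N + 1), uu K j * xx K j * PP (cc K) (XN K N) j
      = xx K N * ((-1) ^ N * (c6 (2 * N + 1) : ℤ)) := by
  have hN := hK (2 * N + 1) (by omega) le_rfl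
  have hxN := xx_mul N hN
  have e : ∀ j ∈ range (N + 1), uu K j * xx K j * PP (cc K) (XN K N) j
      = xx K N * (((-1 : ℤ) ^ j * tt N j : ℤ) : K) := by
    intro j hj
    simp only [mem_range] at hj
    have hl := L2 N j (by omega) h2 (fun i hi => hK _ (by omega) (by omega))
      (fun i hi => hK _ (by omega) (by omega))
    have hx := xx_mul j (hK (2 * j + 1) (by omega) (by omega))
    have ht : (2 * (j : K) + 1) * ((tt N j : ℤ) : K) = (2 * N + 1) * (Nat.choose (N + j) (2 * j) : ℕ) := by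
      exact_mod_cast congrArg (fun z : ℤ => (z : K)) (tt_rel N j)
    push_cast
    linear_combination (xx K j) * hl + xx K N * (-1) ^ j * ((tt N j : ℤ) : K) * hx
      - (xx K j * xx K N * (-1) ^ j) * ht - xx K j * (-1) ^ j * (Nat.choose (N + j) (2 * j) : ℕ) * hxN
  rw [sum_congr rfl e, ← mul_sum, ← Int.cast_sum, tt_sum]
  push_cast; ring

end

end Pool.Agent.Helper91.SC
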