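import Pool.Agent.Helper91.SCTele3

set_option autoImplicit false

namespace Pool.Agent.Helper91.SC

open Finset

/-- `y_j^2/4` for `y_j = 2j+1` -/
def Zj (j : ℕ) : ℚ := (2 * (j : ℚ) + 1) ^ 2 * 4⁻¹

lemma QQ_odd_ne (j k : ℕ) : QQ (Zj j) k ≠ 0 := by
  unfold QQ
  apply prod_ne_zero_iff.mpr
  intro i _
  unfold Zj
  have h1 : ((i : ℚ) + 1) ≠ 0 := by positivity
  intro h0
  have h2 : ((2 * (j : ℚ) + 1) ^ 2) = (2 * ((i : ℚ) + 1)) ^ 2 := by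
    field_simp at h0
    linear_combination -h0
  have h3 : ((2 * (j : ℤ) + 1) ^ 2) = (2 * ((i : ℤ) + 1)) ^ 2 := by exact_mod_cast h2
  have h4 : (2 * (j : ℤ) + 1) = (2 * ((i : ℤ) + 1)) ∨ (2 * (j : ℤ) + 1) = -(2 * ((i : ℤ) + 1)) :=
    sq_eq_sq_iff_eq_or_eq_neg.mp h3
  omega

/-- `w_j` -/
def ww (k j : ℕ) : ℚ :=
  ((2 * (j : ℚ) + 1) + 2 * ((k : ℚ) + 1)) * ((2 * (j : ℚ) + 1) * QQ (Zj j) (k + 1))⁻¹

lemma ww_step (k j : ℕ) :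
    4 * ((k : ℚ) + 1) * (xx ℚ j * (QQ (Zj j) (k + 1))⁻¹) = ww k j - ww k (j + 1) := by
  have hr := QQ_ratio2 (K := ℚ) (2 * (j : ℚ) + 1) (k + 1) (by norm_num)
    (fun i h _ => by exact_mod_cast h.ne')
  have hq := QQ_odd_ne j (k + 1)
  have hq' := QQ_odd_ne (j + 1) (k + 1)
  have hZ : ((2 * (j : ℚ) + 1 + 2) ^ 2 * 4⁻¹) = Zj (j + 1) := by unfold Zj; push_cast; ring
  have hZ' : ((2 * (j : ℚ) + 1) ^ 2 * 4⁻¹) = Zj j := rfl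
  rw [hZ, hZ'] at hr
  unfold ww xx
  push_cast at hr ⊢
  have e1 : (2 * (j : ℚ) + 1) ≠ 0 := by positivity
  have e2 : (2 * (j : ℚ) + 1 + 2) ≠ 0 := by positivity
  have e3 : (2 * ((j : ℚ) + 1) + 1) = 2 * (j : ℚ) + 1 + 2 := by ring
  rw [e3]
  set q := QQ (Zj j) (k + 1)
  set q' := QQ (Zj (j + 1)) (k + 1)
  field_simp
  linear_combination -hr

lemma L0 (n : ℕ) :
    4 * ∑ j ∈ range n, xx ℚ j ^ 3 * (QQ (Zj j) n)⁻¹
      = 4 * ∑ j ∈ range n, xx ℚ j ^ 3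
        + ∑ k ∈ range n, (4 * ((k : ℚ) + 1) ^ 3)⁻¹ * (ww k 0 - ww k n) := by
  have h1 : ∀ j ∈ range n, 4 * (xx ℚ j ^ 3 * (QQ (Zj j) n)⁻¹)
      = 4 * xx ℚ j ^ 3 + ∑ k ∈ range n, (4 * ((k : ℚ) + 1) ^ 3)⁻¹ * (4 * ((k : ℚ) + 1) * (xx ℚ j * (QQ (Zj j) (k + 1))⁻¹)) := by
    intro j _
    rw [QQ_tele (Zj j) n (fun k _ => QQ_odd_ne j k)]
    have e : xx ℚ j ^ 2 * Zj j * 4 = 1 := by
      unfold xx Zj
      have e1 : (2 * (j : ℚ) + 1) ≠ 0 := by positivity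
      field_simp
    rw [mul_add, mul_add, mul_one]
    congr 1
    have e5 : 4 * (xx ℚ j ^ 3 * (Zj j * ∑ k ∈ range n, ((((k : ℚ) + 1) ^ 2) * QQ (Zj j) (k + 1))⁻¹))
        = xx ℚ j * ∑ k ∈ range n, ((((k : ℚ) + 1) ^ 2) * QQ (Zj j) (k + 1))⁻¹ := by
      linear_combination (xx ℚ j * ∑ k ∈ range n, ((((k : ℚ) + 1) ^ 2) * QQ (Zj j) (k + 1))⁻¹) * e
    rw [e5, mul_sum]
    apply sum_congr rfl
    intro k _
    have e2 : ((k : ℚ) + 1) ≠ 0 := by positivity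
    have e3 := QQ_odd_ne j (k + 1)
    field_simp
  rw [mul_sum, sum_congr rfl h1, sum_add_distrib, ← mul_sum, sum_comm]
  congr 1
  apply sum_congr rfl
  intro k _
  rw [← mul_sum]
  congr 1
  rw [sum_congr rfl (fun j _ => ww_step k j), sum_range_sub']

lemma ww_zero (k : ℕ) : ww k 0 = 16 ^ (k + 1) * ((Nat.centralBinom (k + 1) : ℚ) ^ 2)⁻¹ := by
  have h := Qquarter (K := ℚ) (k + 1) (by norm_num) (fun i h _ => by exact_mod_cast h.ne')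
  have hZ : Zj 0 = (4 : ℚ)⁻¹ := by unfold Zj; norm_num
  have hq := QQ_odd_ne 0 (k + 1)
  unfold ww
  rw [hZ] at hq ⊢
  have hc : (Nat.centralBinom (k + 1) : ℚ) ≠ 0 := by exact_mod_cast (Nat.centralBinom_pos (k + 1)).ne'
  generalize QQ (4 : ℚ)⁻¹ (k + 1) = q at h hq ⊢
  generalize (Nat.centralBinom (k + 1) : ℚ) = c at h hc ⊢
  push_cast at h ⊢
  field_simp
  linear_combination -h

lemma ww_last (k n : ℕ) :
    (4 * ((k : ℚ) + 1) ^ 3)⁻¹ * ww k n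
      = (((k : ℚ) + 1) * (2 * (n : ℚ) + 1) * (2 * ((k : ℚ) + 1) - (2 * (n : ℚ) + 1)) * QQ (Zj n) k)⁻¹ := by
  have hq := QQ_odd_ne n (k + 1)
  unfold ww
  rw [QQ_succ] at hq ⊢
  have hq1 := left_ne_zero_of_mul hq
  have e1 : ((k : ℚ) + 1) ≠ 0 := by positivity
  have e2 : (2 * (n : ℚ) + 1) ≠ 0 := by positivity
  have e3 : (2 * ((k : ℚ) + 1) + (2 * (n : ℚ) + 1)) ≠ 0 := by positivity
  have e4 : (2 * ((k : ℚ) + 1) - (2 * (n : ℚ) + 1)) ≠ 0 := by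
    intro h0
    have : (2 * ((k : ℤ) + 1) - (2 * (n : ℤ) + 1)) = 0 := by exact_mod_cast h0
    omega
  have e5 : (1 - Zj n * (((k : ℚ) + 1) ^ 2)⁻¹)
      = (2 * ((k : ℚ) + 1) - (2 * (n : ℚ) + 1)) * (2 * ((k : ℚ) + 1) + (2 * (n : ℚ) + 1)) * (4 * ((k : ℚ) + 1) ^ 2)⁻¹ := by
    unfold Zj; field_simp; ring
  rw [e5]
  set q := QQ (Zj n) k
  field_simp
  ring

lemma L0' (n : ℕ) :
    4 * ∑ j ∈ range n, xx ℚ j ^ 3 * (QQ (Zj j) n)⁻¹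
      = 4 * ∑ j ∈ range n, xx ℚ j ^ 3
        + 4⁻¹ * ∑ k ∈ range n, 16 ^ (k + 1) * (((k : ℚ) + 1) ^ 3 * (Nat.centralBinom (k + 1) : ℚ) ^ 2)⁻¹
        - ∑ k ∈ range n, (((k : ℚ) + 1) * (2 * (n : ℚ) + 1) * (2 * ((k : ℚ) + 1) - (2 * (n : ℚ) + 1)) * QQ (Zj n) k)⁻¹ := by
  rw [L0, mul_sum (range n) _ 4⁻¹, add_sub_assoc, ← sum_sub_distrib]
  congr 1
  apply sum_congr rfl
  intro k _
  rw [mul_sub, ww_last k n, ww_zero]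
  generalize (Nat.centralBinom (k + 1) : ℚ) = c
  simp only [mul_inv]
  ring

lemma Qn_rec (n j : ℕ) :
    (2 * (j : ℚ) + 1) * QQ (Zj j) n
      = QQ (4 : ℚ)⁻¹ n * ∏ t ∈ range j, ((2 * ((t : ℚ) + 1) + (2 * n + 1)) * (2 * ((t : ℚ) + 1) - (2 * n + 1))⁻¹) := by
  induction j with
  | zero =>
    have hZ : Zj 0 = (4 : ℚ)⁻¹ := by unfold Zj; norm_num
    rw [hZ]; simp
  | succ j ih =>
    rw [prod_range_succ, ← mul_assoc, ← ih]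
    have hr := QQ_ratio2 (K := ℚ) (2 * (j : ℚ) + 1) n (by norm_num)
      (fun i h _ => by exact_mod_cast h.ne')
    have hZ : ((2 * (j : ℚ) + 1 + 2) ^ 2 * 4⁻¹) = Zj (j + 1) := by unfold Zj; push_cast; ring
    have hZ' : ((2 * (j : ℚ) + 1) ^ 2 * 4⁻¹) = Zj j := rfl
    rw [hZ, hZ'] at hr
    have e4 : (2 * ((j : ℚ) + 1) - (2 * (n : ℚ) + 1)) ≠ 0 := by
      intro h0
      have : (2 * ((j : ℤ) + 1) - (2 * (n : ℤ) + 1)) = 0 := by exact_mod_cast h0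
      omega
    push_cast
    field_simp
    linear_combination hr

end Pool.Agent.Helper91.SC
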