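import Pool.Agent.Helper91.SCThree
import Pool.Agent.Helper91.SCL0

set_option autoImplicit false

namespace Pool.Agent.Helper91.SC

open Finset

/-- general binomial sum: `sum_{r=0}^{k} (-1)^r binom(k,r) f(r)` -/
def bdel (f : ℕ → ℚ) (k : ℕ) : ℚ := ∑ r ∈ range (k + 1), (-1) ^ r * (k.choose r : ℚ) * f r

lemma bdel_split (f : ℕ → ℚ) (k : ℕ) :
    bdel f k = f 0 + ∑ r ∈ range k, (-1) ^ (r + 1) * (k.choose (r + 1) : ℚ) * f (r + 1) := by
  unfold bdel
  rw [sum_range_succ']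
  simp; ring

lemma binom_sum (f : ℕ → ℚ) (N : ℕ) :
    ∑ r ∈ range N, (-1) ^ (r + 1) * (N.choose (r + 1) : ℚ) * f (r + 1) / (r + 1)
      = ∑ k ∈ range N, (bdel f (k + 1) - f 0) / (k + 1) := by
  induction N with
  | zero => simp
  | succ N ih =>
    rw [sum_range_succ (fun k => (bdel f (k + 1) - f 0) / ((k : ℚ) + 1)), ← ih]
    have h1 : ∑ r ∈ range N, (-1) ^ (r + 1) * (N.choose (r + 1) : ℚ) * f (r + 1) / (r + 1)
        = ∑ r ∈ range (N + 1), (-1) ^ (r + 1) * (N.choose (r + 1) : ℚ) * f (r + 1) / (r + 1) := by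
      rw [sum_range_succ]; simp
    rw [h1, bdel_split, add_sub_cancel_left, sum_div, ← sum_add_distrib]
    apply sum_congr rfl
    intro r _
    have e1 : ((N + 1).choose (r + 1) : ℚ) = N.choose r + N.choose (r + 1) := by
      exact_mod_cast Nat.choose_succ_succ N r
    have e2 : ((N : ℚ) + 1) * N.choose r = (N + 1).choose (r + 1) * ((r : ℚ) + 1) := by
      exact_mod_cast Nat.add_one_mul_choose_eq N r
    have h0 : ((N : ℚ) + 1) ≠ 0 := by positivity
    have h0' : ((r : ℚ) + 1) ≠ 0 := by positivity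
    have e3 : ((N + 1).choose (r + 1) : ℚ) / ((N : ℚ) + 1) = N.choose r / ((r : ℚ) + 1) := by
      rw [div_eq_div_iff h0 h0']; linarith
    have e4 : (-1) ^ (r + 1) * ((N + 1).choose (r + 1) : ℚ) * f (r + 1) / ((N : ℚ) + 1)
        = (-1) ^ (r + 1) * (((N + 1).choose (r + 1) : ℚ) / ((N : ℚ) + 1)) * f (r + 1) := by ring
    rw [e4, e3, e1]
    ring

lemma bdel_one (k : ℕ) (hk : 0 < k) : bdel (fun _ => 1) k = 0 := by
  unfold bdel
  have h := Int.alternating_sum_range_choose_of_ne (n := k) hk.ne'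
  have := congrArg (fun z : ℤ => (z : ℚ)) h
  push_cast at this
  simpa using this

lemma binom_harm (N : ℕ) :
    ∑ r ∈ range N, (-1) ^ (r + 1) * (N.choose (r + 1) : ℚ) / (r + 1) = - ∑ k ∈ range N, yy ℚ k := by
  have h := binom_sum (fun _ => 1) N
  simp only [mul_one] at h
  rw [h, ← sum_neg_distrib]
  apply sum_congr rfl
  intro k _
  rw [bdel_one _ (by omega)]
  unfold yy
  rw [zero_sub, neg_div, one_div]

/-- `pi_k = prod_{i<k} (1 - p y_i)` -/
def ppi (p k : ℕ) : ℚ := ∏ i ∈ range k, (1 - p * yy ℚ i)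

lemma ppi_succ (p k : ℕ) : ppi p (k + 1) = ppi p k * (1 - p * yy ℚ k) := by
  unfold ppi; rw [prod_range_succ]

lemma ppi_choose (n k : ℕ) (hk : k ≤ 2 * n) : ppi (2 * n + 1) k = (-1) ^ k * ((2 * n).choose k : ℚ) := by
  induction k with
  | zero => simp [ppi]
  | succ k ih =>
    rw [ppi_succ, ih (by omega)]
    have h := Nat.choose_succ_right_eq (2 * n) k
    have h' : ((2 * n).choose (k + 1) : ℚ) * ((k : ℚ) + 1) = (2 * n).choose k * (2 * n - k) := by
      have e : ((2 * n - k : ℕ) : ℚ) = 2 * n - k := by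
        rw [Nat.cast_sub (by omega)]; push_cast; ring
      rw [← e]
      exact_mod_cast h
    have hy := yy_mul k
    push_cast
    have hk1 : ((k : ℚ) + 1) ≠ 0 := by positivity
    apply mul_right_cancel₀ hk1
    rw [pow_succ]
    linear_combination (-(-1) ^ k * ((2 * n).choose k : ℚ) * (2 * (n : ℚ) + 1)) * hy + (-1) ^ k * h'

lemma ppi_id (n : ℕ) :
    ((2 * n + 1 : ℕ) : ℚ) * ∑ k ∈ range (2 * n), ppi (2 * n + 1) k * yy ℚ k ^ 2 = hs n 1 := by
  set p := 2 * n + 1 with hp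
  have hp0 : (p : ℚ) ≠ 0 := by rw [hp]; positivity
  have hst : ∀ k, (p : ℚ) * (ppi p k * yy ℚ k) = ppi p k - ppi p (k + 1) := by
    intro k; rw [ppi_succ]; ring
  have h1 : ∑ k ∈ range (2 * n), ppi p k * yy ℚ k = 0 := by
    apply mul_left_cancel₀ hp0
    rw [mul_sum, sum_congr rfl (fun k _ => hst k), sum_range_sub']
    rw [ppi_choose n (2 * n) le_rfl]
    simp [ppi, pow_mul]
  have h2 : ∑ k ∈ range (2 * n), ppi p (k + 1) * yy ℚ k = - hs n 1 := by
    have := binom_harm (2 * n)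
    unfold hs
    simp only [pow_one]
    rw [← this]
    apply sum_congr rfl
    intro k hk
    simp only [mem_range] at hk
    rw [ppi_choose n (k + 1) (by omega)]
    unfold yy
    rw [div_eq_mul_inv]
  have h3 : (p : ℚ) * ∑ k ∈ range (2 * n), ppi p k * yy ℚ k ^ 2
      = ∑ k ∈ range (2 * n), ppi p k * yy ℚ k - ∑ k ∈ range (2 * n), ppi p (k + 1) * yy ℚ k := by
    rw [mul_sum, ← sum_sub_distrib]
    apply sum_congr rfl
    intro k _
    have := hst k
    linear_combination yy ℚ k * this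
  rw [h3, h1, h2]; ring

/-- `H_k = sum_{t<k} y_t` -/
def HH (K : Type*) [Field K] (k : ℕ) : K := ∑ t ∈ range k, yy K t

lemma HH_succ (K : Type*) [Field K] (k : ℕ) : HH K (k + 1) = HH K k + yy K k := by
  unfold HH; rw [sum_range_succ]

section
variable {p : ℕ} [hp : Fact p.Prime] {n : ℕ}

lemma HH_mem (hpn : p = 2 * n + 1) (k : ℕ) (hk : k ≤ 2 * n) : HH ℚ k ∈ OO p :=
  OO_sum _ _ (fun i hi => yy_mem hpn i (by simp only [mem_range] at hi; omega))

lemma ppi_mem (hpn : p = 2 * n + 1) (k : ℕ) (hk : k ≤ 2 * n) : ppi p k ∈ OO p := by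
  unfold ppi
  apply prod_mem
  intro i hi
  simp only [mem_range] at hi
  exact sub_mem (OO p).one_mem (mul_mem OO_p (yy_mem hpn i (by omega)))

lemma ppi_D1 (hpn : p = 2 * n + 1) (k : ℕ) (hk : k ≤ 2 * n) : DD' p 1 (ppi p k - 1) := by
  induction k with
  | zero => unfold ppi; simpa using D_zero 1
  | succ k ih =>
    rw [ppi_succ]
    have e : ppi p k * (1 - p * yy ℚ k) - 1 = (ppi p k - 1) - p ^ 1 * (ppi p k * yy ℚ k) := by ring
    rw [e]
    exact D_sub (ih (by omega)) (D_pmul (mul_mem (ppi_mem hpn k (by omega)) (yy_mem hpn k (by omega))))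

lemma ppi_D2 (hpn : p = 2 * n + 1) (k : ℕ) (hk : k ≤ 2 * n) : DD' p 2 (ppi p k - 1 + p * HH ℚ k) := by
  induction k with
  | zero => unfold ppi HH; simpa using D_zero 2
  | succ k ih =>
    rw [ppi_succ, HH_succ]
    have e : ppi p k * (1 - p * yy ℚ k) - 1 + p * (HH ℚ k + yy ℚ k)
        = (ppi p k - 1 + p * HH ℚ k) - yy ℚ k * (p ^ 1 * (ppi p k - 1)) := by ring
    rw [e]
    exact D_sub (ih (by omega)) (D_smul (yy_mem hpn k (by omega))
      ((D_shift (p := p) (k := 1) (m := 1)).mpr (ppi_D1 hpn k (by omega))))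

/-- `H(1,2) = -g_3/2` mod `p` -/
lemma H12_D (hpn : p = 2 * n + 1) (hp5 : 5 < p) :
    DD' p 1 (∑ k ∈ range (2 * n), HH ℚ k * yy ℚ k ^ 2 + 1 / 2 * gs n 3) := by
  have h := ppi_id n
  rw [← hpn] at h
  have h1 := D_sum (p := p) (m := 2) (range (2 * n)) (fun k => yy ℚ k ^ 2 * (ppi p k - 1 + p * HH ℚ k))
    (fun k hk => by
      simp only [mem_range] at hk
      exact D_smul (pow_mem (yy_mem hpn k hk) 2) (ppi_D2 hpn k hk.le))
  have e1 : ∑ k ∈ range (2 * n), yy ℚ k ^ 2 * (ppi p k - 1 + p * HH ℚ k)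
      = ∑ k ∈ range (2 * n), ppi p k * yy ℚ k ^ 2 - hs n 2 + p * ∑ k ∈ range (2 * n), HH ℚ k * yy ℚ k ^ 2 := by
    unfold hs
    rw [mul_sum, ← sum_sub_distrib, ← sum_add_distrib]
    apply sum_congr rfl; intro k _; ring
  rw [e1] at h1
  set A := ∑ k ∈ range (2 * n), ppi p k * yy ℚ k ^ 2 with hA
  set B := ∑ k ∈ range (2 * n), HH ℚ k * yy ℚ k ^ 2 with hB
  have h1' := (D_shift (p := p) (k := 1) (m := 2)).mpr h1
  have h7 := R7 hpn hp5
  have h9 := R9h hpn hp5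
  have h2 : DD' p (2 + 1) ((p : ℚ) ^ 2 * (B + 1 / 2 * gs n 3)) := by
    have key : (p : ℚ) ^ 2 * (B + 1 / 2 * gs n 3)
        = (p : ℚ) ^ 1 * (A - hs n 2 + p * B) + (p * hs n 2 + 2 * hs n 1 - 1 / 2 * p ^ 3 * hs n 4)
          - 3 * (hs n 1 - 1 / 6 * p ^ 2 * gs n 3) + p ^ 3 * (1 / 2 * hs n 4) := by
      linear_combination -h
    rw [key]
    exact D_add (D_sub (D_add h1' (D_mono (by omega) h7)) (D_smul (cst hp5 _ 3 0 0 0 (by norm_num)) (D_mono (by omega) h9)))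
      (D_pmul (mul_mem (cst hp5 _ 1 1 0 0 (by norm_num)) (hs_mem hpn 4)))
  exact (D_shift (p := p)).mp h2

end

end Pool.Agent.Helper91.SC
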