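import Pool.Agent.Helper91.SCV

set_option autoImplicit false

namespace Pool.Agent.Helper91.SC

open Finset

section
variable {p : ℕ} [hp : Fact p.Prime] {n : ℕ}

lemma hF (hpn : p = 2 * n + 1) : ∀ k : ℕ, 0 < k → k ≤ 2 * n → (k : ZMod p) ≠ 0 :=
  fun k h h' => zmod_ne k h (by omega)

lemma h0F (hpn : p = 2 * n + 1) : (2 * (n : ZMod p) + 1) = 0 := by
  have : ((p : ℕ) : ZMod p) = 0 := by simp
  have e : ((2 * n + 1 : ℕ) : ZMod p) = 0 := by rw [← hpn]; exact this
  exact_mod_cast e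

lemma RR_yy (hpn : p = 2 * n + 1) (k : ℕ) (hk : k < 2 * n) : RR p (yy ℚ k) (yy (ZMod p) k) := by
  unfold yy
  have h := RR_nat (p := p) (k + 1)
  have hne : ((k + 1 : ℕ) : ZMod p) ≠ 0 := zmod_ne _ (by omega) (by omega)
  have := RR_inv h hne
  push_cast at this
  exact this

lemma RR_xx (hpn : p = 2 * n + 1) (j : ℕ) (hj : j < n) : RR p (xx ℚ j) (xx (ZMod p) j) := by
  rw [← yy_odd, ← yK_odd]; exact RR_yy hpn _ (by omega)

lemma RR_HH (hpn : p = 2 * n + 1) (k : ℕ) (hk : k ≤ 2 * n) : RR p (HH ℚ k) (HH (ZMod p) k) :=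
  RR_sum _ _ _ (fun i hi => RR_yy hpn i (by simp only [mem_range] at hi; omega))

lemma RR_gs (hpn : p = 2 * n + 1) (s : ℕ) : RR p (gs n s) (∑ k ∈ range n, yy (ZMod p) k ^ s) :=
  RR_sum _ _ _ (fun i hi => RR_pow (RR_yy hpn i (by simp only [mem_range] at hi; omega)) s)

lemma uuF (hpn : p = 2 * n + 1) : (-1) ^ n * uu (ZMod p) n = 1 := by
  have h := PP_NN_inv (K := ZMod p) n (hF hpn)
  have hX : XN (ZMod p) n = 0 := by unfold XN; rw [h0F hpn]; ring
  rw [← h, hX]
  unfold PP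
  simp

lemma cnF (hpn : p = 2 * n + 1) (hp5 : 5 < p) : (Nat.centralBinom n : ZMod p) = (-1) ^ n * 16 ^ n := by
  have h := uuF hpn
  have h2 : (2 : ZMod p) ≠ 0 := by have := hF hpn 2 (by omega) (by omega); exact_mod_cast this
  have h16 : (16 : ZMod p) ^ n ≠ 0 := by
    have : (16 : ZMod p) = 2 ^ 4 := by norm_num
    rw [this]; exact pow_ne_zero _ (pow_ne_zero _ h2)
  unfold uu at h
  have hs : ((-1 : ZMod p) ^ n) * (-1) ^ n = 1 := by rw [← mul_pow]; simp
  field_simp at h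
  linear_combination (-1) ^ n * h - (Nat.centralBinom n : ZMod p) * hs

lemma pow16 (hpn : p = 2 * n + 1) (hp5 : 5 < p) : (16 : ZMod p) ^ n = 1 := by
  have h4 : ((4 : ℕ) : ZMod p) ≠ 0 := hF hpn 4 (by omega) (by omega)
  have h := ZMod.pow_card_sub_one_eq_one h4
  have e : p - 1 = 2 * n := by omega
  rw [e, pow_mul] at h
  have : (16 : ZMod p) = ((4 : ℕ) : ZMod p) ^ 2 := by push_cast; norm_num
  rw [this]; exact h

lemma kappa (hpn : p = 2 * n + 1) (hp5 : 5 < p) :
    DD' p 1 (16 ^ n * ((Nat.centralBinom n : ℚ) ^ 2)⁻¹ - 1) := by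
  have hc := cnF hpn hp5
  have h16 := pow16 hpn hp5
  rw [h16, mul_one] at hc
  have hs : ((-1 : ZMod p) ^ n) * (-1) ^ n = 1 := by rw [← mul_pow]; simp
  have h1 : RR p ((Nat.centralBinom n : ℚ) ^ 2) 1 := by
    have := RR_pow (RR_nat (p := p) (Nat.centralBinom n)) 2
    rw [hc] at this
    refine RR_congr this ?_
    linear_combination hs
  have h2 : RR p ((16 : ℚ) ^ n) 1 := by
    have := RR_pow (RR_nat (p := p) 16) n
    push_cast at this
    rw [h16] at this
    exact this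
  have h3 := RR_mul h2 (RR_inv h1 one_ne_zero)
  have h4 := D_of_RR h3 (RR_congr (RR_one (p := p)) (by simp))
  exact h4

/-- `V`, `Y`, `H(1,2)` in `ZMod p` -/
lemma T_val (hpn : p = 2 * n + 1) (hp5 : 5 < p) :
    TT (ZMod p) n = ∑ k ∈ range n, yy (ZMod p) k ^ 3 := by
  have h2 : (2 : ZMod p) ≠ 0 := by have := hF hpn 2 (by omega) (by omega); exact_mod_cast this
  have h5 : (5 : ZMod p) ≠ 0 := by have := hF hpn 5 (by omega) (by omega); exact_mod_cast this
  have h8 : (8 : ZMod p) ≠ 0 := by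
    have : (8 : ZMod p) = 2 ^ 3 := by norm_num
    rw [this]; exact pow_ne_zero _ h2
  have hV := V_D hpn hp5 (kappa hpn hp5)
  have hH := H12_D hpn hp5
  have hg2 : ∑ k ∈ range n, yy (ZMod p) k ^ 2 = 0 := by
    have h1 : DD' p 1 (gs n 2) := by
      have : gs n 2 = (gs n 2 + 7 / 6 * p * gs n 3) - p ^ 1 * ((7 / 6) * gs n 3) := by ring
      rw [this]
      exact D_sub (D_mono (by omega) (R9g hpn hp5)) (D_pmul (mul_mem (cst hp5 _ 7 1 1 0 (by norm_num)) (gs_mem hpn 3)))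
    have h2 := RR_D_iff.mpr h1
    exact (RR_gs hpn 2).2.symm.trans h2.2
  have hY := Y_rel (K := ZMod p) (n := n) (h0F hpn) h2 hg2
  have hTV := TV_rel (K := ZMod p) (n := n) (h0F hpn) (hF hpn) (by omega)
  -- transfer V
  have hVR : RR p (VV ℚ n) (VV (ZMod p) n) := by
    apply RR_sum
    intro k hk
    simp only [mem_range] at hk
    apply RR_mul
    · exact_mod_cast RR_pow (RR_nat (p := p) 16) (k + 1)
    · apply RR_inv
      · apply RR_mul
        · exact_mod_cast RR_pow (RR_nat (p := p) (k + 1)) 3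
        · exact RR_pow (RR_nat _) 2
      · apply mul_ne_zero
        · apply pow_ne_zero
          have := hF hpn (k + 1) (by omega) (by omega)
          exact_mod_cast this
        · exact pow_ne_zero _ (cB_ne (K := ZMod p) k (fun i h h' => hF hpn i h (by omega)))
  have hYR : RR p (∑ j ∈ range n, xx ℚ j ^ 2 * HH ℚ j) (∑ j ∈ range n, xx (ZMod p) j ^ 2 * HH (ZMod p) j) := by
    apply RR_sum
    intro j hj
    simp only [mem_range] at hj
    exact RR_mul (RR_pow (RR_xx hpn j hj) 2) (RR_HH hpn j (by omega))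
  have hHR : RR p (∑ k ∈ range (2 * n), HH ℚ k * yy ℚ k ^ 2) (∑ k ∈ range (2 * n), HH (ZMod p) k * yy (ZMod p) k ^ 2) := by
    apply RR_sum
    intro j hj
    simp only [mem_range] at hj
    exact RR_mul (RR_HH hpn j (by omega)) (RR_pow (RR_yy hpn j hj) 2)
  have hGR := RR_gs hpn 3
  have c16 : RR p (16 : ℚ) (16 : ZMod p) := by exact_mod_cast RR_nat (p := p) 16
  have c2 : RR p (1 / 2 : ℚ) ((2 : ZMod p)⁻¹) := by
    have := RR_inv (RR_nat (p := p) 2) (by exact_mod_cast h2)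
    rw [one_div]
    exact_mod_cast this
  have E1 : VV (ZMod p) n + 16 * ∑ j ∈ range n, xx (ZMod p) j ^ 2 * HH (ZMod p) j = 0 :=
    (RR_add hVR (RR_mul c16 hYR)).2.symm.trans (RR_D_iff.mpr hV).2
  have E2 : ∑ k ∈ range (2 * n), HH (ZMod p) k * yy (ZMod p) k ^ 2
      + 2⁻¹ * ∑ k ∈ range n, yy (ZMod p) k ^ 3 = 0 :=
    (RR_add hHR (RR_mul c2 hGR)).2.symm.trans (RR_D_iff.mpr hH).2
  set T := TT (ZMod p) n
  set V := VV (ZMod p) n
  set Y := ∑ j ∈ range n, xx (ZMod p) j ^ 2 * HH (ZMod p) j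
  set H := ∑ k ∈ range (2 * n), HH (ZMod p) k * yy (ZMod p) k ^ 2
  set G := ∑ k ∈ range n, yy (ZMod p) k ^ 3
  have b2 : (2 : ZMod p)⁻¹ * 2 = 1 := inv_mul_cancel₀ h2
  have b8 : (8 : ZMod p)⁻¹ * 8 = 1 := inv_mul_cancel₀ h8
  have hfin : 5 * T = 5 * G := by
    have e1 : 2 * G = -5 * T + V := by linear_combination 2 * hTV + (-5 * T + V) * b2
    have e2 : V = -14 * H := by linear_combination E1 - 16 * hY - 14 * H * b8
    have e3 : 2 * H = - G := by linear_combination 2 * E2 - G * b2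
    linear_combination e1 + e2 - 7 * e3
  exact mul_left_cancel₀ h5 hfin

/-- the summand of the fourth congruence -/
def f4 (j : ℕ) : ℚ := (Nat.centralBinom j : ℚ) * ((-16) ^ j * (2 * (j : ℚ) + 1) ^ 2)⁻¹

lemma cbig (hpn : p = 2 * n + 1) (hp5 : 5 < p) (i : ℕ) (hi : i < n) :
    RR p ((Nat.centralBinom (n + 1 + i) : ℚ) / p)
      ((Nat.centralBinom n : ZMod p) * 16 ^ (i + 1) * (2 * ((i : ZMod p) + 1) * (Nat.centralBinom (i + 1) : ZMod p))⁻¹) := by
  have hp0 : (p : ℚ) ≠ 0 := pne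
  have h2 : (2 : ZMod p) ≠ 0 := by have := hF hpn 2 (by omega) (by omega); exact_mod_cast this
  have hn0 := h0F hpn
  have hpq : (2 * (n : ℚ) + 1) = p := by rw [hpn]; push_cast; ring
  induction i with
  | zero =>
    have e := Nat.succ_mul_centralBinom_succ n
    have e' : ((n : ℚ) + 1) * (Nat.centralBinom (n + 1) : ℚ) = 2 * (2 * (n : ℚ) + 1) * (Nat.centralBinom n : ℚ) := by
      exact_mod_cast congrArg (fun n : ℕ => (n : ℚ)) e
    have hn1 : ((n : ℚ) + 1) ≠ 0 := by positivity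
    have e1 : (Nat.centralBinom (n + 1 + 0) : ℚ) / p = 2 * (Nat.centralBinom n : ℚ) * ((n + 1 : ℕ) : ℚ)⁻¹ := by
      rw [add_zero]
      push_cast
      rw [hpq] at e'
      field_simp
      linear_combination e'
    rw [e1]
    have hne : ((n + 1 : ℕ) : ZMod p) ≠ 0 := hF hpn _ (by omega) (by omega)
    have h := RR_mul (RR_mul (RR_nat (p := p) 2) (RR_nat (Nat.centralBinom n))) (RR_inv (RR_nat (p := p) (n + 1)) hne)
    push_cast at h
    push_cast
    refine RR_congr h ?_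
    have hne' : ((n : ZMod p) + 1) ≠ 0 := by exact_mod_cast hne
    have hn2 : ((n : ZMod p) + 1) = 2⁻¹ := by field_simp; linear_combination hn0
    rw [hn2]
    have c1 : Nat.centralBinom (0 + 1) = 2 := by rfl
    rw [c1]
    push_cast
    have b2 : (2 : ZMod p)⁻¹ * 2 = 1 := inv_mul_cancel₀ h2
    rw [inv_inv]
    field_simp
    ring
  | succ i ih =>
    have ih' := ih (by omega)
    have e := Nat.succ_mul_centralBinom_succ (n + 1 + i)
    have e' : (((n + 1 + i : ℕ) : ℚ) + 1) * (Nat.centralBinom (n + 1 + i + 1) : ℚ)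
        = 2 * (2 * ((n + 1 + i : ℕ) : ℚ) + 1) * (Nat.centralBinom (n + 1 + i) : ℚ) := by
      exact_mod_cast congrArg (fun n : ℕ => (n : ℚ)) e
    have e1 : (Nat.centralBinom (n + 1 + (i + 1)) : ℚ) / p
        = ((2 * (p + 2 * (i + 1)) : ℕ) : ℚ) * ((Nat.centralBinom (n + 1 + i) : ℚ) / p) * ((n + 1 + i + 1 : ℕ) : ℚ)⁻¹ := by
      have hne : (((n + 1 + i + 1 : ℕ) : ℚ)) ≠ 0 := by positivity
      have hpn' : ((p : ℕ) : ℚ) = 2 * n + 1 := hpq.symm
      have e2 : n + 1 + (i + 1) = n + 1 + i + 1 := by ring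
      rw [e2]
      push_cast at e' hne ⊢
      rw [div_eq_iff hp0]
      have e3 : 2 * ((p : ℚ) + 2 * ((i : ℚ) + 1)) * ((Nat.centralBinom (n + 1 + i) : ℚ) / p) * ((n : ℚ) + 1 + i + 1)⁻¹ * p
          = 2 * ((p : ℚ) + 2 * ((i : ℚ) + 1)) * (Nat.centralBinom (n + 1 + i) : ℚ) * ((n : ℚ) + 1 + i + 1)⁻¹ := by
        field_simp
      rw [e3, ← div_eq_mul_inv, eq_div_iff hne, hpn']
      linear_combination e'
    rw [e1]
    have hne : ((n + 1 + i + 1 : ℕ) : ZMod p) ≠ 0 := hF hpn _ (by omega) (by omega)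
    have h := RR_mul (RR_mul (RR_nat (p := p) (2 * (p + 2 * (i + 1)))) ih') (RR_inv (RR_nat (p := p) (n + 1 + i + 1)) hne)
    refine RR_congr h ?_
    have hi1 : ((i : ZMod p) + 1) ≠ 0 := by have := hF hpn (i + 1) (by omega) (by omega); exact_mod_cast this
    have hi2 : ((i : ZMod p) + 1 + 1) ≠ 0 := by have := hF hpn (i + 1 + 1) (by omega) (by omega); exact_mod_cast this
    have hi3 : (2 * (i : ZMod p) + 3) ≠ 0 := by have := hF hpn (2 * i + 3) (by omega) (by omega); exact_mod_cast this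
    have hc1 := cB_ne (K := ZMod p) i (fun j h h' => hF hpn j h (by omega))
    have hc2 := cB_ne (K := ZMod p) (i + 1) (fun j h h' => hF hpn j h (by omega))
    have f := Nat.succ_mul_centralBinom_succ (i + 1)
    have f' : ((i : ZMod p) + 1 + 1) * (Nat.centralBinom (i + 1 + 1) : ZMod p)
        = 2 * (2 * ((i : ZMod p) + 1) + 1) * (Nat.centralBinom (i + 1) : ZMod p) := by
      exact_mod_cast congrArg (fun n : ℕ => (n : ZMod p)) f
    have hsum : ((n + 1 + i + 1 : ℕ) : ZMod p) = (2 * (i : ZMod p) + 3) * 2⁻¹ := by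
      push_cast
      field_simp
      linear_combination hn0
    have hp00 : ((p : ℕ) : ZMod p) = 0 := by simp
    rw [hsum]
    push_cast
    rw [hp00]
    have hc3 : (Nat.centralBinom (i + 1 + 1) : ZMod p)
        = 2 * (2 * (i : ZMod p) + 3) * (Nat.centralBinom (i + 1) : ZMod p) * ((i : ZMod p) + 1 + 1)⁻¹ := by
      field_simp
      linear_combination f'
    rw [hc3]
    generalize (Nat.centralBinom (i + 1) : ZMod p) = c at *
    generalize (Nat.centralBinom n : ZMod p) = d at *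
    field_simp
    ring

/-- Congruence (4), internal form. -/
lemma four (hpn : p = 2 * n + 1) (hp5 : 5 < p) :
    DD' p 2 (∑ i ∈ range n, f4 (n + 1 + i) + 1 / 4 * p * bernoulli (p - 3)) := by
  have hp0 : (p : ℚ) ≠ 0 := pne
  have h2 : (2 : ZMod p) ≠ 0 := by have := hF hpn 2 (by omega) (by omega); exact_mod_cast this
  have h16 : (16 : ZMod p) ≠ 0 := by
    have : (16 : ZMod p) = 2 ^ 4 := by norm_num
    rw [this]; exact pow_ne_zero _ h2
  have h8 : (8 : ZMod p) ≠ 0 := by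
    have : (8 : ZMod p) = 2 ^ 3 := by norm_num
    rw [this]; exact pow_ne_zero _ h2
  have hS : RR p ((∑ i ∈ range n, f4 (n + 1 + i)) / p) (8⁻¹ * TT (ZMod p) n) := by
    rw [sum_div]
    unfold TT
    rw [mul_sum]
    apply RR_sum
    intro i hi
    simp only [mem_range] at hi
    have hb := cbig hpn hp5 i hi
    have hi1 : ((i : ZMod p) + 1) ≠ 0 := by have := hF hpn (i + 1) (by omega) (by omega); exact_mod_cast this
    have hc1 := cB_ne (K := ZMod p) i (fun j h h' => hF hpn j h (by omega))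
    have hr : RR p ((-16) ^ (n + 1 + i) * (2 * ((n + 1 + i : ℕ) : ℚ) + 1) ^ 2)
        ((-16) ^ (n + 1 + i) * (2 * ((i : ZMod p) + 1)) ^ 2) := by
      apply RR_mul
      · have := RR_pow (RR_int (p := p) (-16)) (n + 1 + i)
        push_cast at this
        exact this
      · have := RR_pow (RR_nat (p := p) (p + 2 * (i + 1))) 2
        push_cast at this
        have hp00 : ((p : ℕ) : ZMod p) = 0 := by simp
        rw [hp00, zero_add] at this
        have hpq : (p : ℚ) = 2 * n + 1 := by rw [hpn]; push_cast; ring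
        rw [hpq] at this
        push_cast
        convert this using 2
        ring
    have hne : ((-16 : ZMod p)) ^ (n + 1 + i) * (2 * ((i : ZMod p) + 1)) ^ 2 ≠ 0 :=
      mul_ne_zero (pow_ne_zero _ (neg_ne_zero.mpr h16)) (pow_ne_zero _ (mul_ne_zero h2 hi1))
    have hri := RR_inv hr hne
    have h := RR_mul hb hri
    have e : f4 (n + 1 + i) / p = (Nat.centralBinom (n + 1 + i) : ℚ) / p * ((-16) ^ (n + 1 + i) * (2 * ((n + 1 + i : ℕ) : ℚ) + 1) ^ 2)⁻¹ := by
      unfold f4; ring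
    rw [e]
    refine RR_congr h ?_
    have hc := cnF hpn hp5
    rw [hc]
    have hneg : ((-16 : ZMod p)) ^ (n + 1 + i) = ((-1) ^ n * 16 ^ n) * ((-1) ^ (i + 1) * 16 ^ (i + 1)) := by
      rw [← mul_pow, ← mul_pow, ← pow_add]; norm_num; ring
    rw [hneg]
    have hs1 : ((-1 : ZMod p) ^ n) ≠ 0 := pow_ne_zero _ (by simp)
    have hs2 : ((-1 : ZMod p) ^ (i + 1)) ≠ 0 := pow_ne_zero _ (by simp)
    have hs3 : ((-1 : ZMod p) ^ (i + 1)) * (-1) ^ (i + 1) = 1 := by rw [← mul_pow]; simp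
    have h16n : (16 : ZMod p) ^ n ≠ 0 := pow_ne_zero _ h16
    have h16i : (16 : ZMod p) ^ (i + 1) ≠ 0 := pow_ne_zero _ h16
    have hs4 : ((-1 : ZMod p) ^ (i + 1))⁻¹ = (-1) ^ (i + 1) := inv_eq_of_mul_eq_one_left hs3
    generalize (Nat.centralBinom (i + 1) : ZMod p) = c at *
    generalize (-1 : ZMod p) ^ n = s1 at *
    generalize (-1 : ZMod p) ^ (i + 1) = s2 at *
    generalize (16 : ZMod p) ^ n = a1 at *
    generalize (16 : ZMod p) ^ (i + 1) = a2 at *
    have h80 : (8 : ZMod p) = 2 * 2 * 2 := by norm_num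
    rw [h80]
    simp only [mul_inv, mul_pow, hs4]
    field_simp
  rw [T_val hpn hp5] at hS
  have hB : DD' p 1 (bernoulli (p - 3) + 1 / 2 * gs n 3) := by
    have h1 := R8 hpn hp5
    have h2 := R9h hpn hp5
    have h3 : DD' p (2 + 1) ((p : ℚ) ^ 2 * (bernoulli (p - 3) + 1 / 2 * gs n 3)) := by
      have key : (p : ℚ) ^ 2 * (bernoulli (p - 3) + 1 / 2 * gs n 3)
          = (3 * hs n 1 + p ^ 2 * bernoulli (p - 3)) - 3 * (hs n 1 - 1 / 6 * p ^ 2 * gs n 3) := by ring
      rw [key]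
      exact D_sub h1 (D_smul (cst hp5 _ 3 0 0 0 (by norm_num)) (D_mono (by omega) h2))
    exact (D_shift (p := p)).mp h3
  have hG : RR p (1 / 8 * gs n 3) (8⁻¹ * ∑ k ∈ range n, yy (ZMod p) k ^ 3) := by
    apply RR_mul _ (RR_gs hpn 3)
    have := RR_inv (RR_nat (p := p) 8) (by exact_mod_cast h8)
    rw [one_div]
    exact_mod_cast this
  have hD := D_of_RR hS hG
  have hfin : DD' p 1 ((∑ i ∈ range n, f4 (n + 1 + i)) / p + 1 / 4 * bernoulli (p - 3)) := by
    have key : (∑ i ∈ range n, f4 (n + 1 + i)) / p + 1 / 4 * bernoulli (p - 3)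
        = ((∑ i ∈ range n, f4 (n + 1 + i)) / p - 1 / 8 * gs n 3) + 1 / 4 * (bernoulli (p - 3) + 1 / 2 * gs n 3) := by ring
    rw [key]
    exact D_add hD (D_smul (cst hp5 _ 1 2 0 0 (by norm_num)) hB)
  have := (D_shift (p := p) (k := 1) (m := 1)).mpr hfin
  convert this using 1
  rw [pow_one]
  field_simp

end

end Pool.Agent.Helper91.SC
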