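import Pool.Agent.Helper91.SCKd2
import Pool.Agent.Helper91.SCFourEnd

set_option autoImplicit false

namespace Pool.Agent.Helper91.SC

open Finset Polynomial

section
variable {p : ℕ} [hp : Fact p.Prime] {n : ℕ}

/-- orthogonality: extracting a coefficient by summing over units -/
lemma ortho (Q : Polynomial (ZMod p)) (hQ : Q.natDegree < p - 1) (t : ℕ) (ht : t < p - 1) :
    ∑ u : (ZMod p)ˣ, Q.eval (u : ZMod p) * ((u : ZMod p)⁻¹) ^ t = - Q.coeff t := by
  have h1 : ∀ u : (ZMod p)ˣ, Q.eval (u : ZMod p) * ((u : ZMod p)⁻¹) ^ t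
      = ∑ i ∈ range (p - 1), Q.coeff i * (u : ZMod p) ^ (i + (p - 1 - t)) := by
    intro u
    rw [eval_eq_sum_range' hQ, sum_mul]
    apply sum_congr rfl
    intro i _
    have hu : (u : ZMod p) ≠ 0 := u.ne_zero
    have e : ((u : ZMod p)⁻¹) ^ t = (u : ZMod p) ^ (p - 1 - t) := by
      rw [inv_pow]
      symm
      apply eq_inv_of_mul_eq_one_left
      rw [← pow_add, Nat.sub_add_cancel ht.le]
      exact ZMod.pow_card_sub_one_eq_one hu
    rw [e, pow_add]; ring
  rw [Finset.sum_congr rfl (fun u _ => h1 u), sum_comm]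
  have h2 : ∀ i ∈ range (p - 1), ∑ u : (ZMod p)ˣ, Q.coeff i * (u : ZMod p) ^ (i + (p - 1 - t))
      = if i = t then - Q.coeff t else 0 := by
    intro i hi
    simp only [mem_range] at hi
    rw [← mul_sum, FiniteField.sum_pow_units, ZMod.card]
    by_cases h : i = t
    · rw [if_pos h, if_pos (by rw [h]; rw [Nat.add_sub_cancel' ht.le]), h]; ring
    · rw [if_neg h, if_neg, mul_zero]
      intro hd
      obtain ⟨c, hc⟩ := hd
      have hc1 : c = 1 := by
        have hp1 : 0 < p - 1 := by omega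
        have c0 : c ≠ 0 := by
          rintro rfl
          omega
        have c2 : c < 2 := by
          by_contra hcc
          have : 2 ≤ c := by omega
          have : (p - 1) * 2 ≤ (p - 1) * c := Nat.mul_le_mul_left _ this
          omega
        omega
      rw [hc1] at hc
      omega
  rw [sum_congr rfl h2, sum_ite_eq' (range (p - 1)) t]
  simp [ht]

lemma units_sum (f : ZMod p → ZMod p) :
    ∑ u : (ZMod p)ˣ, f (u : ZMod p) = ∑ v ∈ Ico 1 p, f (v : ZMod p) := by
  symm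
  exact Finset.sum_bij'
      (fun v hv ↦ Units.mk0 (v : ZMod p) (mt (ZMod.natCast_eq_zero_iff v p).mp (by
        simp only [mem_Ico] at hv
        intro h
        exact absurd (Nat.le_of_dvd (by omega) h) (by omega))))
      (fun u _ ↦ (u : ZMod p).val)
      (fun _ _ ↦ Finset.mem_univ _)
      (fun u _ ↦ by
        simp only [mem_Ico]
        refine ⟨?_, ZMod.val_lt _⟩
        have : (u : ZMod p).val ≠ 0 := by
          rw [ZMod.val_ne_zero]; exact u.ne_zero
        omega)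
      (fun v hv ↦ by simp [ZMod.val_cast_of_lt (Finset.mem_Ico.mp hv).2])
      (fun u _ ↦ Units.ext (ZMod.natCast_zmod_val _))
      (fun _ _ ↦ rfl)

/-- sums of even functions over the units -/
lemma units_even (hpn : p = 2 * n + 1) (f : ZMod p → ZMod p) (hf : ∀ b, f (-b) = f b) :
    ∑ u : (ZMod p)ˣ, f (u : ZMod p) = 2 * ∑ j ∈ range n, f (2 * (j : ZMod p) + 1) := by
  rw [units_sum, sum_Ico_eq_sum_range]
  have e : p - 1 = 2 * n := by omega
  rw [e, sum_even_odd]
  have e2 : ∑ j ∈ range n, f (((1 + (2 * j + 1) : ℕ)) : ZMod p) = ∑ j ∈ range n, f (2 * (j : ZMod p) + 1) := by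
    rw [← sum_range_reflect]
    apply sum_congr rfl
    intro j hj
    simp only [mem_range] at hj
    rw [← hf (2 * (j : ZMod p) + 1)]
    congr 1
    have h0 := h0F hpn
    have : (((n - 1 - j : ℕ)) : ZMod p) = n - 1 - j := by
      rw [Nat.cast_sub (by omega), Nat.cast_sub (by omega)]; push_cast; ring
    push_cast
    rw [this]
    linear_combination h0
  have e3 : ∑ j ∈ range n, f (((1 + 2 * j : ℕ)) : ZMod p) = ∑ j ∈ range n, f (2 * (j : ZMod p) + 1) := by
    apply sum_congr rfl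
    intro j _
    congr 1
    push_cast; ring
  rw [e2, e3]; ring

/-- the polynomial `P_j(X^2)` -/
noncomputable def QP (p j : ℕ) [Fact p.Prime] : Polynomial (ZMod p) :=
  PP (fun i => C (cc (ZMod p) i)) (X ^ 2) j

lemma QP_succ (j : ℕ) : QP p (j + 1) = QP p j * (1 - C (cc (ZMod p) j) * X ^ 2) := PP_succ _ _ _

lemma QP_zero : QP p 0 = 1 := PP_zero _ _

lemma QP_eval (b : ZMod p) (j : ℕ) : (QP p j).eval b = PP (cc (ZMod p)) (b ^ 2) j := by
  induction j with
  | zero => rw [QP_zero, PP_zero]; simp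
  | succ j ih => rw [QP_succ, PP_succ, eval_mul, ih]; simp

lemma QP_deg (j : ℕ) : (QP p j).natDegree ≤ 2 * j := by
  induction j with
  | zero => rw [QP_zero]; simp
  | succ j ih =>
    rw [QP_succ]
    refine natDegree_mul_le.trans ?_
    have h1 : (1 - C (cc (ZMod p) j) * X ^ 2 : Polynomial (ZMod p)).natDegree ≤ 2 := by
      refine (natDegree_sub_le _ _).trans ?_
      apply max_le
      · rw [natDegree_one]; omega
      · exact natDegree_C_mul_X_pow_le _ _
    omega

lemma QP_step (j k : ℕ) (hk : 2 ≤ k) :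
    (QP p (j + 1)).coeff k = (QP p j).coeff k - cc (ZMod p) j * (QP p j).coeff (k - 2) := by
  rw [QP_succ, mul_sub, mul_one, coeff_sub]
  have : QP p j * (C (cc (ZMod p) j) * X ^ 2) = C (cc (ZMod p) j) * (QP p j * X ^ 2) := by ring
  rw [this, coeff_C_mul, coeff_mul_X_pow', if_pos hk]

lemma QP_c0 (j : ℕ) : (QP p j).coeff 0 = 1 := by
  induction j with
  | zero => rw [QP_zero]; simp
  | succ j ih =>
    rw [QP_succ, mul_sub, mul_one, coeff_sub, ih]
    have : QP p j * (C (cc (ZMod p) j) * X ^ 2) = C (cc (ZMod p) j) * (QP p j * X ^ 2) := by ring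
    rw [this, coeff_C_mul, coeff_mul_X_pow', if_neg (by omega)]
    simp

lemma QP_c2 (j : ℕ) : (QP p j).coeff 2 = - OJ (ZMod p) j := by
  induction j with
  | zero => rw [QP_zero]; simp [OJ, coeff_one]
  | succ j ih => rw [QP_step j 2 le_rfl, ih, OJ_succ, QP_c0]; ring

lemma QP_c4 (j : ℕ) : (QP p j).coeff 4 = ee (ZMod p) j := by
  induction j with
  | zero => rw [QP_zero]; simp [ee, coeff_one]
  | succ j ih => rw [QP_step j 4 (by omega), ih, ee_succ, QP_c2]; ring

/-- weighted sums `sum_j a_j P_j(X^2)` -/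
noncomputable def WP (p n : ℕ) [Fact p.Prime] (a : ℕ → ZMod p) : Polynomial (ZMod p) :=
  ∑ j ∈ range n, C (a j) * QP p j

lemma WP_c4 (a : ℕ → ZMod p) : (WP p n a).coeff 4 = ∑ j ∈ range n, a j * ee (ZMod p) j := by
  unfold WP
  rw [finsetSum_coeff]
  apply sum_congr rfl
  intro j _
  rw [coeff_C_mul, QP_c4]

lemma WP_eval (a : ℕ → ZMod p) (b : ZMod p) :
    (WP p n a).eval b = ∑ j ∈ range n, a j * PP (cc (ZMod p)) (b ^ 2) j := by
  unfold WP
  rw [eval_finsetSum]
  apply sum_congr rfl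
  intro j _
  rw [eval_mul, eval_C, QP_eval]

lemma WP_deg (hpn : p = 2 * n + 1) (hp5 : 5 < p) (a : ℕ → ZMod p) : (WP p n a).natDegree < p - 1 := by
  have : (WP p n a).natDegree ≤ 2 * (n - 1) := by
    unfold WP
    apply natDegree_sum_le_of_forall_le
    intro j hj
    simp only [mem_range] at hj
    refine natDegree_mul_le.trans ?_
    rw [natDegree_C, zero_add]
    exact (QP_deg j).trans (by omega)
  omega

/-- coefficient extraction for the weighted sums -/
lemma WP_ortho (hpn : p = 2 * n + 1) (hp5 : 5 < p) (a : ℕ → ZMod p) :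
    ∑ j ∈ range n, a j * ee (ZMod p) j
      = - (2 * ∑ m ∈ range n, (∑ j ∈ range n, a j * PP (cc (ZMod p)) (XN (ZMod p) m) j) * xx (ZMod p) m ^ 4) := by
  have h := ortho (WP p n a) (WP_deg hpn hp5 a) 4 (by omega)
  have h2 := units_even hpn (fun b => (WP p n a).eval b * (b⁻¹) ^ 4) (fun b => by
    simp only [WP_eval]
    rw [inv_neg, neg_sq, Even.neg_pow (by decide : Even 4)])
  rw [h2, WP_c4] at h
  rw [← neg_inj, ← h, neg_neg]
  congr 1
  apply sum_congr rfl
  intro m _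
  rw [WP_eval]
  rfl

lemma G2_nodes (hpn : p = 2 * n + 1) (hp5 : 5 < p) :
    ∑ j ∈ range n, uu (ZMod p) j * xx (ZMod p) j * ee (ZMod p) j
      = - (2 * ∑ m ∈ range n, (-1) ^ m * ((c6 (2 * m + 1) : ℤ) : ZMod p) * xx (ZMod p) m ^ 5) := by
  rw [WP_ortho hpn hp5 (fun j => uu (ZMod p) j * xx (ZMod p) j)]
  congr 2
  apply sum_congr rfl
  intro m hm
  simp only [mem_range] at hm
  have h2 : (2 : ZMod p) ≠ 0 := by have := hF hpn 2 (by omega) (by omega); exact_mod_cast this
  have hS := S_lemma (K := ZMod p) m h2 (fun k h h' => hF hpn k h (by omega))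
  have : ∑ j ∈ range n, uu (ZMod p) j * xx (ZMod p) j * PP (cc (ZMod p)) (XN (ZMod p) m) j
      = ∑ j ∈ range (m + 1), uu (ZMod p) j * xx (ZMod p) j * PP (cc (ZMod p)) (XN (ZMod p) m) j := by
    symm
    apply sum_subset
    · intro x hx; simp only [mem_range] at *; omega
    · intro x _ hx
      simp only [mem_range, not_lt] at hx
      rw [PP_vanish m x (hF hpn _ (by omega) (by omega)) (by omega), mul_zero]
  rw [this, hS]
  ring

lemma xF_refl (hpn : p = 2 * n + 1) (k : ℕ) (hk : k < n) :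
    xx (ZMod p) (n - 1 - k) = - (2⁻¹ * yy (ZMod p) k) := by
  rw [← yK_odd, show 2 * (n - 1 - k) = 2 * n - 1 - (2 * k + 1) by omega,
    yK_refl (h0F hpn) (2 * k + 1) (by omega), yK_even]

/-- `G_2` in terms of `sum C(k)/k^5` -/
lemma G2_c5 (hpn : p = 2 * n + 1) (hp5 : 5 < p) :
    ∑ j ∈ range n, uu (ZMod p) j * xx (ZMod p) j * ee (ZMod p) j
      = (-1) ^ n * (2⁻¹) ^ 4 * ∑ k ∈ range (2 * n), ((c6 ((k : ℤ) + 1) : ℤ) : ZMod p) * yy (ZMod p) k ^ 5 := by
  have h6 := p_mod6 hpn hp5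
  have h2 : (2 : ZMod p) ≠ 0 := by have := hF hpn 2 (by omega) (by omega); exact_mod_cast this
  rw [G2_nodes hpn hp5, sum_half, ← sum_add_distrib, ← sum_range_reflect, mul_sum, mul_sum, ← sum_neg_distrib]
  apply sum_congr rfl
  intro k hk
  simp only [mem_range] at hk
  rw [xF_refl hpn k hk, yK_refl (h0F hpn) k (by omega)]
  set m := n - 1 - k with hm
  have hmz : (m : ℤ) = n - (k + 1) := by
    rw [hm, Nat.cast_sub (by omega), Nat.cast_sub (by omega)]; push_cast; ring
  have hs : (-1 : ℤ) ^ m * c6 (2 * m + 1) = (-1) ^ n * (c6 ((k : ℤ) + 1) - c6 ((2 * n + 1 : ℤ) - (k + 1))) := by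
    have a1 := c6_shift (2 * n + 1 : ℤ) (k + 1)
    have a2 := c6_add (2 * n + 1 : ℤ) ((k : ℤ) + 1) (by omega)
    have a3 : (2 * (m : ℤ) + 1) = (2 * n + 1 : ℤ) - 2 * ((k + 1 : ℕ) : ℤ) := by rw [hmz]; push_cast; ring
    have a4 : (-1 : ℤ) ^ m = (-1) ^ n * (-1) ^ (k + 1) := by
      have : n = m + (k + 1) := by omega
      conv_rhs => rw [this]
      rw [pow_add, mul_assoc, ← mul_pow]; simp
    rw [a3, a4]
    push_cast at a1 ⊢
    rw [mul_assoc, a1, a2]
    ring
  have hs' : (-1 : ZMod p) ^ m * ((c6 (2 * m + 1) : ℤ) : ZMod p)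
      = (-1) ^ n * (((c6 ((k : ℤ) + 1) : ℤ) : ZMod p) - ((c6 ((2 * n + 1 : ℤ) - (k + 1)) : ℤ) : ZMod p)) := by
    exact_mod_cast congrArg (fun z : ℤ => (z : ZMod p)) hs
  have a5 : ((2 * n - 1 - k : ℕ) : ℤ) + 1 = (2 * n + 1 : ℤ) - (k + 1) := by
    rw [Nat.cast_sub (by omega), Nat.cast_sub (by omega)]; push_cast; ring
  rw [hs', a5]
  have b2 : (2 : ZMod p)⁻¹ * 2 = 1 := inv_mul_cancel₀ h2
  generalize ((c6 ((k : ℤ) + 1) : ℤ) : ZMod p) = A
  generalize ((c6 ((2 * n + 1 : ℤ) - (k + 1)) : ℤ) : ZMod p) = B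
  generalize yy (ZMod p) k = y
  linear_combination ((-1) ^ n * (A - B) * (2⁻¹) ^ 4 * y ^ 5) * b2

end

end Pool.Agent.Helper91.SC
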