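import Pool.Agent.Helper91.SCExp

set_option autoImplicit false

namespace Pool.Agent.Helper91.SC

open Finset

section
variable {p : ℕ} [hp : Fact p.Prime] {n : ℕ}

lemma XN_eq (hpn : p = 2 * n + 1) : XN ℚ n = (p : ℚ) ^ 2 := by
  unfold XN; rw [hpn]; push_cast; ring

lemma bb_eq (hpn : p = 2 * n + 1) (j : ℕ) : bb ℚ n j = 2⁻¹ * wx n j * (PP (cc ℚ) ((p : ℚ) ^ 2) j)⁻¹ := by
  unfold bb wx
  rw [XN_eq hpn, ← mul_inv, ← mul_inv]
  congr 1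
  ring

lemma K_Q (n : ℕ) : ∀ k : ℕ, 0 < k → k ≤ 2 * n → (k : ℚ) ≠ 0 := fun k h _ => by exact_mod_cast h.ne'

/-- expansion of `x w / P` -/
lemma xwP (hpn : p = 2 * n + 1) (j : ℕ) (hj : j < n) :
    DD' p 3 (xx ℚ j * (wx n j * (PP (cc ℚ) ((p : ℚ) ^ 2) j)⁻¹)
      + (xx ℚ j ^ 2 + p * xx ℚ j ^ 3 + p ^ 2 * xx ℚ j ^ 4 + p ^ 2 * (cc ℚ j * OJ ℚ j))) := by
  have hx := xx_mem hpn j hj
  have hw := wx_mem hpn j hj
  have hr := wx_rel hpn j hj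
  have hP := Pinv_D4 hpn j hj.le
  have hO := OJ_mem hpn j hj.le
  set x := xx ℚ j with hxd
  set w := wx n j with hwd
  set Q := (PP (cc ℚ) ((p : ℚ) ^ 2) j)⁻¹ with hQ
  set O := OJ ℚ j with hOd
  have hc : cc ℚ j = x ^ 2 := rfl
  have hw' : w = -x - p * x ^ 2 - p ^ 2 * x ^ 3 + p ^ 3 * x ^ 3 * w := by
    linear_combination (1 + p * x + p ^ 2 * x ^ 2) * hr
  have e : x * (w * Q) + (x ^ 2 + p * x ^ 3 + p ^ 2 * x ^ 4 + p ^ 2 * (cc ℚ j * O))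
      = (x * w) * (Q - 1 - p ^ 2 * O) + p ^ 3 * (x ^ 4 * w + O * x ^ 2 * w) := by
    rw [hc]
    linear_combination x * hw' + (p ^ 2 * O * x) * hr
  rw [e]
  apply D_add (D_smul (mul_mem hx hw) (D_mono (by omega) hP))
  apply D_pmul
  apply_rules [add_mem, mul_mem, pow_mem]

/-- Congruence (3), internal form. -/
lemma three (hpn : p = 2 * n + 1) (hp5 : 5 < p) :
    DD' p 3 (∑ j ∈ range n, (-1) ^ j * uu ℚ j * cc ℚ j - hs n 1 / (5 * p)) := by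
  have h := mainII (K := ℚ) n (K_Q n)
  have h1 := D_sum (p := p) (m := 3) (range n) _ (fun j hj => xwP hpn j (by simpa using hj))
  rw [sum_add_distrib] at h1
  have e1 : ∑ j ∈ range n, xx ℚ j * (wx n j * (PP (cc ℚ) ((p : ℚ) ^ 2) j)⁻¹)
      = 2 * ∑ j ∈ range n, xx ℚ j * bb ℚ n j := by
    rw [mul_sum]
    apply sum_congr rfl
    intro j _
    rw [bb_eq hpn]; ring
  have e2 : ∑ j ∈ range n, (xx ℚ j ^ 2 + p * xx ℚ j ^ 3 + p ^ 2 * xx ℚ j ^ 4 + p ^ 2 * (cc ℚ j * OJ ℚ j))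
      = os n 2 + p * os n 3 + p ^ 2 * os n 4 + p ^ 2 * ((1 / 2) * (os n 2 ^ 2 - os n 4)) := by
    simp only [sum_add_distrib, ← mul_sum]
    have := e2_id (cc ℚ) n
    have e3 : ∑ j ∈ range n, cc ℚ j * OJ ℚ j = (1 / 2) * (os n 2 ^ 2 - os n 4) := by
      have e4 : ∑ j ∈ range n, cc ℚ j = os n 2 := rfl
      have e5 : ∑ j ∈ range n, cc ℚ j ^ 2 = os n 4 := by
        unfold os cc
        apply sum_congr rfl; intro j _; ring
      rw [e4, e5] at this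
      unfold OJ
      linarith
    rw [e3]
    rfl
  rw [e1, e2] at h1
  have e6 : ∑ j ∈ range n, cc ℚ j = os n 2 := rfl
  rw [e6] at h
  set S := ∑ j ∈ range n, (-1) ^ j * uu ℚ j * cc ℚ j with hS
  set T := ∑ j ∈ range n, xx ℚ j * bb ℚ n j with hT
  have r1 := R9o hpn hp5
  have r2 := (D_shift (p := p) (k := 1) (m := 2)).mpr (R9t hpn hp5)
  have r3 := R9h hpn hp5
  have r3' : DD' p 3 ((hs n 1 - 1 / 6 * p ^ 2 * gs n 3) / p) := by
    have : DD' p (1 + 3) ((p : ℚ) ^ 1 * ((hs n 1 - 1 / 6 * p ^ 2 * gs n 3) / p)) := by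
      have e : (p : ℚ) ^ 1 * ((hs n 1 - 1 / 6 * p ^ 2 * gs n 3) / p) = hs n 1 - 1 / 6 * p ^ 2 * gs n 3 := by
        rw [pow_one, mul_div_cancel₀ _ pne]
      rw [e]; exact r3
    exact (D_shift (p := p)).mp this
  have r4 := (D_shift (p := p) (k := 2) (m := 1)).mpr (o4_D hpn hp5)
  have r5 : DD' p 3 (p ^ 2 * os n 2 ^ 2) := by
    have h1 : DD' p 1 (os n 2) := by
      have : os n 2 = (os n 2 + 1 / 24 * p * gs n 3) - p ^ 1 * ((1 / 24) * gs n 3) := by ring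
      rw [this]
      exact D_sub (D_mono (by omega) r1) (D_pmul (mul_mem (cst hp5 _ 1 3 1 0 (by norm_num)) (gs_mem hpn 3)))
    have h2 : DD' p 1 (os n 2 ^ 2) := by
      rw [pow_two]; exact D_smul (os_mem hpn 2) h1
    exact (D_shift (p := p) (k := 2) (m := 1)).mpr h2
  have hp0 : (p : ℚ) ≠ 0 := pne
  have key : S - hs n 1 / (5 * p)
      = (2 / 5) * (2 * T + (os n 2 + p * os n 3 + p ^ 2 * os n 4 + p ^ 2 * ((1 / 2) * (os n 2 ^ 2 - os n 4))))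
        + (2 / 5) * (os n 2 + 1 / 24 * p * gs n 3) - (2 / 5) * ((p : ℚ) ^ 1 * (os n 3 + 1 / 8 * gs n 3))
        - (1 / 5) * (p ^ 2 * os n 4) - (1 / 5) * (p ^ 2 * os n 2 ^ 2)
        - (1 / 5) * ((hs n 1 - 1 / 6 * p ^ 2 * gs n 3) / p) := by
    have e7 : S = (4 / 5) * (os n 2 + T) := by linarith
    rw [e7]
    field_simp
    ring
  rw [key]
  have c1 : (2 / 5 : ℚ) ∈ OO p := cst hp5 _ 2 0 0 1 (by norm_num)
  have c2 : (1 / 5 : ℚ) ∈ OO p := cst hp5 _ 1 0 0 1 (by norm_num)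
  exact D_sub (D_sub (D_sub (D_sub (D_add (D_smul c1 h1) (D_smul c1 r1)) (D_smul c1 r2)) (D_smul c2 r4)) (D_smul c2 r5)) (D_smul c2 r3')

end

end Pool.Agent.Helper91.SC
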