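import Pool.Agent.Helper91.SCW
import Pool.Agent.Helper91.SCThree
import Pool.Agent.Helper91.SCFour

set_option autoImplicit false

namespace Pool.Agent.Helper91.SC

open Finset

lemma c6_zero : c6 0 = 2 := by simp [c6]

/-- `sum_r (-1)^r binom(k,r) C(j+r) = C(j-k)` -/
lemma bdel_c6 (k : ℕ) (j : ℤ) : bdel (fun r => ((c6 (j + r) : ℤ) : ℚ)) k = ((c6 (j - k) : ℤ) : ℚ) := by
  induction k generalizing j with
  | zero => simp [bdel]
  | succ k ih =>
    have h1 : bdel (fun r => ((c6 (j + r) : ℤ) : ℚ)) (k + 1)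
        = bdel (fun r => ((c6 (j + r) : ℤ) : ℚ)) k - bdel (fun r => ((c6 ((j + 1) + r) : ℤ) : ℚ)) k := by
      unfold bdel
      rw [sum_range_succ' _ (k + 1)]
      have e1 : ∑ r ∈ range (k + 1), (-1 : ℚ) ^ (r + 1) * ((k + 1).choose (r + 1) : ℚ) * ((c6 (j + ((r + 1 : ℕ) : ℤ)) : ℤ) : ℚ)
          = - ∑ r ∈ range (k + 1), (-1 : ℚ) ^ r * (k.choose r : ℚ) * ((c6 ((j + 1) + r) : ℤ) : ℚ)
            + ∑ r ∈ range (k + 1), (-1 : ℚ) ^ (r + 1) * (k.choose (r + 1) : ℚ) * ((c6 (j + ((r + 1 : ℕ) : ℤ)) : ℤ) : ℚ) := by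
        rw [← sum_neg_distrib, ← sum_add_distrib]
        apply sum_congr rfl
        intro r _
        have e2 : ((k + 1).choose (r + 1) : ℚ) = k.choose r + k.choose (r + 1) := by
          exact_mod_cast Nat.choose_succ_succ k r
        have e3 : j + ((r + 1 : ℕ) : ℤ) = (j + 1) + r := by push_cast; ring
        rw [e2, e3, pow_succ]; ring
      rw [e1, sum_range_succ (fun r => (-1 : ℚ) ^ (r + 1) * (k.choose (r + 1) : ℚ) * ((c6 (j + ((r + 1 : ℕ) : ℤ)) : ℤ) : ℚ)),
        Nat.choose_succ_self]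
      rw [sum_range_succ' (fun r => (-1 : ℚ) ^ r * (k.choose r : ℚ) * ((c6 (j + r) : ℤ) : ℚ)) k]
      simp
      ring
    rw [h1, ih, ih]
    have h2 := c6_rec (j - k)
    have e1 : j + 1 - (k : ℤ) = j - k + 1 := by ring
    have e2 : j - ((k + 1 : ℕ) : ℤ) = j - k - 1 := by push_cast; ring
    rw [e1, e2, h2]
    push_cast; ring

/-- `C(a) = C(p-a) + C(p+a)` when `C(p) = 1` -/
lemma c6_add (P a : ℤ) (hP : P % 6 = 1 ∨ P % 6 = 5) : c6 a = c6 (P - a) + c6 (P + a) := by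
  have h : a % 6 = 0 ∨ a % 6 = 1 ∨ a % 6 = 2 ∨ a % 6 = 3 ∨ a % 6 = 4 ∨ a % 6 = 5 := by omega
  rcases hP with hP | hP <;> rcases h with h | h | h | h | h | h
  · rw [c6_congr (show (a) % 6 = (0:ℤ) % 6 by omega), c6_congr (show (P - a) % 6 = (1:ℤ) % 6 by omega), c6_congr (show (P + a) % 6 = (1:ℤ) % 6 by omega)]; rfl
  · rw [c6_congr (show (a) % 6 = (1:ℤ) % 6 by omega), c6_congr (show (P - a) % 6 = (0:ℤ) % 6 by omega), c6_congr (show (P + a) % 6 = (2:ℤ) % 6 by omega)]; rfl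
  · rw [c6_congr (show (a) % 6 = (2:ℤ) % 6 by omega), c6_congr (show (P - a) % 6 = (5:ℤ) % 6 by omega), c6_congr (show (P + a) % 6 = (3:ℤ) % 6 by omega)]; rfl
  · rw [c6_congr (show (a) % 6 = (3:ℤ) % 6 by omega), c6_congr (show (P - a) % 6 = (4:ℤ) % 6 by omega), c6_congr (show (P + a) % 6 = (4:ℤ) % 6 by omega)]; rfl
  · rw [c6_congr (show (a) % 6 = (4:ℤ) % 6 by omega), c6_congr (show (P - a) % 6 = (3:ℤ) % 6 by omega), c6_congr (show (P + a) % 6 = (5:ℤ) % 6 by omega)]; rfl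
  · rw [c6_congr (show (a) % 6 = (5:ℤ) % 6 by omega), c6_congr (show (P - a) % 6 = (2:ℤ) % 6 by omega), c6_congr (show (P + a) % 6 = (0:ℤ) % 6 by omega)]; rfl
  · rw [c6_congr (show (a) % 6 = (0:ℤ) % 6 by omega), c6_congr (show (P - a) % 6 = (5:ℤ) % 6 by omega), c6_congr (show (P + a) % 6 = (5:ℤ) % 6 by omega)]; rfl
  · rw [c6_congr (show (a) % 6 = (1:ℤ) % 6 by omega), c6_congr (show (P - a) % 6 = (4:ℤ) % 6 by omega), c6_congr (show (P + a) % 6 = (0:ℤ) % 6 by omega)]; rfl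
  · rw [c6_congr (show (a) % 6 = (2:ℤ) % 6 by omega), c6_congr (show (P - a) % 6 = (3:ℤ) % 6 by omega), c6_congr (show (P + a) % 6 = (1:ℤ) % 6 by omega)]; rfl
  · rw [c6_congr (show (a) % 6 = (3:ℤ) % 6 by omega), c6_congr (show (P - a) % 6 = (2:ℤ) % 6 by omega), c6_congr (show (P + a) % 6 = (2:ℤ) % 6 by omega)]; rfl
  · rw [c6_congr (show (a) % 6 = (4:ℤ) % 6 by omega), c6_congr (show (P - a) % 6 = (1:ℤ) % 6 by omega), c6_congr (show (P + a) % 6 = (3:ℤ) % 6 by omega)]; rfl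
  · rw [c6_congr (show (a) % 6 = (5:ℤ) % 6 by omega), c6_congr (show (P - a) % 6 = (0:ℤ) % 6 by omega), c6_congr (show (P + a) % 6 = (4:ℤ) % 6 by omega)]; rfl

/-- `(-1)^r C(P - 2r) = C(P + r)` : the shift by `3 r` half-periods -/
lemma c6_shift (P : ℤ) (r : ℕ) : (-1) ^ r * c6 (P - 2 * r) = c6 (P + r) := by
  have h3 : ∀ m : ℤ, c6 (m + 3) = - c6 m := by
    intro m
    have h1 := c6_rec (m + 2)
    have h2 := c6_rec (m + 1)
    have e1 : m + 2 + 1 = m + 3 := by ring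
    have e2 : m + 2 - 1 = m + 1 := by ring
    have e3 : m + 1 + 1 = m + 2 := by ring
    have e4 : m + 1 - 1 = m := by ring
    rw [e1, e2] at h1
    rw [e3, e4] at h2
    rw [h1, h2]; ring
  induction r generalizing P with
  | zero => simp
  | succ r ih =>
    have h := ih (P - 2)
    have e1 : P - 2 * ((r + 1 : ℕ) : ℤ) = P - 2 - 2 * r := by push_cast; ring
    have e2 : P + ((r + 1 : ℕ) : ℤ) = P - 2 + r + 3 := by push_cast; ring
    rw [e1, e2, h3, ← h, pow_succ]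
    ring

lemma node_part (m k : ℕ) (hk : k ≤ m) :
    (∏ j ∈ range k, (XN ℚ m - XN ℚ j)) * ((m - k).factorial : ℚ) = 4 ^ k * ((m + k).factorial : ℚ) := by
  induction k with
  | zero => simp
  | succ k ih =>
    have ih' := ih (by omega)
    have e1 : (m - k).factorial = (m - k) * (m - (k + 1)).factorial := by
      have : m - k = (m - (k + 1)) + 1 := by omega
      rw [this, Nat.factorial_succ]
    have e2 : (m + (k + 1)).factorial = (m + k + 1) * (m + k).factorial := by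
      rw [show m + (k + 1) = m + k + 1 by ring, Nat.factorial_succ]
    have e3 : ((m - k : ℕ) : ℚ) = (m : ℚ) - k := by
      rw [Nat.cast_sub (by omega)]
    rw [prod_range_succ, e2]
    rw [e1] at ih'
    push_cast at ih' ⊢
    rw [e3] at ih'
    have e4 : XN ℚ m - XN ℚ k = 4 * (((m : ℚ) - k) * (m + k + 1)) := by unfold XN; ring
    rw [e4, pow_succ]
    linear_combination (4 * ((m : ℚ) + k + 1)) * ih'

lemma node_prod (m n : ℕ) (h : m ≤ n) :
    (∏ j ∈ (range (n + 1)).erase m, (XN ℚ m - XN ℚ j)) * (2 * (m : ℚ) + 1)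
      = 4 ^ n * (-1) ^ (n - m) * ((n - m).factorial : ℚ) * ((n + m + 1).factorial : ℚ) := by
  induction n, h using Nat.le_induction with
  | base =>
    have e : (range (m + 1)).erase m = range m := by
      ext x; simp only [mem_erase, mem_range]; omega
    rw [e]
    have h := node_part m m le_rfl
    simp only [Nat.sub_self, Nat.factorial_zero, Nat.cast_one, mul_one] at h
    rw [h, Nat.sub_self, pow_zero, Nat.factorial_zero, Nat.factorial_succ]
    push_cast; ring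
  | succ n hmn ih =>
    have e : (range (n + 1 + 1)).erase m = insert (n + 1) ((range (n + 1)).erase m) := by
      ext x; simp only [mem_erase, mem_range, mem_insert]; omega
    rw [e, prod_insert (by simp)]
    have e1 : n + 1 - m = (n - m) + 1 := by omega
    have e2 : n + 1 + m + 1 = n + m + 1 + 1 := by ring
    rw [e1, e2, Nat.factorial_succ, Nat.factorial_succ (n + m + 1), pow_succ (-1 : ℚ), pow_succ (4 : ℚ)]
    have e3 : ((n - m : ℕ) : ℚ) = (n : ℚ) - m := by rw [Nat.cast_sub hmn]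
    push_cast
    rw [e3]
    have e4 : XN ℚ m - XN ℚ (n + 1) = 4 * (((m : ℚ) - (n + 1)) * (m + n + 2)) := by unfold XN; push_cast; ring
    rw [e4]
    linear_combination (4 * (((m : ℚ) - (n + 1)) * (m + n + 2))) * ih

lemma XN_inj (n : ℕ) : Set.InjOn (XN ℚ) (range (n + 1) : Finset ℕ) := by
  intro a _ b _ hab
  unfold XN at hab
  have ha : (0 : ℚ) ≤ 2 * (a : ℚ) + 1 := by positivity
  have hb : (0 : ℚ) ≤ 2 * (b : ℚ) + 1 := by positivity
  have := (pow_left_inj₀ ha hb (by norm_num : (2 : ℕ) ≠ 0)).mp hab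
  have h : (a : ℚ) = b := by linarith
  exact_mod_cast h

/-- vanishing divided difference -/
lemma divdiff (n : ℕ) (h : Polynomial ℚ) (hdeg : h.degree < n) :
    ∑ m ∈ range (n + 1), (-1) ^ (n - m) * (2 * (m : ℚ) + 1) * ((2 * n + 1).choose (n - m) : ℚ) * h.eval (XN ℚ m) = 0 := by
  have hc : (range (n + 1)).card = n + 1 := card_range _
  have h1 := Lagrange.coeff_eq_sum (XN_inj n) (P := h) (by
    rw [hc]
    exact lt_trans hdeg (by exact_mod_cast Nat.lt_succ_self n))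
  rw [hc, Nat.add_sub_cancel, Polynomial.coeff_eq_zero_of_degree_lt hdeg] at h1
  have h2 : ∀ m ∈ range (n + 1), (-1) ^ (n - m) * (2 * (m : ℚ) + 1) * ((2 * n + 1).choose (n - m) : ℚ) * h.eval (XN ℚ m)
      = (4 ^ n * ((2 * n + 1).factorial : ℚ)) * (h.eval (XN ℚ m) / ∏ j ∈ (range (n + 1)).erase m, (XN ℚ m - XN ℚ j)) := by
    intro m hm
    simp only [mem_range] at hm
    have hp := node_prod m n (by omega)
    have hch := Nat.choose_mul_factorial_mul_factorial (show n - m ≤ 2 * n + 1 by omega)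
    have e1 : 2 * n + 1 - (n - m) = n + m + 1 := by omega
    rw [e1] at hch
    have hch' : (((2 * n + 1).choose (n - m) : ℕ) : ℚ) * ((n - m).factorial : ℚ) * ((n + m + 1).factorial : ℚ)
        = ((2 * n + 1).factorial : ℚ) := by exact_mod_cast hch
    have hf1 : ((n - m).factorial : ℚ) ≠ 0 := by exact_mod_cast (Nat.factorial_ne_zero _)
    have hf2 : ((n + m + 1).factorial : ℚ) ≠ 0 := by exact_mod_cast (Nat.factorial_ne_zero _)
    have hx : (2 * (m : ℚ) + 1) ≠ 0 := by positivity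
    have hs : ((-1 : ℚ) ^ (n - m)) ≠ 0 := pow_ne_zero _ (by norm_num)
    have hs2 : ((-1 : ℚ) ^ (n - m)) * (-1) ^ (n - m) = 1 := by rw [← mul_pow]; simp
    have hD : (∏ j ∈ (range (n + 1)).erase m, (XN ℚ m - XN ℚ j)) ≠ 0 := by
      intro h0
      rw [h0, zero_mul] at hp
      have : (4 : ℚ) ^ n * (-1) ^ (n - m) * ((n - m).factorial : ℚ) * ((n + m + 1).factorial : ℚ) ≠ 0 :=
        mul_ne_zero (mul_ne_zero (mul_ne_zero (pow_ne_zero _ (by norm_num)) hs) hf1) hf2
      exact this hp.symm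
    set D := ∏ j ∈ (range (n + 1)).erase m, (XN ℚ m - XN ℚ j)
    rw [← hch']
    generalize (-1 : ℚ) ^ (n - m) = s at *
    generalize (((2 * n + 1).choose (n - m) : ℕ) : ℚ) = b at *
    generalize h.eval (XN ℚ m) = E at *
    have e5 : s * (2 * (m : ℚ) + 1) * D = 4 ^ n * ((n - m).factorial : ℚ) * ((n + m + 1).factorial : ℚ) := by
      linear_combination s * hp + (4 ^ n * ((n - m).factorial : ℚ) * ((n + m + 1).factorial : ℚ)) * hs2
    have e6 : 4 ^ n * (b * ((n - m).factorial : ℚ) * ((n + m + 1).factorial : ℚ)) * (E / D)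
        = (s * (2 * (m : ℚ) + 1) * D) * b * (E / D) := by rw [e5]; ring
    rw [e6]
    field_simp
  rw [sum_congr rfl h2, ← mul_sum, ← h1, mul_zero]

end Pool.Agent.Helper91.SC
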