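import Pool.Agent.Helper91.SCTele

set_option autoImplicit false

namespace Pool.Agent.Helper91.SC

open Finset

section
variable {K : Type*} [Field K]

lemma PP_vanish (m j : ℕ) (h : ((2 * m + 1 : ℕ) : K) ≠ 0) (hj : m < j) :
    PP (cc K) (XN K m) j = 0 := by
  unfold PP
  apply prod_eq_zero (i := m) (by simpa using hj)
  have := cc_mul (K := K) m h
  unfold XN
  rw [this]; ring

/-- `beta_m = sum_{i<m} (-1)^i x_i` -/
def beta (K : Type*) [Field K] (m : ℕ) : K := ∑ i ∈ range m, (-1) ^ i * xx K i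

/-- the certificate function for the `rho` identity -/
def gg (K : Type*) [Field K] (m j : ℕ) : K :=
  PP (cc K) (XN K (m + 1)) j * (2 * ((m : K) + 1) * (1 - 2 * j)) *
    (((m : K) + 1 + j) * (2 * m + 1) * (2 * m + 3))⁻¹

lemma rho_tele (m j : ℕ) (hj : j ≤ m) (hK : ∀ k : ℕ, 0 < k → k ≤ 2 * m + 3 → (k : K) ≠ 0) :
    xx K j * (PP (cc K) (XN K (m + 1)) j + PP (cc K) (XN K m) j) = gg K m (j + 1) - gg K m j := by
  have h1 := L1 (K := K) m j (fun i hi => hK _ (by omega) (by omega))
  have e1 : ((m : K) + 1 + j) ≠ 0 := by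
    have := hK (m + 1 + j) (by omega) (by omega); exact_mod_cast this
  have e2 : ((m : K) + 1 + (j + 1)) ≠ 0 := by
    have := hK (m + 1 + (j + 1)) (by omega) (by omega); exact_mod_cast this
  have e3 : (2 * (m : K) + 1) ≠ 0 := by
    have := hK (2 * m + 1) (by omega) (by omega); exact_mod_cast this
  have e4 : (2 * (m : K) + 3) ≠ 0 := by
    have := hK (2 * m + 3) (by omega) (by omega); exact_mod_cast this
  have e5 : (2 * (j : K) + 1) ≠ 0 := by
    have := hK (2 * j + 1) (by omega) (by omega); exact_mod_cast this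
  have hfac := factor_eq (K := K) j (m + 1) (hK _ (by omega) (by omega))
  have hx : xx K j = (2 * (j : K) + 1)⁻¹ := rfl
  unfold gg
  rw [PP_succ, hfac]
  have hP : PP (cc K) (XN K m) j
      = PP (cc K) (XN K (m + 1)) j * ((m : K) + 1 - j) * ((m : K) + 1 + j)⁻¹ := by
    field_simp
    linear_combination -h1
  rw [hP]
  unfold cc
  rw [hx]
  push_cast
  field_simp
  ring

lemma rho_step (m : ℕ) (hK : ∀ k : ℕ, 0 < k → k ≤ 2 * m + 3 → (k : K) ≠ 0) :
    ∑ j ∈ range (m + 2), xx K j * PP (cc K) (XN K (m + 1)) j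
      + ∑ j ∈ range (m + 1), xx K j * PP (cc K) (XN K m) j = xx K (m + 1) - xx K m := by
  rw [sum_range_succ _ (m + 1)]
  have e : ∑ j ∈ range (m + 1), xx K j * PP (cc K) (XN K (m + 1)) j
      + ∑ j ∈ range (m + 1), xx K j * PP (cc K) (XN K m) j = gg K m (m + 1) - gg K m 0 := by
    rw [← sum_add_distrib, ← sum_range_sub]
    apply sum_congr rfl
    intro j hj
    rw [← rho_tele m j (by simp at hj; omega) hK]; ring
  have e0 : gg K m 0 = 2 * ((2 * (m : K) + 1) * (2 * m + 3))⁻¹ := by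
    have e1 : ((m : K) + 1) ≠ 0 := by
      have := hK (m + 1) (by omega) (by omega); exact_mod_cast this
    have e3 : (2 * (m : K) + 1) ≠ 0 := by
      have := hK (2 * m + 1) (by omega) (by omega); exact_mod_cast this
    have e4 : (2 * (m : K) + 3) ≠ 0 := by
      have := hK (2 * m + 3) (by omega) (by omega); exact_mod_cast this
    unfold gg; rw [PP_zero]
    simp only [Nat.cast_zero, add_zero, mul_zero, sub_zero]
    field_simp
  have e1 : gg K m (m + 1) = - (xx K (m + 1) * PP (cc K) (XN K (m + 1)) (m + 1)) := by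
    have e1 : ((m : K) + 1) ≠ 0 := by
      have := hK (m + 1) (by omega) (by omega); exact_mod_cast this
    have e3 : (2 * (m : K) + 1) ≠ 0 := by
      have := hK (2 * m + 1) (by omega) (by omega); exact_mod_cast this
    have e4 : (2 * (m : K) + 3) ≠ 0 := by
      have := hK (2 * m + 3) (by omega) (by omega); exact_mod_cast this
    have e2 : (2 : K) ≠ 0 := by
      have := hK 2 (by omega) (by omega); exact_mod_cast this
    have e5 : (2 * ((m : K) + 1) + 1) ≠ 0 := by
      have := hK (2 * (m + 1) + 1) (by omega) (by omega); exact_mod_cast this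
    unfold gg xx; push_cast
    have e6 : ((m : K) + 1 + (m + 1)) = 2 * (m + 1) := by ring
    have e7 : (2 * ((m : K) + 1) + 1) = 2 * m + 3 := by ring
    rw [e6, e7]; field_simp; ring
  have e2 : xx K (m + 1) - xx K m = - (2 * ((2 * (m : K) + 1) * (2 * m + 3))⁻¹) := by
    have e3 : (2 * (m : K) + 1) ≠ 0 := by
      have := hK (2 * m + 1) (by omega) (by omega); exact_mod_cast this
    have e4 : (2 * (m : K) + 3) ≠ 0 := by
      have := hK (2 * m + 3) (by omega) (by omega); exact_mod_cast this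
    unfold xx; push_cast
    have e7 : (2 * ((m : K) + 1) + 1) = 2 * m + 3 := by ring
    rw [e7]; field_simp; ring
  rw [e2, ← e0]
  linear_combination e + e1

lemma rho_val (m : ℕ) (hK : ∀ k : ℕ, 0 < k → k ≤ 2 * m + 1 → (k : K) ≠ 0) :
    ∑ j ∈ range (m + 1), xx K j * PP (cc K) (XN K m) j = xx K m + 2 * (-1) ^ m * beta K m := by
  induction m with
  | zero => simp [PP_zero, beta]
  | succ m ih =>
    have h1 := rho_step (K := K) m (fun k h h' => hK k h (by omega))
    have h2 := ih (fun k h h' => hK k h (by omega))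
    have h3 : beta K (m + 1) = beta K m + (-1) ^ m * xx K m := by
      unfold beta; rw [sum_range_succ]
    have hs : ((-1 : K) ^ m) * (-1) ^ m = 1 := by rw [← mul_pow]; simp
    rw [h3, pow_succ]
    linear_combination h1 - h2 + 2 * xx K m * hs

/-- `Q_k(Z) = prod_{i=1}^k (1 - Z/i^2)` -/
def QQ (Z : K) (k : ℕ) : K := ∏ i ∈ range k, (1 - Z * (((i : K) + 1) ^ 2)⁻¹)

lemma QQ_zero (Z : K) : QQ Z 0 = 1 := by simp [QQ]

lemma QQ_succ (Z : K) (k : ℕ) : QQ Z (k + 1) = QQ Z k * (1 - Z * (((k : K) + 1) ^ 2)⁻¹) := by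
  simp [QQ, prod_range_succ]

lemma QQ_tele (Z : K) (J : ℕ) (h : ∀ k ≤ J, QQ Z k ≠ 0) :
    (QQ Z J)⁻¹ = 1 + Z * ∑ k ∈ range J, ((((k : K) + 1) ^ 2) * QQ Z (k + 1))⁻¹ := by
  induction J with
  | zero => simp [QQ_zero]
  | succ J ih =>
    have h1 := ih (fun k hk => h k (by omega))
    rw [sum_range_succ, mul_add, ← add_assoc, ← h1]
    have hne := h (J + 1) le_rfl
    rw [QQ_succ] at hne ⊢
    have hn1 := left_ne_zero_of_mul hne
    have hn2 := right_ne_zero_of_mul hne
    set y := (((J : K) + 1) ^ 2)⁻¹ with hy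
    rw [mul_inv, mul_inv, mul_inv, ← hy]
    field_simp
    ring

/-- ratio formula -/
lemma QQ_ratio (N k : ℕ) (h0 : ∀ i : ℕ, 0 < i → i ≤ k → (i : K) ≠ 0) :
    QQ ((N : K) ^ 2) k * (-(N : K) * ((N : K) + 1 + k)) =
      QQ (((N : K) + 1) ^ 2) k * (((N : K) + 1) * ((k : K) - N)) := by
  induction k with
  | zero => simp [QQ_zero]; ring
  | succ k ih =>
    have ih' := ih (fun i h h' => h0 i h (by omega))
    have hk : ((k : K) + 1) ≠ 0 := by have := h0 (k + 1) (by omega) le_rfl; exact_mod_cast this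
    rw [QQ_succ, QQ_succ]
    have e : (((k : K) + 1) ^ 2)⁻¹ * ((k : K) + 1) ^ 2 = 1 := by field_simp
    set y := (((k : K) + 1) ^ 2)⁻¹ with hy
    have e1 : (1 - (N : K) ^ 2 * y) = y * (((k : K) + 1 - N) * ((k : K) + 1 + N)) := by
      linear_combination -e
    have e2 : (1 - ((N : K) + 1) ^ 2 * y) = y * (((k : K) - N) * ((k : K) + 2 + N)) := by
      linear_combination -e
    rw [e1, e2]
    push_cast
    linear_combination (y * ((k : K) + 1 - N) * ((k : K) + 1 + 1 + N)) * ih'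

lemma QQ_ne (N k : ℕ) (hk : k < N) (hK : ∀ k : ℕ, 0 < k → k ≤ 2 * N → (k : K) ≠ 0) :
    QQ ((N : K) ^ 2) k ≠ 0 := by
  unfold QQ
  apply prod_ne_zero_iff.mpr
  intro i hi
  simp only [mem_range] at hi
  have h1 : ((i : K) + 1) ≠ 0 := by have := hK (i + 1) (by omega) (by omega); exact_mod_cast this
  have h2 : ((N : K) + i + 1) ≠ 0 := by have := hK (N + i + 1) (by omega) (by omega); exact_mod_cast this
  have h3 : ((N : K) - (i + 1)) ≠ 0 := by
    have := hK (N - (i + 1)) (by omega) (by omega)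
    rwa [Nat.cast_sub (by omega), Nat.cast_add, Nat.cast_one] at this
  have e : (1 - (N : K) ^ 2 * (((i : K) + 1) ^ 2)⁻¹) = - (((N : K) - (i + 1)) * ((N : K) + i + 1)) * (((i : K) + 1) ^ 2)⁻¹ := by
    field_simp; ring
  rw [e]
  exact mul_ne_zero (neg_ne_zero.mpr (mul_ne_zero h3 h2)) (inv_ne_zero (pow_ne_zero _ h1))

lemma QQ_diag (m : ℕ) (hK : ∀ k : ℕ, 0 < k → k ≤ 2 * (m + 1) → (k : K) ≠ 0) :
    2 * QQ (((m : K) + 1) ^ 2) m = (-1) ^ m * (Nat.centralBinom (m + 1) : K) := by
  induction m with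
  | zero => simp [QQ_zero, Nat.centralBinom, Nat.choose]
  | succ m ih =>
    have ih' := ih (fun k h h' => hK k h (by omega))
    have hr := QQ_ratio (K := K) (m + 1) m (fun i h h' => hK i h (by omega))
    have e := Nat.succ_mul_centralBinom_succ (m + 1)
    have e' : ((m : K) + 1 + 1) * (Nat.centralBinom (m + 1 + 1) : K)
        = 2 * (2 * ((m : K) + 1) + 1) * (Nat.centralBinom (m + 1) : K) := by
      exact_mod_cast congrArg (fun n : ℕ => (n : K)) e
    have h1 : ((m : K) + 1) ≠ 0 := by have := hK (m + 1) (by omega) (by omega); exact_mod_cast this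
    have h2 : ((m : K) + 1 + 1) ≠ 0 := by have := hK (m + 1 + 1) (by omega) (by omega); exact_mod_cast this
    have h3 : (2 : K) ≠ 0 := by have := hK (2) (by omega) (by omega); exact_mod_cast this
    push_cast at hr ⊢
    rw [QQ_succ]
    have e3 : (((m : K) + 1) ^ 2)⁻¹ * ((m : K) + 1) ^ 2 = 1 := by field_simp
    set y := (((m : K) + 1) ^ 2)⁻¹ with hy
    apply mul_left_cancel₀ h2
    set q := QQ (((m : K) + 1 + 1) ^ 2) m with hq
    have hr' : q * ((m : K) + 1 + 1) = QQ (((m : K) + 1) ^ 2) m * (2 * ((m : K) + 1) ^ 2) := by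
      linear_combination hr
    have e4 : (1 - ((m : K) + 1 + 1) ^ 2 * y) = - y * (2 * ((m : K) + 1) + 1) := by
      linear_combination -e3
    rw [e4, pow_succ]
    linear_combination (-2 * y * (2 * ((m : K) + 1) + 1)) * hr' - 4 * QQ (((m : K) + 1) ^ 2) m * (2 * ((m : K) + 1) + 1) * e3
      - 2 * (2 * ((m : K) + 1) + 1) * ih' + (-1) ^ m * e'

end

end Pool.Agent.Helper91.SC
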