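import Pool.Agent.Helper91.SCKd
import Pool.Agent.Helper91.SCTele2

set_option autoImplicit false

namespace Pool.Agent.Helper91.SC

open Finset Polynomial

/-- the polynomial version of `P_j` -/
noncomputable def PPo (j : ℕ) : Polynomial ℚ := PP (fun i => C (cc ℚ i)) X j

lemma PPo_succ (j : ℕ) : PPo (j + 1) = PPo j * (1 - C (cc ℚ j) * X) := PP_succ _ _ _

lemma PPo_zero : PPo 0 = 1 := PP_zero _ _

lemma PPo_eval (a : ℚ) (j : ℕ) : (PPo j).eval a = PP (cc ℚ) a j := by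
  induction j with
  | zero => rw [PPo_zero, PP_zero]; simp
  | succ j ih => rw [PPo_succ, PP_succ, eval_mul, ih]; simp

lemma PPo_deg (j : ℕ) : (PPo j).degree ≤ j := by
  induction j with
  | zero => rw [PPo_zero]; simp
  | succ j ih =>
    rw [PPo_succ]
    refine (degree_mul_le _ _).trans ?_
    have h1 : (1 - C (cc ℚ j) * X : Polynomial ℚ).degree ≤ 1 := by
      refine (degree_sub_le _ _).trans ?_
      apply max_le
      · rw [degree_one]; exact zero_le_one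
      · exact degree_C_mul_X_le _
    push_cast
    exact add_le_add ih h1

lemma PPo_der (a : ℚ) (j : ℕ) (h : ∀ i < j, 1 - cc ℚ i * a ≠ 0) :
    (derivative (PPo j)).eval a = - (PP (cc ℚ) a j * tau a j) := by
  induction j with
  | zero => rw [PPo_zero]; simp [tau]
  | succ j ih =>
    have ih' := ih (fun i hi => h i (by omega))
    have hj := h j (by omega)
    rw [PPo_succ, derivative_mul, eval_add, eval_mul, eval_mul, ih', PPo_eval, PP_succ, tau_succ]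
    have e1 : (1 - C (cc ℚ j) * X : Polynomial ℚ).eval a = 1 - cc ℚ j * a := by simp
    have e2 : (derivative (1 - C (cc ℚ j) * X : Polynomial ℚ)).eval a = - cc ℚ j := by simp
    rw [e1, e2]
    have h5 : (1 - cc ℚ j * a) * (1 - cc ℚ j * a)⁻¹ = 1 := mul_inv_cancel₀ hj
    linear_combination (PP (cc ℚ) a j * cc ℚ j) * h5

/-- the truncated generating polynomial -/
noncomputable def gp (n : ℕ) : Polynomial ℚ := ∑ j ∈ range n, C (uu ℚ j * xx ℚ j) * PPo j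

lemma gp_eval (n : ℕ) (a : ℚ) : (gp n).eval a = ∑ j ∈ range n, uu ℚ j * xx ℚ j * PP (cc ℚ) a j := by
  unfold gp
  rw [eval_finsetSum]
  apply sum_congr rfl
  intro j _
  rw [eval_mul, eval_C, PPo_eval]

lemma K_Q' (N : ℕ) : ∀ k : ℕ, 0 < k → k ≤ 2 * N + 1 → (k : ℚ) ≠ 0 := fun k h _ => by exact_mod_cast h.ne'

lemma gp_node (n m : ℕ) (hm : m < n) :
    (gp n).eval (XN ℚ m) = xx ℚ m * ((-1) ^ m * (c6 (2 * m + 1) : ℤ)) := by
  rw [gp_eval, ← S_lemma (K := ℚ) m (by norm_num) (K_Q' m)]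
  symm
  apply sum_subset
  · intro x hx; simp only [mem_range] at *; omega
  · intro x _ hx
    simp only [mem_range, not_lt] at hx
    rw [PP_vanish m x (by exact_mod_cast (show 2 * m + 1 ≠ 0 by omega)) (by omega), mul_zero]

lemma c6_one (P : ℤ) (hP : P % 6 = 1 ∨ P % 6 = 5) : c6 P = 1 := by
  rcases hP with h | h
  · rw [c6_congr (show P % 6 = (1 : ℤ) % 6 by omega)]; rfl
  · rw [c6_congr (show P % 6 = (5 : ℤ) % 6 by omega)]; rfl

/-- (F1) -/
lemma gp_last (n : ℕ) (h6 : (2 * n + 1) % 6 = 1 ∨ (2 * n + 1) % 6 = 5) : (gp n).eval (XN ℚ n) = 0 := by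
  rw [gp_eval]
  have h := S_lemma (K := ℚ) n (by norm_num) (K_Q' n)
  rw [sum_range_succ] at h
  have h2 := L2 (K := ℚ) n n le_rfl (by norm_num) (fun i _ => by exact_mod_cast (show 2 * i + 1 ≠ 0 by omega))
    (fun i _ => by exact_mod_cast (show i + 1 ≠ 0 by omega))
  rw [show n + n = 2 * n by ring, Nat.choose_self, Nat.cast_one, mul_one] at h2
  have h3 : uu ℚ n * xx ℚ n * PP (cc ℚ) (XN ℚ n) n = xx ℚ n * (-1) ^ n := by
    linear_combination xx ℚ n * h2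
  rw [h3, c6_one (2 * n + 1) (by omega)] at h
  push_cast at h
  linear_combination h

lemma gp_deg (n : ℕ) : (gp n).degree < n := by
  unfold gp
  apply (degree_sum_le _ _).trans_lt
  rw [Finset.sup_lt_iff]
  · intro j hj
    simp only [mem_range] at hj
    have h1 : (C (uu ℚ j * xx ℚ j) * PPo j).degree ≤ 0 + (PPo j).degree :=
      (degree_mul_le _ _).trans (add_le_add degree_C_le le_rfl)
    rw [zero_add] at h1
    refine lt_of_le_of_lt (h1.trans (PPo_deg j)) ?_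
    exact_mod_cast hj
  · exact WithBot.bot_lt_coe n

/-- `Kd = sum_j u_j x_j P_j tau_j` at `X = a` -/
def Kd (a : ℚ) (n : ℕ) : ℚ := ∑ j ∈ range n, uu ℚ j * xx ℚ j * (PP (cc ℚ) a j * tau a j)

lemma gp_der (n : ℕ) (a : ℚ) (h : ∀ i < n, 1 - cc ℚ i * a ≠ 0) :
    (derivative (gp n)).eval a = - Kd a n := by
  unfold gp Kd
  rw [derivative_sum, eval_finsetSum, ← sum_neg_distrib]
  apply sum_congr rfl
  intro j hj
  simp only [mem_range] at hj
  rw [derivative_C_mul, eval_mul, eval_C, PPo_der a j (fun i hi => h i (by omega))]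
  ring

section
variable {p : ℕ} [hp : Fact p.Prime] {n : ℕ}

lemma p_mod6 (hpn : p = 2 * n + 1) (hp5 : 5 < p) : (2 * n + 1) % 6 = 1 ∨ (2 * n + 1) % 6 = 5 := by
  obtain ⟨hp2, hp3⟩ := p_mod (p := p) hp5
  omega

/-- Lagrange form of the derivative -/
lemma Kd_lagrange (hpn : p = 2 * n + 1) (hp5 : 5 < p) :
    4 * (p : ℚ) * Kd ((p : ℚ) ^ 2) n
      = - (-1) ^ n * ∑ k ∈ range n, (-1) ^ (k + 1) * ((2 * n + 1).choose (k + 1) : ℚ)
          * (((c6 ((k : ℤ) + 1) : ℤ) : ℚ) - ((c6 ((2 * n + 1 : ℤ) - (k + 1)) : ℤ) : ℚ))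
          * (yy ℚ k * zz n k) := by
  have h6 := p_mod6 hpn hp5
  have hn : 0 < n := by omega
  have hX := XN_eq (p := p) hpn
  have hne : ∀ i < n, 1 - cc ℚ i * (p : ℚ) ^ 2 ≠ 0 := fun i hi => one_sub_ne hpn i hi
  have hroot : IsRoot (gp n) ((p : ℚ) ^ 2) := by
    unfold IsRoot; rw [← hX]; exact gp_last n h6
  have hdiv := mul_divByMonic_eq_iff_isRoot.mpr hroot
  set h := gp n /ₘ (X - C ((p : ℚ) ^ 2)) with hh
  have hdeg : h.degree < n := lt_of_le_of_lt (degree_divByMonic_le _ _) (gp_deg n)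
  have hder : h.eval ((p : ℚ) ^ 2) = - Kd ((p : ℚ) ^ 2) n := by
    rw [← gp_der n _ hne, ← hdiv, derivative_mul, derivative_sub, derivative_X, derivative_C, eval_add,
      eval_mul, eval_mul, eval_sub, eval_sub, eval_X, eval_C, eval_one, eval_zero]
    ring
  have hD := divdiff n h hdeg
  rw [sum_range_succ, Nat.sub_self, pow_zero, Nat.choose_zero_right, hX, hder] at hD
  rw [← sum_range_reflect] at hD
  have hterm : ∀ k ∈ range n, (-1) ^ (n - (n - 1 - k)) * (2 * ((n - 1 - k : ℕ) : ℚ) + 1) * ((2 * n + 1).choose (n - (n - 1 - k)) : ℚ) * h.eval (XN ℚ (n - 1 - k))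
      = - 4⁻¹ * ((-1) ^ n * ((-1) ^ (k + 1) * ((2 * n + 1).choose (k + 1) : ℚ)
          * (((c6 ((k : ℤ) + 1) : ℤ) : ℚ) - ((c6 ((2 * n + 1 : ℤ) - (k + 1)) : ℤ) : ℚ))
          * (yy ℚ k * zz n k))) := by
    intro k hk
    simp only [mem_range] at hk
    have e1 : n - (n - 1 - k) = k + 1 := by omega
    rw [e1]
    set m := n - 1 - k with hm
    have hmc : (m : ℚ) = n - (k + 1) := by
      rw [hm, Nat.cast_sub (by omega), Nat.cast_sub (by omega)]; push_cast; ring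
    have hmz : (m : ℤ) = n - (k + 1) := by
      rw [hm, Nat.cast_sub (by omega), Nat.cast_sub (by omega)]; push_cast; ring
    have hgm := gp_node n m (by omega)
    have hev : (XN ℚ m - (p : ℚ) ^ 2) * h.eval (XN ℚ m) = (gp n).eval (XN ℚ m) := by
      conv_rhs => rw [← hdiv]
      rw [eval_mul]; simp
    rw [hgm] at hev
    have hX2 : XN ℚ m - (p : ℚ) ^ 2 = - (4 * ((k : ℚ) + 1) * ((2 * n + 1 : ℚ) - (k + 1))) := by
      rw [← hX]; unfold XN; rw [hmc]; ring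
    have hk1 : ((k : ℚ) + 1) ≠ 0 := by positivity
    have hz : ((2 * n + 1 : ℚ) - (k + 1)) ≠ 0 := by
      have : ((k : ℚ)) < n := by exact_mod_cast hk
      have : (0 : ℚ) < ((2 * n + 1 : ℚ) - (k + 1)) := by linarith
      exact this.ne'
    have hxm : (2 * (m : ℚ) + 1) ≠ 0 := by positivity
    have hxx : xx ℚ m * (2 * (m : ℚ) + 1) = 1 := xx_mul m (by exact_mod_cast (show 2 * m + 1 ≠ 0 by omega))
    -- s_m
    have hs : (-1 : ℤ) ^ m * c6 (2 * m + 1) = (-1) ^ n * (c6 ((k : ℤ) + 1) - c6 ((2 * n + 1 : ℤ) - (k + 1))) := by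
      have a1 := c6_shift (2 * n + 1 : ℤ) (k + 1)
      have a2 := c6_add (2 * n + 1 : ℤ) ((k : ℤ) + 1) (by omega)
      have a3 : (2 * (m : ℤ) + 1) = (2 * n + 1 : ℤ) - 2 * ((k + 1 : ℕ) : ℤ) := by rw [hmz]; push_cast; ring
      have a4 : (-1 : ℤ) ^ m = (-1) ^ n * (-1) ^ (k + 1) := by
        have : n = m + (k + 1) := by omega
        conv_rhs => rw [this]
        rw [pow_add, mul_assoc, ← mul_pow]; simp
      rw [a3, a4]
      push_cast at a1 ⊢
      rw [mul_assoc, a1, a2]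
      ring
    have hs' : (-1 : ℚ) ^ m * ((c6 (2 * m + 1) : ℤ) : ℚ)
        = (-1) ^ n * (((c6 ((k : ℤ) + 1) : ℤ) : ℚ) - ((c6 ((2 * n + 1 : ℤ) - (k + 1)) : ℤ) : ℚ)) := by
      exact_mod_cast congrArg (fun z : ℤ => (z : ℚ)) hs
    rw [hs'] at hev
    rw [hX2] at hev
    unfold yy zz
    generalize ((c6 ((k : ℤ) + 1) : ℤ) : ℚ) - ((c6 ((2 * n + 1 : ℤ) - (k + 1)) : ℤ) : ℚ) = cc1 at *
    generalize eval (XN ℚ m) h = E at *
    have hE : (2 * (m : ℚ) + 1) * E = -(4⁻¹ * ((-1) ^ n * cc1) * (((k : ℚ) + 1)⁻¹ * ((2 * n + 1 : ℚ) - (k + 1))⁻¹)) := by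
      have : E = - (xx ℚ m * ((-1) ^ n * cc1)) * (4 * ((k : ℚ) + 1) * ((2 * n + 1 : ℚ) - (k + 1)))⁻¹ := by
        field_simp
        linear_combination -hev
      rw [this, mul_inv, mul_inv]
      linear_combination (-((-1) ^ n * cc1) * (4⁻¹ * ((k : ℚ) + 1)⁻¹ * ((2 * n + 1 : ℚ) - (k + 1))⁻¹)) * hxx
    linear_combination ((-1) ^ (k + 1) * ((2 * n + 1).choose (k + 1) : ℚ)) * hE
  rw [sum_congr rfl hterm, ← mul_sum, ← mul_sum] at hD
  have hpq : (2 * (n : ℚ) + 1) = p := by rw [hpn]; push_cast; ring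
  rw [hpq] at hD
  push_cast at hD ⊢
  linear_combination -4 * hD

/-- the derivative sum in terms of `W'` : `4 p^2 Kd = (-1)^n (h_1 - W')` -/
lemma Kd_W (hpn : p = 2 * n + 1) (hp5 : 5 < p) :
    4 * (p : ℚ) ^ 2 * Kd ((p : ℚ) ^ 2) n = (-1) ^ n * (hs n 1 - Wp n) := by
  have h6 := p_mod6 hpn hp5
  have hL := Kd_lagrange hpn hp5
  have hpq : (p : ℚ) = 2 * n + 1 := by rw [hpn]; push_cast; ring
  set d : ℕ → ℚ := fun k => ((c6 ((k : ℤ) + 1) : ℤ) : ℚ) - ((c6 ((2 * n + 1 : ℤ) - (k + 1)) : ℤ) : ℚ) with hd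
  set b : ℕ → ℚ := fun k => (-1) ^ (k + 1) * ((2 * n + 1).choose (k + 1) : ℚ) with hb
  -- B = sum over the full range
  have hB : (p : ℚ) * ∑ k ∈ range n, b k * d k * (yy ℚ k * zz n k) = ∑ k ∈ range (2 * n), b k * d k * yy ℚ k := by
    rw [sum_half, mul_sum, ← sum_add_distrib]
    apply sum_congr rfl
    intro k hk
    simp only [mem_range] at hk
    have hr := zz_rel (p := p) hpn k (by omega)
    rw [← zz_eq n k (by omega)]
    have e1 : b (2 * n - 1 - k) = - b k := by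
      rw [hb]; simp only []
      have a1 : 2 * n - 1 - k + 1 = 2 * n + 1 - (k + 1) := by omega
      rw [a1, Nat.choose_symm (by omega)]
      have a2 : (-1 : ℚ) ^ (2 * n + 1 - (k + 1)) = - (-1) ^ (k + 1) := by
        have a3 : (-1 : ℚ) ^ (2 * n + 1 - (k + 1)) * (-1) ^ (k + 1) = -1 := by
          rw [← pow_add, Nat.sub_add_cancel (by omega)]
          simp [pow_add, pow_mul]
        have a4 : ((-1 : ℚ) ^ (k + 1)) * (-1) ^ (k + 1) = 1 := by rw [← mul_pow]; simp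
        linear_combination (-1) ^ (k + 1) * a3 - (-1 : ℚ) ^ (2 * n + 1 - (k + 1)) * a4
      rw [a2]; ring
    have e2 : d (2 * n - 1 - k) = - d k := by
      rw [hd]; simp only []
      have a1 : ((2 * n - 1 - k : ℕ) : ℤ) + 1 = (2 * n + 1 : ℤ) - (k + 1) := by
        rw [Nat.cast_sub (by omega), Nat.cast_sub (by omega)]; push_cast; ring
      rw [a1]
      have a2 : (2 * n + 1 : ℤ) - ((2 * n + 1 : ℤ) - (k + 1)) = k + 1 := by ring
      rw [a2]; ring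
    rw [e1, e2]
    linear_combination (-(b k * d k)) * hr
  -- evaluation of B
  have hf1 := binom_sum (fun r => ((c6 ((0 : ℤ) + r) : ℤ) : ℚ)) (2 * n + 1)
  have hf2 := binom_sum (fun r => ((c6 (-(2 * n + 1 : ℤ) + r) : ℤ) : ℚ)) (2 * n + 1)
  simp only [bdel_c6] at hf1 hf2
  have hsub := congrArg₂ (fun a b : ℚ => a - b) hf1 hf2
  simp only [← sum_sub_distrib] at hsub
  rw [sum_range_succ, sum_range_succ] at hsub
  have hBv : ∑ k ∈ range (2 * n), b k * d k * yy ℚ k = Wp n - hs n 1 := by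
    have l1 : ∀ k ∈ range (2 * n), (-1 : ℚ) ^ (k + 1) * ((2 * n + 1).choose (k + 1) : ℚ) * ((c6 ((0 : ℤ) + ((k + 1 : ℕ) : ℤ)) : ℤ) : ℚ) / (k + 1)
        - (-1 : ℚ) ^ (k + 1) * ((2 * n + 1).choose (k + 1) : ℚ) * ((c6 (-(2 * n + 1 : ℤ) + ((k + 1 : ℕ) : ℤ)) : ℤ) : ℚ) / (k + 1)
        = b k * d k * yy ℚ k := by
      intro k _
      rw [hb, hd]; simp only []
      have a1 : c6 ((0 : ℤ) + ((k + 1 : ℕ) : ℤ)) = c6 ((k : ℤ) + 1) := by push_cast; rw [zero_add]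
      have a2 : c6 (-(2 * n + 1 : ℤ) + ((k + 1 : ℕ) : ℤ)) = c6 ((2 * n + 1 : ℤ) - (k + 1)) := by
        rw [← c6_neg]; congr 1; push_cast; ring
      rw [a1, a2]
      unfold yy
      ring
    have l2 : ∀ k ∈ range (2 * n), (((c6 ((0 : ℤ) - ((k + 1 : ℕ) : ℤ)) : ℤ) : ℚ) - ((c6 ((0 : ℤ) + ((0 : ℕ) : ℤ)) : ℤ) : ℚ)) / (k + 1)
        - (((c6 (-(2 * n + 1 : ℤ) - ((k + 1 : ℕ) : ℤ)) : ℤ) : ℚ) - ((c6 (-(2 * n + 1 : ℤ) + ((0 : ℕ) : ℤ)) : ℤ) : ℚ)) / (k + 1)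
        = (((c6 ((2 * n + 1 : ℤ) - (k + 1)) : ℤ) : ℚ) - 1) * yy ℚ k := by
      intro k _
      have a1 : c6 ((0 : ℤ) - ((k + 1 : ℕ) : ℤ)) = c6 ((k : ℤ) + 1) := by
        rw [zero_sub, c6_neg]; push_cast; rfl
      have a2 : c6 (-(2 * n + 1 : ℤ) - ((k + 1 : ℕ) : ℤ)) = c6 ((2 * n + 1 : ℤ) + (k + 1)) := by
        rw [← c6_neg]; congr 1; push_cast; ring
      have a3 : c6 (-(2 * n + 1 : ℤ) + ((0 : ℕ) : ℤ)) = 1 := by
        rw [Nat.cast_zero, add_zero, c6_neg]; exact c6_one _ (by omega)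
      have a4 : c6 ((0 : ℤ) + ((0 : ℕ) : ℤ)) = 2 := by simp [c6]
      rw [a1, a2, a3, a4]
      have a5 := c6_add (2 * n + 1 : ℤ) ((k : ℤ) + 1) (by omega)
      rw [a5]
      unfold yy
      push_cast
      ring
    rw [sum_congr rfl l1, sum_congr rfl l2] at hsub
    -- last terms
    have t1 : (-1 : ℚ) ^ (2 * n + 1) * ((2 * n + 1).choose (2 * n + 1) : ℚ) * ((c6 ((0 : ℤ) + ((2 * n + 1 : ℕ) : ℤ)) : ℤ) : ℚ) / (((2 * n : ℕ) : ℚ) + 1)
        - (-1 : ℚ) ^ (2 * n + 1) * ((2 * n + 1).choose (2 * n + 1) : ℚ) * ((c6 (-(2 * n + 1 : ℤ) + ((2 * n + 1 : ℕ) : ℤ)) : ℤ) : ℚ) / (((2 * n : ℕ) : ℚ) + 1)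
        = 1 / (((2 * n : ℕ) : ℚ) + 1) := by
      have a1 : c6 ((0 : ℤ) + ((2 * n + 1 : ℕ) : ℤ)) = 1 := by
        rw [zero_add]; push_cast; exact c6_one _ (by omega)
      have a2 : c6 (-(2 * n + 1 : ℤ) + ((2 * n + 1 : ℕ) : ℤ)) = 2 := by
        push_cast; rw [neg_add_cancel]; simp [c6]
      rw [a1, a2, Nat.choose_self]
      have a3 : (-1 : ℚ) ^ (2 * n + 1) = -1 := by simp [pow_add, pow_mul]
      rw [a3]
      push_cast
      ring
    have t2 : (((c6 ((0 : ℤ) - ((2 * n + 1 : ℕ) : ℤ)) : ℤ) : ℚ) - ((c6 ((0 : ℤ) + ((0 : ℕ) : ℤ)) : ℤ) : ℚ)) / (((2 * n : ℕ) : ℚ) + 1)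
        - (((c6 (-(2 * n + 1 : ℤ) - ((2 * n + 1 : ℕ) : ℤ)) : ℤ) : ℚ) - ((c6 (-(2 * n + 1 : ℤ) + ((0 : ℕ) : ℤ)) : ℤ) : ℚ)) / (((2 * n : ℕ) : ℚ) + 1)
        = 1 / (((2 * n : ℕ) : ℚ) + 1) := by
      have a1 : c6 ((0 : ℤ) - ((2 * n + 1 : ℕ) : ℤ)) = 1 := by
        rw [zero_sub, c6_neg]; push_cast; exact c6_one _ (by omega)
      have a2 : c6 (-(2 * n + 1 : ℤ) - ((2 * n + 1 : ℕ) : ℤ)) = -1 := by
        rw [← c6_neg]
        have : -(-(2 * n + 1 : ℤ) - ((2 * n + 1 : ℕ) : ℤ)) = 2 * (2 * n + 1) := by push_cast; ring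
        rw [this]
        rcases h6 with h | h
        · rw [c6_congr (show (2 * (2 * (n : ℤ) + 1)) % 6 = (2 : ℤ) % 6 by omega)]; rfl
        · rw [c6_congr (show (2 * (2 * (n : ℤ) + 1)) % 6 = (4 : ℤ) % 6 by omega)]; rfl
      have a3 : c6 (-(2 * n + 1 : ℤ) + ((0 : ℕ) : ℤ)) = 1 := by
        rw [Nat.cast_zero, add_zero, c6_neg]; exact c6_one _ (by omega)
      have a4 : c6 ((0 : ℤ) + ((0 : ℕ) : ℤ)) = 2 := by simp [c6]
      rw [a1, a2, a3, a4]
      push_cast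
      ring
    rw [t1, t2] at hsub
    have hsub' : ∑ k ∈ range (2 * n), b k * d k * yy ℚ k
        = ∑ k ∈ range (2 * n), (((c6 ((2 * n + 1 : ℤ) - (k + 1)) : ℤ) : ℚ) - 1) * yy ℚ k := by
      linear_combination hsub
    rw [hsub']
    have hW : Wp n = ∑ k ∈ range (2 * n), ((c6 ((2 * n + 1 : ℤ) - (k + 1)) : ℤ) : ℚ) * yy ℚ k := by
      unfold Wp
      rw [← sum_range_reflect]
      apply sum_congr rfl
      intro k hk
      simp only [mem_range] at hk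
      rw [zz_eq n (2 * n - 1 - k) (by omega)]
      have a1 : ((2 * n - 1 - k : ℕ) : ℤ) + 1 = (2 * n + 1 : ℤ) - (k + 1) := by
        rw [Nat.cast_sub (by omega), Nat.cast_sub (by omega)]; push_cast; ring
      rw [a1]
      congr 2
      omega
    rw [hW]
    unfold hs
    rw [← sum_sub_distrib]
    apply sum_congr rfl
    intro k _
    rw [pow_one]; ring
  rw [hBv] at hB
  linear_combination (p : ℚ) * hL - (-1) ^ n * hB

end

end Pool.Agent.Helper91.SC
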