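import Pool.Agent.Helper91.SCY2

set_option autoImplicit false

namespace Pool.Agent.Helper91.SC

open Finset

section
variable {p : ℕ} [hp : Fact p.Prime] {n : ℕ}

/-- (F1) -/
lemma F1 (hpn : p = 2 * n + 1) (hp5 : 5 < p) :
    ∑ j ∈ range n, uu ℚ j * xx ℚ j * PP (cc ℚ) ((p : ℚ) ^ 2) j = 0 := by
  rw [← XN_eq hpn, ← gp_eval]
  exact gp_last n (p_mod6 hpn hp5)

/-- (F3) -/
lemma F3 (hpn : p = 2 * n + 1) (hp5 : 5 < p) :
    ∑ j ∈ range n, uu ℚ j * xx ℚ j * PP (cc ℚ) ((p : ℚ) ^ 2) j * (1 - cc ℚ j * (p : ℚ) ^ 2)⁻¹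
      = (-1) ^ n * 4⁻¹ * hs n 1 := by
  have hM := mainI (K := ℚ) (R := ℚ) n (K_Q n) ((p : ℚ) ^ 2) (fun j => (1 - cc ℚ j * (p : ℚ) ^ 2)⁻¹)
    (fun j hj => by
      simp only [Algebra.algebraMap_self, RingHom.id_apply]
      exact mul_inv_cancel₀ (one_sub_ne hpn j hj))
  simp only [Algebra.algebraMap_self, RingHom.id_apply] at hM
  have h1 := F1 hpn hp5
  have hpq : (p : ℚ) = 2 * n + 1 := by rw [hpn]; push_cast; ring
  have e1 : ∑ j ∈ range n, PP (fun i => cc ℚ i) ((p : ℚ) ^ 2) j * bb ℚ n j = 4⁻¹ * gs n 1 := by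
    unfold gs
    rw [mul_sum, ← sum_range_reflect (fun k => 4⁻¹ * yy ℚ k ^ 1)]
    apply sum_congr rfl
    intro j hj
    simp only [mem_range] at hj
    rw [bb_eq hpn j]
    have hP := P_ne hpn j hj.le
    have hw : wx n j = 2⁻¹ * yy ℚ (n - 1 - j) := by
      unfold wx yy
      rw [← mul_inv]
      congr 1
      have : ((n - 1 - j : ℕ) : ℚ) = n - 1 - j := by
        rw [Nat.cast_sub (by omega), Nat.cast_sub (by omega)]; push_cast; ring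
      rw [this]; ring
    rw [hw]
    have hP' : PP (fun i => cc ℚ i) ((p : ℚ) ^ 2) j * (PP (cc ℚ) ((p : ℚ) ^ 2) j)⁻¹ = 1 := mul_inv_cancel₀ hP
    linear_combination (2⁻¹ * 2⁻¹ * yy ℚ (n - 1 - j)) * hP'
  have e2 : ∑ j ∈ range n, (-1) ^ j * xx ℚ j * (1 - cc ℚ j * (p : ℚ) ^ 2)⁻¹ = (-1) ^ n * 4⁻¹ * (hs n 1 - gs n 1) := by
    have e3 : ∀ j ∈ range n, (-1) ^ j * xx ℚ j * (1 - cc ℚ j * (p : ℚ) ^ 2)⁻¹
        = 4⁻¹ * ((-1) ^ n * ((-1) ^ (n + j) * yy ℚ (n + j))) + 4⁻¹ * ((-1) ^ n * ((-1) ^ (n - 1 - j) * yy ℚ (n - 1 - j))) := by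
      intro j hj
      simp only [mem_range] at hj
      have hne := one_sub_ne hpn j hj
      have hx : (2 * (j : ℚ) + 1) ≠ 0 := by positivity
      have hc : cc ℚ j = ((2 * (j : ℚ) + 1) ^ 2)⁻¹ := by unfold cc xx; rw [inv_pow]
      have e4 : xx ℚ j * (1 - cc ℚ j * (p : ℚ) ^ 2)⁻¹ = 4⁻¹ * (yy ℚ (n + j) - yy ℚ (n - 1 - j)) := by
        have a1 : ((n - 1 - j : ℕ) : ℚ) = n - 1 - j := by
          rw [Nat.cast_sub (by omega), Nat.cast_sub (by omega)]; push_cast; ring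
        have hjn : (j : ℚ) < n := by exact_mod_cast hj
        have a2 : (((n : ℚ) - 1 - j) + 1) ≠ 0 := by
          have : (0 : ℚ) < (((n : ℚ) - 1 - j) + 1) := by linarith
          exact this.ne'
        have a3 : ((((n + j : ℕ) : ℚ)) + 1) ≠ 0 := by positivity
        have a4 : (1 - cc ℚ j * (p : ℚ) ^ 2) = ((2 * (j : ℚ) + 1) ^ 2 - (p : ℚ) ^ 2) * ((2 * (j : ℚ) + 1) ^ 2)⁻¹ := by
          rw [hc]; field_simp
        have a5 : ((2 * (j : ℚ) + 1) ^ 2 - (p : ℚ) ^ 2) = - (4 * (((n : ℚ) - 1 - j) + 1) * (((n : ℚ) + j) + 1)) := by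
          rw [hpq]; ring
        have a3' : (((n : ℚ) + j) + 1) ≠ 0 := by push_cast at a3; exact a3
        unfold yy xx
        rw [a1, a4, a5]
        push_cast
        field_simp
        ring
      have s1 : (-1 : ℚ) ^ (n + j) = (-1) ^ n * (-1) ^ j := pow_add _ _ _
      have s2 : ((-1 : ℚ) ^ n) * (-1) ^ n = 1 := by rw [← mul_pow]; simp
      have s3 : (-1 : ℚ) ^ n * (-1) ^ (n - 1 - j) = - (-1) ^ j := by
        have a3 : (-1 : ℚ) ^ n = (-1) ^ (n - 1 - j) * (-1) ^ (j + 1) := by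
          rw [← pow_add]; congr 1; omega
        have a4 : ((-1 : ℚ) ^ (n - 1 - j)) * (-1) ^ (n - 1 - j) = 1 := by rw [← mul_pow]; simp
        rw [a3, pow_succ]
        linear_combination (-(-1 : ℚ) ^ j) * a4
      rw [mul_assoc, e4, s1]
      linear_combination (-(4⁻¹ * yy ℚ (n - 1 - j))) * s3 - (4⁻¹ * (-1) ^ j * yy ℚ (n + j)) * s2
    rw [sum_congr rfl e3, sum_add_distrib, ← mul_sum, ← mul_sum, ← mul_sum, ← mul_sum]
    have e5 : ∑ j ∈ range n, (-1 : ℚ) ^ (n - 1 - j) * yy ℚ (n - 1 - j) = ∑ j ∈ range n, (-1) ^ j * yy ℚ j :=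
      sum_range_reflect (fun j => (-1 : ℚ) ^ j * yy ℚ j) n
    rw [e5]
    have e6 : ∑ j ∈ range n, (-1 : ℚ) ^ j * yy ℚ j + ∑ j ∈ range n, (-1 : ℚ) ^ (n + j) * yy ℚ (n + j)
        = ∑ k ∈ range (2 * n), (-1 : ℚ) ^ k * yy ℚ k := by
      rw [show 2 * n = n + n by ring, sum_range_add]
    have e7 : ∑ k ∈ range (2 * n), (-1 : ℚ) ^ k * yy ℚ k = hs n 1 - gs n 1 := by
      rw [sum_even_odd, hs_split]
      have f1 : ∑ j ∈ range n, (-1 : ℚ) ^ (2 * j) * yy ℚ (2 * j) = os n 1 := by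
        unfold os
        apply sum_congr rfl; intro j _; rw [pow_mul, yy_odd]; simp
      have f2 : ∑ j ∈ range n, (-1 : ℚ) ^ (2 * j + 1) * yy ℚ (2 * j + 1) = - (2⁻¹ * gs n 1) := by
        unfold gs
        rw [mul_sum, ← sum_neg_distrib]
        apply sum_congr rfl; intro j _; rw [pow_succ, pow_mul, yy_even]; simp
      rw [f1, f2]; ring
    rw [← e7, ← e6]; ring
  have hP1 : ∑ j ∈ range n, uu ℚ j * xx ℚ j * PP (fun i => cc ℚ i) ((p : ℚ) ^ 2) j = 0 := h1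
  rw [e1, e2, hP1, mul_zero, sub_zero] at hM
  have hP2 : ∑ j ∈ range n, uu ℚ j * xx ℚ j * PP (fun i => cc ℚ i) ((p : ℚ) ^ 2) j * (1 - cc ℚ j * (p : ℚ) ^ 2)⁻¹
      = ∑ j ∈ range n, uu ℚ j * xx ℚ j * PP (cc ℚ) ((p : ℚ) ^ 2) j * (1 - cc ℚ j * (p : ℚ) ^ 2)⁻¹ := rfl
  rw [← hP2, hM]; ring

lemma B5_D (hpn : p = 2 * n + 1) (hp5 : 5 < p) : DD' p 1 (6 * bernoulli (p - 5) + gs n 5) := by
  have h1 := R4 hpn hp5
  have h2 := R5 hpn hp5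
  have h3 : DD' p (1 + 1) ((p : ℚ) ^ 1 * (6 * bernoulli (p - 5) + gs n 5)) := by
    have key : (p : ℚ) ^ 1 * (6 * bernoulli (p - 5) + gs n 5)
        = 1 / 2 * (15 * hs n 4 + 2 * p * gs n 5) - 3 / 2 * (5 * hs n 4 - 4 * p * bernoulli (p - 5)) := by ring
    rw [key]
    exact D_sub (D_smul (cst hp5 _ 1 1 0 0 (by norm_num)) h2) (D_smul (cst hp5 _ 3 1 0 0 (by norm_num)) h1)
  exact (D_shift (p := p)).mp h3

lemma RR_uu (hpn : p = 2 * n + 1) (hp5 : 5 < p) (j : ℕ) : RR p (uu ℚ j) (uu (ZMod p) j) := by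
  unfold uu
  rw [div_eq_mul_inv, div_eq_mul_inv]
  apply RR_mul (RR_nat _)
  apply RR_inv
  · have := RR_pow (RR_nat (p := p) 16) j
    exact_mod_cast this
  · have h2 : (2 : ZMod p) ≠ 0 := by have := hF hpn 2 (by omega) (by omega); exact_mod_cast this
    have : (16 : ZMod p) = 2 ^ 4 := by norm_num
    rw [this]; exact pow_ne_zero _ (pow_ne_zero _ h2)

lemma RR_cc (hpn : p = 2 * n + 1) (j : ℕ) (hj : j < n) : RR p (cc ℚ j) (cc (ZMod p) j) :=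
  RR_pow (RR_xx hpn j hj) 2

lemma RR_OJ (hpn : p = 2 * n + 1) (j : ℕ) (hj : j ≤ n) : RR p (OJ ℚ j) (OJ (ZMod p) j) :=
  RR_sum _ _ _ (fun i hi => RR_cc hpn i (by simp only [mem_range] at hi; omega))

lemma RR_ee (hpn : p = 2 * n + 1) (j : ℕ) (hj : j ≤ n) : RR p (ee ℚ j) (ee (ZMod p) j) :=
  RR_sum _ _ _ (fun i hi => by
    simp only [mem_range] at hi
    exact RR_mul (RR_cc hpn i (by omega)) (RR_OJ hpn i (by omega)))

lemma RR_sgn (m : ℕ) : RR p ((-1 : ℚ) ^ m) ((-1 : ZMod p) ^ m) := by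
  have := RR_pow (RR_int (p := p) (-1)) m
  push_cast at this
  exact this

/-- `G_2` and `Y_2` modulo `p` in terms of `g_5` -/
lemma GY_D (hpn : p = 2 * n + 1) (hp5 : 5 < p) :
    DD' p 1 (5184 * ∑ j ∈ range n, uu ℚ j * xx ℚ j * ee ℚ j + 5 * ((-1) ^ n * gs n 5)) ∧
    DD' p 1 (216 * ∑ j ∈ range n, uu ℚ j * xx ℚ j * (cc ℚ j ^ 2 - OJ ℚ j * cc ℚ j) - (-1) ^ n * gs n 5) := by
  obtain ⟨h1, h2⟩ := YF hpn hp5
  have hg := RR_mul (RR_sgn (p := p) n) (RR_gs hpn 5)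
  have r1 : RR p (∑ j ∈ range n, uu ℚ j * xx ℚ j * ee ℚ j) (∑ j ∈ range n, uu (ZMod p) j * xx (ZMod p) j * ee (ZMod p) j) := by
    apply RR_sum
    intro j hj
    simp only [mem_range] at hj
    exact RR_mul (RR_mul (RR_uu hpn hp5 j) (RR_xx hpn j hj)) (RR_ee hpn j hj.le)
  have r2 : RR p (∑ j ∈ range n, uu ℚ j * xx ℚ j * (cc ℚ j ^ 2 - OJ ℚ j * cc ℚ j))
      (∑ j ∈ range n, uu (ZMod p) j * xx (ZMod p) j * (cc (ZMod p) j ^ 2 - OJ (ZMod p) j * cc (ZMod p) j)) := by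
    apply RR_sum
    intro j hj
    simp only [mem_range] at hj
    exact RR_mul (RR_mul (RR_uu hpn hp5 j) (RR_xx hpn j hj))
      (RR_sub (RR_pow (RR_cc hpn j hj) 2) (RR_mul (RR_OJ hpn j hj.le) (RR_cc hpn j hj)))
  have c1 : RR p (5184 : ℚ) 5184 := by exact_mod_cast RR_nat (p := p) 5184
  have c2 : RR p (216 : ℚ) 216 := by exact_mod_cast RR_nat (p := p) 216
  have c3 : RR p (5 : ℚ) 5 := by exact_mod_cast RR_nat (p := p) 5
  constructor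
  · apply RR_D_iff.mp
    refine RR_congr (RR_add (RR_mul c1 r1) (RR_mul c3 hg)) ?_
    linear_combination h1
  · apply RR_D_iff.mp
    refine RR_congr (RR_sub (RR_mul c2 r2) hg) ?_
    linear_combination h2

lemma sgn_mem (m : ℕ) : ((-1 : ℚ)) ^ m ∈ OO p := pow_mem (neg_mem (OO p).one_mem) m

/-- Congruence (2), internal form. -/
lemma two (hpn : p = 2 * n + 1) (hp5 : 5 < p) :
    DD' p 3 (∑ j ∈ range n, uu ℚ j * xx ℚ j * cc ℚ j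
      - (-1) ^ n * (hs n 1 / (4 * p ^ 2) + 1 / 36 * p ^ 2 * bernoulli (p - 5))) := by
  have hp0 : (p : ℚ) ≠ 0 := pne
  have h1 := F1 hpn hp5
  have h3 := F3 hpn hp5
  obtain ⟨_, hY⟩ := GY_D hpn hp5
  have hB := B5_D hpn hp5
  set Y := ∑ j ∈ range n, uu ℚ j * xx ℚ j * (cc ℚ j ^ 2 - OJ ℚ j * cc ℚ j) with hYd
  set S := ∑ j ∈ range n, uu ℚ j * xx ℚ j * cc ℚ j with hSd
  -- the exact identity divided by p^2
  have hE : (p : ℚ) ^ 2 * ∑ j ∈ range n, uu ℚ j * xx ℚ j * cc ℚ j * (PP (cc ℚ) ((p : ℚ) ^ 2) j * (1 - cc ℚ j * (p : ℚ) ^ 2)⁻¹)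
      = (-1) ^ n * 4⁻¹ * hs n 1 := by
    rw [← h3]
    have : ∑ j ∈ range n, uu ℚ j * xx ℚ j * PP (cc ℚ) ((p : ℚ) ^ 2) j * (1 - cc ℚ j * (p : ℚ) ^ 2)⁻¹
        = ∑ j ∈ range n, uu ℚ j * xx ℚ j * PP (cc ℚ) ((p : ℚ) ^ 2) j * (1 - cc ℚ j * (p : ℚ) ^ 2)⁻¹
          - ∑ j ∈ range n, uu ℚ j * xx ℚ j * PP (cc ℚ) ((p : ℚ) ^ 2) j := by rw [h1, sub_zero]
    rw [this, mul_sum, ← sum_sub_distrib]
    apply sum_congr rfl
    intro j hj
    simp only [mem_range] at hj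
    have hi := mul_inv_cancel₀ (one_sub_ne hpn j hj)
    linear_combination (-(uu ℚ j * xx ℚ j * PP (cc ℚ) ((p : ℚ) ^ 2) j)) * hi
  have hterm : ∀ j ∈ range n, DD' p 4 (uu ℚ j * xx ℚ j * cc ℚ j * (PP (cc ℚ) ((p : ℚ) ^ 2) j * (1 - cc ℚ j * (p : ℚ) ^ 2)⁻¹)
      - (uu ℚ j * xx ℚ j * cc ℚ j + p ^ 2 * (uu ℚ j * xx ℚ j * (cc ℚ j ^ 2 - OJ ℚ j * cc ℚ j)))) := by
    intro j hj
    simp only [mem_range] at hj
    have hi := mul_inv_cancel₀ (one_sub_ne hpn j hj)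
    have hP := P_D4 hpn j hj.le
    have hc := cc_mem hpn j hj
    have hI := inv_mem hpn j hj
    have hO := OJ_mem hpn j hj.le
    have hu := uu_mem hpn (by omega) j
    have hx := xx_mem hpn j hj
    have hpm := OO_p (p := p)
    set P := PP (cc ℚ) ((p : ℚ) ^ 2) j
    set I := (1 - cc ℚ j * (p : ℚ) ^ 2)⁻¹
    set c := cc ℚ j
    set O := OJ ℚ j
    have key : uu ℚ j * xx ℚ j * c * (P * I) - (uu ℚ j * xx ℚ j * c + p ^ 2 * (uu ℚ j * xx ℚ j * (c ^ 2 - O * c)))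
        = (uu ℚ j * xx ℚ j * c * I) * (P - 1 + p ^ 2 * O)
          + p ^ 4 * (uu ℚ j * xx ℚ j * c * I * (c * (c - O))) := by
      linear_combination (uu ℚ j * xx ℚ j * c * (1 + p ^ 2 * (c - O))) * hi
    rw [key]
    exact D_add (D_smul (mul_mem (mul_mem (mul_mem hu hx) hc) hI) hP)
      (D_pmul (mul_mem (mul_mem (mul_mem (mul_mem hu hx) hc) hI) (mul_mem hc (sub_mem hc hO))))
  have hsum := D_sum (p := p) (m := 4) (range n) _ hterm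
  rw [sum_sub_distrib, sum_add_distrib, ← mul_sum] at hsum
  set E := ∑ j ∈ range n, uu ℚ j * xx ℚ j * cc ℚ j * (PP (cc ℚ) ((p : ℚ) ^ 2) j * (1 - cc ℚ j * (p : ℚ) ^ 2)⁻¹)
  have hEv : E = (-1) ^ n * (hs n 1 / (4 * p ^ 2)) := by
    have : E = ((-1) ^ n * 4⁻¹ * hs n 1) / p ^ 2 := by rw [← hE]; field_simp
    rw [this]; field_simp
  have hY' := (D_shift (p := p) (k := 2) (m := 1)).mpr hY
  have hB' := (D_shift (p := p) (k := 2) (m := 1)).mpr hB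
  have key : S - (-1) ^ n * (hs n 1 / (4 * p ^ 2) + 1 / 36 * p ^ 2 * bernoulli (p - 5))
      = - (E - (S + p ^ 2 * Y)) - 1 / 216 * ((p : ℚ) ^ 2 * (216 * Y - (-1) ^ n * gs n 5))
        - (1 / 216 * (-1) ^ n) * ((p : ℚ) ^ 2 * (6 * bernoulli (p - 5) + gs n 5)) := by
    rw [hEv]; ring
  rw [key]
  have c1 : (1 / 216 : ℚ) ∈ OO p := cst hp5 _ 1 3 3 0 (by norm_num)
  exact D_sub (D_sub (D_neg (D_mono (by omega) hsum)) (D_smul c1 hY')) (D_smul (mul_mem c1 (sgn_mem n)) hB')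

/-- Congruence (1), internal form. -/
lemma one (hpn : p = 2 * n + 1) (hp5 : 5 < p) :
    DD' p 5 (∑ j ∈ range n, uu ℚ j * xx ℚ j
      - (-1) ^ n * (1 / 12 * hs n 1 + 3 / 160 * p ^ 4 * bernoulli (p - 5))) := by
  have h1 := F1 hpn hp5
  obtain ⟨hG, _⟩ := GY_D hpn hp5
  have hB := B5_D hpn hp5
  have hK := Kd_W hpn hp5
  have hW := Wp_D hpn hp5
  have h5 := R5 hpn hp5
  set G := ∑ j ∈ range n, uu ℚ j * xx ℚ j * ee ℚ j with hGd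
  have hterm : ∀ j ∈ range n, DD' p 6 ((uu ℚ j * xx ℚ j) * (1 - PP (cc ℚ) ((p : ℚ) ^ 2) j
      - p ^ 2 * (PP (cc ℚ) ((p : ℚ) ^ 2) j * tau ((p : ℚ) ^ 2) j) - p ^ 4 * ee ℚ j)) := by
    intro j hj
    simp only [mem_range] at hj
    exact D_smul (mul_mem (uu_mem hpn (by omega) j) (xx_mem hpn j hj)) (bracket hpn j hj.le)
  have hsum := D_sum (p := p) (m := 6) (range n) _ hterm
  have e1 : ∑ j ∈ range n, (uu ℚ j * xx ℚ j) * (1 - PP (cc ℚ) ((p : ℚ) ^ 2) j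
      - p ^ 2 * (PP (cc ℚ) ((p : ℚ) ^ 2) j * tau ((p : ℚ) ^ 2) j) - p ^ 4 * ee ℚ j)
      = ∑ j ∈ range n, uu ℚ j * xx ℚ j - ∑ j ∈ range n, uu ℚ j * xx ℚ j * PP (cc ℚ) ((p : ℚ) ^ 2) j
        - p ^ 2 * Kd ((p : ℚ) ^ 2) n - p ^ 4 * G := by
    unfold Kd
    rw [hGd, mul_sum, mul_sum, ← sum_sub_distrib, ← sum_sub_distrib, ← sum_sub_distrib]
    apply sum_congr rfl
    intro j _
    ring
  rw [e1, h1, sub_zero] at hsum
  set S := ∑ j ∈ range n, uu ℚ j * xx ℚ j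
  set κ := Kd ((p : ℚ) ^ 2) n
  have hG' := (D_shift (p := p) (k := 4) (m := 1)).mpr hG
  have hB' := (D_shift (p := p) (k := 4) (m := 1)).mpr hB
  have h5' := (D_shift (p := p) (k := 3) (m := 2)).mpr h5
  have key : S - (-1) ^ n * (1 / 12 * hs n 1 + 3 / 160 * p ^ 4 * bernoulli (p - 5))
      = (S - p ^ 2 * κ - p ^ 4 * G) - (1 / 4 * (-1) ^ n) * (Wp n - (2 / 3 * hs n 1 - 7 / 108 * p ^ 3 * hs n 4))
        + 1 / 5184 * ((p : ℚ) ^ 4 * (5184 * G + 5 * ((-1) ^ n * gs n 5)))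
        + (7 / 6480 * (-1) ^ n) * ((p : ℚ) ^ 3 * (15 * hs n 4 + 2 * p * gs n 5))
        - (1 / 320 * (-1) ^ n) * ((p : ℚ) ^ 4 * (6 * bernoulli (p - 5) + gs n 5)) := by
    linear_combination (1 / 4) * hK
  rw [key]
  have c1 : (1 / 4 : ℚ) ∈ OO p := cst hp5 _ 1 2 0 0 (by norm_num)
  have c2 : (1 / 5184 : ℚ) ∈ OO p := cst hp5 _ 1 6 4 0 (by norm_num)
  have c3 : (7 / 6480 : ℚ) ∈ OO p := cst hp5 _ 7 4 4 1 (by norm_num)
  have c4 : (1 / 320 : ℚ) ∈ OO p := cst hp5 _ 1 6 0 1 (by norm_num)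
  exact D_sub (D_add (D_add (D_sub (D_mono (by omega) hsum) (D_smul (mul_mem c1 (sgn_mem n)) hW)) (D_smul c2 hG'))
    (D_smul (mul_mem c3 (sgn_mem n)) h5')) (D_smul (mul_mem c4 (sgn_mem n)) hB')

end

end Pool.Agent.Helper91.SC
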