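import Mathlib

set_option autoImplicit false

namespace Pool.Agent.Helper91.SC

open Finset

/-- the ring of `p`-integral rationals -/
def OO (p : ℕ) [hp : Fact p.Prime] : Subring ℚ where
  carrier := {x | ¬ p ∣ x.den}
  mul_mem' := by
    intro a b ha hb
    simp only [Set.mem_ofPred_eq] at *
    intro h
    rcases (hp.out.dvd_mul).mp (h.trans (Rat.mul_den_dvd a b)) with h | h
    · exact ha h
    · exact hb h
  one_mem' := by simp [hp.out.one_lt.ne']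
  add_mem' := by
    intro a b ha hb
    simp only [Set.mem_ofPred_eq] at *
    intro h
    rcases (hp.out.dvd_mul).mp (h.trans (Rat.add_den_dvd a b)) with h | h
    · exact ha h
    · exact hb h
  zero_mem' := by simp [hp.out.one_lt.ne']
  neg_mem' := by
    intro a ha
    simpa using ha

/-- `x` is divisible by `p^m` in the ring of `p`-integral rationals -/
def DD' (p : ℕ) [Fact p.Prime] (m : ℕ) (x : ℚ) : Prop := ∃ c ∈ OO p, x = (p : ℚ) ^ m * c

section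
variable {p : ℕ} [hp : Fact p.Prime]

lemma mem_OO (x : ℚ) : x ∈ OO p ↔ ¬ p ∣ x.den := Iff.rfl

lemma OO_nat (n : ℕ) : (n : ℚ) ∈ OO p := natCast_mem _ n

lemma OO_int (n : ℤ) : (n : ℚ) ∈ OO p := intCast_mem _ n

lemma OO_p : (p : ℚ) ∈ OO p := OO_nat p

lemma OO_inv_nat (n : ℕ) (h : ¬ p ∣ n) : ((n : ℚ))⁻¹ ∈ OO p := by
  have hn : 0 < n := Nat.pos_of_ne_zero (fun h0 => h (by simp [h0]))
  rw [mem_OO, Rat.inv_natCast_den_of_pos hn]
  exact h

lemma OO_inv_nat_lt (n : ℕ) (h0 : 0 < n) (h : n < p) : ((n : ℚ))⁻¹ ∈ OO p :=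
  OO_inv_nat n (fun hd => absurd (Nat.le_of_dvd h0 hd) (by omega))

lemma pne : (p : ℚ) ≠ 0 := by exact_mod_cast hp.out.ne_zero

lemma D_zero (m : ℕ) : DD' p m 0 := ⟨0, (OO p).zero_mem, by simp⟩

lemma D_add {m : ℕ} {x y : ℚ} (hx : DD' p m x) (hy : DD' p m y) : DD' p m (x + y) := by
  obtain ⟨c, hc, rfl⟩ := hx
  obtain ⟨d, hd, rfl⟩ := hy
  exact ⟨c + d, add_mem hc hd, by ring⟩

lemma D_neg {m : ℕ} {x : ℚ} (hx : DD' p m x) : DD' p m (-x) := by
  obtain ⟨c, hc, rfl⟩ := hx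
  exact ⟨-c, neg_mem hc, by ring⟩

lemma D_sub {m : ℕ} {x y : ℚ} (hx : DD' p m x) (hy : DD' p m y) : DD' p m (x - y) := by
  rw [sub_eq_add_neg]; exact D_add hx (D_neg hy)

lemma D_smul {m : ℕ} {a x : ℚ} (ha : a ∈ OO p) (hx : DD' p m x) : DD' p m (a * x) := by
  obtain ⟨c, hc, rfl⟩ := hx
  exact ⟨a * c, mul_mem ha hc, by ring⟩

lemma D_mul {m k : ℕ} {x y : ℚ} (hx : DD' p m x) (hy : DD' p k y) : DD' p (m + k) (x * y) := by
  obtain ⟨c, hc, rfl⟩ := hx
  obtain ⟨d, hd, rfl⟩ := hy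
  exact ⟨c * d, mul_mem hc hd, by ring⟩

lemma D_mono {m k : ℕ} (h : k ≤ m) {x : ℚ} (hx : DD' p m x) : DD' p k x := by
  obtain ⟨c, hc, rfl⟩ := hx
  obtain ⟨d, rfl⟩ := Nat.exists_eq_add_of_le h
  exact ⟨(p : ℚ) ^ d * c, mul_mem (pow_mem OO_p _) hc, by ring⟩

lemma D_int {m : ℕ} {x : ℚ} (hx : DD' p m x) : x ∈ OO p := by
  obtain ⟨c, hc, rfl⟩ := hx
  exact mul_mem (pow_mem OO_p _) hc

lemma D_of_int {x : ℚ} (hx : x ∈ OO p) : DD' p 0 x := ⟨x, hx, by simp⟩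

lemma D_pmul {m : ℕ} {x : ℚ} (hx : x ∈ OO p) : DD' p m ((p : ℚ) ^ m * x) := ⟨x, hx, rfl⟩

lemma D_shift {m k : ℕ} {x : ℚ} : DD' p (k + m) ((p : ℚ) ^ k * x) ↔ DD' p m x := by
  constructor
  · rintro ⟨c, hc, h⟩
    refine ⟨c, hc, ?_⟩
    have : (p : ℚ) ^ k ≠ 0 := pow_ne_zero _ pne
    apply mul_left_cancel₀ this
    rw [h]; ring
  · rintro ⟨c, hc, rfl⟩
    exact ⟨c, hc, by ring⟩

lemma D_sum {ι : Type*} {m : ℕ} (s : Finset ι) (f : ι → ℚ) (h : ∀ i ∈ s, DD' p m (f i)) :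
    DD' p m (∑ i ∈ s, f i) := by
  classical
  induction s using Finset.induction_on with
  | empty => simpa using D_zero m
  | insert a s ha ih =>
    rw [sum_insert ha]
    exact D_add (h a (by simp)) (ih (fun i hi => h i (by simp [hi])))

lemma OO_sum {ι : Type*} (s : Finset ι) (f : ι → ℚ) (h : ∀ i ∈ s, f i ∈ OO p) :
    (∑ i ∈ s, f i) ∈ OO p := sum_mem h

/-- cancel a unit -/
lemma D_cancel {m : ℕ} {a x : ℚ} (ha : a ≠ 0) (ha' : a⁻¹ ∈ OO p) (h : DD' p m (a * x)) : DD' p m x := by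
  have := D_smul ha' h
  rwa [← mul_assoc, inv_mul_cancel₀ ha, one_mul] at this

/-- reduction relation to `ZMod p` -/
def RR (p : ℕ) [Fact p.Prime] (x : ℚ) (y : ZMod p) : Prop := x ∈ OO p ∧ (x : ZMod p) = y

lemma den_ne {x : ℚ} (hx : x ∈ OO p) : (x.den : ZMod p) ≠ 0 := by
  intro h
  exact hx ((ZMod.natCast_eq_zero_iff _ _).mp h)

lemma RR_add {x x' : ℚ} {y y' : ZMod p} (h : RR p x y) (h' : RR p x' y') : RR p (x + x') (y + y') :=
  ⟨add_mem h.1 h'.1, by rw [Rat.cast_add_of_ne_zero (den_ne h.1) (den_ne h'.1), h.2, h'.2]⟩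

lemma RR_mul {x x' : ℚ} {y y' : ZMod p} (h : RR p x y) (h' : RR p x' y') : RR p (x * x') (y * y') :=
  ⟨mul_mem h.1 h'.1, by rw [Rat.cast_mul_of_ne_zero (den_ne h.1) (den_ne h'.1), h.2, h'.2]⟩

lemma RR_neg {x : ℚ} {y : ZMod p} (h : RR p x y) : RR p (-x) (-y) :=
  ⟨neg_mem h.1, by rw [Rat.cast_neg, h.2]⟩

lemma RR_sub {x x' : ℚ} {y y' : ZMod p} (h : RR p x y) (h' : RR p x' y') : RR p (x - x') (y - y') := by
  rw [sub_eq_add_neg, sub_eq_add_neg]; exact RR_add h (RR_neg h')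

lemma RR_nat (n : ℕ) : RR p (n : ℚ) (n : ZMod p) := ⟨OO_nat n, by simp⟩

lemma RR_int (n : ℤ) : RR p (n : ℚ) (n : ZMod p) := ⟨OO_int n, by simp⟩

lemma RR_zero : RR p 0 0 := ⟨(OO p).zero_mem, by simp⟩

lemma RR_one : RR p 1 1 := ⟨(OO p).one_mem, by simp⟩

lemma RR_pow {x : ℚ} {y : ZMod p} (h : RR p x y) (n : ℕ) : RR p (x ^ n) (y ^ n) := by
  induction n with
  | zero => simpa using RR_one
  | succ n ih => rw [pow_succ, pow_succ]; exact RR_mul ih h

lemma RR_sum {ι : Type*} (s : Finset ι) (f : ι → ℚ) (g : ι → ZMod p) (h : ∀ i ∈ s, RR p (f i) (g i)) :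
    RR p (∑ i ∈ s, f i) (∑ i ∈ s, g i) := by
  classical
  induction s using Finset.induction_on with
  | empty => simpa using RR_zero
  | insert a s ha ih =>
    rw [sum_insert ha, sum_insert ha]
    exact RR_add (h a (by simp)) (ih (fun i hi => h i (by simp [hi])))

lemma RR_prod {ι : Type*} (s : Finset ι) (f : ι → ℚ) (g : ι → ZMod p) (h : ∀ i ∈ s, RR p (f i) (g i)) :
    RR p (∏ i ∈ s, f i) (∏ i ∈ s, g i) := by
  classical
  induction s using Finset.induction_on with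
  | empty => simpa using RR_one
  | insert a s ha ih =>
    rw [prod_insert ha, prod_insert ha]
    exact RR_mul (h a (by simp)) (ih (fun i hi => h i (by simp [hi])))

lemma RR_inv {x : ℚ} {y : ZMod p} (h : RR p x y) (hy : y ≠ 0) : RR p x⁻¹ y⁻¹ := by
  have hnum : (x.num : ZMod p) ≠ 0 := by
    intro h0
    apply hy
    rw [← h.2, Rat.cast_def, h0, zero_div]
  refine ⟨?_, by rw [Rat.cast_inv_of_ne_zero hnum, h.2]⟩
  rw [mem_OO]
  intro hd
  apply hnum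
  have hx : x ≠ 0 := by
    rintro rfl
    simp at hnum
  have hd' : (x⁻¹).den = x.num.natAbs := by
    rw [Rat.inv_def, Rat.den_divInt]
    have hnz : x.num ≠ 0 := Rat.num_ne_zero.mpr hx
    simp [hnz]
    have := x.reduced
    rw [Nat.Coprime] at this
    rw [Int.gcd_eq_natAbs]
    simp only [Int.natAbs_natCast]
    rw [this, Nat.div_one]
  rw [hd'] at hd
  have : (p : ℤ) ∣ x.num := Int.natCast_dvd.mpr hd
  exact (ZMod.intCast_zmod_eq_zero_iff_dvd _ _).mpr this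

lemma RR_D_iff {x : ℚ} : RR p x 0 ↔ DD' p 1 x := by
  constructor
  · rintro ⟨h1, h2⟩
    have hnum : (x.num : ZMod p) = 0 := by
      rw [Rat.cast_def, div_eq_zero_iff] at h2
      rcases h2 with h2 | h2
      · exact h2
      · exact absurd h2 (den_ne h1)
    obtain ⟨k, hk⟩ := (ZMod.intCast_zmod_eq_zero_iff_dvd _ _).mp hnum
    refine ⟨(k : ℚ) * (x.den : ℚ)⁻¹, mul_mem (OO_int k) (OO_inv_nat _ h1), ?_⟩
    have : x = x.num / x.den := (Rat.num_div_den x).symm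
    rw [this, hk]
    simp only [Int.cast_mul, Int.cast_natCast, pow_one]
    have e : (x.num / x.den : ℚ).den = x.den := by rw [Rat.num_div_den]
    have e2 : ((↑p : ℚ) * (k : ℚ) / (x.den : ℚ)).den = x.den := by
      have : ((↑p : ℚ) * (k : ℚ) / (x.den : ℚ)) = x := by
        conv_rhs => rw [← Rat.num_div_den x]
        rw [hk]; push_cast; ring
      rw [this]
    rw [e2]
    ring
  · rintro ⟨c, hc, rfl⟩
    have h := RR_mul (RR_nat (p := p) p) (⟨hc, rfl⟩ : RR p c (c : ZMod p))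
    simpa using h

/-- equality in `ZMod p` gives a congruence mod `p` -/
lemma D_of_RR {x x' : ℚ} {y : ZMod p} (h : RR p x y) (h' : RR p x' y) : DD' p 1 (x - x') := by
  rw [← RR_D_iff, ← sub_self y]
  exact RR_sub h h'

lemma RR_of_D {x x' : ℚ} {y : ZMod p} (h : RR p x y) (h' : DD' p 1 (x' - x)) : RR p x' y := by
  have h2 := RR_add h (RR_D_iff.mpr h')
  simpa using h2

lemma RR_congr {x : ℚ} {y y' : ZMod p} (h : RR p x y) (h' : y = y') : RR p x y' := h' ▸ h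

/-- `ZMod p` : small naturals are nonzero -/
lemma zmod_ne (k : ℕ) (h0 : 0 < k) (h : k < p) : (k : ZMod p) ≠ 0 := by
  intro h1
  have := (ZMod.natCast_eq_zero_iff _ _).mp h1
  exact absurd (Nat.le_of_dvd h0 this) (by omega)

end

end Pool.Agent.Helper91.SC
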