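import Pool.Agent.Helper91.SCSums2

set_option autoImplicit false

namespace Pool.Agent.Helper91.SC

open Finset

section
variable {p : ℕ} [hp : Fact p.Prime] {n : ℕ}

/-- multiplication by `d` permutes the nonzero residues -/
lemma perm_sum (d : ℕ) (hd : ¬ p ∣ d) (f : ℕ → ℚ) :
    ∑ i ∈ Ico 1 p, f ((d * i) % p) = ∑ i ∈ Ico 1 p, f i := by
  have hp0 : 0 < p := hp.out.pos
  have hinj : Set.InjOn (fun i => (d * i) % p) (Ico 1 p : Finset ℕ) := by
    intro i hi j hj hij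
    simp only [coe_Ico, Set.mem_Ico] at hi hj
    have h1 : d * i ≡ d * j [MOD p] := hij
    have h2 : i ≡ j [MOD p] := by
      apply Nat.ModEq.cancel_left_of_coprime _ h1
      exact (Nat.Prime.coprime_iff_not_dvd hp.out).mpr hd
    have h3 : i % p = j % p := h2
    rwa [Nat.mod_eq_of_lt hi.2, Nat.mod_eq_of_lt hj.2] at h3
  have hsub : (Ico 1 p).image (fun i => (d * i) % p) ⊆ Ico 1 p := by
    intro x hx
    simp only [mem_image, mem_Ico] at hx ⊢
    obtain ⟨i, hi, rfl⟩ := hx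
    refine ⟨?_, Nat.mod_lt _ hp0⟩
    rw [Nat.one_le_iff_ne_zero]
    intro h0
    have : p ∣ d * i := Nat.dvd_of_mod_eq_zero h0
    rcases (hp.out.dvd_mul).mp this with h | h
    · exact hd h
    · exact absurd (Nat.le_of_dvd (by omega) h) (by omega)
  have himg : (Ico 1 p).image (fun i => (d * i) % p) = Ico 1 p := by
    apply eq_of_subset_of_card_le hsub
    rw [card_image_of_injOn hinj]
  conv_rhs => rw [← himg]
  rw [sum_image hinj]

lemma perm_sum' (hpn : p = 2 * n + 1) (d : ℕ) (hd : ¬ p ∣ d) (f : ℕ → ℚ) :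
    ∑ k ∈ range (2 * n), f ((d * (k + 1)) % p) = ∑ k ∈ range (2 * n), f (k + 1) := by
  have h := perm_sum d hd f
  rw [sum_Ico_eq_sum_range, sum_Ico_eq_sum_range] at h
  have e : p - 1 = 2 * n := by omega
  rw [e] at h
  simpa [add_comm] using h

lemma Epow2 {y z a : ℚ} (hy : y ∈ OO p) (hz : z ∈ OO p) (ha : a ∈ OO p) (h : z - y = p * a * y * z) (s : ℕ) :
    DD' p 2 (z ^ s - y ^ s - s * p * a * y ^ (s + 1)) := by
  induction s with
  | zero => simpa using D_zero 2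
  | succ s ih =>
    have e : z ^ (s + 1) - y ^ (s + 1) - ((s + 1 : ℕ) : ℚ) * p * a * y ^ (s + 1 + 1)
        = z * (z ^ s - y ^ s - s * p * a * y ^ (s + 1))
          + p ^ 2 * (a ^ 2 * y ^ (s + 2) * z + s * a ^ 2 * y ^ (s + 2) * z) := by
      push_cast
      linear_combination (y ^ s + s * p * a * y ^ (s + 1) + p * a * y ^ (s + 1)) * h
    rw [e]
    apply D_add (D_smul hz ih)
    apply D_pmul
    have hs' : (s : ℚ) ∈ OO p := OO_nat s
    apply_rules [add_mem, mul_mem, pow_mem]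

lemma Epow3 {t a : ℚ} (ht : t ∈ OO p) (ha : a ∈ OO p) (M : ℕ) :
    DD' p 2 ((t - p * a) ^ (M + 1) - t ^ (M + 1) + ((M : ℚ) + 1) * p * a * t ^ M) := by
  induction M with
  | zero => simpa using D_zero 2
  | succ M ih =>
    have e : (t - p * a) ^ (M + 1 + 1) - t ^ (M + 1 + 1) + (((M + 1 : ℕ) : ℚ) + 1) * p * a * t ^ (M + 1)
        = (t - p * a) * ((t - p * a) ^ (M + 1) - t ^ (M + 1) + ((M : ℚ) + 1) * p * a * t ^ M)
          + p ^ 2 * (a ^ 2 * ((M : ℚ) + 1) * t ^ M) := by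
      push_cast; ring
    rw [e]
    have hM : ((M : ℚ) + 1) ∈ OO p := by exact_mod_cast OO_nat (M + 1)
    apply D_add (D_smul (sub_mem ht (mul_mem OO_p ha)) ih)
    apply D_pmul
    apply_rules [add_mem, mul_mem, pow_mem]

lemma mod_cast_eq (d i : ℕ) : (((d * i) % p : ℕ) : ℚ) = (d : ℚ) * i - p * ((d * i / p : ℕ) : ℚ) := by
  have := Nat.mod_add_div (d * i) p
  have h : (((d * i) % p : ℕ) : ℚ) + p * ((d * i / p : ℕ) : ℚ) = (d : ℚ) * i := by exact_mod_cast this
  linarith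

/-- `Q_d(s) = sum_i floor(d i/p) / i^s` -/
def Qd (p n d s : ℕ) : ℚ := ∑ k ∈ range (2 * n), ((d * (k + 1) / p : ℕ) : ℚ) * yy ℚ k ^ s

lemma Qd_mem (hpn : p = 2 * n + 1) (d s : ℕ) : Qd p n d s ∈ OO p :=
  OO_sum _ _ (fun k hk => mul_mem (OO_nat _) (pow_mem (yy_mem hpn k (by simpa using hk)) _))

lemma dist_h (hpn : p = 2 * n + 1) (d : ℕ) (hd : ¬ p ∣ d) (s : ℕ) :
    DD' p 2 (hs n s - ((d : ℚ)⁻¹) ^ s * hs n s - s * p * ((d : ℚ)⁻¹) ^ (s + 1) * Qd p n d (s + 1)) := by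
  have hd0 : (d : ℚ) ≠ 0 := by
    intro h0
    apply hd
    have : d = 0 := by exact_mod_cast h0
    rw [this]; exact dvd_zero p
  have h := D_sum (p := p) (m := 2) (range (2 * n))
    (fun k => ((((d * (k + 1)) % p : ℕ) : ℚ)⁻¹) ^ s - ((d : ℚ)⁻¹ * yy ℚ k) ^ s
      - s * p * ((d * (k + 1) / p : ℕ) : ℚ) * ((d : ℚ)⁻¹ * yy ℚ k) ^ (s + 1))
    (fun k hk => by
      simp only [mem_range] at hk
      have hk1 : ((k : ℚ) + 1) ≠ 0 := by positivity
      have hnd : ¬ p ∣ d * (k + 1) := by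
        intro h
        rcases (hp.out.dvd_mul).mp h with h | h
        · exact hd h
        · exact absurd (Nat.le_of_dvd (by omega) h) (by omega)
      have hnd' : ¬ p ∣ (d * (k + 1)) % p := by
        intro h
        exact hnd ((Nat.dvd_mod_iff (dvd_refl p)).mp h)
      apply Epow2
      · exact mul_mem (OO_inv_nat d hd) (yy_mem hpn k hk)
      · exact OO_inv_nat _ hnd'
      · exact OO_nat _
      · have hm := mod_cast_eq (p := p) d (k + 1)
        have hm0 : (((d * (k + 1)) % p : ℕ) : ℚ) ≠ 0 := by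
          intro h0
          apply hnd'
          have : (d * (k + 1)) % p = 0 := by exact_mod_cast h0
          rw [this]; exact dvd_zero p
        unfold yy
        push_cast at hm ⊢
        field_simp
        linear_combination -hm)
  rw [sum_sub_distrib, sum_sub_distrib] at h
  have e1 : ∑ k ∈ range (2 * n), ((((d * (k + 1)) % p : ℕ) : ℚ)⁻¹) ^ s = hs n s := by
    rw [perm_sum' hpn d hd (fun t => (((t : ℕ) : ℚ)⁻¹) ^ s)]
    unfold hs yy
    apply sum_congr rfl; intro k _; push_cast; rfl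
  rw [e1] at h
  convert h using 2
  · congr 1
    unfold hs
    rw [mul_sum]
    apply sum_congr rfl; intro k _; rw [mul_pow]
  · unfold Qd
    rw [mul_sum]
    apply sum_congr rfl; intro k _; rw [mul_pow]; ring

/-- `sum_{k<p} k^M` -/
def PM (n M : ℕ) : ℚ := ∑ k ∈ range (2 * n), ((k : ℚ) + 1) ^ M

lemma dist_P (hpn : p = 2 * n + 1) (d : ℕ) (hd : ¬ p ∣ d) (M : ℕ) :
    DD' p 2 (PM n (M + 1) - (d : ℚ) ^ (M + 1) * PM n (M + 1)
      + ((M : ℚ) + 1) * p * (d : ℚ) ^ M * ∑ k ∈ range (2 * n), ((d * (k + 1) / p : ℕ) : ℚ) * ((k : ℚ) + 1) ^ M) := by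
  have h := D_sum (p := p) (m := 2) (range (2 * n))
    (fun k => ((((d * (k + 1)) % p : ℕ) : ℚ)) ^ (M + 1) - ((d : ℚ) * ((k : ℚ) + 1)) ^ (M + 1)
      + ((M : ℚ) + 1) * p * ((d * (k + 1) / p : ℕ) : ℚ) * ((d : ℚ) * ((k : ℚ) + 1)) ^ M)
    (fun k hk => by
      have hm := mod_cast_eq (p := p) d (k + 1)
      rw [hm]
      push_cast
      apply Epow3
      · exact_mod_cast OO_nat (d * (k + 1))
      · exact OO_nat _)
  rw [sum_add_distrib, sum_sub_distrib] at h
  have e1 : ∑ k ∈ range (2 * n), ((((d * (k + 1)) % p : ℕ) : ℚ)) ^ (M + 1) = PM n (M + 1) := by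
    rw [perm_sum' hpn d hd (fun t => (((t : ℕ) : ℚ)) ^ (M + 1))]
    unfold PM
    apply sum_congr rfl; intro k _; push_cast; rfl
  rw [e1] at h
  convert h using 2
  · congr 1
    unfold PM
    rw [mul_sum]
    apply sum_congr rfl; intro k _; rw [mul_pow]
  · rw [mul_sum]
    apply sum_congr rfl; intro k _; rw [mul_pow]; ring

end

end Pool.Agent.Helper91.SC
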