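import Pool.Agent.Helper91.SCBern

set_option autoImplicit false

namespace Pool.Agent.Helper91.SC

open Finset

section
variable {p : ℕ} [hp : Fact p.Prime] {n : ℕ}

lemma c235 (hp5 : 5 < p) (a : ℤ) (i j k : ℕ) : (a : ℚ) * ((2 : ℚ)⁻¹ ^ i * (3 : ℚ)⁻¹ ^ j * (5 : ℚ)⁻¹ ^ k) ∈ OO p := by
  have h2 : (2 : ℚ)⁻¹ ∈ OO p := by exact_mod_cast OO_inv_nat_lt (p := p) 2 (by omega) (by omega)
  have h3 : (3 : ℚ)⁻¹ ∈ OO p := by exact_mod_cast OO_inv_nat_lt (p := p) 3 (by omega) (by omega)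
  have h5 : (5 : ℚ)⁻¹ ∈ OO p := by exact_mod_cast OO_inv_nat_lt (p := p) 5 (by omega) (by omega)
  exact mul_mem (OO_int a) (mul_mem (mul_mem (pow_mem h2 _) (pow_mem h3 _)) (pow_mem h5 _))

/-- membership of an explicit rational constant -/
lemma cst (hp5 : 5 < p) (x : ℚ) (a : ℤ) (i j k : ℕ) (h : x * (2 ^ i * 3 ^ j * 5 ^ k) = a) : x ∈ OO p := by
  have := c235 hp5 a i j k
  rw [← h] at this
  have e : x * (2 ^ i * 3 ^ j * 5 ^ k) * ((2 : ℚ)⁻¹ ^ i * (3 : ℚ)⁻¹ ^ j * (5 : ℚ)⁻¹ ^ k) = x := by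
    rw [inv_pow, inv_pow, inv_pow]
    field_simp
  rwa [e] at this

lemma not_dvd_small (d : ℕ) (h0 : 0 < d) (h : d < p) : ¬ p ∣ d :=
  fun hd => absurd (Nat.le_of_dvd h0 hd) (by omega)

lemma R2 (hpn : p = 2 * n + 1) (hp5 : 5 < p) :
    DD' p 2 (3 * hs n 2 - 2 * p * bernoulli (p - 3)) := by
  have h := hs_PM hpn 2 (not_dvd_small 2 (by omega) (by omega)) (p - 4) 2 (by omega) (by omega)
  have e : p - 4 + 1 = p - 3 := by omega
  rw [e] at h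
  have hB := PM_bern hpn (p - 3) (by omega) (by omega)
  have h' := D_smul (cst hp5 (4 / 3) 4 0 1 0 (by norm_num)) h
  have key : 3 * hs n 2 - 2 * p * bernoulli (p - 3)
      = 2 * (PM n (p - 3) - p * bernoulli (p - 3))
        - (4 / 3) * ((1 - (((2 : ℕ) : ℚ)⁻¹) ^ 2) * (((2 : ℕ) : ℚ) * PM n (p - 3) - (((2 : ℕ) : ℚ) + 1) * hs n 2)) := by
    push_cast; ring
  rw [key]
  exact D_sub (D_smul (cst hp5 2 2 0 0 0 (by norm_num)) hB) h'

lemma R4 (hpn : p = 2 * n + 1) (hp5 : 5 < p) :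
    DD' p 2 (5 * hs n 4 - 4 * p * bernoulli (p - 5)) := by
  have hp6 : p ≠ 6 := by
    rintro rfl
    exact absurd hp.out (by norm_num)
  have h := hs_PM hpn 2 (not_dvd_small 2 (by omega) (by omega)) (p - 6) 4 (by omega) (by omega)
  have e : p - 6 + 1 = p - 5 := by omega
  rw [e] at h
  have hB := PM_bern hpn (p - 5) (by omega) (by omega)
  have h' := D_smul (cst hp5 (16 / 15) 16 0 1 1 (by norm_num)) h
  have key : 5 * hs n 4 - 4 * p * bernoulli (p - 5)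
      = 4 * (PM n (p - 5) - p * bernoulli (p - 5))
        - (16 / 15) * ((1 - (((2 : ℕ) : ℚ)⁻¹) ^ 4) * (((4 : ℕ) : ℚ) * PM n (p - 5) - (((4 : ℕ) : ℚ) + 1) * hs n 4)) := by
    push_cast; ring
  rw [key]
  exact D_sub (D_smul (cst hp5 4 4 0 0 0 (by norm_num)) hB) h'

/-- `floor(2i/p)` -/
lemma Q2_eq (hpn : p = 2 * n + 1) (s : ℕ) : Qd p n 2 s = ∑ k ∈ range n, zz n k ^ s := by
  unfold Qd
  rw [sum_half]
  have h1 : ∑ k ∈ range n, ((2 * (k + 1) / p : ℕ) : ℚ) * yy ℚ k ^ s = 0 := by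
    apply sum_eq_zero
    intro k hk
    simp only [mem_range] at hk
    rw [Nat.div_eq_of_lt (by omega)]
    simp
  rw [h1, zero_add]
  apply sum_congr rfl
  intro k hk
  simp only [mem_range] at hk
  have : 2 * (2 * n - 1 - k + 1) / p = 1 := by
    apply Nat.div_eq_of_lt_le <;> omega
  rw [this, zz_eq n k (by omega)]
  simp

lemma Q2_D (hpn : p = 2 * n + 1) (s : ℕ) : DD' p 1 (Qd p n 2 s - (-1) ^ s * gs n s) := by
  have h := S_hpow hpn s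
  rw [hs_half, ← Q2_eq hpn] at h
  convert h using 1
  ring

/-- `15 h_4 = -2 p g_5` mod `p^2` -/
lemma R5 (hpn : p = 2 * n + 1) (hp5 : 5 < p) : DD' p 2 (15 * hs n 4 + 2 * p * gs n 5) := by
  have h := dist_h hpn 2 (not_dvd_small 2 (by omega) (by omega)) 4
  have hQ := Q2_D hpn 5
  have h1 := (D_shift (p := p) (k := 1) (m := 1)).mpr hQ
  have key : 15 * hs n 4 + 2 * p * gs n 5
      = 16 * (hs n 4 - (((2 : ℕ) : ℚ)⁻¹) ^ 4 * hs n 4 - ((4 : ℕ) : ℚ) * p * (((2 : ℕ) : ℚ)⁻¹) ^ (4 + 1) * Qd p n 2 (4 + 1))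
        + 2 * ((p : ℚ) ^ 1 * (Qd p n 2 5 - (-1) ^ 5 * gs n 5)) := by
    push_cast; ring
  rw [key]
  exact D_add (D_smul (cst hp5 16 16 0 0 0 (by norm_num)) h) (D_smul (cst hp5 2 2 0 0 0 (by norm_num)) h1)

/-- `A = sum_{k < p/3} k^{-5}` -/
def AA (p : ℕ) : ℚ := ∑ k ∈ range (p / 3), yy ℚ k ^ 5

lemma Q3_D (hpn : p = 2 * n + 1) (hp5 : 5 < p) : DD' p 1 (Qd p n 3 5 + 2 * AA p) := by
  have h3 : p % 3 ≠ 0 := by
    intro h
    have : 3 ∣ p := Nat.dvd_of_mod_eq_zero h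
    rcases (Nat.dvd_prime hp.out).mp this with h | h <;> omega
  have hfl : ∀ k ∈ range (2 * n), ((3 * (k + 1) / p : ℕ) : ℚ) * yy ℚ k ^ 5
      = (if k < p / 3 then 0 else yy ℚ k ^ 5) + (if k < 2 * n - p / 3 then 0 else yy ℚ k ^ 5) := by
    intro k hk
    simp only [mem_range] at hk
    by_cases h1 : k < p / 3
    · have : 3 * (k + 1) / p = 0 := Nat.div_eq_of_lt (by omega)
      rw [this, if_pos h1, if_pos (by omega)]; simp
    · by_cases h2 : k < 2 * n - p / 3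
      · have : 3 * (k + 1) / p = 1 := by apply Nat.div_eq_of_lt_le <;> omega
        rw [this, if_neg h1, if_pos h2]; simp
      · have : 3 * (k + 1) / p = 2 := by apply Nat.div_eq_of_lt_le <;> omega
        rw [this, if_neg h1, if_neg h2]; push_cast; ring
  have e1 : ∑ k ∈ range (2 * n), (if k < p / 3 then 0 else yy ℚ k ^ 5) = hs n 5 - AA p := by
    have : AA p = ∑ k ∈ range (2 * n), (if k < p / 3 then yy ℚ k ^ 5 else 0) := by
      unfold AA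
      rw [← sum_filter]
      apply sum_congr
      · ext k; simp only [mem_range, mem_filter]; omega
      · intros; rfl
    rw [this]
    unfold hs
    rw [← sum_sub_distrib]
    apply sum_congr rfl
    intro k _
    split_ifs <;> ring
  have e2 : ∑ k ∈ range (2 * n), (if k < 2 * n - p / 3 then 0 else yy ℚ k ^ 5) = ∑ k ∈ range (p / 3), zz n k ^ 5 := by
    rw [← sum_range_reflect]
    have : ∑ k ∈ range (p / 3), zz n k ^ 5 = ∑ k ∈ range (2 * n), (if k < p / 3 then zz n k ^ 5 else 0) := by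
      rw [← sum_filter]
      apply sum_congr
      · ext k; simp only [mem_range, mem_filter]; omega
      · intros; rfl
    rw [this]
    apply sum_congr rfl
    intro k hk
    simp only [mem_range] at hk
    by_cases h : k < p / 3
    · rw [if_neg (by omega), if_pos h, zz_eq n k hk]
    · rw [if_pos (by omega), if_neg h]
  have e3 : DD' p 1 (∑ k ∈ range (p / 3), zz n k ^ 5 + AA p) := by
    unfold AA
    rw [← sum_add_distrib]
    apply D_sum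
    intro k hk
    simp only [mem_range] at hk
    have := Epow (yy_mem hpn k (by omega)) (zz_mem hpn k (by omega)) (zz_rel hpn k (by omega)) 5
    convert this using 1; ring
  have hodd := S_hodd hpn (by omega) 5 (by decide)
  have key : Qd p n 3 5 + 2 * AA p = hs n 5 + (∑ k ∈ range (p / 3), zz n k ^ 5 + AA p) := by
    unfold Qd
    rw [sum_congr rfl hfl, sum_add_distrib, e1, e2]; ring
  rw [key]
  exact D_add hodd e3

/-- `30 h_4 = - p A` mod `p^2` -/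
lemma R6 (hpn : p = 2 * n + 1) (hp5 : 5 < p) : DD' p 2 (30 * hs n 4 + p * AA p) := by
  have h := dist_h hpn 3 (not_dvd_small 3 (by omega) (by omega)) 4
  have h1 := (D_shift (p := p) (k := 1) (m := 1)).mpr (Q3_D hpn hp5)
  have key : 30 * hs n 4 + p * AA p
      = (243 / 8) * (hs n 4 - (((3 : ℕ) : ℚ)⁻¹) ^ 4 * hs n 4 - ((4 : ℕ) : ℚ) * p * (((3 : ℕ) : ℚ)⁻¹) ^ (4 + 1) * Qd p n 3 (4 + 1))
        + (1 / 2) * ((p : ℚ) ^ 1 * (Qd p n 3 5 + 2 * AA p)) := by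
    push_cast; ring
  rw [key]
  exact D_add (D_smul (cst hp5 _ 243 3 0 0 (by norm_num)) h) (D_smul (cst hp5 _ 1 1 0 0 (by norm_num)) h1)

/-- `A = 4 g_5` mod `p` -/
lemma R65 (hpn : p = 2 * n + 1) (hp5 : 5 < p) : DD' p 1 (AA p - 4 * gs n 5) := by
  have h1 := R5 hpn hp5
  have h2 := R6 hpn hp5
  have h3 : DD' p (1 + 1) ((p : ℚ) ^ 1 * (AA p - 4 * gs n 5)) := by
    have : (p : ℚ) ^ 1 * (AA p - 4 * gs n 5) = (30 * hs n 4 + p * AA p) - 2 * (15 * hs n 4 + 2 * p * gs n 5) := by ring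
    rw [this]
    exact D_sub h2 (D_smul (cst hp5 _ 2 0 0 0 (by norm_num)) h1)
  exact (D_shift (p := p)).mp h3

lemma h4_D (hpn : p = 2 * n + 1) (hp5 : 5 < p) : DD' p 1 (hs n 4) := by
  have h1 := R5 hpn hp5
  have key : hs n 4 = (1 / 15) * (15 * hs n 4 + 2 * p * gs n 5) - p ^ 1 * ((2 / 15) * gs n 5) := by ring
  rw [key]
  exact D_sub (D_smul (cst hp5 _ 1 0 1 1 (by norm_num)) (D_mono (by omega) h1))
    (D_pmul (mul_mem (cst hp5 _ 2 0 1 1 (by norm_num)) (gs_mem hpn 5)))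

/-- `p h_2 = -2 h_1 + p^3 h_4/2` mod `p^5` -/
lemma R7 (hpn : p = 2 * n + 1) (hp5 : 5 < p) : DD' p 5 (p * hs n 2 + 2 * hs n 1 - 1 / 2 * p ^ 3 * hs n 4) := by
  have h1 := S_h1 hpn
  have h3 := (D_shift (p := p) (k := 2) (m := 3)).mpr (S_h3 hpn)
  have h5 := (D_shift (p := p) (k := 4) (m := 1)).mpr (S_hodd hpn (by omega) 5 (by decide))
  have key : p * hs n 2 + 2 * hs n 1 - 1 / 2 * p ^ 3 * hs n 4
      = (2 * hs n 1 + p * hs n 2 + p ^ 2 * hs n 3 + p ^ 3 * hs n 4 + p ^ 4 * hs n 5)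
        - (1 / 2) * (p ^ 2 * (2 * hs n 3 + 3 * p * hs n 4 + 6 * p ^ 2 * hs n 5))
        + 2 * (p ^ 4 * hs n 5) := by ring
  rw [key]
  exact D_add (D_sub h1 (D_smul (cst hp5 _ 1 1 0 0 (by norm_num)) h3)) (D_smul (cst hp5 _ 2 0 0 0 (by norm_num)) h5)

/-- `p^2 h_3 = -(3/2) p^3 h_4` mod `p^5` -/
lemma R7' (hpn : p = 2 * n + 1) (hp5 : 5 < p) : DD' p 5 (p ^ 2 * hs n 3 + 3 / 2 * p ^ 3 * hs n 4) := by
  have h3 := (D_shift (p := p) (k := 2) (m := 3)).mpr (S_h3 hpn)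
  have h5 := (D_shift (p := p) (k := 4) (m := 1)).mpr (S_hodd hpn (by omega) 5 (by decide))
  have key : p ^ 2 * hs n 3 + 3 / 2 * p ^ 3 * hs n 4
      = (1 / 2) * (p ^ 2 * (2 * hs n 3 + 3 * p * hs n 4 + 6 * p ^ 2 * hs n 5))
        - 3 * (p ^ 4 * hs n 5) := by ring
  rw [key]
  exact D_sub (D_smul (cst hp5 _ 1 1 0 0 (by norm_num)) h3) (D_smul (cst hp5 _ 3 0 0 0 (by norm_num)) h5)

/-- `3 h_1 = - p^2 B_{p-3}` mod `p^3` -/
lemma R8 (hpn : p = 2 * n + 1) (hp5 : 5 < p) : DD' p 3 (3 * hs n 1 + p ^ 2 * bernoulli (p - 3)) := by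
  have h7 := R7 hpn hp5
  have h2 := (D_shift (p := p) (k := 1) (m := 2)).mpr (R2 hpn hp5)
  have key : 3 * hs n 1 + p ^ 2 * bernoulli (p - 3)
      = (3 / 2) * (p * hs n 2 + 2 * hs n 1 - 1 / 2 * p ^ 3 * hs n 4)
        - (1 / 2) * ((p : ℚ) ^ 1 * (3 * hs n 2 - 2 * p * bernoulli (p - 3)))
        + p ^ 3 * ((3 / 4) * hs n 4) := by ring
  rw [key]
  exact D_add (D_sub (D_smul (cst hp5 _ 3 1 0 0 (by norm_num)) (D_mono (by omega) h7))
    (D_smul (cst hp5 _ 1 1 0 0 (by norm_num)) h2)) (D_pmul (mul_mem (cst hp5 _ 3 2 0 0 (by norm_num)) (hs_mem hpn 4)))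

lemma g4_D (hpn : p = 2 * n + 1) (hp5 : 5 < p) : DD' p 1 (gs n 4) := by
  have h := S_hpow hpn 4
  have key : gs n 4 = (1 / 2) * (hs n 4) - (1 / 2) * (hs n 4 - (gs n 4 + (-1) ^ 4 * gs n 4)) := by ring
  rw [key]
  exact D_sub (D_smul (cst hp5 _ 1 1 0 0 (by norm_num)) (h4_D hpn hp5)) (D_smul (cst hp5 _ 1 1 0 0 (by norm_num)) h)

lemma o4_D (hpn : p = 2 * n + 1) (hp5 : 5 < p) : DD' p 1 (os n 4) := by
  have h := S_opow hpn (by omega) 4
  have key : os n 4 = (os n 4 - (-1) ^ 4 * (2⁻¹) ^ 4 * gs n 4) + (1 / 16) * gs n 4 := by ring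
  rw [key]
  exact D_add h (D_smul (cst hp5 _ 1 4 0 0 (by norm_num)) (g4_D hpn hp5))

/-- `g_2 = -(7/6) p g_3` mod `p^3` -/
lemma R9g (hpn : p = 2 * n + 1) (hp5 : 5 < p) : DD' p 3 (gs n 2 + 7 / 6 * p * gs n 3) := by
  have h1 := S_o2 hpn (by omega)
  have h2 := S_h2 hpn
  have h3 := hs_split n 2
  have h4 := (D_shift (p := p) (k := 2) (m := 1)).mpr (g4_D hpn hp5)
  have key : gs n 2 + 7 / 6 * p * gs n 3
      = (2 / 3) * (os n 2 - (4⁻¹ * gs n 2 + 4⁻¹ * p * gs n 3 + 3 * 16⁻¹ * p ^ 2 * gs n 4))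
        - (2 / 3) * (hs n 2 - (2 * gs n 2 + 2 * p * gs n 3 + 3 * p ^ 2 * gs n 4))
        - (15 / 8) * ((p : ℚ) ^ 2 * gs n 4) := by
    rw [h3]; ring
  rw [key]
  exact D_sub (D_sub (D_smul (cst hp5 _ 2 0 1 0 (by norm_num)) h1) (D_smul (cst hp5 _ 2 0 1 0 (by norm_num)) h2))
    (D_smul (cst hp5 _ 15 3 0 0 (by norm_num)) h4)

/-- `o_2 = -(1/24) p g_3` mod `p^3` -/
lemma R9o (hpn : p = 2 * n + 1) (hp5 : 5 < p) : DD' p 3 (os n 2 + 1 / 24 * p * gs n 3) := by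
  have h1 := S_o2 hpn (by omega)
  have h2 := R9g hpn hp5
  have h4 := (D_shift (p := p) (k := 2) (m := 1)).mpr (g4_D hpn hp5)
  have key : os n 2 + 1 / 24 * p * gs n 3
      = (os n 2 - (4⁻¹ * gs n 2 + 4⁻¹ * p * gs n 3 + 3 * 16⁻¹ * p ^ 2 * gs n 4))
        + (1 / 4) * (gs n 2 + 7 / 6 * p * gs n 3)
        + (3 / 16) * ((p : ℚ) ^ 2 * gs n 4) := by
    ring
  rw [key]
  exact D_add (D_add h1 (D_smul (cst hp5 _ 1 2 0 0 (by norm_num)) h2)) (D_smul (cst hp5 _ 3 4 0 0 (by norm_num)) h4)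

/-- `o_3 = -(1/8) g_3` mod `p^2` -/
lemma R9t (hpn : p = 2 * n + 1) (hp5 : 5 < p) : DD' p 2 (os n 3 + 1 / 8 * gs n 3) := by
  have h1 := S_o3 hpn (by omega)
  have h4 := (D_shift (p := p) (k := 1) (m := 1)).mpr (g4_D hpn hp5)
  have key : os n 3 + 1 / 8 * gs n 3
      = (os n 3 + (8⁻¹ * gs n 3 + 3 * 16⁻¹ * p * gs n 4 + 6 * 32⁻¹ * p ^ 2 * gs n 5))
        - (3 / 16) * ((p : ℚ) ^ 1 * gs n 4) - p ^ 2 * ((3 / 16) * gs n 5) := by
    ring
  rw [key]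
  exact D_sub (D_sub (D_mono (by omega) h1) (D_smul (cst hp5 _ 3 4 0 0 (by norm_num)) h4))
    (D_pmul (mul_mem (cst hp5 _ 3 4 0 0 (by norm_num)) (gs_mem hpn 5)))

/-- `6 h_1 = p^2 g_3` mod `p^4` -/
lemma R9h (hpn : p = 2 * n + 1) (hp5 : 5 < p) : DD' p 4 (hs n 1 - 1 / 6 * p ^ 2 * gs n 3) := by
  have h1 := S_h1o hpn
  have h2 := (D_shift (p := p) (k := 1) (m := 3)).mpr (R9o hpn hp5)
  have h3 := (D_shift (p := p) (k := 2) (m := 2)).mpr (R9t hpn hp5)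
  have h4 := (D_shift (p := p) (k := 3) (m := 1)).mpr (o4_D hpn hp5)
  have key : hs n 1 - 1 / 6 * p ^ 2 * gs n 3
      = (hs n 1 + p * (os n 2 + p * os n 3 + p ^ 2 * os n 4))
        - (p : ℚ) ^ 1 * (os n 2 + 1 / 24 * p * gs n 3)
        - (p : ℚ) ^ 2 * (os n 3 + 1 / 8 * gs n 3) - (p : ℚ) ^ 3 * (os n 4) := by
    ring
  rw [key]
  exact D_sub (D_sub (D_sub h1 h2) h3) h4

end

end Pool.Agent.Helper91.SC
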