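import Pool.Agent.Helper91.SCG2

set_option autoImplicit false

namespace Pool.Agent.Helper91.SC

open Finset Polynomial

section
variable {p : ℕ} [hp : Fact p.Prime] {n : ℕ}

/-- `T(b) = sum_{k<2n} (-1)^k / (b + 2(k+1))` -/
def Tf (p n : ℕ) [Fact p.Prime] (b : ZMod p) : ZMod p :=
  ∑ k ∈ range (2 * n), (-1) ^ k * (b + 2 * ((k : ZMod p) + 1))⁻¹

lemma Tf_even (hpn : p = 2 * n + 1) (b : ZMod p) : Tf p n (-b) = Tf p n b := by
  unfold Tf
  rw [← sum_range_reflect]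
  apply sum_congr rfl
  intro k hk
  simp only [mem_range] at hk
  have h0 := h0F hpn
  have e1 : (-1 : ZMod p) ^ (2 * n - 1 - k) = - (-1) ^ k := by
    have a3 : (-1 : ZMod p) ^ (2 * n - 1 - k) * (-1) ^ k = -1 := by
      rw [← pow_add]
      have : 2 * n - 1 - k + k = 2 * (n - 1) + 1 := by omega
      rw [this]
      simp [pow_add, pow_mul]
    have a4 : ((-1 : ZMod p) ^ k) * (-1) ^ k = 1 := by rw [← mul_pow]; simp
    linear_combination (-1) ^ k * a3 - (-1 : ZMod p) ^ (2 * n - 1 - k) * a4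
  have e2 : ((2 * n - 1 - k : ℕ) : ZMod p) = 2 * n - 1 - k := by
    rw [Nat.cast_sub (by omega), Nat.cast_sub (by omega)]; push_cast; ring
  have e3 : (-b + 2 * (((2 * n - 1 - k : ℕ) : ZMod p) + 1)) = - (b + 2 * ((k : ZMod p) + 1)) := by
    rw [e2]; linear_combination 2 * h0
  rw [e1, e3, inv_neg]; ring

lemma xF_period (hpn : p = 2 * n + 1) (i : ℕ) : xx (ZMod p) (2 * n + 1 + i) = xx (ZMod p) i := by
  unfold xx
  congr 1
  have h0 := h0F hpn
  push_cast
  linear_combination 2 * h0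

lemma beta_full (hpn : p = 2 * n + 1) (hp5 : 5 < p) : beta (ZMod p) (2 * n + 1) = 0 := by
  have h2 : (2 : ZMod p) ≠ 0 := by have := hF hpn 2 (by omega) (by omega); exact_mod_cast this
  have h : beta (ZMod p) (2 * n + 1) = - beta (ZMod p) (2 * n + 1) := by
    unfold beta
    conv_lhs => rw [← sum_range_reflect]
    rw [← sum_neg_distrib]
    apply sum_congr rfl
    intro i hi
    simp only [mem_range] at hi
    have e1 : (-1 : ZMod p) ^ (2 * n + 1 - 1 - i) = (-1) ^ i := by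
      have a3 : (-1 : ZMod p) ^ (2 * n + 1 - 1 - i) * (-1) ^ i = 1 := by
        rw [← pow_add]
        have : 2 * n + 1 - 1 - i + i = 2 * n := by omega
        rw [this]
        simp [pow_mul]
      have a4 : ((-1 : ZMod p) ^ i) * (-1) ^ i = 1 := by rw [← mul_pow]; simp
      linear_combination (-1) ^ i * a3 - (-1 : ZMod p) ^ (2 * n + 1 - 1 - i) * a4
    have e2 : xx (ZMod p) (2 * n + 1 - 1 - i) = - xx (ZMod p) i := by
      unfold xx
      rw [← inv_neg]
      congr 1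
      have h0 := h0F hpn
      have : ((2 * n + 1 - 1 - i : ℕ) : ZMod p) = 2 * n - i := by
        rw [Nat.add_sub_cancel, Nat.cast_sub (by omega)]; push_cast; ring
      rw [this]
      linear_combination 2 * h0
    rw [e1, e2]; ring
  have h3 : 2 * beta (ZMod p) (2 * n + 1) = 0 := by linear_combination h
  rcases mul_eq_zero.mp h3 with h4 | h4
  · exact absurd h4 h2
  · exact h4

lemma Tf_val (hpn : p = 2 * n + 1) (hp5 : 5 < p) (m : ℕ) :
    Tf p n (2 * (m : ZMod p) + 1) = xx (ZMod p) m + 2 * (-1) ^ m * beta (ZMod p) m := by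
  have e1 : Tf p n (2 * (m : ZMod p) + 1) = (-1) ^ (m + 1) * (beta (ZMod p) (m + 1 + 2 * n) - beta (ZMod p) (m + 1)) := by
    unfold Tf beta
    rw [sum_range_add, add_sub_cancel_left, mul_sum]
    apply sum_congr rfl
    intro k _
    have a4 : ((-1 : ZMod p) ^ (m + 1)) * (-1) ^ (m + 1) = 1 := by rw [← mul_pow]; simp
    have a5 : (2 * (m : ZMod p) + 1 + 2 * ((k : ZMod p) + 1))⁻¹ = xx (ZMod p) (m + 1 + k) := by
      unfold xx; congr 1; push_cast; ring
    rw [a5, pow_add (-1 : ZMod p) (m + 1) k]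
    linear_combination (-(-1) ^ k * xx (ZMod p) (m + 1 + k)) * a4
  have e2 : beta (ZMod p) (m + 1 + 2 * n) = - beta (ZMod p) m := by
    have : m + 1 + 2 * n = 2 * n + 1 + m := by ring
    rw [this]
    have h := beta_full hpn hp5
    unfold beta at h ⊢
    rw [sum_range_add, h, zero_add, ← sum_neg_distrib]
    apply sum_congr rfl
    intro i _
    rw [xF_period hpn, pow_add (-1 : ZMod p) (2 * n + 1) i]
    have : (-1 : ZMod p) ^ (2 * n + 1) = -1 := by simp [pow_add, pow_mul]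
    rw [this]; ring
  have e3 : beta (ZMod p) (m + 1) = beta (ZMod p) m + (-1) ^ m * xx (ZMod p) m := by
    unfold beta; rw [sum_range_succ]
  have a4 : ((-1 : ZMod p) ^ m) * (-1) ^ m = 1 := by rw [← mul_pow]; simp
  rw [e1, e2, e3, pow_succ]
  linear_combination (xx (ZMod p) m) * a4

lemma inv_as_pow (hp5 : 5 < p) (t : ZMod p) : t ^ (p - 2) = t⁻¹ := by
  by_cases h : t = 0
  · rw [h, zero_pow (by omega), inv_zero]
  · apply eq_inv_of_mul_eq_one_left
    rw [← pow_succ]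
    have : p - 2 + 1 = p - 1 := by omega
    rw [this]
    exact ZMod.pow_card_sub_one_eq_one h

lemma choose4 (hpn : p = 2 * n + 1) (hp5 : 5 < p) : (((p - 2).choose 4 : ℕ) : ZMod p) = 5 := by
  obtain ⟨m, hm⟩ : ∃ m, n = m + 3 := ⟨n - 3, by omega⟩
  have e : p - 2 = 2 * m + 5 := by omega
  have h0 := h0F hpn
  have hd : (2 * m + 5).descFactorial 4 = (2 * m + 5) * (2 * m + 4) * (2 * m + 3) * (2 * m + 2) := by
    simp [Nat.descFactorial_succ]
    ring
  have hc := Nat.descFactorial_eq_factorial_mul_choose (2 * m + 5) 4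
  rw [hd] at hc
  have hc' : ((2 * m + 5) * (2 * m + 4) * (2 * m + 3) * (2 * m + 2) : ZMod p) = 24 * (((2 * m + 5).choose 4 : ℕ) : ZMod p) := by
    have := congrArg (fun n : ℕ => (n : ZMod p)) hc
    push_cast at this
    rw [this]
    norm_num [Nat.factorial]
  have h24 : (24 : ZMod p) ≠ 0 := by
    have h2 : (2 : ZMod p) ≠ 0 := by have := hF hpn 2 (by omega) (by omega); exact_mod_cast this
    have h3 : (3 : ZMod p) ≠ 0 := by have := hF hpn 3 (by omega) (by omega); exact_mod_cast this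
    have : (24 : ZMod p) = 2 ^ 3 * 3 := by norm_num
    rw [this]; exact mul_ne_zero (pow_ne_zero _ h2) h3
  rw [e]
  apply mul_left_cancel₀ h24
  rw [← hc']
  have hm0 : (2 * (m : ZMod p)) = -7 := by
    rw [hm] at h0; push_cast at h0
    linear_combination h0
  rw [hm0]; norm_num

/-- `rho_2 = (5/32) sum (-1)^k / (k+1)^5` -/
lemma rho2 (hpn : p = 2 * n + 1) (hp5 : 5 < p) :
    ∑ j ∈ range n, xx (ZMod p) j * ee (ZMod p) j
      = 5 * (2⁻¹) ^ 5 * ∑ k ∈ range (2 * n), (-1) ^ k * yy (ZMod p) k ^ 5 := by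
  rw [WP_ortho hpn hp5 (fun j => xx (ZMod p) j)]
  have e1 : ∑ m ∈ range n, (∑ j ∈ range n, xx (ZMod p) j * PP (cc (ZMod p)) (XN (ZMod p) m) j) * xx (ZMod p) m ^ 4
      = ∑ m ∈ range n, Tf p n (2 * (m : ZMod p) + 1) * ((2 * (m : ZMod p) + 1)⁻¹) ^ 4 := by
    apply sum_congr rfl
    intro m hm
    simp only [mem_range] at hm
    have : ∑ j ∈ range n, xx (ZMod p) j * PP (cc (ZMod p)) (XN (ZMod p) m) j
        = ∑ j ∈ range (m + 1), xx (ZMod p) j * PP (cc (ZMod p)) (XN (ZMod p) m) j := by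
      symm
      apply sum_subset
      · intro x hx; simp only [mem_range] at *; omega
      · intro x _ hx
        simp only [mem_range, not_lt] at hx
        rw [PP_vanish m x (hF hpn _ (by omega) (by omega)) (by omega), mul_zero]
    rw [this, rho_val m (fun k h h' => hF hpn k h (by omega)), Tf_val hpn hp5]
    rfl
  rw [e1, ← units_even hpn (fun b => Tf p n b * (b⁻¹) ^ 4) (fun b => by
    rw [Tf_even hpn, inv_neg, Even.neg_pow (by decide : Even 4)])]
  have e2 : ∀ k ∈ range (2 * n), ∑ u : (ZMod p)ˣ, (-1) ^ k * ((u : ZMod p) + 2 * ((k : ZMod p) + 1))⁻¹ * ((u : ZMod p)⁻¹) ^ 4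
      = - (5 * (2⁻¹) ^ 5 * ((-1) ^ k * yy (ZMod p) k ^ 5)) := by
    intro k hk
    simp only [mem_range] at hk
    set r : ZMod p := 2 * ((k : ZMod p) + 1) with hr
    have h2 : (2 : ZMod p) ≠ 0 := by have := hF hpn 2 (by omega) (by omega); exact_mod_cast this
    have hk1 : ((k : ZMod p) + 1) ≠ 0 := by have := hF hpn (k + 1) (by omega) (by omega); exact_mod_cast this
    have hr0 : r ≠ 0 := mul_ne_zero h2 hk1
    have ho := ortho ((X + C r) ^ (p - 2)) (by
      rw [natDegree_pow, natDegree_X_add_C]; omega) 4 (by omega)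
    rw [coeff_X_add_C_pow] at ho
    have e3 : ∑ u : (ZMod p)ˣ, (-1) ^ k * ((u : ZMod p) + r)⁻¹ * ((u : ZMod p)⁻¹) ^ 4
        = (-1) ^ k * ∑ u : (ZMod p)ˣ, ((X + C r) ^ (p - 2)).eval (u : ZMod p) * ((u : ZMod p)⁻¹) ^ 4 := by
      rw [mul_sum]
      apply sum_congr rfl
      intro u _
      rw [eval_pow, eval_add, eval_X, eval_C, inv_as_pow hp5]; ring
    rw [e3, ho, choose4 hpn hp5]
    have e4 : r ^ (p - 2 - 4) = (2⁻¹) ^ 5 * yy (ZMod p) k ^ 5 := by
      have a1 : r ^ (p - 2 - 4) * r ^ 5 = 1 := by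
        rw [← pow_add]
        have : p - 2 - 4 + 5 = p - 1 := by omega
        rw [this]; exact ZMod.pow_card_sub_one_eq_one hr0
      have a2 : r ^ (p - 2 - 4) = (r ^ 5)⁻¹ := eq_inv_of_mul_eq_one_left a1
      rw [a2, hr, mul_pow, mul_inv, inv_pow]
      unfold yy
      rw [inv_pow]
    rw [e4]; ring
  have e5 : ∑ u : (ZMod p)ˣ, Tf p n (u : ZMod p) * ((u : ZMod p)⁻¹) ^ 4
      = ∑ k ∈ range (2 * n), ∑ u : (ZMod p)ˣ, (-1) ^ k * ((u : ZMod p) + 2 * ((k : ZMod p) + 1))⁻¹ * ((u : ZMod p)⁻¹) ^ 4 := by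
    rw [sum_comm]
    apply sum_congr rfl
    intro u _
    unfold Tf
    rw [sum_mul]
  rw [e5, sum_congr rfl e2, sum_neg_distrib, neg_neg, ← mul_sum]

/-- `Z_5 = -g_5/16` -/
lemma Z5_val (hpn : p = 2 * n + 1) (hp5 : 5 < p) :
    ∑ k ∈ range (2 * n), (-1) ^ k * yy (ZMod p) k ^ 5 = - (2⁻¹) ^ 4 * ∑ k ∈ range n, yy (ZMod p) k ^ 5 := by
  have h2 : (2 : ZMod p) ≠ 0 := by have := hF hpn 2 (by omega) (by omega); exact_mod_cast this
  rw [sum_even_odd]
  have e1 : ∑ j ∈ range n, (-1) ^ (2 * j) * yy (ZMod p) (2 * j) ^ 5 = - (2⁻¹) ^ 5 * ∑ k ∈ range n, yy (ZMod p) k ^ 5 := by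
    rw [← sum_range_reflect, mul_sum]
    apply sum_congr rfl
    intro j hj
    simp only [mem_range] at hj
    rw [yK_odd, xF_refl hpn j hj]
    simp only [pow_mul]
    ring_nf
  have e2 : ∑ j ∈ range n, (-1) ^ (2 * j + 1) * yy (ZMod p) (2 * j + 1) ^ 5 = - (2⁻¹) ^ 5 * ∑ k ∈ range n, yy (ZMod p) k ^ 5 := by
    rw [mul_sum]
    apply sum_congr rfl
    intro j _
    rw [yK_even, pow_succ (-1 : ZMod p), pow_mul]
    ring_nf
  rw [e1, e2]
  have b2 : (2 : ZMod p)⁻¹ * 2 = 1 := inv_mul_cancel₀ h2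
  linear_combination (-(2⁻¹) ^ 4 * ∑ k ∈ range n, yy (ZMod p) k ^ 5) * b2

/-- `alpha_5` -/
lemma alpha5 (hpn : p = 2 * n + 1) (hp5 : 5 < p) :
    ∑ j ∈ range n, (-1) ^ j * xx (ZMod p) j ^ 5
      = (-1) ^ n * (2⁻¹) ^ 6 * ∑ k ∈ range (2 * n), (-1) ^ k * yy (ZMod p) k ^ 5 := by
  have h2 : (2 : ZMod p) ≠ 0 := by have := hF hpn 2 (by omega) (by omega); exact_mod_cast this
  rw [sum_half, ← sum_add_distrib, ← sum_range_reflect, mul_sum]
  apply sum_congr rfl
  intro k hk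
  simp only [mem_range] at hk
  rw [xF_refl hpn k hk, yK_refl (h0F hpn) k (by omega)]
  have b2 : (2 : ZMod p)⁻¹ * 2 = 1 := inv_mul_cancel₀ h2
  have a1 : (-1 : ZMod p) ^ (2 * n - 1 - k) = - (-1) ^ k := by
    have a3 : (-1 : ZMod p) ^ (2 * n - 1 - k) * (-1) ^ k = -1 := by
      rw [← pow_add]
      have : 2 * n - 1 - k + k = 2 * (n - 1) + 1 := by omega
      rw [this]
      simp [pow_add, pow_mul]
    have a4 : ((-1 : ZMod p) ^ k) * (-1) ^ k = 1 := by rw [← mul_pow]; simp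
    linear_combination (-1) ^ k * a3 - (-1 : ZMod p) ^ (2 * n - 1 - k) * a4
  have a2 : (-1 : ZMod p) ^ (n - 1 - k) = - ((-1) ^ n * (-1) ^ k) := by
    have a3 : (-1 : ZMod p) ^ n = (-1) ^ (n - 1 - k) * (-1) ^ (k + 1) := by
      rw [← pow_add]; congr 1; omega
    have a4 : ((-1 : ZMod p) ^ k) * (-1) ^ k = 1 := by rw [← mul_pow]; simp
    rw [a3, pow_succ]
    linear_combination (-(-1 : ZMod p) ^ (n - 1 - k)) * a4
  rw [a1, a2]
  linear_combination (-((-1) ^ n * (-1) ^ k * (2⁻¹) ^ 5 * yy (ZMod p) k ^ 5)) * b2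

end

end Pool.Agent.Helper91.SC
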