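import Pool.Agent.Helper91.SCPad
import Pool.Agent.Helper91.SCField

set_option autoImplicit false

namespace Pool.Agent.Helper91.SC

open Finset

/-- `y_k = 1/(k+1)` -/
def yy (K : Type*) [Field K] (k : ℕ) : K := ((k : K) + 1)⁻¹

def hs (n s : ℕ) : ℚ := ∑ k ∈ range (2 * n), yy ℚ k ^ s
def gs (n s : ℕ) : ℚ := ∑ k ∈ range n, yy ℚ k ^ s
def os (n s : ℕ) : ℚ := ∑ j ∈ range n, xx ℚ j ^ s

lemma yy_mul (k : ℕ) : yy ℚ k * ((k : ℚ) + 1) = 1 := by
  have : ((k : ℚ) + 1) ≠ 0 := by positivity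
  unfold yy; field_simp

lemma sum_even_odd {M : Type*} [AddCommMonoid M] (f : ℕ → M) (n : ℕ) :
    ∑ k ∈ range (2 * n), f k = ∑ j ∈ range n, f (2 * j) + ∑ j ∈ range n, f (2 * j + 1) := by
  induction n with
  | zero => simp
  | succ n ih =>
    rw [show 2 * (n + 1) = 2 * n + 1 + 1 by ring, sum_range_succ, sum_range_succ, ih,
      sum_range_succ, sum_range_succ]
    abel

lemma sum_half {M : Type*} [AddCommMonoid M] (f : ℕ → M) (n : ℕ) :
    ∑ k ∈ range (2 * n), f k = ∑ k ∈ range n, f k + ∑ k ∈ range n, f (2 * n - 1 - k) := by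
  rw [show 2 * n = n + n by ring, sum_range_add]
  congr 1
  rw [← sum_range_reflect]
  apply sum_congr rfl
  intro k hk
  simp only [mem_range] at hk
  congr 1
  omega

lemma yy_odd (j : ℕ) : yy ℚ (2 * j) = xx ℚ j := by
  unfold yy xx; push_cast; rfl

lemma yy_even (j : ℕ) : yy ℚ (2 * j + 1) = 2⁻¹ * yy ℚ j := by
  unfold yy; push_cast
  rw [← mul_inv]; congr 1; ring

lemma hs_split (n s : ℕ) : hs n s = os n s + (2⁻¹) ^ s * gs n s := by
  unfold hs os gs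
  rw [sum_even_odd, mul_sum]
  congr 1
  · apply sum_congr rfl; intro j _; rw [yy_odd]
  · apply sum_congr rfl; intro j _; rw [yy_even, mul_pow]

/-- `z_k = 1/(p-(k+1))`, `p = 2n+1` -/
def zz (n k : ℕ) : ℚ := ((2 * n + 1 : ℚ) - (k + 1))⁻¹

lemma zz_eq (n k : ℕ) (hk : k < 2 * n) : zz n k = yy ℚ (2 * n - 1 - k) := by
  unfold zz yy
  congr 1
  have : ((2 * n - 1 - k : ℕ) : ℚ) = 2 * n - 1 - k := by
    rw [Nat.cast_sub (by omega), Nat.cast_sub (by omega)]; push_cast; ring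
  rw [this]; ring

/-- `w_j = 1/(p - (2j+1))` -/
def wx (n j : ℕ) : ℚ := ((2 * n + 1 : ℚ) - (2 * j + 1))⁻¹

lemma hs_refl (n s : ℕ) : hs n s = ∑ k ∈ range (2 * n), zz n k ^ s := by
  unfold hs
  rw [← sum_range_reflect]
  apply sum_congr rfl
  intro k hk
  simp only [mem_range] at hk
  rw [zz_eq n k hk]

lemma hs_half (n s : ℕ) : hs n s = gs n s + ∑ k ∈ range n, zz n k ^ s := by
  unfold hs gs
  rw [sum_half]
  congr 1
  apply sum_congr rfl
  intro k hk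
  simp only [mem_range] at hk
  rw [zz_eq n k (by omega)]

/-- `v_k = 1/(p - 2(k+1))` -/
def vv (n k : ℕ) : ℚ := ((2 * n + 1 : ℚ) - 2 * (k + 1))⁻¹

lemma os_refl (n s : ℕ) : os n s = ∑ k ∈ range n, vv n k ^ s := by
  unfold os
  rw [← sum_range_reflect]
  apply sum_congr rfl
  intro k hk
  simp only [mem_range] at hk
  congr 1
  unfold vv xx
  congr 1
  have : ((n - 1 - k : ℕ) : ℚ) = n - 1 - k := by
    rw [Nat.cast_sub (by omega), Nat.cast_sub (by omega)]; push_cast; ring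
  rw [this]; ring

lemma hs_pairs (n s : ℕ) : hs n s = ∑ j ∈ range n, (xx ℚ j ^ s + wx n j ^ s) := by
  unfold hs
  rw [sum_even_odd, sum_add_distrib]
  congr 1
  · apply sum_congr rfl; intro j _; rw [yy_odd]
  · rw [← sum_range_reflect]
    apply sum_congr rfl
    intro j hj
    simp only [mem_range] at hj
    congr 1
    unfold yy wx
    congr 1
    have : ((n - 1 - j : ℕ) : ℚ) = n - 1 - j := by
      rw [Nat.cast_sub (by omega), Nat.cast_sub (by omega)]; push_cast; ring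
    push_cast
    rw [this]; ring

section
variable {p : ℕ} [hp : Fact p.Prime]

/-- expansions of `z = 1/(p-t)` in terms of `y = 1/t` -/
lemma E1 {y z : ℚ} (hy : y ∈ OO p) (hz : z ∈ OO p) (h : z + y = p * y * z) :
    DD' p 5 (z + y + p * y ^ 2 + p ^ 2 * y ^ 3 + p ^ 3 * y ^ 4 + p ^ 4 * y ^ 5) := by
  refine ⟨y ^ 5 * z, mul_mem (pow_mem hy _) hz, ?_⟩
  linear_combination (1 + p * y + p ^ 2 * y ^ 2 + p ^ 3 * y ^ 3 + p ^ 4 * y ^ 4) * h

lemma E1' {y z : ℚ} (hy : y ∈ OO p) (hz : z ∈ OO p) (h : z + y = p * y * z) :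
    DD' p 4 (z + y + p * y ^ 2 + p ^ 2 * y ^ 3 + p ^ 3 * y ^ 4) := by
  refine ⟨y ^ 4 * z, mul_mem (pow_mem hy _) hz, ?_⟩
  linear_combination (1 + p * y + p ^ 2 * y ^ 2 + p ^ 3 * y ^ 3) * h

lemma E2 {y z : ℚ} (hy : y ∈ OO p) (hz : z ∈ OO p) (h : z + y = p * y * z) :
    DD' p 3 (z ^ 2 - (y ^ 2 + 2 * p * y ^ 3 + 3 * p ^ 2 * y ^ 4)) := by
  have hP := OO_p (p := p)
  refine ⟨2 * y ^ 5 + p * y ^ 6 + y ^ 3 * z * (z - y - p * y ^ 2 - p ^ 2 * y ^ 3), ?_, ?_⟩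
  · have h2 : (2 : ℚ) ∈ OO p := by exact_mod_cast OO_nat 2
    exact add_mem (add_mem (mul_mem h2 (pow_mem hy _)) (mul_mem hP (pow_mem hy _)))
      (mul_mem (mul_mem (pow_mem hy _) hz) (sub_mem (sub_mem (sub_mem hz hy) (mul_mem hP (pow_mem hy _)))
        (mul_mem (pow_mem hP _) (pow_mem hy _))))
  · have hz' : z = -y - p * y ^ 2 - p ^ 2 * y ^ 3 + p ^ 3 * y ^ 3 * z := by
      linear_combination (1 + p * y + p ^ 2 * y ^ 2) * h
    linear_combination (z - y - p * y ^ 2 - p ^ 2 * y ^ 3) * hz'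

lemma E3 {y z : ℚ} (hy : y ∈ OO p) (hz : z ∈ OO p) (h : z + y = p * y * z) :
    DD' p 3 (z ^ 3 + (y ^ 3 + 3 * p * y ^ 4 + 6 * p ^ 2 * y ^ 5)) := by
  have hP := OO_p (p := p)
  have h2 : (2 : ℚ) ∈ OO p := by exact_mod_cast OO_nat 2
  have h3 : (3 : ℚ) ∈ OO p := by exact_mod_cast OO_nat 3
  obtain ⟨c, hc, e⟩ := E2 hy hz h
  refine ⟨c * z + (y ^ 2 + 2 * p * y ^ 3 + 3 * p ^ 2 * y ^ 4) * (y ^ 3 * z)
    - (3 + 2) * y ^ 6 - 3 * p * y ^ 7, ?_, ?_⟩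
  · apply_rules [add_mem, sub_mem, mul_mem, pow_mem, hc, hz, hy, hP, h2, h3]
  · have hz' : z = -y - p * y ^ 2 - p ^ 2 * y ^ 3 + p ^ 3 * y ^ 3 * z := by
      linear_combination (1 + p * y + p ^ 2 * y ^ 2) * h
    linear_combination z * e + (y ^ 2 + 2 * p * y ^ 3 + 3 * p ^ 2 * y ^ 4) * hz'

end

end Pool.Agent.Helper91.SC
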