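import Pool.Agent.Helper91.SCSums

set_option autoImplicit false

namespace Pool.Agent.Helper91.SC

open Finset

section
variable {p : ℕ} [hp : Fact p.Prime] {n : ℕ}

lemma yy_mem (hpn : p = 2 * n + 1) (k : ℕ) (hk : k < 2 * n) : yy ℚ k ∈ OO p := by
  unfold yy
  have := OO_inv_nat_lt (p := p) (k + 1) (by omega) (by omega)
  exact_mod_cast this

lemma zz_mem (hpn : p = 2 * n + 1) (k : ℕ) (hk : k < 2 * n) : zz n k ∈ OO p := by
  rw [zz_eq n k hk]
  exact yy_mem hpn _ (by omega)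

lemma xx_mem (hpn : p = 2 * n + 1) (j : ℕ) (hj : j < n) : xx ℚ j ∈ OO p := by
  rw [← yy_odd]; exact yy_mem hpn _ (by omega)

lemma wx_mem (hpn : p = 2 * n + 1) (j : ℕ) (hj : j < n) : wx n j ∈ OO p := by
  have : wx n j = zz n (2 * j) := by unfold wx zz; push_cast; rfl
  rw [this]; exact zz_mem hpn _ (by omega)

lemma vv_mem (hpn : p = 2 * n + 1) (k : ℕ) (hk : k < n) : vv n k ∈ OO p := by
  have : vv n k = zz n (2 * k + 1) := by unfold vv zz; push_cast; congr 1; ring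
  rw [this]; exact zz_mem hpn _ (by omega)

lemma half_mem (hpn : p = 2 * n + 1) (hn : 0 < n) : (2 : ℚ)⁻¹ ∈ OO p := by
  have := OO_inv_nat_lt (p := p) 2 (by omega) (by omega)
  exact_mod_cast this

lemma zz_rel (hpn : p = 2 * n + 1) (k : ℕ) (hk : k < 2 * n) :
    zz n k + yy ℚ k = p * yy ℚ k * zz n k := by
  have h1 : ((k : ℚ) + 1) ≠ 0 := by positivity
  have h2 : ((2 * n + 1 : ℚ) - (k + 1)) ≠ 0 := by
    have : ((k : ℚ)) < 2 * n := by exact_mod_cast hk
    have : (0 : ℚ) < ((2 * n + 1 : ℚ) - (k + 1)) := by linarith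
    exact this.ne'
  unfold zz yy
  rw [hpn]
  push_cast
  field_simp
  ring

lemma wx_rel (hpn : p = 2 * n + 1) (j : ℕ) (hj : j < n) :
    wx n j + xx ℚ j = p * xx ℚ j * wx n j := by
  have : wx n j = zz n (2 * j) := by unfold wx zz; push_cast; rfl
  rw [this, ← yy_odd]; exact zz_rel hpn _ (by omega)

lemma vv_rel (hpn : p = 2 * n + 1) (k : ℕ) (hk : k < n) :
    vv n k + 2⁻¹ * yy ℚ k = p * (2⁻¹ * yy ℚ k) * vv n k := by
  have : vv n k = zz n (2 * k + 1) := by unfold vv zz; push_cast; congr 1; ring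
  rw [this, ← yy_even]; exact zz_rel hpn _ (by omega)

/-- `z^s = (-y)^s` mod `p` -/
lemma Epow {y z : ℚ} (hy : y ∈ OO p) (hz : z ∈ OO p) (h : z + y = p * y * z) (s : ℕ) :
    DD' p 1 (z ^ s - (-y) ^ s) := by
  induction s with
  | zero => simpa using D_zero 1
  | succ s ih =>
    have e : z ^ (s + 1) - (-y) ^ (s + 1) = z * (z ^ s - (-y) ^ s) + (-y) ^ s * (z + y) := by ring
    rw [e]
    apply D_add (D_smul hz ih)
    apply D_smul (pow_mem (neg_mem hy) _)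
    rw [h]
    exact ⟨y * z, mul_mem hy hz, by ring⟩

lemma hs_mem (hpn : p = 2 * n + 1) (s : ℕ) : hs n s ∈ OO p :=
  OO_sum _ _ (fun k hk => pow_mem (yy_mem hpn k (by simpa using hk)) _)

lemma gs_mem (hpn : p = 2 * n + 1) (s : ℕ) : gs n s ∈ OO p :=
  OO_sum _ _ (fun k hk => pow_mem (yy_mem hpn k (by simp at hk; omega)) _)

lemma os_mem (hpn : p = 2 * n + 1) (s : ℕ) : os n s ∈ OO p :=
  OO_sum _ _ (fun k hk => pow_mem (xx_mem hpn k (by simpa using hk)) _)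

lemma S_h1 (hpn : p = 2 * n + 1) :
    DD' p 5 (2 * hs n 1 + p * hs n 2 + p ^ 2 * hs n 3 + p ^ 3 * hs n 4 + p ^ 4 * hs n 5) := by
  have h := D_sum (p := p) (m := 5) (range (2 * n)) (fun k => zz n k + yy ℚ k + p * yy ℚ k ^ 2
    + p ^ 2 * yy ℚ k ^ 3 + p ^ 3 * yy ℚ k ^ 4 + p ^ 4 * yy ℚ k ^ 5)
    (fun k hk => by
      simp only [mem_range] at hk
      exact E1 (yy_mem hpn k hk) (zz_mem hpn k hk) (zz_rel hpn k hk))
  simp only [sum_add_distrib, ← mul_sum] at h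
  have e : ∑ k ∈ range (2 * n), zz n k = hs n 1 := by rw [hs_refl]; simp
  have e' : ∑ k ∈ range (2 * n), yy ℚ k = hs n 1 := by unfold hs; simp
  rw [e, e'] at h
  convert h using 1
  unfold hs; ring

lemma S_h3 (hpn : p = 2 * n + 1) :
    DD' p 3 (2 * hs n 3 + 3 * p * hs n 4 + 6 * p ^ 2 * hs n 5) := by
  have h := D_sum (p := p) (m := 3) (range (2 * n)) (fun k => zz n k ^ 3 + (yy ℚ k ^ 3 + 3 * p * yy ℚ k ^ 4
    + 6 * p ^ 2 * yy ℚ k ^ 5))
    (fun k hk => by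
      simp only [mem_range] at hk
      exact E3 (yy_mem hpn k hk) (zz_mem hpn k hk) (zz_rel hpn k hk))
  simp only [sum_add_distrib, ← mul_sum] at h
  rw [← hs_refl] at h
  convert h using 1
  unfold hs; ring

lemma S_hodd (hpn : p = 2 * n + 1) (hn : 0 < n) (s : ℕ) (hs' : Odd s) : DD' p 1 (hs n s) := by
  have h := D_sum (p := p) (m := 1) (range (2 * n)) (fun k => zz n k ^ s - (-yy ℚ k) ^ s)
    (fun k hk => by
      simp only [mem_range] at hk
      exact Epow (yy_mem hpn k hk) (zz_mem hpn k hk) (zz_rel hpn k hk) s)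
  simp only [sum_sub_distrib, hs'.neg_pow, sum_neg_distrib] at h
  rw [← hs_refl] at h
  apply D_cancel (a := 2) (by norm_num) (half_mem hpn hn)
  convert h using 1
  unfold hs; ring

lemma S_h1o (hpn : p = 2 * n + 1) :
    DD' p 4 (hs n 1 + p * (os n 2 + p * os n 3 + p ^ 2 * os n 4)) := by
  have h := D_sum (p := p) (m := 4) (range n) (fun k => wx n k + xx ℚ k + p * xx ℚ k ^ 2
    + p ^ 2 * xx ℚ k ^ 3 + p ^ 3 * xx ℚ k ^ 4)
    (fun k hk => by
      simp only [mem_range] at hk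
      exact E1' (xx_mem hpn k hk) (wx_mem hpn k hk) (wx_rel hpn k hk))
  convert h using 1
  simp only [sum_add_distrib, ← mul_sum]
  rw [hs_pairs, sum_add_distrib]
  unfold os
  simp only [pow_one]
  ring

lemma S_o2 (hpn : p = 2 * n + 1) (hn : 0 < n) :
    DD' p 3 (os n 2 - (4⁻¹ * gs n 2 + 4⁻¹ * p * gs n 3 + 3 * 16⁻¹ * p ^ 2 * gs n 4)) := by
  have h := D_sum (p := p) (m := 3) (range n) (fun k => vv n k ^ 2 - ((2⁻¹ * yy ℚ k) ^ 2
      + 2 * p * (2⁻¹ * yy ℚ k) ^ 3 + 3 * p ^ 2 * (2⁻¹ * yy ℚ k) ^ 4))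
    (fun k hk => by
      simp only [mem_range] at hk
      exact E2 (mul_mem (half_mem hpn hn) (yy_mem hpn k (by omega))) (vv_mem hpn k hk) (vv_rel hpn k hk))
  rw [sum_sub_distrib, ← os_refl] at h
  convert h using 1
  unfold gs
  simp only [mul_sum, ← sum_add_distrib]
  congr 1
  apply sum_congr rfl
  intro k _
  ring

lemma S_o3 (hpn : p = 2 * n + 1) (hn : 0 < n) :
    DD' p 3 (os n 3 + (8⁻¹ * gs n 3 + 3 * 16⁻¹ * p * gs n 4 + 6 * 32⁻¹ * p ^ 2 * gs n 5)) := by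
  have h := D_sum (p := p) (m := 3) (range n) (fun k => vv n k ^ 3 + ((2⁻¹ * yy ℚ k) ^ 3
      + 3 * p * (2⁻¹ * yy ℚ k) ^ 4 + 6 * p ^ 2 * (2⁻¹ * yy ℚ k) ^ 5))
    (fun k hk => by
      simp only [mem_range] at hk
      exact E3 (mul_mem (half_mem hpn hn) (yy_mem hpn k (by omega))) (vv_mem hpn k hk) (vv_rel hpn k hk))
  rw [sum_add_distrib, ← os_refl] at h
  convert h using 1
  unfold gs
  simp only [mul_sum, ← sum_add_distrib]
  congr 1
  apply sum_congr rfl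
  intro k _
  ring

lemma S_h2 (hpn : p = 2 * n + 1) :
    DD' p 3 (hs n 2 - (2 * gs n 2 + 2 * p * gs n 3 + 3 * p ^ 2 * gs n 4)) := by
  have h := D_sum (p := p) (m := 3) (range n) (fun k => zz n k ^ 2 - (yy ℚ k ^ 2
      + 2 * p * yy ℚ k ^ 3 + 3 * p ^ 2 * yy ℚ k ^ 4))
    (fun k hk => by
      simp only [mem_range] at hk
      exact E2 (yy_mem hpn k (by omega)) (zz_mem hpn k (by omega)) (zz_rel hpn k (by omega)))
  rw [sum_sub_distrib] at h
  convert h using 1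
  rw [hs_half]
  unfold gs
  simp only [sum_add_distrib, ← mul_sum]
  ring

/-- `o_s = (-1)^s 2^{-s} g_s` mod `p` -/
lemma S_opow (hpn : p = 2 * n + 1) (hn : 0 < n) (s : ℕ) :
    DD' p 1 (os n s - (-1) ^ s * (2⁻¹) ^ s * gs n s) := by
  have h := D_sum (p := p) (m := 1) (range n) (fun k => vv n k ^ s - (-(2⁻¹ * yy ℚ k)) ^ s)
    (fun k hk => by
      simp only [mem_range] at hk
      exact Epow (mul_mem (half_mem hpn hn) (yy_mem hpn k (by omega))) (vv_mem hpn k hk) (vv_rel hpn k hk) s)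
  rw [sum_sub_distrib, ← os_refl] at h
  convert h using 1
  unfold gs
  rw [mul_sum]
  congr 1
  apply sum_congr rfl
  intro k _
  rw [neg_pow (2⁻¹ * yy ℚ k), mul_pow]; ring

/-- `h_s = (1 + (-1)^s) g_s` mod `p` -/
lemma S_hpow (hpn : p = 2 * n + 1) (s : ℕ) :
    DD' p 1 (hs n s - (gs n s + (-1) ^ s * gs n s)) := by
  have h := D_sum (p := p) (m := 1) (range n) (fun k => zz n k ^ s - (-(yy ℚ k)) ^ s)
    (fun k hk => by
      simp only [mem_range] at hk
      exact Epow (yy_mem hpn k (by omega)) (zz_mem hpn k (by omega)) (zz_rel hpn k (by omega)) s)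
  rw [sum_sub_distrib] at h
  convert h using 1
  rw [hs_half]
  unfold gs
  rw [mul_sum]
  have : ∑ k ∈ range n, (-(yy ℚ k)) ^ s = ∑ k ∈ range n, (-1) ^ s * yy ℚ k ^ s :=
    sum_congr rfl (fun k _ => by rw [neg_pow])
  rw [this]
  ring

end

end Pool.Agent.Helper91.SC
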