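import Pool.Agent.Helper91.SCTele2

set_option autoImplicit false

namespace Pool.Agent.Helper91.SC

open Finset

section
variable {K : Type*} [Field K]

/-- `d(N,k+1) = 1/(N (N+k+1) Q_k(N^2))` -/
def dd (K : Type*) [Field K] (N k : ℕ) : K :=
  ((N : K) * ((N : K) + k + 1) * QQ ((N : K) ^ 2) k)⁻¹

lemma dd_step (N k : ℕ) (hk : k < N) (hK : ∀ k : ℕ, 0 < k → k ≤ 2 * (N + 1) → (k : K) ≠ 0) :
    dd K (N + 1) k - dd K N k
      = 2 * (((k : K) + 1) * ((N : K) + 1) * QQ (((N : K) + 1) ^ 2) (k + 1))⁻¹ := by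
  have hr := QQ_ratio (K := K) N k (fun i h h' => hK i h (by omega))
  have hq : QQ (((N : K) + 1) ^ 2) k ≠ 0 := by
    have := QQ_ne (K := K) (N + 1) k (by omega) hK
    rwa [Nat.cast_add, Nat.cast_one] at this
  have h1 : ((N : K) + 1) ≠ 0 := by have := hK (N + 1) (by omega) (by omega); exact_mod_cast this
  have h2 : ((k : K) + 1) ≠ 0 := by have := hK (k + 1) (by omega) (by omega); exact_mod_cast this
  have h3 : ((N : K) - k) ≠ 0 := by
    have := hK (N - k) (by omega) (by omega)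
    rwa [Nat.cast_sub (by omega)] at this
  have h4 : ((N : K) + 1 + k + 1) ≠ 0 := by
    have := hK (N + 1 + k + 1) (by omega) (by omega); exact_mod_cast this
  unfold dd
  have e1 : (N : K) * ((N : K) + k + 1) * QQ ((N : K) ^ 2) k
      = ((N : K) + 1) * ((N : K) - k) * QQ (((N : K) + 1) ^ 2) k := by
    linear_combination -hr
  have e2 : QQ (((N : K) + 1) ^ 2) (k + 1)
      = - (QQ (((N : K) + 1) ^ 2) k * (((N : K) - k) * ((N : K) + 1 + k + 1)) * (((k : K) + 1) ^ 2)⁻¹) := by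
    rw [QQ_succ]
    have e3 : (((k : K) + 1) ^ 2)⁻¹ * ((k : K) + 1) ^ 2 = 1 := by field_simp
    linear_combination (- QQ (((N : K) + 1) ^ 2) k) * e3
  rw [e1, e2]
  push_cast
  set q := QQ (((N : K) + 1) ^ 2) k
  field_simp
  ring

lemma cB_ne (m : ℕ) (hK : ∀ k : ℕ, 0 < k → k ≤ 2 * (m + 1) → (k : K) ≠ 0) :
    (Nat.centralBinom (m + 1) : K) ≠ 0 := by
  have h := QQ_diag (K := K) m hK
  intro h0
  rw [h0, mul_zero] at h
  have h2 : (2 : K) ≠ 0 := by have := hK 2 (by omega) (by omega); exact_mod_cast this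
  have hq := QQ_ne (K := K) (m + 1) m (by omega) hK
  rw [Nat.cast_add, Nat.cast_one] at hq
  exact mul_ne_zero h2 hq h

/-- Apery-type identity for `sum 1/k^3`. -/
lemma K0 (N : ℕ) (hK : ∀ k : ℕ, 0 < k → k ≤ 2 * N → (k : K) ≠ 0) :
    ∑ k ∈ range N, (((k : K) + 1) ^ 3)⁻¹
      = 5 * 2⁻¹ * ∑ k ∈ range N, (-1) ^ k * (((k : K) + 1) ^ 3 * Nat.centralBinom (k + 1))⁻¹
        - ∑ k ∈ range N, (2 * ((k : K) + 1))⁻¹ * dd K N k := by
  induction N with
  | zero => simp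
  | succ N ih =>
    have hK' : ∀ k : ℕ, 0 < k → k ≤ 2 * N → (k : K) ≠ 0 := fun k h h' => hK k h (by omega)
    have ih' := ih hK'
    rw [sum_range_succ, sum_range_succ, sum_range_succ]
    have h1 : ((N : K) + 1) ≠ 0 := by have := hK (N + 1) (by omega) (by omega); exact_mod_cast this
    have h20 : (2 : K) ≠ 0 := by have := hK 2 (by omega) (by omega); exact_mod_cast this
    have hT := QQ_tele ((((N : K) + 1)) ^ 2) N (fun k hk => by
      have := QQ_ne (K := K) (N + 1) k (by omega) hK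
      rwa [Nat.cast_add, Nat.cast_one] at this)
    have hD := QQ_diag (K := K) N hK
    have hc := cB_ne (K := K) N hK
    have hsum : ∑ k ∈ range N, (2 * ((k : K) + 1))⁻¹ * dd K (N + 1) k
        = ∑ k ∈ range N, (2 * ((k : K) + 1))⁻¹ * dd K N k
          + ((N : K) + 1)⁻¹ * ∑ k ∈ range N, ((((k : K) + 1) ^ 2) * QQ (((N : K) + 1) ^ 2) (k + 1))⁻¹ := by
      rw [mul_sum, ← sum_add_distrib]
      apply sum_congr rfl
      intro k hk
      have hk' : k < N := by simpa using hk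
      have h2 : ((k : K) + 1) ≠ 0 := by have := hK (k + 1) (by omega) (by omega); exact_mod_cast this
      have hs := dd_step (K := K) N k hk' hK
      have e : dd K (N + 1) k = dd K N k + 2 * (((k : K) + 1) * ((N : K) + 1) * QQ (((N : K) + 1) ^ 2) (k + 1))⁻¹ := by
        linear_combination hs
      have e2 : (2 : K)⁻¹ * 2 = 1 := inv_mul_cancel₀ h20
      have e3 : (((k : K) + 1) ^ 2)⁻¹ = ((k : K) + 1)⁻¹ * ((k : K) + 1)⁻¹ := by
        rw [pow_two, mul_inv]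
      rw [e, mul_add ((2 * ((k : K) + 1))⁻¹)]
      simp only [mul_inv, e3]
      linear_combination (((k : K) + 1)⁻¹ * (((k : K) + 1)⁻¹ * ((N : K) + 1)⁻¹ * (QQ (((N : K) + 1) ^ 2) (k + 1))⁻¹)) * e2
    rw [hsum, ih']
    set S := ∑ k ∈ range N, ((((k : K) + 1) ^ 2) * QQ (((N : K) + 1) ^ 2) (k + 1))⁻¹ with hS
    have hq : QQ (((N : K) + 1) ^ 2) N = 2⁻¹ * ((-1) ^ N * (Nat.centralBinom (N + 1) : K)) := by
      rw [← hD]; field_simp
    have hS' : S = (((N : K) + 1) ^ 2)⁻¹ * ((QQ (((N : K) + 1) ^ 2) N)⁻¹ - 1) := by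
      rw [hT]; field_simp; ring
    rw [hS']
    unfold dd
    push_cast
    rw [hq]
    have hs : ((-1 : K) ^ N) * (-1) ^ N = 1 := by rw [← mul_pow]; simp
    have hs' : ((-1 : K) ^ N)⁻¹ = (-1) ^ N := by
      rw [inv_eq_of_mul_eq_one_left hs]
    have hsn : ((-1 : K) ^ N) ≠ 0 := pow_ne_zero _ (by simp)
    have h2N : ((N : K) + 1 + N + 1) = 2 * (N + 1) := by ring
    rw [h2N]
    generalize ∑ k ∈ range N, (-1) ^ k * (((k : K) + 1) ^ 3 * Nat.centralBinom (k + 1))⁻¹ = A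
    generalize ∑ k ∈ range N, (2 * ((k : K) + 1))⁻¹ * ((N : K) * ((N : K) + k + 1) * QQ ((N : K) ^ 2) k)⁻¹ = B
    simp only [mul_inv, hs', inv_inv]
    field_simp
    ring

lemma Qquarter (k : ℕ) (h2 : (2 : K) ≠ 0) (h0 : ∀ i : ℕ, 0 < i → i ≤ k → (i : K) ≠ 0) :
    QQ ((4 : K)⁻¹) k * 16 ^ k = (2 * (k : K) + 1) * (Nat.centralBinom k : K) ^ 2 := by
  induction k with
  | zero => simp [QQ_zero]
  | succ k ih =>
    have ih' := ih (fun i h h' => h0 i h (by omega))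
    have hk : ((k : K) + 1) ≠ 0 := by have := h0 (k + 1) (by omega) le_rfl; exact_mod_cast this
    have e := Nat.succ_mul_centralBinom_succ k
    have e' : ((k : K) + 1) * (Nat.centralBinom (k + 1) : K) = 2 * (2 * (k : K) + 1) * (Nat.centralBinom k : K) := by
      exact_mod_cast congrArg (fun n : ℕ => (n : K)) e
    have h4 : (4 : K) ≠ 0 := by
      have : (4 : K) = (2 ^ 2) := by norm_num
      rw [this]; exact (pow_ne_zero _ h2)
    rw [QQ_succ, pow_succ (16 : K) k]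
    apply mul_left_cancel₀ (pow_ne_zero 2 hk)
    have e3 : (((k : K) + 1) ^ 2)⁻¹ * ((k : K) + 1) ^ 2 = 1 := by field_simp
    have e4 : (4 : K)⁻¹ * 4 = 1 := by field_simp
    push_cast
    have e5 : ((k : K) + 1) ^ 2 * (QQ 4⁻¹ k * (1 - 4⁻¹ * (((k : K) + 1) ^ 2)⁻¹) * (16 ^ k * 16))
        = (QQ 4⁻¹ k * 16 ^ k) * (16 * ((k : K) + 1) ^ 2 - 4) := by
      linear_combination (- QQ (4 : K)⁻¹ k * 16 ^ k * 16 * 4⁻¹) * e3 - (QQ (4 : K)⁻¹ k * 16 ^ k * 4) * e4
    rw [e5, ih']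
    linear_combination (-(2 * ((k : K) + 1) + 1) * (((k : K) + 1) * (Nat.centralBinom (k + 1) : K) + 2 * (2 * (k : K) + 1) * (Nat.centralBinom k : K))) * e'

/-- ratio formula in the half-integer variable, `y` arbitrary -/
lemma QQ_ratio2 (y : K) (k : ℕ) (h2 : (2 : K) ≠ 0) (h0 : ∀ i : ℕ, 0 < i → i ≤ k → (i : K) ≠ 0) :
    QQ ((y + 2) ^ 2 * 4⁻¹) k * ((y - 2 * k) * (y + 2)) = QQ (y ^ 2 * 4⁻¹) k * (y * (y + 2 * k + 2)) := by
  have h4 : (4 : K) ≠ 0 := by
    have : (4 : K) = (2 ^ 2) := by norm_num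
    rw [this]; exact (pow_ne_zero _ h2)
  induction k with
  | zero => simp [QQ_zero]
  | succ k ih =>
    have ih' := ih (fun i h h' => h0 i h (by omega))
    have hk : ((k : K) + 1) ≠ 0 := by have := h0 (k + 1) (by omega) le_rfl; exact_mod_cast this
    rw [QQ_succ, QQ_succ]
    have e : (((k : K) + 1) ^ 2)⁻¹ * ((k : K) + 1) ^ 2 = 1 := by field_simp
    have e4 : (4 : K)⁻¹ * 4 = 1 := by field_simp
    have e1 : (1 - (y + 2) ^ 2 * 4⁻¹ * (((k : K) + 1) ^ 2)⁻¹)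
        = (((k : K) + 1) ^ 2)⁻¹ * 4⁻¹ * ((2 * k - y) * (2 * k + 4 + y)) := by
      linear_combination -(4⁻¹ * 4) * e - e4
    have e2 : (1 - y ^ 2 * 4⁻¹ * (((k : K) + 1) ^ 2)⁻¹)
        = (((k : K) + 1) ^ 2)⁻¹ * 4⁻¹ * ((2 * k + 2 - y) * (2 * k + 2 + y)) := by
      linear_combination -(4⁻¹ * 4) * e - e4
    rw [e1, e2]
    push_cast
    set z := (((k : K) + 1) ^ 2)⁻¹
    linear_combination (z * 4⁻¹ * (2 * k + 2 - y) * (2 * k + 4 + y)) * ih'

end

end Pool.Agent.Helper91.SC
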