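import Pool.Agent.Helper91.SCY

set_option autoImplicit false

namespace Pool.Agent.Helper91.SC

open Finset

/-- `V = sum_{k=1}^n 16^k/(k^3 c_k^2)` -/
def VV (K : Type*) [Field K] (n : ℕ) : K :=
  ∑ k ∈ range n, 16 ^ (k + 1) * (((k : K) + 1) ^ 3 * (Nat.centralBinom (k + 1) : K) ^ 2)⁻¹

/-- `T' = sum_{k=1}^n (-1)^k/(k^3 c_k)` -/
def TT (K : Type*) [Field K] (n : ℕ) : K :=
  ∑ k ∈ range n, (-1) ^ (k + 1) * (((k : K) + 1) ^ 3 * (Nat.centralBinom (k + 1) : K))⁻¹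

/-- the partial products `pi_j` -/
def rhop (n j : ℕ) : ℚ := ∏ t ∈ range j, ((2 * ((t : ℚ) + 1) - (2 * n + 1)) * (2 * ((t : ℚ) + 1) + (2 * n + 1))⁻¹)

lemma rhop_inv (n j : ℕ) :
    (∏ t ∈ range j, ((2 * ((t : ℚ) + 1) + (2 * n + 1)) * (2 * ((t : ℚ) + 1) - (2 * n + 1))⁻¹))⁻¹ = rhop n j := by
  unfold rhop
  rw [← prod_inv_distrib]
  apply prod_congr rfl
  intro t _
  rw [mul_inv, inv_inv, mul_comm]

section
variable {K : Type*} [Field K] {n : ℕ}

lemma TV_rel (h0 : (2 * (n : K) + 1) = 0) (hK : ∀ k : ℕ, 0 < k → k ≤ 2 * n → (k : K) ≠ 0) (hn : 0 < n) :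
    ∑ k ∈ range n, yy K k ^ 3 = - (5 * 2⁻¹) * TT K n + 2⁻¹ * VV K n := by
  have h2 : (2 : K) ≠ 0 := by have := hK 2 (by omega) (by omega); exact_mod_cast this
  have h4 : (4 : K) ≠ 0 := by
    have : (4 : K) = 2 ^ 2 := by norm_num
    rw [this]; exact pow_ne_zero _ h2
  have h16 : (16 : K) ≠ 0 := by
    have : (16 : K) = 2 ^ 4 := by norm_num
    rw [this]; exact pow_ne_zero _ h2
  have h := K0 (K := K) n hK
  have e1 : ∑ k ∈ range n, yy K k ^ 3 = ∑ k ∈ range n, (((k : K) + 1) ^ 3)⁻¹ := by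
    apply sum_congr rfl; intro k _; unfold yy; rw [inv_pow]
  have e2 : ∑ k ∈ range n, (-1) ^ k * (((k : K) + 1) ^ 3 * Nat.centralBinom (k + 1))⁻¹ = - TT K n := by
    unfold TT
    rw [← sum_neg_distrib]
    apply sum_congr rfl; intro k _; rw [pow_succ]; ring
  have e3 : ∑ k ∈ range n, (2 * ((k : K) + 1))⁻¹ * dd K n k = - (2⁻¹ * VV K n) := by
    unfold VV
    rw [mul_sum, ← sum_neg_distrib]
    apply sum_congr rfl
    intro k hk
    simp only [mem_range] at hk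
    have hn' : (n : K) = - 2⁻¹ := by field_simp; linear_combination h0
    have hsq : (n : K) ^ 2 = 4⁻¹ := by
      rw [hn']
      have : (4 : K) = 2 * 2 := by norm_num
      rw [this, mul_inv]; ring
    have hQ := Qquarter (K := K) k h2 (fun i h h' => hK i h (by omega))
    have hk1 : ((k : K) + 1) ≠ 0 := by have := hK (k + 1) (by omega) (by omega); exact_mod_cast this
    have hk2 : (2 * (k : K) + 1) ≠ 0 := by have := hK (2 * k + 1) (by omega) (by omega); exact_mod_cast this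
    have hc := cB_ne (K := K) k (fun i h h' => hK i h (by omega))
    have hc' := Nat.succ_mul_centralBinom_succ k
    have hc2 : ((k : K) + 1) * (Nat.centralBinom (k + 1) : K) = 2 * (2 * (k : K) + 1) * (Nat.centralBinom k : K) := by
      exact_mod_cast congrArg (fun n : ℕ => (n : K)) hc'
    have hc0 : (Nat.centralBinom k : K) ≠ 0 := by
      intro h
      rw [h, mul_zero] at hc2
      exact mul_ne_zero hk1 hc hc2
    have h16k : (16 : K) ^ k ≠ 0 := pow_ne_zero _ h16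
    unfold dd
    rw [hsq]
    have hQ' : QQ (4 : K)⁻¹ k = (2 * (k : K) + 1) * (Nat.centralBinom k : K) ^ 2 * (16 ^ k)⁻¹ := by
      rw [← hQ]; field_simp
    rw [hQ']
    have e5 : (n : K) * ((n : K) + k + 1) = - ((2 * (k : K) + 1) * 4⁻¹) := by
      have e6 : (n : K) * ((n : K) + k + 1) = (n : K) ^ 2 + n * ((k : K) + 1) := by ring
      rw [e6, hsq, hn']
      field_simp
      ring
    rw [e5]
    have e7 : (Nat.centralBinom (k + 1) : K) = 2 * (2 * (k : K) + 1) * (Nat.centralBinom k : K) * ((k : K) + 1)⁻¹ := by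
      field_simp; linear_combination hc2
    rw [e7, pow_succ]
    generalize (Nat.centralBinom k : K) = c at *
    have h160 : (16 : K) = 2 * 2 * 2 * 2 := by norm_num
    have h40 : (4 : K) = 2 * 2 := by norm_num
    field_simp
    ring
  rw [e1, h, e2, e3]; ring

end

section
variable {p : ℕ} [hp : Fact p.Prime] {n : ℕ}

lemma odd_plus_mem (hpn : p = 2 * n + 1) (t : ℕ) (ht : t < n) :
    (2 * ((t : ℚ) + 1) + (2 * n + 1))⁻¹ ∈ OO p := by
  have hnd : ¬ p ∣ (2 * (t + 1) + p) := by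
    intro h
    have : p ∣ 2 * (t + 1) := (Nat.dvd_add_left (dvd_refl p)).mp h
    exact absurd (Nat.le_of_dvd (by omega) this) (by omega)
  have h := OO_inv_nat (p := p) _ hnd
  have e : ((2 * (t + 1) + p : ℕ) : ℚ) = (2 * ((t : ℚ) + 1) + (2 * n + 1)) := by
    rw [hpn]; push_cast; ring
  rwa [e] at h

lemma rhop_mem (hpn : p = 2 * n + 1) (j : ℕ) (hj : j ≤ n) : rhop n j ∈ OO p := by
  unfold rhop
  apply prod_mem
  intro t ht
  simp only [mem_range] at ht
  apply mul_mem _ (odd_plus_mem hpn t (by omega))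
  have e : (2 * ((t : ℚ) + 1) - (2 * n + 1)) = ((2 * ((t : ℤ) + 1) - (2 * n + 1) : ℤ) : ℚ) := by push_cast; ring
  rw [e]; exact OO_int _

lemma rhop_D2 (hpn : p = 2 * n + 1) (j : ℕ) (hj : j ≤ n) : DD' p 2 (rhop n j - 1 + p * HH ℚ j) := by
  -- auxiliary mod p
  have aux : ∀ j, j ≤ n → DD' p 1 (rhop n j - 1) ∧ DD' p 2 (rhop n j - 1 + p * HH ℚ j) := by
    intro j
    induction j with
    | zero => intro _; unfold rhop HH; constructor <;> simpa using D_zero _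
    | succ j ih =>
      intro hj
      obtain ⟨ih1, ih2⟩ := ih (by omega)
      have hs : rhop n (j + 1) = rhop n j * ((2 * ((j : ℚ) + 1) - (2 * n + 1)) * (2 * ((j : ℚ) + 1) + (2 * n + 1))⁻¹) := by
        unfold rhop; rw [prod_range_succ]
      have hz := odd_plus_mem hpn j (by omega)
      have hy := yy_mem hpn j (by omega)
      have hyj := yy_mul j
      have hz1 : (2 * ((j : ℚ) + 1) + (2 * n + 1)) * (2 * ((j : ℚ) + 1) + (2 * n + 1))⁻¹ = 1 := by
        apply mul_inv_cancel₀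
        positivity
      have hpq : (p : ℚ) = 2 * n + 1 := by rw [hpn]; push_cast; ring
      rw [← hpq] at hs hz hz1
      set z := (2 * ((j : ℚ) + 1) + (p : ℚ))⁻¹ with hzd
      -- factor = 1 - p y + p^2 y z
      have hf : (2 * ((j : ℚ) + 1) - (p : ℚ)) * z = 1 - p * yy ℚ j + p ^ 2 * (yy ℚ j * z) := by
        linear_combination (1 - p * yy ℚ j) * hz1 + (2 * p * z) * hyj
      have hr := rhop_mem hpn j (by omega)
      rw [hf] at hs
      constructor
      · have e : rhop n (j + 1) - 1 = (rhop n j - 1) - p ^ 1 * (rhop n j * yy ℚ j - p * (rhop n j * (yy ℚ j * z))) := by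
          rw [hs]; ring
        rw [e]
        exact D_sub ih1 (D_pmul (sub_mem (mul_mem hr hy) (mul_mem OO_p (mul_mem hr (mul_mem hy hz)))))
      · have e : rhop n (j + 1) - 1 + p * HH ℚ (j + 1)
            = (rhop n j - 1 + p * HH ℚ j) - yy ℚ j * (p ^ 1 * (rhop n j - 1)) + p ^ 2 * (rhop n j * (yy ℚ j * z)) := by
          rw [hs, HH_succ]; ring
        rw [e]
        exact D_add (D_sub ih2 (D_smul hy ((D_shift (p := p) (k := 1) (m := 1)).mpr ih1)))
          (D_pmul (mul_mem hr (mul_mem hy hz)))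
  exact (aux j hj).2

lemma Q_D2 (hpn : p = 2 * n + 1) (hp5 : 5 < p) (k : ℕ) (hk : k ≤ 2 * n) : DD' p 2 (QQ (Zj n) k - 1) := by
  induction k with
  | zero => rw [QQ_zero, sub_self]; exact D_zero 2
  | succ k ih =>
    have hy := yy_mem hpn k (by omega)
    have h1 := ih (by omega)
    have hQ : QQ (Zj n) k ∈ OO p := by
      have : QQ (Zj n) k = (QQ (Zj n) k - 1) + 1 := by ring
      rw [this]; exact add_mem (D_int h1) (OO p).one_mem
    have e : QQ (Zj n) (k + 1) - 1 = (QQ (Zj n) k - 1) - p ^ 2 * ((1 / 4) * (QQ (Zj n) k * yy ℚ k ^ 2)) := by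
      rw [QQ_succ]
      unfold Zj yy
      rw [hpn]; push_cast; rw [inv_pow]; ring
    rw [e]
    exact D_sub h1 (D_pmul (mul_mem (cst hp5 _ 1 2 0 0 (by norm_num)) (mul_mem hQ (pow_mem hy 2))))

/-- `V = -16 Y` mod `p` -/
lemma V_D (hpn : p = 2 * n + 1) (hp5 : 5 < p)
    (hkap : DD' p 1 (16 ^ n * ((Nat.centralBinom n : ℚ) ^ 2)⁻¹ - 1)) :
    DD' p 1 (VV ℚ n + 16 * ∑ j ∈ range n, xx ℚ j ^ 2 * HH ℚ j) := by
  have h := L0' n
  have hp0 : (p : ℚ) ≠ 0 := pne
  have hpq : (2 * (n : ℚ) + 1) = p := by rw [hpn]; push_cast; ring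
  have hcn : (Nat.centralBinom n : ℚ) ≠ 0 := by exact_mod_cast (Nat.centralBinom_pos n).ne'
  set κ : ℚ := 16 ^ n * ((Nat.centralBinom n : ℚ) ^ 2)⁻¹ with hκ
  -- left side
  have hL : (p : ℚ) * ∑ j ∈ range n, xx ℚ j ^ 3 * (QQ (Zj j) n)⁻¹ = κ * ∑ j ∈ range n, xx ℚ j ^ 2 * rhop n j := by
    rw [mul_sum, mul_sum]
    apply sum_congr rfl
    intro j _
    have hr := Qn_rec n j
    have hQ4 := Qquarter (K := ℚ) n (by norm_num) (fun i h _ => by exact_mod_cast h.ne')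
    have hx : (2 * (j : ℚ) + 1) ≠ 0 := by positivity
    have hq := QQ_odd_ne j n
    have hinv := rhop_inv n j
    set Pj := ∏ t ∈ range j, ((2 * ((t : ℚ) + 1) + (2 * n + 1)) * (2 * ((t : ℚ) + 1) - (2 * n + 1))⁻¹) with hPj
    have e1 : (QQ (Zj j) n)⁻¹ = (2 * (j : ℚ) + 1) * (QQ (4 : ℚ)⁻¹ n)⁻¹ * rhop n j := by
      have : (2 * (j : ℚ) + 1)⁻¹ * (QQ (Zj j) n)⁻¹ = (QQ (4 : ℚ)⁻¹ n)⁻¹ * rhop n j := by
        rw [← mul_inv, hr, mul_inv, hinv]
      rw [mul_assoc, ← this]; field_simp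
    have e2 : (p : ℚ) * (QQ (4 : ℚ)⁻¹ n)⁻¹ = κ := by
      have hQ5 : QQ (4 : ℚ)⁻¹ n = p * (Nat.centralBinom n : ℚ) ^ 2 * (16 ^ n)⁻¹ := by
        rw [← hpq, ← hQ4]; field_simp
      rw [hQ5, hκ]; field_simp
    have e3 : xx ℚ j ^ 3 * (2 * (j : ℚ) + 1) = xx ℚ j ^ 2 := by
      unfold xx; field_simp
    rw [e1]
    linear_combination (xx ℚ j ^ 3 * (2 * (j : ℚ) + 1) * rhop n j) * e2 + κ * rhop n j * e3
  have hκm : κ ∈ OO p := by
    have : κ = (κ - 1) + 1 := by ring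
    rw [this]; exact add_mem (D_int hkap) (OO p).one_mem
  set Y := ∑ j ∈ range n, xx ℚ j ^ 2 * HH ℚ j with hY
  set ρ := ∑ j ∈ range n, xx ℚ j ^ 2 * rhop n j with hρ
  have hρD : DD' p 2 (ρ - os n 2 + p * Y) := by
    have h1 := D_sum (p := p) (m := 2) (range n) (fun j => xx ℚ j ^ 2 * (rhop n j - 1 + p * HH ℚ j))
      (fun j hj => by
        simp only [mem_range] at hj
        exact D_smul (pow_mem (xx_mem hpn j hj) 2) (rhop_D2 hpn j hj.le))
    convert h1 using 1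
    rw [hρ, hY]
    unfold os
    rw [mul_sum, ← sum_sub_distrib, ← sum_add_distrib]
    apply sum_congr rfl; intro j _; ring
  have hYm : Y ∈ OO p := OO_sum _ _ (fun j hj => by
    simp only [mem_range] at hj
    exact mul_mem (pow_mem (xx_mem hpn j hj) 2) (HH_mem hpn j (by omega)))
  have r1 := R9o hpn hp5
  have ho2 : DD' p 1 (os n 2) := by
    have : os n 2 = (os n 2 + 1 / 24 * p * gs n 3) - p ^ 1 * ((1 / 24) * gs n 3) := by ring
    rw [this]
    exact D_sub (D_mono (by omega) r1) (D_pmul (mul_mem (cst hp5 _ 1 3 1 0 (by norm_num)) (gs_mem hpn 3)))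
  have hρ1 : DD' p 1 ρ := by
    have : ρ = (ρ - os n 2 + p * Y) + os n 2 - p ^ 1 * Y := by ring
    rw [this]
    exact D_sub (D_add (D_mono (by omega) hρD) ho2) (D_pmul hYm)
  have hκρ : DD' p 2 ((κ - 1) * ρ) := D_mul hkap hρ1
  -- the last sum
  set R := ∑ k ∈ range n, (((k : ℚ) + 1) * (2 * (n : ℚ) + 1) * (2 * ((k : ℚ) + 1) - (2 * (n : ℚ) + 1)) * QQ (Zj n) k)⁻¹ with hR
  have hRD : DD' p 2 (p * R - (1 / 2 * gs n 2 + 1 / 4 * p * gs n 3)) := by
    have h1 := D_sum (p := p) (m := 2) (range n) (fun k => p * (((k : ℚ) + 1) * (2 * (n : ℚ) + 1) * (2 * ((k : ℚ) + 1) - (2 * (n : ℚ) + 1)) * QQ (Zj n) k)⁻¹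
        - (1 / 2 * yy ℚ k ^ 2 + 1 / 4 * p * yy ℚ k ^ 3))
      (fun k hk => by
        simp only [mem_range] at hk
        have hv := vv_mem hpn k hk
        have hvr := vv_rel hpn k hk
        have hy := yy_mem hpn k (by omega)
        have hQ := Q_D2 hpn hp5 k (by omega)
        have hQn := QQ_odd_ne n k
        have hQi : (QQ (Zj n) k)⁻¹ ∈ OO p := by
          have hRRq : RR p (QQ (Zj n) k) 1 := RR_of_D RR_one (D_mono (by omega) hQ)
          exact (RR_inv hRRq one_ne_zero).1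
        have e1 : p * (((k : ℚ) + 1) * (2 * (n : ℚ) + 1) * (2 * ((k : ℚ) + 1) - (2 * (n : ℚ) + 1)) * QQ (Zj n) k)⁻¹
            = - (yy ℚ k * vv n k * (QQ (Zj n) k)⁻¹) := by
          have e2 : (2 * ((k : ℚ) + 1) - (2 * (n : ℚ) + 1))⁻¹ = - vv n k := by
            unfold vv
            rw [← inv_neg]; congr 1; ring
          rw [mul_inv, mul_inv, mul_inv, e2, hpq]
          unfold yy
          field_simp
        rw [e1]
        have hQi1 : (QQ (Zj n) k)⁻¹ * QQ (Zj n) k = 1 := inv_mul_cancel₀ hQn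
        set q := QQ (Zj n) k
        set v := vv n k
        set y := yy ℚ k
        have e3 : -(y * v * q⁻¹) - (1 / 2 * y ^ 2 + 1 / 4 * p * y ^ 3)
            = (y * v * q⁻¹) * (q - 1) - p ^ 2 * ((1 / 4) * (y ^ 3 * v)) := by
          linear_combination (-(y * v)) * hQi1 + (-y - 1 / 2 * p * y ^ 2) * hvr
        rw [e3]
        exact D_sub (D_smul (mul_mem (mul_mem hy hv) hQi) hQ)
          (D_pmul (mul_mem (cst hp5 _ 1 2 0 0 (by norm_num)) (mul_mem (pow_mem hy 3) hv))))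
    convert h1 using 1
    rw [sum_sub_distrib, ← mul_sum, sum_add_distrib, ← mul_sum, ← mul_sum]
    rfl
  have hV : ∑ k ∈ range n, 16 ^ (k + 1) * (((k : ℚ) + 1) ^ 3 * (Nat.centralBinom (k + 1) : ℚ) ^ 2)⁻¹ = VV ℚ n := rfl
  rw [hV] at h
  have hos : ∑ j ∈ range n, xx ℚ j ^ 3 = os n 3 := rfl
  rw [hos] at h
  have r2 := R9g hpn hp5
  have r3 := (D_shift (p := p) (k := 1) (m := 2)).mpr (R9t hpn hp5)
  have hfin : DD' p (1 + 1) ((p : ℚ) ^ 1 * (VV ℚ n + 16 * Y)) := by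
    have key : (p : ℚ) ^ 1 * (VV ℚ n + 16 * Y)
        = 16 * ((κ - 1) * ρ) + 16 * (ρ - os n 2 + p * Y) + 4 * (p * R - (1 / 2 * gs n 2 + 1 / 4 * p * gs n 3))
          + 16 * (os n 2 + 1 / 24 * p * gs n 3) + 2 * (gs n 2 + 7 / 6 * p * gs n 3)
          - 16 * ((p : ℚ) ^ 1 * (os n 3 + 1 / 8 * gs n 3)) := by
      linear_combination (-4 * p) * h + 16 * hL
    rw [key]
    have c16 : (16 : ℚ) ∈ OO p := by exact_mod_cast OO_nat 16
    have c4 : (4 : ℚ) ∈ OO p := by exact_mod_cast OO_nat 4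
    have c2 : (2 : ℚ) ∈ OO p := by exact_mod_cast OO_nat 2
    exact D_sub (D_add (D_add (D_add (D_add (D_smul c16 hκρ) (D_smul c16 hρD)) (D_smul c4 hRD))
      (D_smul c16 (D_mono (by omega) r1))) (D_smul c2 (D_mono (by omega) r2))) (D_smul c16 (D_mono (by omega) r3))
  exact (D_shift (p := p)).mp hfin

end

end Pool.Agent.Helper91.SC
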