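import Pool.Agent.Helper91.SCZ

set_option autoImplicit false

namespace Pool.Agent.Helper91.SC

open Finset

section
variable {p : ℕ} [hp : Fact p.Prime] {n : ℕ}

/-- `r(m) = 1/m` if `p` does not divide `m`, and `0` otherwise -/
def rr (p : ℕ) (m : ℕ) : ℚ := if p ∣ m then 0 else ((m : ℚ))⁻¹

lemma rr_mul (d : ℕ) (hd : ¬ p ∣ d) (m : ℕ) : rr p (d * m) = (d : ℚ)⁻¹ * rr p m := by
  unfold rr
  by_cases h : p ∣ m
  · rw [if_pos h, if_pos (Dvd.dvd.mul_left h d), mul_zero]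
  · rw [if_neg h, if_neg]
    · push_cast; rw [mul_inv]
    · intro h'
      rcases (hp.out.dvd_mul).mp h' with h1 | h1
      · exact hd h1
      · exact h h1

lemma rr_refl (q : ℕ) (hq : (q : ℕ) = p ^ 5) (i : ℕ) (h0 : 0 < i) (hi : i < q) :
    DD' p 5 (rr p (q - i) + rr p i) := by
  have hpq : p ∣ q := by rw [hq]; exact dvd_pow_self p (by norm_num)
  unfold rr
  by_cases h : p ∣ i
  · rw [if_pos h, if_pos (Nat.dvd_sub hpq h), add_zero]; exact D_zero 5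
  · have h' : ¬ p ∣ (q - i) := by
      intro h1
      apply h
      have := Nat.dvd_sub hpq h1
      rwa [Nat.sub_sub_self hi.le] at this
    rw [if_neg h, if_neg h']
    refine ⟨((q - i : ℕ) : ℚ)⁻¹ * (i : ℚ)⁻¹, mul_mem (OO_inv_nat _ h') (OO_inv_nat _ h), ?_⟩
    have e1 : (i : ℚ) ≠ 0 := by exact_mod_cast h0.ne'
    have e2 : ((q - i : ℕ) : ℚ) ≠ 0 := by
      have : 0 < q - i := by omega
      exact_mod_cast this.ne'
    have e3 : ((q - i : ℕ) : ℚ) + i = (p : ℚ) ^ 5 := by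
      have : (q - i) + i = p ^ 5 := by omega
      exact_mod_cast this
    field_simp
    linear_combination e3

lemma FF_q (hp5 : 5 < p) (q : ℕ) (hq : q = p ^ 5) : DD' p 5 (FF (rr p) q) := by
  have hq0 : 0 < q := by rw [hq]; exact pow_pos hp.out.pos 5
  obtain ⟨Q, rfl⟩ : ∃ Q, q = Q + 1 := ⟨q - 1, by omega⟩
  have hlast : rr p (Q + 1) = 0 := by
    unfold rr; rw [if_pos]; rw [hq]; exact dvd_pow_self p (by norm_num)
  have e1 : FF (rr p) (Q + 1) = ∑ k ∈ range Q, rr p (k + 1) := by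
    unfold FF; rw [sum_range_succ, hlast, add_zero]
  have e2 : 2 * FF (rr p) (Q + 1) = ∑ k ∈ range Q, (rr p (Q + 1 - (k + 1)) + rr p (k + 1)) := by
    rw [e1, sum_add_distrib, two_mul]
    congr 1
    rw [← sum_range_reflect]
    apply sum_congr rfl
    intro k hk
    simp only [mem_range] at hk
    congr 1; omega
  have h2 : (2 : ℚ)⁻¹ ∈ OO p := cst hp5 _ 1 1 0 0 (by norm_num)
  apply D_cancel (a := 2) (by norm_num) h2
  rw [e2]
  apply D_sum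
  intro k hk
  simp only [mem_range] at hk
  exact rr_refl (Q + 1) hq (k + 1) (by omega) (by omega)

lemma Z_rr (hp5 : 5 < p) (N : ℕ) :
    ∑ k ∈ range N, ((c6 ((k : ℤ) + 1) : ℤ) : ℚ) * rr p (k + 1)
      = FF (rr p) N - FF (rr p) (N / 2) - FF (rr p) (N / 3) + FF (rr p) (N / 6) := by
  have h6 : ¬ p ∣ 6 := by
    intro h
    have := Nat.le_of_dvd (by omega) h
    have : p = 6 := by omega
    subst this
    exact absurd hp.out (by norm_num)
  rw [Z_form]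
  have g : ∀ d, 0 < d → ¬ p ∣ d → (d : ℚ) * ∑ i ∈ range (N / d), rr p (d * (i + 1)) = FF (rr p) (N / d) := by
    intro d hd0 hd
    unfold FF
    rw [mul_sum]
    apply sum_congr rfl
    intro i _
    rw [rr_mul d hd]
    have : (d : ℚ) ≠ 0 := by exact_mod_cast hd0.ne'
    field_simp
  have g2 := g 2 (by omega) (not_dvd_small 2 (by omega) (by omega))
  have g3 := g 3 (by omega) (not_dvd_small 3 (by omega) (by omega))
  have g6 := g 6 (by omega) h6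
  push_cast at g2 g3 g6
  rw [g2, g3, g6]

lemma Zq (hp5 : 5 < p) (q : ℕ) (hq : q = p ^ 5) :
    DD' p 5 (∑ k ∈ range q, ((c6 ((k : ℤ) + 1) : ℤ) : ℚ) * rr p (k + 1)) := by
  obtain ⟨hp2, hp3⟩ := p_mod (p := p) hp5
  have hq2 : q % 2 = 1 := by rw [hq, Nat.pow_mod, hp2]
  have hq3 : q % 3 ≠ 0 := by
    intro h
    have h3 : 3 ∣ p ^ 5 := by rw [← hq]; exact Nat.dvd_of_mod_eq_zero h
    exact hp3 (Nat.mod_eq_zero_of_dvd ((Nat.Prime.prime Nat.prime_three).dvd_of_dvd_pow h3))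
  have hpar := parity (p := p) 5 q (rr p) (((2 : ℕ) : ℚ)⁻¹) hq2 hq3
    (fun i => rr_mul 2 (not_dvd_small 2 (by omega) (by omega)) i) (rr_refl q hq)
  rw [Z_rr hp5]
  have h1 := FF_q hp5 q hq
  have key : FF (rr p) q - FF (rr p) (q / 2) - FF (rr p) (q / 3) + FF (rr p) (q / 6)
      = FF (rr p) q - 2 * (FF (rr p) (q / 3) - ((2 : ℕ) : ℚ)⁻¹ * FF (rr p) (q / 6)
        + ((2 : ℕ) : ℚ)⁻¹ * (FF (rr p) (q / 2) - FF (rr p) (q / 3))) := by
    push_cast; ring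
  rw [key]
  exact D_sub h1 (D_smul (cst hp5 _ 2 0 0 0 (by norm_num)) hpar)

lemma blk_mem (b t : ℕ) (ht : 0 < t) (htp : t < p) : ((b * p + t : ℕ) : ℚ)⁻¹ ∈ OO p := by
  apply OO_inv_nat
  intro h
  have : p ∣ t := (Nat.dvd_add_right (Dvd.intro_left b rfl)).mp h
  exact absurd (Nat.le_of_dvd ht this) (by omega)

/-- block sums modulo `p^5` -/
lemma block (hpn : p = 2 * n + 1) (hp5 : 5 < p) (b : ℕ) :
    DD' p 5 (∑ k ∈ range (2 * n), ((b * p + (k + 1) : ℕ) : ℚ)⁻¹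
      - ((1 + 2 * b) * hs n 1 - p ^ 3 * hs n 4 * (1 / 2 * b + 3 / 2 * b ^ 2 + b ^ 3))) := by
  have hb : (b : ℚ) ∈ OO p := OO_nat b
  have h := D_sum (p := p) (m := 5) (range (2 * n))
    (fun k => ((b * p + (k + 1) : ℕ) : ℚ)⁻¹ - (yy ℚ k - b * p * yy ℚ k ^ 2 + b ^ 2 * p ^ 2 * yy ℚ k ^ 3
      - b ^ 3 * p ^ 3 * yy ℚ k ^ 4 + b ^ 4 * p ^ 4 * yy ℚ k ^ 5))
    (fun k hk => by
      simp only [mem_range] at hk
      have hz := blk_mem (p := p) b (k + 1) (by omega) (by omega)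
      have hy := yy_mem hpn k hk
      have hrel : ((b * p + (k + 1) : ℕ) : ℚ)⁻¹ - yy ℚ k = - (b * p * yy ℚ k * ((b * p + (k + 1) : ℕ) : ℚ)⁻¹) := by
        have h1 : ((k : ℚ) + 1) ≠ 0 := by positivity
        have h2 : ((b : ℚ) * p + (k + 1)) ≠ 0 := by positivity
        unfold yy
        push_cast
        field_simp
        ring
      set z := ((b * p + (k + 1) : ℕ) : ℚ)⁻¹
      set y := yy ℚ k
      refine ⟨-(b ^ 5 * y ^ 5 * z), neg_mem (mul_mem (mul_mem (pow_mem hb 5) (pow_mem hy 5)) hz), ?_⟩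
      linear_combination (1 - b * p * y + b ^ 2 * p ^ 2 * y ^ 2 - b ^ 3 * p ^ 3 * y ^ 3 + b ^ 4 * p ^ 4 * y ^ 4) * hrel)
  have e : ∑ k ∈ range (2 * n), (((b * p + (k + 1) : ℕ) : ℚ)⁻¹ - (yy ℚ k - b * p * yy ℚ k ^ 2 + b ^ 2 * p ^ 2 * yy ℚ k ^ 3
      - b ^ 3 * p ^ 3 * yy ℚ k ^ 4 + b ^ 4 * p ^ 4 * yy ℚ k ^ 5))
      = ∑ k ∈ range (2 * n), ((b * p + (k + 1) : ℕ) : ℚ)⁻¹ - (hs n 1 - b * p * hs n 2 + b ^ 2 * p ^ 2 * hs n 3
        - b ^ 3 * p ^ 3 * hs n 4 + b ^ 4 * p ^ 4 * hs n 5) := by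
    rw [sum_sub_distrib]
    congr 1
    simp only [sum_add_distrib, sum_sub_distrib, ← mul_sum]
    unfold hs
    simp only [pow_one]
  rw [e] at h
  have r7 := R7 hpn hp5
  have r7' := R7' hpn hp5
  have h5 := (D_shift (p := p) (k := 4) (m := 1)).mpr (S_hodd hpn (by omega) 5 (by decide))
  set B := ∑ k ∈ range (2 * n), ((b * p + (k + 1) : ℕ) : ℚ)⁻¹
  have key : B - ((1 + 2 * b) * hs n 1 - p ^ 3 * hs n 4 * (1 / 2 * b + 3 / 2 * b ^ 2 + b ^ 3))
      = (B - (hs n 1 - b * p * hs n 2 + b ^ 2 * p ^ 2 * hs n 3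
        - b ^ 3 * p ^ 3 * hs n 4 + b ^ 4 * p ^ 4 * hs n 5))
        - b * (p * hs n 2 + 2 * hs n 1 - 1 / 2 * p ^ 3 * hs n 4)
        + b ^ 2 * (p ^ 2 * hs n 3 + 3 / 2 * p ^ 3 * hs n 4) + b ^ 4 * (p ^ 4 * hs n 5) := by ring
  rw [key]
  exact D_add (D_add (D_sub h (D_smul hb r7)) (D_smul (pow_mem hb 2) r7')) (D_smul (pow_mem hb 4) h5)

/-- `F(Lp) = L^2 h_1 + (L^2 - L^4) p^3 h_4/4` mod `p^5` -/
lemma FF_blocks (hpn : p = 2 * n + 1) (hp5 : 5 < p) (L : ℕ) :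
    DD' p 5 (FF (rr p) (L * p) - (L ^ 2 * hs n 1 + ((L : ℚ) ^ 2 - L ^ 4) * (1 / 4 * p ^ 3 * hs n 4))) := by
  induction L with
  | zero => unfold FF; simpa using D_zero 5
  | succ L ih =>
    have e1 : FF (rr p) ((L + 1) * p) = FF (rr p) (L * p) + ∑ k ∈ range (2 * n), ((L * p + (k + 1) : ℕ) : ℚ)⁻¹ := by
      unfold FF
      have : (L + 1) * p = L * p + (2 * n + 1) := by rw [← hpn]; ring
      rw [this, sum_range_add, sum_range_succ (fun k => rr p (L * p + k + 1))]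
      have h0 : rr p (L * p + 2 * n + 1) = 0 := by
        unfold rr
        rw [if_pos]
        have : L * p + 2 * n + 1 = (L + 1) * p := by rw [this]; ring
        rw [this]; exact Dvd.intro_left _ rfl
      rw [h0, add_zero]
      congr 1
      apply sum_congr rfl
      intro k hk
      simp only [mem_range] at hk
      unfold rr
      rw [if_neg]
      · rfl
      · intro h
        have : p ∣ (k + 1) := by
          have e : L * p + k + 1 = L * p + (k + 1) := by ring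
          rw [e] at h
          exact (Nat.dvd_add_right (Dvd.intro_left L rfl)).mp h
        exact absurd (Nat.le_of_dvd (by omega) this) (by omega)
    rw [e1]
    have hb := block hpn hp5 L
    set B := ∑ k ∈ range (2 * n), ((L * p + (k + 1) : ℕ) : ℚ)⁻¹
    have key : FF (rr p) (L * p) + B - (((L + 1 : ℕ) : ℚ) ^ 2 * hs n 1 + (((L + 1 : ℕ) : ℚ) ^ 2 - ((L + 1 : ℕ) : ℚ) ^ 4) * (1 / 4 * p ^ 3 * hs n 4))
        = (FF (rr p) (L * p) - (L ^ 2 * hs n 1 + ((L : ℚ) ^ 2 - L ^ 4) * (1 / 4 * p ^ 3 * hs n 4)))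
          + (B - ((1 + 2 * L) * hs n 1 - p ^ 3 * hs n 4 * (1 / 2 * L + 3 / 2 * L ^ 2 + L ^ 3))) := by
      push_cast; ring
    rw [key]
    exact D_add ih hb

/-- `W' = sum_{i=1}^{p-1} C(i)/(p-i)` -/
def Wp (n : ℕ) : ℚ := ∑ k ∈ range (2 * n), ((c6 ((k : ℤ) + 1) : ℤ) : ℚ) * zz n k

lemma Wp_D (hpn : p = 2 * n + 1) (hp5 : 5 < p) :
    DD' p 5 (Wp n - (2 / 3 * hs n 1 - 7 / 108 * p ^ 3 * hs n 4)) := by
  obtain ⟨hp2, hp3⟩ := p_mod (p := p) hp5
  obtain ⟨M, hM⟩ : ∃ M, p ^ 4 = 6 * M + 1 := by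
    have h6 : p ^ 4 % 6 = 1 := by
      have h : p % 6 = 1 ∨ p % 6 = 5 := by omega
      rcases h with h | h <;> simp [Nat.pow_mod, h]
    exact ⟨p ^ 4 / 6, by omega⟩
  have hq : (6 * M + 1) * p = p ^ 5 := by rw [← hM]; ring
  have hZ := Zq hp5 ((6 * M + 1) * p) hq
  have e0 : (6 * M + 1) * p = 6 * M * p + (2 * n + 1) := by rw [← hpn]; ring
  -- split off the last block
  have e1 : ∑ k ∈ range ((6 * M + 1) * p), ((c6 ((k : ℤ) + 1) : ℤ) : ℚ) * rr p (k + 1)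
      = ∑ k ∈ range (6 * M * p), ((c6 ((k : ℤ) + 1) : ℤ) : ℚ) * rr p (k + 1)
        + ∑ k ∈ range (2 * n), ((c6 ((k : ℤ) + 1) : ℤ) : ℚ) * ((6 * M * p + (k + 1) : ℕ) : ℚ)⁻¹ := by
    rw [e0, sum_range_add, sum_range_succ (fun k => ((c6 (((6 * M * p + k : ℕ) : ℤ) + 1) : ℤ) : ℚ) * rr p (6 * M * p + k + 1))]
    have h0 : rr p (6 * M * p + 2 * n + 1) = 0 := by
      unfold rr
      rw [if_pos]
      have : 6 * M * p + 2 * n + 1 = (6 * M + 1) * p := by rw [e0]; ring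
      rw [this]; exact Dvd.intro_left _ rfl
    rw [h0, mul_zero, add_zero]
    congr 1
    apply sum_congr rfl
    intro k hk
    simp only [mem_range] at hk
    have hc : c6 (((6 * M * p + k : ℕ) : ℤ) + 1) = c6 ((k : ℤ) + 1) := by
      apply c6_congr
      push_cast
      have : (6 * (M : ℤ) * p + k + 1) = (k + 1) + 6 * (M * p) := by ring
      rw [this, Int.add_mul_emod_self_left]
    rw [hc]
    congr 1
    unfold rr
    rw [if_neg]
    · rfl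
    · intro h
      have : p ∣ (k + 1) := by
        have e : 6 * M * p + k + 1 = 6 * M * p + (k + 1) := by ring
        rw [e] at h
        exact (Nat.dvd_add_right (Dvd.intro_left (6 * M) rfl)).mp h
      exact absurd (Nat.le_of_dvd (by omega) this) (by omega)
  rw [e1] at hZ
  -- last block is `-W'` mod `p^5`
  have hlast : DD' p 5 (∑ k ∈ range (2 * n), ((c6 ((k : ℤ) + 1) : ℤ) : ℚ) * ((6 * M * p + (k + 1) : ℕ) : ℚ)⁻¹ + Wp n) := by
    unfold Wp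
    rw [← sum_add_distrib]
    apply D_sum
    intro k hk
    simp only [mem_range] at hk
    rw [← mul_add]
    apply D_smul (OO_int _)
    have hz1 := blk_mem (p := p) (6 * M) (k + 1) (by omega) (by omega)
    have hz2 := zz_mem hpn k hk
    refine ⟨zz n k * ((6 * M * p + (k + 1) : ℕ) : ℚ)⁻¹, mul_mem hz2 hz1, ?_⟩
    have h1 : ((6 * M * p + (k + 1) : ℕ) : ℚ) ≠ 0 := by positivity
    have h2 : ((2 * n + 1 : ℚ) - (k + 1)) ≠ 0 := by
      have : ((k : ℚ)) < 2 * n := by exact_mod_cast hk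
      have : (0 : ℚ) < ((2 * n + 1 : ℚ) - (k + 1)) := by linarith
      exact this.ne'
    unfold zz
    have h3 : ((6 * M * p + (k + 1) : ℕ) : ℚ) + ((2 * n + 1 : ℚ) - (k + 1)) = (p : ℚ) ^ 5 := by
      have hqq : ((6 * (M : ℚ) + 1) * p) = (p : ℚ) ^ 5 := by exact_mod_cast hq
      have hpq : (p : ℚ) = 2 * n + 1 := by rw [hpn]; push_cast; ring
      push_cast
      rw [← hpq]
      linear_combination hqq
    field_simp
    linear_combination h3
  -- Z(6 M p)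
  have hZL : DD' p 5 (∑ k ∈ range (6 * M * p), ((c6 ((k : ℤ) + 1) : ℤ) : ℚ) * rr p (k + 1)
      - (24 * M ^ 2 * hs n 1 + (24 * (M : ℚ) ^ 2 - 1200 * M ^ 4) * (1 / 4 * p ^ 3 * hs n 4))) := by
    rw [Z_rr hp5]
    have a2 : 6 * M * p / 2 = (3 * M) * p := by
      have : 6 * M * p = 2 * (3 * M * p) := by ring
      rw [this, Nat.mul_div_cancel_left _ (by omega)]
    have a3 : 6 * M * p / 3 = (2 * M) * p := by
      have : 6 * M * p = 3 * (2 * M * p) := by ring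
      rw [this, Nat.mul_div_cancel_left _ (by omega)]
    have a6 : 6 * M * p / 6 = M * p := by
      have : 6 * M * p = 6 * (M * p) := by ring
      rw [this, Nat.mul_div_cancel_left _ (by omega)]
    rw [a2, a3, a6]
    have b1 := FF_blocks hpn hp5 (6 * M)
    have b2 := FF_blocks hpn hp5 (3 * M)
    have b3 := FF_blocks hpn hp5 (2 * M)
    have b6 := FF_blocks hpn hp5 M
    have := D_add (D_sub (D_sub b1 b2) b3) b6
    convert this using 1
    push_cast; ring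
  have hh1 : hs n 1 ∈ OO p := hs_mem hpn 1
  have hh4 : hs n 4 ∈ OO p := hs_mem hpn 4
  have hMq : (M : ℚ) ∈ OO p := OO_nat M
  have hMp : (6 * (M : ℚ) + 1) = (p : ℚ) ^ 4 := by exact_mod_cast hM.symm
  have hh1D : DD' p 1 (hs n 1) := S_hodd hpn (by omega) 1 (by decide)
  -- replace M
  have hrep : DD' p 5 ((24 * M ^ 2 * hs n 1 + (24 * (M : ℚ) ^ 2 - 1200 * M ^ 4) * (1 / 4 * p ^ 3 * hs n 4))
      - (2 / 3 * hs n 1 - 7 / 108 * p ^ 3 * hs n 4)) := by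
    have hM' : (M : ℚ) = ((p : ℚ) ^ 4 - 1) / 6 := by linarith
    have g1 : DD' p 5 ((p : ℚ) ^ 4 * hs n 1) := (D_shift (p := p) (k := 4) (m := 1)).mpr hh1D
    have g2 : DD' p 5 ((p : ℚ) ^ 5 * (p ^ 2 * hs n 4)) := D_pmul (mul_mem (pow_mem OO_p 2) hh4)
    have key : (24 * M ^ 2 * hs n 1 + (24 * (M : ℚ) ^ 2 - 1200 * M ^ 4) * (1 / 4 * p ^ 3 * hs n 4))
          - (2 / 3 * hs n 1 - 7 / 108 * p ^ 3 * hs n 4)
        = (2 / 3 * (p ^ 4 - 2)) * ((p : ℚ) ^ 4 * hs n 1)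
          + (1 / 6 * (p ^ 4 - 2) - 25 / 108 * (p ^ 12 - 4 * p ^ 8 + 6 * p ^ 4 - 4)) * ((p : ℚ) ^ 5 * (p ^ 2 * hs n 4)) := by
      rw [hM']; ring
    rw [key]
    have hP := OO_p (p := p)
    have c1 : (2 / 3 : ℚ) ∈ OO p := cst hp5 _ 2 0 1 0 (by norm_num)
    have c2 : (1 / 6 : ℚ) ∈ OO p := cst hp5 _ 1 1 1 0 (by norm_num)
    have c3 : (25 / 108 : ℚ) ∈ OO p := cst hp5 _ 25 2 3 0 (by norm_num)
    have c4 : (2 : ℚ) ∈ OO p := cst hp5 _ 2 0 0 0 (by norm_num)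
    have c5 : (4 : ℚ) ∈ OO p := cst hp5 _ 4 0 0 0 (by norm_num)
    have c6 : (6 : ℚ) ∈ OO p := cst hp5 _ 6 0 0 0 (by norm_num)
    exact D_add (D_smul (mul_mem c1 (sub_mem (pow_mem hP 4) c4)) g1)
      (D_smul (sub_mem (mul_mem c2 (sub_mem (pow_mem hP 4) c4))
        (mul_mem c3 (sub_mem (add_mem (sub_mem (pow_mem hP 12) (mul_mem c5 (pow_mem hP 8))) (mul_mem c6 (pow_mem hP 4))) c5))) g2)
  set ZL := ∑ k ∈ range (6 * M * p), ((c6 ((k : ℤ) + 1) : ℤ) : ℚ) * rr p (k + 1)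
  set LB := ∑ k ∈ range (2 * n), ((c6 ((k : ℤ) + 1) : ℤ) : ℚ) * ((6 * M * p + (k + 1) : ℕ) : ℚ)⁻¹
  have := D_add (D_add (D_sub hlast hZ) hZL) hrep
  convert this using 1
  ring

end

end Pool.Agent.Helper91.SC
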