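import Pool.Agent.Helper91.SCFour

set_option autoImplicit false

namespace Pool.Agent.Helper91.SC

open Finset

section
variable {K : Type*} [Field K] {n : ℕ}

lemma yK_refl (h0 : (2 * (n : K) + 1) = 0) (k : ℕ) (hk : k < 2 * n) : yy K (2 * n - 1 - k) = - yy K k := by
  unfold yy
  rw [← inv_neg]
  congr 1
  have : ((2 * n - 1 - k : ℕ) : K) = 2 * n - 1 - k := by
    rw [Nat.cast_sub (by omega), Nat.cast_sub (by omega)]; push_cast; ring
  rw [this]
  linear_combination h0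

lemma yK_even (j : ℕ) : yy K (2 * j + 1) = 2⁻¹ * yy K j := by
  unfold yy; push_cast
  rw [← mul_inv]; congr 1; ring

lemma yK_odd (j : ℕ) : yy K (2 * j) = xx K j := by
  unfold yy xx; push_cast; rfl

/-- reflection of prefix sums -/
lemma HK_refl (h0 : (2 * (n : K) + 1) = 0) (h2 : (2 : K) ≠ 0) (k : ℕ) (hk : k ≤ 2 * n) :
    HH K (2 * n - k) = HH K k := by
  have hA : HH K (2 * n) = 0 := by
    have e : HH K (2 * n) = - HH K (2 * n) := by
      unfold HH
      rw [← sum_neg_distrib]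
      conv_lhs => rw [← sum_range_reflect]
      apply sum_congr rfl
      intro k hk
      simp only [mem_range] at hk
      exact yK_refl h0 k hk
    have : 2 * HH K (2 * n) = 0 := by linear_combination e
    rcases mul_eq_zero.mp this with h | h
    · exact absurd h h2
    · exact h
  have hB : HH K (2 * n) = HH K (2 * n - k) - HH K k := by
    have e1 : HH K (2 * n) = HH K (2 * n - k) + ∑ u ∈ range k, yy K (2 * n - k + u) := by
      unfold HH
      have : 2 * n = (2 * n - k) + k := by omega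
      conv_lhs => rw [this]
      rw [sum_range_add]
    rw [e1, ← sum_range_reflect, sub_eq_add_neg]
    congr 1
    unfold HH
    rw [← sum_neg_distrib]
    apply sum_congr rfl
    intro u hu
    simp only [mem_range] at hu
    rw [← yK_refl h0 u (by omega)]
    congr 1
    omega
  rw [hA] at hB
  linear_combination -hB

/-- `sum_{t<m} x_t` -/
def o1 (K : Type*) [Field K] (m : ℕ) : K := ∑ t ∈ range m, xx K t

lemma HK_even (j : ℕ) : HH K (2 * j) = o1 K j + 2⁻¹ * HH K j := by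
  unfold HH o1
  rw [sum_even_odd, mul_sum]
  congr 1
  · apply sum_congr rfl; intro j _; rw [yK_odd]
  · apply sum_congr rfl; intro j _; rw [yK_even]

/-- relation between `Y`, `H(1,2)` and `g_3`. -/
lemma Y_rel (h0 : (2 * (n : K) + 1) = 0) (h2 : (2 : K) ≠ 0)
    (hg2 : ∑ k ∈ range n, yy K k ^ 2 = 0) :
    ∑ j ∈ range n, xx K j ^ 2 * HH K j = 7 * 8⁻¹ * ∑ k ∈ range (2 * n), HH K k * yy K k ^ 2 := by
  have h8 : (8 : K) ≠ 0 := by
    have : (8 : K) = 2 ^ 3 := by norm_num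
    rw [this]; exact pow_ne_zero _ h2
  -- (i)
  have i1 : ∑ k ∈ range (2 * n), HH K k * yy K k ^ 2
      = 2 * ∑ k ∈ range n, HH K (k + 1) * yy K k ^ 2 - ∑ k ∈ range n, yy K k ^ 3 := by
    rw [sum_half]
    have e : ∑ k ∈ range n, HH K (2 * n - 1 - k) * yy K (2 * n - 1 - k) ^ 2
        = ∑ k ∈ range n, HH K (k + 1) * yy K k ^ 2 := by
      apply sum_congr rfl
      intro k hk
      simp only [mem_range] at hk
      rw [yK_refl h0 k (by omega), show 2 * n - 1 - k = 2 * n - (k + 1) by omega, HK_refl h0 h2 (k + 1) (by omega)]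
      ring
    have e2 : ∑ k ∈ range n, HH K k * yy K k ^ 2
        = ∑ k ∈ range n, HH K (k + 1) * yy K k ^ 2 - ∑ k ∈ range n, yy K k ^ 3 := by
      rw [← sum_sub_distrib]
      apply sum_congr rfl
      intro k _
      rw [HH_succ]; ring
    rw [e, e2]; ring
  -- (ii)
  have i2 : ∑ k ∈ range (2 * n), HH K k * yy K k ^ 2
      = 2⁻¹ * ∑ j ∈ range n, o1 K (j + 1) * yy K j ^ 2 + 4⁻¹ * ∑ k ∈ range n, HH K (k + 1) * yy K k ^ 2
        - 8⁻¹ * ∑ k ∈ range n, yy K k ^ 3 := by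
    rw [sum_even_odd]
    have e : ∑ j ∈ range n, HH K (2 * j) * yy K (2 * j) ^ 2
        = ∑ j ∈ range n, HH K (2 * (j + 1)) * yy K (2 * j + 1) ^ 2 := by
      rw [← sum_range_reflect]
      apply sum_congr rfl
      intro j hj
      simp only [mem_range] at hj
      have a1 : 2 * (n - 1 - j) = 2 * n - 1 - (2 * j + 1) := by omega
      rw [a1, yK_refl h0 (2 * j + 1) (by omega)]
      have a2 : 2 * n - 1 - (2 * j + 1) = 2 * n - (2 * (j + 1)) := by omega
      rw [a2, HK_refl h0 h2 (2 * (j + 1)) (by omega)]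
      ring
    rw [e, ← sum_add_distrib, mul_sum, mul_sum, mul_sum, ← sum_add_distrib, ← sum_sub_distrib]
    apply sum_congr rfl
    intro j _
    have a3 : HH K (2 * (j + 1)) = HH K (2 * j + 1) + yy K (2 * j + 1) := by
      rw [show 2 * (j + 1) = 2 * j + 1 + 1 by ring, HH_succ]
    have a4 := HK_even (K := K) (j + 1)
    have a5 : HH K (2 * j + 1) = o1 K (j + 1) + 2⁻¹ * HH K (j + 1) - 2⁻¹ * yy K j := by
      rw [← yK_even]; linear_combination a4 - a3
    rw [a5, a4, yK_even]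
    have b2 : (2 : K)⁻¹ * 2 = 1 := inv_mul_cancel₀ h2
    have b4 : (4 : K)⁻¹ = 2⁻¹ * 2⁻¹ := by rw [← mul_inv]; norm_num
    have b8 : (8 : K)⁻¹ = 2⁻¹ * 2⁻¹ * 2⁻¹ := by rw [← mul_inv, ← mul_inv]; norm_num
    rw [b4, b8]
    linear_combination (2⁻¹ * o1 K (j + 1) * yy K j ^ 2 + 2⁻¹ * 2⁻¹ * HH K (j + 1) * yy K j ^ 2) * b2
  -- (iii)
  have i3 : ∑ j ∈ range n, xx K j ^ 2 * HH K j = 2⁻¹ * ∑ j ∈ range n, o1 K (j + 1) * yy K j ^ 2 := by
    rw [← sum_range_reflect]
    have e : ∀ j ∈ range n, xx K (n - 1 - j) ^ 2 * HH K (n - 1 - j)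
        = 2⁻¹ * (o1 K (j + 1) * yy K j ^ 2) - 2⁻¹ * o1 K n * yy K j ^ 2 := by
      intro j hj
      simp only [mem_range] at hj
      have a1 : xx K (n - 1 - j) = - (2⁻¹ * yy K j) := by
        rw [← yK_odd, show 2 * (n - 1 - j) = 2 * n - 1 - (2 * j + 1) by omega, yK_refl h0 (2 * j + 1) (by omega), yK_even]
      have a2 : HH K (n - 1 - j) = -2 * (o1 K n - o1 K (j + 1)) := by
        have c1 : o1 K n = o1 K (j + 1) + ∑ t ∈ range (n - 1 - j), xx K (j + 1 + t) := by
          unfold o1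
          have : n = (j + 1) + (n - 1 - j) := by omega
          conv_lhs => rw [this]
          rw [sum_range_add]
        rw [c1, add_sub_cancel_left, ← sum_range_reflect, mul_sum]
        unfold HH
        apply sum_congr rfl
        intro t ht
        simp only [mem_range] at ht
        rw [← yK_odd, show 2 * (j + 1 + (n - 1 - j - 1 - t)) = 2 * n - 1 - (2 * t + 1) by omega,
          yK_refl h0 (2 * t + 1) (by omega), yK_even]
        have b2 : (2 : K)⁻¹ * 2 = 1 := inv_mul_cancel₀ h2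
        linear_combination - yy K t * b2
      rw [a1, a2]
      have b2 : (2 : K)⁻¹ * 2 = 1 := inv_mul_cancel₀ h2
      linear_combination (2⁻¹ * yy K j ^ 2 * (o1 K (j + 1) - o1 K n)) * b2
    rw [sum_congr rfl e, sum_sub_distrib, ← mul_sum, ← mul_sum, hg2, mul_zero, sub_zero]
  rw [i3]
  set W := ∑ k ∈ range n, HH K (k + 1) * yy K k ^ 2
  set O := ∑ j ∈ range n, o1 K (j + 1) * yy K j ^ 2
  set G := ∑ k ∈ range n, yy K k ^ 3
  set H := ∑ k ∈ range (2 * n), HH K k * yy K k ^ 2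
  have b8 : (8 : K)⁻¹ * 8 = 1 := inv_mul_cancel₀ h8
  have b2 : (2 : K)⁻¹ * 2 = 1 := inv_mul_cancel₀ h2
  have b4 : (4 : K)⁻¹ = 2⁻¹ * 2⁻¹ := by rw [← mul_inv]; norm_num
  have b8' : (8 : K)⁻¹ = 2⁻¹ * 2⁻¹ * 2⁻¹ := by rw [← mul_inv, ← mul_inv]; norm_num
  rw [b4, b8'] at i2
  rw [b8']
  rw [b8'] at b8
  linear_combination -i2 + (2⁻¹ * 2⁻¹ * 2⁻¹) * i1 - H * b8 + (2⁻¹ * 2⁻¹ * W) * b2

end

end Pool.Agent.Helper91.SC
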