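import Pool.Agent.Helper91.SCRho

set_option autoImplicit false

namespace Pool.Agent.Helper91.SC

open Finset

section
variable {K : Type*} [Field K]

/-- power series version of `P_j` -/
noncomputable def PS (K : Type*) [Field K] (j : ℕ) : PowerSeries K :=
  PP (fun i => algebraMap K (PowerSeries K) (cc K i)) PowerSeries.X j

lemma algC (a : K) : algebraMap K (PowerSeries K) a = PowerSeries.C a := rfl

lemma PS_succ (j : ℕ) : PS K (j + 1) = PS K j * (1 - PowerSeries.C (cc K j) * PowerSeries.X) := PP_succ _ _ _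

lemma PS_step (j k : ℕ) : PowerSeries.coeff (k + 1) (PS K (j + 1))
    = PowerSeries.coeff (k + 1) (PS K j) - cc K j * PowerSeries.coeff k (PS K j) := by
  rw [PS_succ, mul_sub, mul_one, map_sub]
  have : PS K j * (PowerSeries.C (cc K j) * PowerSeries.X) = PowerSeries.C (cc K j) * (PS K j * PowerSeries.X) := by ring
  rw [this, PowerSeries.coeff_C_mul, PowerSeries.coeff_succ_mul_X]

lemma PS_c0 (j : ℕ) : PowerSeries.coeff 0 (PS K j) = 1 := by
  induction j with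
  | zero => simp [PS, PP_zero]
  | succ j ih => rw [PS_succ, mul_sub, mul_one, map_sub, ih]; simp

lemma PS_c1 (j : ℕ) : PowerSeries.coeff 1 (PS K j) = - OJ K j := by
  induction j with
  | zero => simp [PS, PP_zero, OJ, PowerSeries.coeff_one]
  | succ j ih => rw [PS_step j 0, ih, OJ_succ, PS_c0]; ring

lemma PS_c2 (j : ℕ) : PowerSeries.coeff 2 (PS K j) = ee K j := by
  induction j with
  | zero => simp [PS, PP_zero, ee, PowerSeries.coeff_one]
  | succ j ih => rw [PS_step j 1, ih, ee_succ, PS_c1]; ring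

/-- geometric series -/
noncomputable def IS (K : Type*) [Field K] (j : ℕ) : PowerSeries K := PowerSeries.mk (fun i => cc K j ^ i)

lemma IS_mul (j : ℕ) : (1 - PowerSeries.C (cc K j) * PowerSeries.X) * IS K j = 1 := by
  have e : (1 - PowerSeries.C (cc K j) * PowerSeries.X) * IS K j
      = IS K j - PowerSeries.C (cc K j) * (IS K j * PowerSeries.X) := by ring
  rw [e]
  ext i
  rw [map_sub, PowerSeries.coeff_C_mul]
  cases i with
  | zero => simp [IS]
  | succ i =>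
    rw [PowerSeries.coeff_succ_mul_X]
    unfold IS
    rw [PowerSeries.coeff_mk, PowerSeries.coeff_mk, PowerSeries.coeff_one, if_neg (by omega), pow_succ]
    ring

lemma coeff2 (a : K) (j : ℕ) : PowerSeries.coeff 2 (PowerSeries.C a * PS K j * IS K j)
    = a * (cc K j ^ 2 - OJ K j * cc K j + ee K j) := by
  rw [mul_assoc, PowerSeries.coeff_C_mul, PowerSeries.coeff_mul]
  have : Finset.HasAntidiagonal.antidiagonal 2 = ({(0, 2), (1, 1), (2, 0)} : Finset (ℕ × ℕ)) := by rfl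
  rw [this]
  rw [sum_insert (by decide), sum_insert (by decide), sum_singleton]
  simp only []
  rw [PS_c0, PS_c1, PS_c2]
  unfold IS
  rw [PowerSeries.coeff_mk, PowerSeries.coeff_mk, PowerSeries.coeff_mk]
  ring

/-- second coefficient of the main identity -/
lemma mainI_c2 (N : ℕ) (hK : ∀ k : ℕ, 0 < k → k ≤ 2 * N → (k : K) ≠ 0) :
    ∑ j ∈ range N, uu K j * xx K j * (cc K j ^ 2 - OJ K j * cc K j + ee K j)
      - 4⁻¹ * ∑ j ∈ range N, uu K j * xx K j * ee K j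
      = ∑ j ∈ range N, (-1) ^ j * xx K j * cc K j ^ 2 + (-1) ^ N * ∑ j ∈ range N, ee K j * bb K N j := by
  have h := mainI (K := K) (R := PowerSeries K) N hK PowerSeries.X (IS K) (fun j _ => IS_mul j)
  have h2 := congrArg (PowerSeries.coeff (R := K) 2) h
  simp only [algC] at h2
  rw [map_sub, map_add, map_sum, PowerSeries.coeff_C_mul, PowerSeries.coeff_C_mul, map_sum, map_sum, map_sum] at h2
  have e1 : ∀ j ∈ range N, PowerSeries.coeff 2 (PowerSeries.C (uu K j * xx K j) * PP (fun i => PowerSeries.C (cc K i)) PowerSeries.X j * IS K j)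
      = uu K j * xx K j * (cc K j ^ 2 - OJ K j * cc K j + ee K j) := fun j _ => coeff2 (uu K j * xx K j) j
  have e2 : ∀ j ∈ range N, PowerSeries.coeff 2 (PowerSeries.C (uu K j * xx K j) * PP (fun i => PowerSeries.C (cc K i)) PowerSeries.X j)
      = uu K j * xx K j * ee K j := by
    intro j _
    rw [PowerSeries.coeff_C_mul]
    congr 1
    exact PS_c2 j
  have e3 : ∀ j ∈ range N, PowerSeries.coeff 2 (PowerSeries.C ((-1) ^ j * xx K j) * IS K j)
      = (-1) ^ j * xx K j * cc K j ^ 2 := by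
    intro j _
    rw [PowerSeries.coeff_C_mul]
    unfold IS
    rw [PowerSeries.coeff_mk]
  have e4 : ∀ j ∈ range N, PowerSeries.coeff 2 (PP (fun i => PowerSeries.C (cc K i)) PowerSeries.X j * PowerSeries.C (bb K N j))
      = ee K j * bb K N j := by
    intro j _
    rw [mul_comm, PowerSeries.coeff_C_mul, mul_comm]
    congr 1
    exact PS_c2 j
  rw [sum_congr rfl e1, sum_congr rfl e2, sum_congr rfl e3, sum_congr rfl e4] at h2
  exact h2

end

section
variable {p : ℕ} [hp : Fact p.Prime] {n : ℕ}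

lemma bbF (hpn : p = 2 * n + 1) (j : ℕ) (hj : j < n) : bb (ZMod p) n j = - (2⁻¹ * xx (ZMod p) j) := by
  have h0 := h0F hpn
  have h2 : (2 : ZMod p) ≠ 0 := by have := hF hpn 2 (by omega) (by omega); exact_mod_cast this
  have hX : XN (ZMod p) n = 0 := by unfold XN; rw [h0]; ring
  unfold bb xx
  rw [hX]
  have hP : PP (cc (ZMod p)) 0 j = 1 := by unfold PP; simp
  rw [hP, mul_one, ← mul_inv, ← inv_neg]
  congr 1
  linear_combination 2 * h0

/-- values in terms of `g_5` -/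
lemma YF (hpn : p = 2 * n + 1) (hp5 : 5 < p) :
    (∑ j ∈ range n, uu (ZMod p) j * xx (ZMod p) j * ee (ZMod p) j) * 5184
        = - (5 * (-1) ^ n * ∑ k ∈ range n, yy (ZMod p) k ^ 5) ∧
    (∑ j ∈ range n, uu (ZMod p) j * xx (ZMod p) j * (cc (ZMod p) j ^ 2 - OJ (ZMod p) j * cc (ZMod p) j)) * 216
        = (-1) ^ n * ∑ k ∈ range n, yy (ZMod p) k ^ 5 := by
  have h2 : (2 : ZMod p) ≠ 0 := by have := hF hpn 2 (by omega) (by omega); exact_mod_cast this
  have h3 : (3 : ZMod p) ≠ 0 := by have := hF hpn 3 (by omega) (by omega); exact_mod_cast this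
  have b2 : (2 : ZMod p)⁻¹ * 2 = 1 := inv_mul_cancel₀ h2
  -- c5
  have hc5 : (∑ k ∈ range (2 * n), ((c6 ((k : ℤ) + 1) : ℤ) : ZMod p) * yy (ZMod p) k ^ 5) * 324
      = - (5 * ∑ k ∈ range n, yy (ZMod p) k ^ 5) := by
    have h := c5_D hpn hp5
    have hr1 : RR p (∑ k ∈ range (2 * n), ((c6 ((k : ℤ) + 1) : ℤ) : ℚ) * yy ℚ k ^ 5)
        (∑ k ∈ range (2 * n), ((c6 ((k : ℤ) + 1) : ℤ) : ZMod p) * yy (ZMod p) k ^ 5) := by
      apply RR_sum
      intro k hk
      simp only [mem_range] at hk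
      exact RR_mul (RR_int _) (RR_pow (RR_yy hpn k hk) 5)
    have hr2 := RR_gs hpn 5
    have h' := D_smul (p := p) (cst hp5 324 324 0 0 0 (by norm_num)) h
    have h5 : RR p (5 : ℚ) 5 := by exact_mod_cast RR_nat (p := p) 5
    have h324 : RR p (324 : ℚ) 324 := by exact_mod_cast RR_nat (p := p) 324
    have e := RR_add (RR_mul h324 hr1) (RR_mul h5 hr2)
    have e2 := RR_D_iff.mpr h'
    have e3 : 324 * (∑ k ∈ range (2 * n), ((c6 ((k : ℤ) + 1) : ℤ) : ℚ) * yy ℚ k ^ 5 + 5 / 324 * gs n 5)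
        = 324 * (∑ k ∈ range (2 * n), ((c6 ((k : ℤ) + 1) : ℤ) : ℚ) * yy ℚ k ^ 5) + 5 * gs n 5 := by ring
    rw [e3] at e2
    have e4 := e.2.symm.trans e2.2
    linear_combination e4
  have hG := G2_c5 hpn hp5
  have hZ := Z5_val hpn hp5
  have hR := rho2 hpn hp5
  have hA := alpha5 hpn hp5
  have hM := mainI_c2 (K := ZMod p) n (hF hpn)
  have e1 : ∑ j ∈ range n, ee (ZMod p) j * bb (ZMod p) n j = - (2⁻¹ * ∑ j ∈ range n, xx (ZMod p) j * ee (ZMod p) j) := by
    rw [mul_sum, ← sum_neg_distrib]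
    apply sum_congr rfl
    intro j hj
    simp only [mem_range] at hj
    rw [bbF hpn j hj]; ring
  have e2 : ∑ j ∈ range n, (-1) ^ j * xx (ZMod p) j * cc (ZMod p) j ^ 2 = ∑ j ∈ range n, (-1) ^ j * xx (ZMod p) j ^ 5 := by
    apply sum_congr rfl
    intro j _
    unfold cc; ring
  have e3 : ∑ j ∈ range n, uu (ZMod p) j * xx (ZMod p) j * (cc (ZMod p) j ^ 2 - OJ (ZMod p) j * cc (ZMod p) j + ee (ZMod p) j)
      = ∑ j ∈ range n, uu (ZMod p) j * xx (ZMod p) j * (cc (ZMod p) j ^ 2 - OJ (ZMod p) j * cc (ZMod p) j)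
        + ∑ j ∈ range n, uu (ZMod p) j * xx (ZMod p) j * ee (ZMod p) j := by
    rw [← sum_add_distrib]
    apply sum_congr rfl
    intro j _
    ring
  rw [e1, e2, e3, hA, hR, hZ] at hM
  rw [hG] at hM ⊢
  set c5 := ∑ k ∈ range (2 * n), ((c6 ((k : ℤ) + 1) : ℤ) : ZMod p) * yy (ZMod p) k ^ 5
  set g5 := ∑ k ∈ range n, yy (ZMod p) k ^ 5
  set Y := ∑ j ∈ range n, uu (ZMod p) j * xx (ZMod p) j * (cc (ZMod p) j ^ 2 - OJ (ZMod p) j * cc (ZMod p) j)
  set s := (-1 : ZMod p) ^ n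
  have h4 : (4 : ZMod p)⁻¹ = 2⁻¹ * 2⁻¹ := by rw [← mul_inv]; norm_num
  rw [h4] at hM
  have hk : ∀ k : ℕ, (2 : ZMod p)⁻¹ ^ k * 2 ^ k = 1 := by
    intro k; rw [← mul_pow, b2, one_pow]
  constructor
  · have := hk 4
    linear_combination (s * 324) * c5 * this + s * hc5
  · -- multiply by 2^12
    have h212 : (2 : ZMod p) ^ 12 ≠ 0 := pow_ne_zero _ h2
    have k4 := hk 4
    have k6 := hk 6
    have k10 := hk 10
    have k2 := hk 2
    have k12 := hk 12
    have h81 : (3 : ZMod p) ^ 4 ≠ 0 := pow_ne_zero _ h3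
    have key : 2 ^ 12 * (3 : ZMod p) ^ 4 * (Y * 216) = 2 ^ 12 * 3 ^ 4 * (s * g5) := by
      have m1 : Y = -(s * 2⁻¹ ^ 4 * c5) + 2⁻¹ * 2⁻¹ * (s * 2⁻¹ ^ 4 * c5) + s * 2⁻¹ ^ 6 * (-2⁻¹ ^ 4 * g5)
          + s * -(2⁻¹ * (5 * 2⁻¹ ^ 5 * (-2⁻¹ ^ 4 * g5))) := by linear_combination hM
      have m2 : 2 ^ 12 * Y = - (2 ^ 8 * s * c5) + 2 ^ 6 * s * c5 - 2 ^ 2 * s * g5 + 5 * 2 ^ 2 * s * g5 := by
        rw [m1]
        have q4 : (2 : ZMod p) ^ 12 * 2⁻¹ ^ 4 = 2 ^ 8 := by linear_combination 2 ^ 8 * k4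
        have q6 : (2 : ZMod p) ^ 12 * 2⁻¹ ^ 6 = 2 ^ 6 := by linear_combination 2 ^ 6 * k6
        have q10 : (2 : ZMod p) ^ 12 * 2⁻¹ ^ 10 = 2 ^ 2 := by linear_combination 2 ^ 2 * k10
        linear_combination (-(s * c5)) * q4 + (s * c5) * q6 + (-(s * g5) + 5 * s * g5) * q10
      have m3 : 324 * (2 ^ 12 * Y) = 324 * (16 * s * g5) - (2 ^ 8 - 2 ^ 6) * s * (c5 * 324) := by
        rw [m2]; ring
      rw [hc5] at m3
      linear_combination (54) * m3
    have h5 : (2 : ZMod p) ^ 12 * 3 ^ 4 ≠ 0 := mul_ne_zero h212 h81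
    exact mul_left_cancel₀ h5 key

end

end Pool.Agent.Helper91.SC
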