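import Pool.Agent.Helper91.SCExp

set_option autoImplicit false

namespace Pool.Agent.Helper91.SC

open Finset

/-- prefix sums `sum_{m=1}^N r(m)` -/
def FF (r : ℕ → ℚ) (N : ℕ) : ℚ := ∑ k ∈ range N, r (k + 1)

lemma mult_sum (d : ℕ) (g : ℕ → ℚ) (N : ℕ) :
    ∑ k ∈ range N, (if d ∣ k + 1 then g (k + 1) else 0) = ∑ i ∈ range (N / d), g (d * (i + 1)) := by
  induction N with
  | zero => simp
  | succ N ih =>
    rw [sum_range_succ, ih, Nat.succ_div]
    split_ifs with h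
    · rw [sum_range_succ]
      congr 2
      obtain ⟨m, hm⟩ := h
      have hd : 0 < d := Nat.pos_of_ne_zero (by rintro rfl; simp at hm)
      have hm0 : 0 < m := Nat.pos_of_ne_zero (by rintro rfl; simp at hm)
      have h1 : N / d = m - 1 := by
        have e : N = d * (m - 1) + (d - 1) := by
          obtain ⟨m', rfl⟩ := Nat.exists_eq_add_of_lt hm0
          obtain ⟨d', rfl⟩ := Nat.exists_eq_add_of_lt hd
          simp only [zero_add, Nat.add_sub_cancel] at *
          have : N + 1 = (d' + 1) * m' + d' + 1 := by rw [hm]; ring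
          omega
        rw [e, Nat.mul_add_div hd, Nat.div_eq_of_lt (by omega)]
        simp
      rw [h1, Nat.sub_add_cancel hm0, hm]
    · simp

lemma c6_form (k : ℕ) : ((c6 ((k : ℤ) + 1) : ℤ) : ℚ)
    = 1 - (if 2 ∣ k + 1 then 2 else 0) - (if 3 ∣ k + 1 then 3 else 0) + (if 6 ∣ k + 1 then 6 else 0) := by
  have h : (k + 1) % 6 = 0 ∨ (k + 1) % 6 = 1 ∨ (k + 1) % 6 = 2 ∨ (k + 1) % 6 = 3 ∨ (k + 1) % 6 = 4 ∨ (k + 1) % 6 = 5 := by omega
  rcases h with h | h | h | h | h | h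
  · rw [c6_congr (show ((k : ℤ) + 1) % 6 = (0 : ℤ) % 6 by omega), if_pos (by omega), if_pos (by omega), if_pos (by omega)]
    norm_num [c6]
  · rw [c6_congr (show ((k : ℤ) + 1) % 6 = (1 : ℤ) % 6 by omega), if_neg (by omega), if_neg (by omega), if_neg (by omega)]
    norm_num [c6]
  · rw [c6_congr (show ((k : ℤ) + 1) % 6 = (2 : ℤ) % 6 by omega), if_pos (by omega), if_neg (by omega), if_neg (by omega)]
    norm_num [c6]
  · rw [c6_congr (show ((k : ℤ) + 1) % 6 = (3 : ℤ) % 6 by omega), if_neg (by omega), if_pos (by omega), if_neg (by omega)]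
    norm_num [c6]
  · rw [c6_congr (show ((k : ℤ) + 1) % 6 = (4 : ℤ) % 6 by omega), if_pos (by omega), if_neg (by omega), if_neg (by omega)]
    norm_num [c6]
  · rw [c6_congr (show ((k : ℤ) + 1) % 6 = (5 : ℤ) % 6 by omega), if_neg (by omega), if_neg (by omega), if_neg (by omega)]
    norm_num [c6]

lemma Z_form (r : ℕ → ℚ) (N : ℕ) :
    ∑ k ∈ range N, ((c6 ((k : ℤ) + 1) : ℤ) : ℚ) * r (k + 1)
      = FF r N - 2 * ∑ i ∈ range (N / 2), r (2 * (i + 1)) - 3 * ∑ i ∈ range (N / 3), r (3 * (i + 1))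
        + 6 * ∑ i ∈ range (N / 6), r (6 * (i + 1)) := by
  rw [← mult_sum 2 r N, ← mult_sum 3 r N, ← mult_sum 6 r N]
  unfold FF
  rw [mul_sum, mul_sum, mul_sum, ← sum_sub_distrib, ← sum_sub_distrib, ← sum_add_distrib]
  apply sum_congr rfl
  intro k _
  rw [c6_form]
  split_ifs <;> ring

section
variable {p : ℕ} [hp : Fact p.Prime] {n : ℕ}

/-- parity argument -/
lemma parity (m : ℕ) (q : ℕ) (r : ℕ → ℚ) (a : ℚ) (hq2 : q % 2 = 1) (hq3 : q % 3 ≠ 0)
    (h2 : ∀ i, r (2 * i) = a * r i) (hr : ∀ i, 0 < i → i < q → DD' p m (r (q - i) + r i)) :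
    DD' p m (FF r (q / 3) - a * FF r (q / 6) + a * (FF r (q / 2) - FF r (q / 3))) := by
  have hcase : q % 6 = 1 ∨ q % 6 = 5 := by omega
  -- the tail sum
  have tail : ∀ (u w v : ℕ), w = u + v → FF r w - FF r u = ∑ i ∈ range v, r (u + i + 1) := by
    intro u w v hw
    unfold FF
    rw [hw, sum_range_add]
    ring
  rcases hcase with h | h
  · obtain ⟨v, hv⟩ : ∃ v, q = 6 * v + 1 := ⟨q / 6, by omega⟩
    have e3 : q / 3 = 2 * v := by omega
    have e6 : q / 6 = v := by omega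
    have e2 : q / 2 = 2 * v + v := by omega
    rw [e3, e6, e2, tail (2 * v) (2 * v + v) v rfl]
    have s1 : FF r (2 * v) = ∑ j ∈ range v, r (2 * j + 1) + a * FF r v := by
      unfold FF
      rw [sum_even_odd, mul_sum]
      congr 1
      apply sum_congr rfl
      intro j _
      rw [← h2]; congr 1
    have s2 : a * ∑ i ∈ range v, r (2 * v + i + 1) = ∑ j ∈ range v, r (q - (2 * j + 1)) := by
      rw [mul_sum, ← sum_range_reflect]
      apply sum_congr rfl
      intro j hj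
      simp only [mem_range] at hj
      rw [← h2]
      congr 1; omega
    rw [s2]
    have key : FF r (2 * v) - a * FF r v + ∑ j ∈ range v, r (q - (2 * j + 1))
        = ∑ j ∈ range v, (r (q - (2 * j + 1)) + r (2 * j + 1)) := by
      rw [sum_add_distrib, s1]; ring
    rw [key]
    apply D_sum
    intro j hj
    simp only [mem_range] at hj
    exact hr _ (by omega) (by omega)
  · obtain ⟨v, hv⟩ : ∃ v, q = 6 * v + 5 := ⟨q / 6, by omega⟩
    have e3 : q / 3 = 2 * v + 1 := by omega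
    have e6 : q / 6 = v := by omega
    have e2 : q / 2 = 2 * v + 1 + (v + 1) := by omega
    rw [e3, e6, e2, tail (2 * v + 1) (2 * v + 1 + (v + 1)) (v + 1) rfl]
    have s1 : FF r (2 * v + 1) = ∑ j ∈ range (v + 1), r (2 * j + 1) + a * FF r v := by
      unfold FF
      rw [sum_range_succ, sum_even_odd, mul_sum, sum_range_succ (fun j => r (2 * j + 1))]
      have : ∑ j ∈ range v, r (2 * j + 1 + 1) = ∑ i ∈ range v, a * r (i + 1) := by
        apply sum_congr rfl
        intro j _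
        rw [← h2]; congr 1
      rw [this]; ring
    have s2 : a * ∑ i ∈ range (v + 1), r (2 * v + 1 + i + 1) = ∑ j ∈ range (v + 1), r (q - (2 * j + 1)) := by
      rw [mul_sum, ← sum_range_reflect]
      apply sum_congr rfl
      intro j hj
      simp only [mem_range] at hj
      rw [← h2]
      congr 1; omega
    rw [s2]
    have key : FF r (2 * v + 1) - a * FF r v + ∑ j ∈ range (v + 1), r (q - (2 * j + 1))
        = ∑ j ∈ range (v + 1), (r (q - (2 * j + 1)) + r (2 * j + 1)) := by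
      rw [sum_add_distrib, s1]; ring
    rw [key]
    apply D_sum
    intro j hj
    simp only [mem_range] at hj
    exact hr _ (by omega) (by omega)

lemma p_mod (hp5 : 5 < p) : p % 2 = 1 ∧ p % 3 ≠ 0 := by
  constructor
  · rcases hp.out.eq_two_or_odd with h | h
    · omega
    · exact h
  · intro h
    have : 3 ∣ p := Nat.dvd_of_mod_eq_zero h
    rcases (Nat.dvd_prime hp.out).mp this with h | h <;> omega

/-- `sum_{k<p} C(k)/k^5 = -(5/324) g_5` mod `p` -/
lemma c5_D (hpn : p = 2 * n + 1) (hp5 : 5 < p) :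
    DD' p 1 (∑ k ∈ range (2 * n), ((c6 ((k : ℤ) + 1) : ℤ) : ℚ) * yy ℚ k ^ 5 + 5 / 324 * gs n 5) := by
  obtain ⟨hp2, hp3⟩ := p_mod (p := p) hp5
  set r : ℕ → ℚ := fun m => ((m : ℚ)⁻¹) ^ 5 with hr
  have hy : ∀ k, r (k + 1) = yy ℚ k ^ 5 := by
    intro k; rw [hr]; simp only []; unfold yy; push_cast; rfl
  have hm : ∀ d i : ℕ, r (d * i) = ((d : ℚ)⁻¹) ^ 5 * r i := by
    intro d i; rw [hr]; simp only []; push_cast; rw [mul_inv, mul_pow]
  have hZ := Z_form r (2 * n)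
  have hpar := parity (p := p) 1 p r (((2 : ℕ) : ℚ)⁻¹ ^ 5) hp2 hp3 (fun i => hm 2 i)
    (fun i h0 hi => by
      obtain ⟨k, rfl⟩ : ∃ k, i = k + 1 := ⟨i - 1, by omega⟩
      have e : p - (k + 1) = (2 * n - 1 - k) + 1 := by omega
      rw [e, hy, hy, ← zz_eq n k (by omega)]
      have := Epow (yy_mem hpn k (by omega)) (zz_mem hpn k (by omega)) (zz_rel hpn k (by omega)) 5
      convert this using 1; ring)
  have e1 : ∑ k ∈ range (2 * n), ((c6 ((k : ℤ) + 1) : ℤ) : ℚ) * yy ℚ k ^ 5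
      = ∑ k ∈ range (2 * n), ((c6 ((k : ℤ) + 1) : ℤ) : ℚ) * r (k + 1) :=
    sum_congr rfl (fun k _ => by rw [hy])
  have f1 : FF r (2 * n) = hs n 5 := sum_congr rfl (fun k _ => hy k)
  have f2 : FF r (p / 2) = gs n 5 := by
    have : p / 2 = n := by omega
    rw [this]; exact sum_congr rfl (fun k _ => hy k)
  have f3 : FF r (p / 3) = AA p := sum_congr rfl (fun k _ => hy k)
  have g2 : ∑ i ∈ range (2 * n / 2), r (2 * (i + 1)) = ((2 : ℕ) : ℚ)⁻¹ ^ 5 * gs n 5 := by
    rw [← f2]; unfold FF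
    have : 2 * n / 2 = p / 2 := by omega
    rw [this, mul_sum]; exact sum_congr rfl (fun i _ => hm 2 _)
  have g3 : ∑ i ∈ range (2 * n / 3), r (3 * (i + 1)) = ((3 : ℕ) : ℚ)⁻¹ ^ 5 * AA p := by
    rw [← f3]; unfold FF
    have : 2 * n / 3 = p / 3 := by omega
    rw [this, mul_sum]; exact sum_congr rfl (fun i _ => hm 3 _)
  have g6 : ∑ i ∈ range (2 * n / 6), r (6 * (i + 1)) = ((6 : ℕ) : ℚ)⁻¹ ^ 5 * FF r (p / 6) := by
    unfold FF
    have : 2 * n / 6 = p / 6 := by omega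
    rw [this, mul_sum]; exact sum_congr rfl (fun i _ => hm 6 _)
  rw [e1, hZ, f1, g2, g3, g6]
  rw [f2, f3] at hpar
  have hodd := S_hodd hpn (by omega) 5 (by decide)
  have h65 := R65 hpn hp5
  have key : hs n 5 - 2 * (((2 : ℕ) : ℚ)⁻¹ ^ 5 * gs n 5) - 3 * (((3 : ℕ) : ℚ)⁻¹ ^ 5 * AA p)
        + 6 * (((6 : ℕ) : ℚ)⁻¹ ^ 5 * FF r (p / 6)) + 5 / 324 * gs n 5
      = hs n 5 - (2 / 81) * (AA p - ((2 : ℕ) : ℚ)⁻¹ ^ 5 * FF r (p / 6) + ((2 : ℕ) : ℚ)⁻¹ ^ 5 * (gs n 5 - AA p))
        + (5 / 432) * (AA p - 4 * gs n 5) := by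
    push_cast; ring
  rw [key]
  exact D_add (D_sub hodd (D_smul (cst hp5 _ 2 0 4 0 (by norm_num)) hpar)) (D_smul (cst hp5 _ 5 4 3 0 (by norm_num)) h65)

end

end Pool.Agent.Helper91.SC
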