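import Pool.Agent.Helper91.Dich.Width
import Pool.Agent.Helper34.XTW.Upper

/-!
# MP_4ed1f9_lc: for every monotone 2-CNF of bounded degree the size of XOR programs is exponential
in the tree-width, and not more
-/

namespace Pool.Agent.Results.MP_4ed1f9_lc.TreewidthLaw

open Pool.Agent.Dichotomy Pool.Agent.Helper97.Pendant

theorem result (D : ℕ) : ∃ c : ℝ, 0 < c ∧ ∀ (V : Type) (_ : Fintype V) (G : SimpleGraph V),
    (∀ v, (G.neighborSet v).ncard ≤ D) →
    (∃ (m : ℕ) (rk : Fin m → ℕ) (M : Fin m → Set (V → ZMod 2)),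
      m ≤ 2 ^ (treewidth G + 1) * (4 * Fintype.card V + 2) + 1 ∧ IsProg rk 0 M ∧
        ∃ v, M v = VC G) ∧
    ∀ (g : Type) (_ : Fintype g) (rk : g → ℕ) (W : ℕ) (M : g → Set (V → ZMod 2)),
      IsProg rk W M → ∀ v, M v ⊆ VC G →
        (2 : ℝ) ^ (c * treewidth G) * (M v).ncard ≤
          2 * (Fintype.card g + W) ^ 3 * (VC G).ncard := by
  classical
  obtain ⟨c, hc, h⟩ := hard_width D
  refine ⟨c, hc, fun V _ G hD => ⟨?_, h V inferInstance G hD⟩⟩
  obtain ⟨m, rk, M, i, hm, hM, hi⟩ := Pool.Agent.Helper34.XTW.upper_treewidth G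
  exact ⟨m, rk, M, hm, hM, i, hi⟩

end Pool.Agent.Results.MP_4ed1f9_lc.TreewidthLaw
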